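import Pool.Agent.Lib.MP_99bfa4_al.IR.Haar

/-! Coordinates and left Haar measure on the Borel subgroup. -/

open Matrix MeasureTheory Filter
open scoped ContDiff Topology InnerProductSpace ComplexConjugate

namespace Pool.Agent.Lib.MP_99bfa4_al.IR

/-- Coordinates on the group AN. -/
noncomputable def bb (p : ℝ × ℝ × ℝ) : X := nil p.1 p.2.1 * one 2 p.2.2

/-- The left Haar measure in these coordinates. -/
noncomputable def wt : Measure (ℝ × ℝ × ℝ) :=
  volume.withDensity fun p => ENNReal.ofReal (Real.exp (-2 * p.2.2))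

lemma an_continuous_nil : Continuous fun p : ℝ × ℝ × ℝ => nil p.1 p.2.1 := by
  refine (continuous_L ?_).subtype_mk _
  change Continuous fun p : ℝ × ℝ × ℝ => nilM p.1 p.2.1
  refine continuous_matrix fun i j => ?_
  fin_cases i <;> fin_cases j <;> simp [nilM] <;> fun_prop

theorem continuous_bb : Continuous bb :=
  an_continuous_nil.mul ((continuous_one 2).comp (continuous_snd.comp continuous_snd))

lemma an_comm (s a b : ℝ) :
    one 2 s * nil a b = nil (Real.exp s * a) (Real.exp s * b) * one 2 s := by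
  refine Subtype.ext (mat_inj ?_)
  change mat (one 2 s).val * mat (nil a b).val = mat (nil _ _).val * mat (one 2 s).val
  rw [mat_one', mat_nil, mat_nil]
  have h := (Real.exp_pos s).ne'
  ext i j
  fin_cases i <;> fin_cases j <;>
    simp [sn, cn, bas, nilM, Matrix.mul_apply, Fin.sum_univ_four, one_apply, Real.cosh_eq,
      Real.sinh_eq, Real.exp_neg] <;> field_simp <;> ring

theorem bb_mul (q p : ℝ × ℝ × ℝ) : bb q * bb p =
    bb (q.1 + Real.exp q.2.2 * p.1, q.2.1 + Real.exp q.2.2 * p.2.1, q.2.2 + p.2.2) := by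
  simp only [bb]
  rw [nil_add, one_add, mul_assoc, ← mul_assoc (one 2 q.2.2), an_comm]
  simp only [mul_assoc]

lemma an_meas : Measurable fun p : ℝ × ℝ × ℝ => ENNReal.ofReal (Real.exp (-2 * p.2.2)) := by
  fun_prop

theorem wt_pos : wt.IsOpenPosMeasure :=
  (withDensity_absolutelyContinuous' an_meas.aemeasurable (Eventually.of_forall fun _ =>
    (ENNReal.ofReal_pos.2 (Real.exp_pos _)).ne')).isOpenPosMeasure

theorem wt_sigma : SigmaFinite wt := by
  unfold wt
  infer_instance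

lemma an_dens {S : ℝ × ℝ × ℝ → ℝ × ℝ × ℝ} (hS : MeasurePreserving S volume volume)
    {f g : ℝ × ℝ × ℝ → ENNReal} (hg : Measurable g) (e : ∀ p, f p = g (S p)) :
    MeasurePreserving S (volume.withDensity f) (volume.withDensity g) :=
  ⟨hS.measurable, Measure.ext fun s hs => by
    rw [Measure.map_apply hS.measurable hs, withDensity_apply _ (hS.measurable hs),
      withDensity_apply _ hs, ← hS.setLIntegral_comp_preimage hs hg]
    simp only [e]⟩

lemma an_shear {β : Type} [MeasureSpace β] [SFinite (volume : Measure β)] {φ : β → ℝ}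
    (hφ : Measurable φ) :
    MeasurePreserving (fun p : ℝ × β => (p.1 + φ p.2, p.2)) volume volume := by
  have h := (MeasurePreserving.id (volume : Measure β)).skew_product
    (g := fun q (x : ℝ) => x + φ q) (μc := volume) (μd := volume)
    (measurable_snd.add (hφ.comp measurable_fst))
    (Eventually.of_forall fun q => map_add_right_eq_self volume (φ q))
  exact (Measure.measurePreserving_swap.comp h).comp Measure.measurePreserving_swap

theorem wt_nil (a b : ℝ) : MeasurePreserving (fun p : ℝ × ℝ × ℝ =>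
    (p.1 + Real.exp p.2.2 * a, p.2.1 + Real.exp p.2.2 * b, p.2.2)) wt wt := by
  have h1 := an_shear (β := ℝ × ℝ) (φ := fun q => Real.exp q.2 * a) (by fun_prop)
  have h2 := (MeasurePreserving.id (volume : Measure ℝ)).prod
    (an_shear (β := ℝ) (φ := fun s => Real.exp s * b) (by fun_prop))
  exact an_dens (h1.comp h2) an_meas fun _ => rfl

theorem wt_boost (r : ℝ) : MeasurePreserving (fun p : ℝ × ℝ × ℝ => (p.1, p.2.1, p.2.2 + r)) wt
    (ENNReal.ofReal (Real.exp (2 * r)) • wt) := by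
  have h := (MeasurePreserving.id (volume : Measure ℝ)).prod
    ((MeasurePreserving.id (volume : Measure ℝ)).prod (measurePreserving_add_right volume r))
  rw [wt, ← withDensity_smul _ an_meas]
  refine an_dens h (an_meas.const_smul _) fun p => ?_
  change _ = ENNReal.ofReal _ * ENNReal.ofReal (Real.exp (-2 * (p.2.2 + r)))
  rw [← ENNReal.ofReal_mul (Real.exp_pos _).le, ← Real.exp_add]
  congr 2
  ring

lemma an_ht (p : ℝ × ℝ × ℝ) (w : X) : hx ((bb p)⁻¹ * w) =
    Real.exp p.2.2 * (app w.val o 0 - app w.val o 3) / 2 + (Real.exp p.2.2)⁻¹ *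
      ((p.1 * p.1 + p.2.1 * p.2.1) / 2 * (app w.val o 0 - app w.val o 3) +
        (app w.val o 0 + app w.val o 3) / 2 - p.1 * app w.val o 1 - p.2.1 * app w.val o 2) := by
  change ht (((nil p.1 p.2.1).val * (one 2 p.2.2).val)⁻¹ * w.val) = _
  rw [ht_inv_mul, app_mul, app_boost, app, mat_nil]
  generalize app w.val o = v
  simp [B, nilM, mulVec, dotProduct, Fin.sum_univ_four, Real.cosh_eq, Real.sinh_eq, Real.exp_neg]
  ring

lemma an_box {E m n a b v1 v2 r : ℝ} (hE : 0 < E) (hm : 0 < m) (hr : 0 < r)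
    (e : m * n = 1 + v1 * v1 + v2 * v2)
    (h : E * m / 2 + E⁻¹ * ((a * a + b * b) / 2 * m + n / 2 - a * v1 - b * v2) ≤ r) :
    (((v1 - 2 * r) / m ≤ a ∧ a ≤ (v1 + 2 * r) / m) ∧
      ((v2 - 2 * r) / m ≤ b ∧ b ≤ (v2 + 2 * r) / m)) ∧ (2 * r * m)⁻¹ ≤ E ∧ E ≤ 2 * r / m := by
  have hF : 0 < E * m := mul_pos hE hm
  have h1 : (E * m) ^ 2 + (1 + (m * a - v1) ^ 2 + (m * b - v2) ^ 2) ≤ 2 * r * (E * m) := by
    have h2 := mul_le_mul_of_nonneg_left h (mul_pos two_pos hF).le
    have h3 : 2 * (E * m) * (E * m / 2 + E⁻¹ * ((a * a + b * b) / 2 * m + n / 2 - a * v1 - b * v2))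
        = (E * m) ^ 2 + (1 + (m * a - v1) ^ 2 + (m * b - v2) ^ 2) := by
      field_simp
      linear_combination e
    linarith
  have s1 := sq_nonneg (m * a - v1)
  have s2 := sq_nonneg (m * b - v2)
  have s3 := sq_nonneg (E * m)
  have h4 : E * m ≤ 2 * r := le_of_mul_le_mul_right (by nlinarith) hF
  have h5 : 2 * r * (E * m) ≤ (2 * r) ^ 2 := by nlinarith
  have h6 := abs_le_of_sq_le_sq' (show (m * a - v1) ^ 2 ≤ (2 * r) ^ 2 by linarith) (by linarith)
  have h7 := abs_le_of_sq_le_sq' (show (m * b - v2) ^ 2 ≤ (2 * r) ^ 2 by linarith) (by linarith)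
  refine ⟨⟨⟨?_, ?_⟩, ?_, ?_⟩, ?_, ?_⟩
  · rw [div_le_iff₀ hm]; linarith [h6.1]
  · rw [le_div_iff₀ hm]; linarith [h6.2]
  · rw [div_le_iff₀ hm]; linarith [h7.1]
  · rw [le_div_iff₀ hm]; linarith [h7.2]
  · rw [inv_le_iff_one_le_mul₀ (by positivity)]; linarith
  · rw [le_div_iff₀ hm]; exact h4

theorem wt_mass (ρ : ℝ) : ∃ C : ENNReal, C ≠ ⊤ ∧
    ∀ w : X, wt {p | hx ((bb p)⁻¹ * w) ≤ ρ} ≤ C := by
  obtain ⟨r, hr, hρ⟩ : ∃ r : ℝ, 0 < r ∧ ρ ≤ r := ⟨max ρ 1, by positivity, le_max_left _ _⟩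
  refine ⟨ENNReal.ofReal (64 * r ^ 4) * ENNReal.ofReal (2 * Real.log (2 * r)),
    ENNReal.mul_ne_top ENNReal.ofReal_ne_top ENNReal.ofReal_ne_top, fun w => ?_⟩
  have hu := up_o.app w.val
  simp only [an_ht]
  generalize app w.val o = v at hu
  have h1 := hu.1
  have h0 := hu.2
  rw [B] at h1
  have e : (v 0 - v 3) * (v 0 + v 3) = 1 + v 1 * v 1 + v 2 * v 2 := by linarith
  have hm : 0 < v 0 - v 3 := by
    by_contra c
    nlinarith [mul_self_nonneg (v 1), mul_self_nonneg (v 2)]
  generalize v 0 - v 3 = m at e hm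
  let D : Set (ℝ × ℝ × ℝ) := Set.Icc ((v 1 - 2 * r) / m) ((v 1 + 2 * r) / m) ×ˢ
    Set.Icc ((v 2 - 2 * r) / m) ((v 2 + 2 * r) / m) ×ˢ
      Set.Icc (Real.log (2 * r * m)⁻¹) (Real.log (2 * r / m))
  have hD : MeasurableSet D := measurableSet_Icc.prod (measurableSet_Icc.prod measurableSet_Icc)
  refine (measure_mono (t := D) fun p hp => ?_).trans ?_
  · obtain ⟨⟨k1, k2⟩, k3, k4⟩ := an_box (Real.exp_pos p.2.2) hm hr e (le_trans hp hρ)
    exact ⟨k1, k2, (Real.log_le_iff_le_exp (by positivity)).2 k3,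
      (Real.le_log_iff_exp_le (by positivity)).2 k4⟩
  rw [wt, withDensity_apply _ hD]
  refine (setLIntegral_mono (g := fun _ => ENNReal.ofReal ((2 * r * m) ^ 2)) measurable_const
    fun p hp => ENNReal.ofReal_le_ofReal ?_).trans (le_of_eq ?_)
  · have k := hp.2.2.1
    rw [Real.log_inv] at k
    rw [← Real.exp_log (show 0 < (2 * r * m) ^ 2 by positivity), Real.log_pow, Real.exp_le_exp]
    push_cast
    linarith
  · rw [setLIntegral_const, Measure.volume_eq_prod, Measure.prod_prod, Measure.volume_eq_prod,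
      Measure.prod_prod, Real.volume_Icc, Real.volume_Icc, Real.volume_Icc,
      show (v 1 + 2 * r) / m - (v 1 - 2 * r) / m = 4 * r / m by ring,
      show (v 2 + 2 * r) / m - (v 2 - 2 * r) / m = 4 * r / m by ring, ← mul_assoc, ← mul_assoc,
      ← ENNReal.ofReal_mul (by positivity), ← ENNReal.ofReal_mul (by positivity), Real.log_inv,
      Real.log_div (by positivity) hm.ne', Real.log_mul (by positivity) hm.ne']
    congr 2
    · field_simp
      ring
    · ring

end Pool.Agent.Lib.MP_99bfa4_al.IR
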