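import Pool.Agent.Lib.MP_99bfa4_al.IR.Curves

/-! Balls, the polar decomposition and the invariance of the Haar measure. -/

open Matrix MeasureTheory
open scoped ContDiff Topology InnerProductSpace ComplexConjugate

namespace Pool.Agent.Lib.MP_99bfa4_al.IR

lemma haar_col (g : L) (j : Fin 4) : B (fun i => mat g i j) (fun i => mat g i j) =
    B (Pi.single j 1) (Pi.single j 1) := by
  rw [← B_app g (Pi.single j 1)]
  congr 1 <;> ext i <;> simp [app]

lemma haar_row (g : L) (j : Fin 4) : mat g 0 j * mat g 0 j ≤ ht g * ht g := by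
  have h := congrFun (congrFun (mat_eta g) 0) 0
  simp only [eta, mul_apply, transpose_apply, diagonal_apply, mul_ite, mul_zero,
    Finset.sum_ite_eq', Finset.mem_univ, if_true, Fin.sum_univ_four] at h
  simp at h
  rw [ht_eq]
  fin_cases j <;> simp <;>
    nlinarith [mul_self_nonneg (mat g 0 1), mul_self_nonneg (mat g 0 2),
      mul_self_nonneg (mat g 0 3)]

lemma haar_entry (g : L) (i j : Fin 4) : |mat g i j| ≤ 1 + ht g := by
  have h1 := haar_col g j
  have h2 := haar_row g j
  have h3 := one_le_ht g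
  have h4 : -1 ≤ B (Pi.single j 1 : V4) (Pi.single j 1) := by fin_cases j <;> simp [B]
  rw [← h1, B] at h4
  refine abs_le_of_sq_le_sq' ?_ (by linarith) |> abs_le.2
  fin_cases i <;> simp <;>
    nlinarith [mul_self_nonneg (mat g 1 j), mul_self_nonneg (mat g 2 j),
      mul_self_nonneg (mat g 3 j)]

lemma haar_image (R : ℝ) : mx '' ball R = {A : Amb |
    (∀ x y, B (Matrix.of A *ᵥ x) (Matrix.of A *ᵥ y) = B x y) ∧ 1 ≤ A 0 0 ∧ A 0 0 ≤ R ∧
      (Matrix.of A).det = 1} := by
  ext A
  constructor
  · rintro ⟨x, hx', rfl⟩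
    have e : mx x 0 0 = ht x.val := (ht_eq _).symm
    exact ⟨B_app x.val, e ▸ one_le_ht _, e ▸ hx', x.property⟩
  · rintro ⟨h1, h2, h3, h4⟩
    exact ⟨⟨ofMat (Matrix.of A) h1 (one_pos.trans_le h2), h4⟩, (ht_eq _).trans_le h3, rfl⟩

theorem isCompact_ball (R : ℝ) : IsCompact (ball R) := by
  rw [isEmbedding_mx.isCompact_iff]
  refine (isCompact_closedBall (0 : Amb) (|1 + R|)).of_isClosed_subset ?_ ?_
  · rw [haar_image]
    have c : Continuous fun A : Amb => Matrix.of A := continuous_id
    have c0 : Continuous fun A : Amb => A 0 0 := by fun_prop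
    simp only [Set.ofPred_and, Set.ofPred_forall]
    exact (isClosed_iInter fun x => isClosed_iInter fun y => isClosed_eq
      (continuous_B (c.matrix_mulVec continuous_const) (c.matrix_mulVec continuous_const))
      continuous_const).inter ((isClosed_le continuous_const c0).inter
        ((isClosed_le c0 continuous_const).inter (isClosed_eq c.matrix_det continuous_const)))
  · rintro _ ⟨x, hx', rfl⟩
    rw [mem_closedBall_zero_iff, pi_norm_le_iff_of_nonneg (abs_nonneg _)]
    intro i
    rw [pi_norm_le_iff_of_nonneg (abs_nonneg _)]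
    intro j
    have h : ht x.val ≤ R := hx'
    exact (haar_entry x.val i j).trans ((by linarith : 1 + ht x.val ≤ 1 + R).trans (le_abs_self _))

lemma haar_refl_o {e : V4} (h : B e e = -1) (h0 : e 0 = 0) : app (refl e h) o = o := by
  rw [app_refl, B_o, h0]
  simp

/-- A rotation that moves one spacelike vector to another one of the same length. -/
lemma haar_rot {a b : V4} (a0 : a 0 = 0) (b0 : b 0 = 0) (a1 : a 1 = 0) (h : B a a = B b b) :
    ∃ k ∈ K, app k.val a = b := by
  by_cases e : a = b
  · exact ⟨1, one_mem _, e ▸ app_one a⟩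
  have d0 : (a - b) 0 = 0 := by simp [a0, b0]
  have dn : B (a - b) (a - b) < 0 := by
    by_contra c
    exact e (sub_eq_zero.1 (up_o.neg_of_orth ((B_o _).trans d0) (not_lt.1 c)))
  obtain ⟨s, s0, hs⟩ : ∃ s : ℝ, 0 < s ∧ s * s = -B (a - b) (a - b) :=
    ⟨√(-B (a - b) (a - b)), Real.sqrt_pos.2 (by linarith), Real.mul_self_sqrt (by linarith)⟩
  have he : B (s⁻¹ • (a - b)) (s⁻¹ • (a - b)) = -1 := by
    rw [B_smul_left, B_smul_right, ← neg_neg (B (a - b) (a - b)), ← hs]
    field_simp
  have h1 : B (![0, 1, 0, 0] : V4) ![0, 1, 0, 0] = -1 := by simp [B]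
  refine ⟨⟨refl _ he * refl _ h1, ?_⟩, ?_, ?_⟩
  · change dt _ = 1
    rw [dt_mul, dt_refl, dt_refl]
    norm_num
  · change app (refl _ he * refl _ h1) o = o
    rw [app_mul, haar_refl_o h1 rfl, haar_refl_o he (by simp [a0, b0])]
  · change app (refl _ he * refl _ h1) a = b
    have e1 : B a ![0, 1, 0, 0] = 0 := by simp [B, a1]
    have e2 : 2 * B a (a - b) = -(s * s) := by
      rw [hs]
      simp only [B_sub_left, B_sub_right, B_comm b a, h]
      ring
    have e3 : 2 * B a (s⁻¹ • (a - b)) * s⁻¹ = -1 := by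
      rw [B_smul_right, mul_left_comm, e2]
      field_simp
    rw [app_mul, app_refl h1, e1, mul_zero, zero_smul, add_zero, app_refl, smul_smul, e3]
    module

/-- Every point of the upper sheet is reached by a rotation and a boost. -/
theorem exists_polar {p : V4} (hp : Up p) : ∃ k ∈ K, ∃ t : ℝ, app (k * one 2 t).val o = p := by
  have h1 := hp.1
  have h2 := hp.one_le
  obtain ⟨r, hr⟩ : ∃ r : ℝ, r * r = p 0 * p 0 - 1 :=
    ⟨√(p 0 * p 0 - 1), Real.mul_self_sqrt (by nlinarith)⟩
  rw [B] at h1
  obtain ⟨k, hk, e⟩ := haar_rot (a := ![0, 0, 0, r]) (b := ![0, p 1, p 2, p 3]) rfl rfl rfl (by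
    simp [B]
    linarith)
  refine ⟨k, hk, Real.arsinh r, ?_⟩
  have c : Real.cosh (Real.arsinh r) = p 0 := by
    rw [Real.cosh_arsinh, show 1 + r ^ 2 = p 0 * p 0 by linarith, Real.sqrt_mul_self hp.2.le]
  have e1 : (![p 0, 0, 0, r] : V4) = p 0 • o + ![0, 0, 0, r] := by
    ext i
    fin_cases i <;> simp [o]
  have hk' : app k.val o = o := hk
  change app (k.val * (one 2 _).val) o = p
  rw [app_mul, app_boost, c, Real.sinh_arsinh, e1, app_add, app_smul, hk', e]
  ext i
  fin_cases i <;> simp [o]

theorem polar (x : X) : ∃ k ∈ K, ∃ t : ℝ, ∃ k' ∈ K, x = k * one 2 t * k' := by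
  obtain ⟨k, hk, t, e⟩ := exists_polar (up_o.app x.val)
  refine ⟨k, hk, t, (k * one 2 t)⁻¹ * x, ?_, (mul_inv_cancel_left _ _).symm⟩
  change app ((k * one 2 t).val⁻¹ * x.val) o = o
  rw [app_mul, ← e, app_inv_app]

lemma haar_K : (K : Set X) = ball 1 := Set.ext fun x =>
  ⟨fun h => (congrFun (show app x.val o = o from h) 0).le, fun h => fix_of_ht h⟩

theorem isCompact_K : IsCompact (K : Set X) := by
  rw [haar_K]
  exact isCompact_ball 1

/-- The balls shrink to K. -/
theorem ball_subset {U : Set X} (hU : IsOpen U) (hK : (K : Set X) ⊆ U) :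
    ∃ R, 1 < R ∧ ball R ⊆ U := by
  rcases (ball 2 \ U).eq_empty_or_nonempty with h | h
  · exact ⟨2, one_lt_two, Set.sdiff_eq_empty.1 h⟩
  obtain ⟨x, ⟨x2, xU⟩, hm⟩ := ((isCompact_ball 2).diff hU).exists_isMinOn h
    continuous_hx.continuousOn
  have h1 : 1 < hx x := by
    by_contra c
    exact xU (hK (haar_K ▸ not_lt.1 c))
  have h2 : hx x ≤ 2 := x2
  refine ⟨(1 + hx x) / 2, by linarith, fun y hy => ?_⟩
  have h3 : hx y ≤ (1 + hx x) / 2 := hy
  by_contra c
  have h4 : hx x ≤ hx y := hm ⟨show hx y ≤ 2 by linarith, c⟩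
  linarith

lemma haar_ball_pos : mu (ball 2) ≠ 0 := by
  have h : IsOpen {x : X | hx x < 2} := isOpen_lt continuous_hx continuous_const
  have h1 := h.measure_ne_zero mu ⟨1, show ht 1 < 2 by simp⟩
  exact fun c => h1 (measure_mono_null (fun x (hx' : hx x < 2) => hx'.le) c)

/-- A multiple of the Haar measure by a map that keeps the heights is the Haar measure. -/
lemma haar_const {f : X → X} (hf : Continuous f) (h : ∀ x, hx (f x) = hx x) {c : NNReal}
    (e : Measure.map f mu = c • mu) : c = 1 := by
  have h1 := congrArg (fun m : Measure X => m (ball 2)) e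
  have h2 : f ⁻¹' ball 2 = ball 2 := Set.ext fun x => by
    change hx (f x) ≤ 2 ↔ hx x ≤ 2
    rw [h]
  simp only [Measure.map_apply hf.measurable (isCompact_ball 2).measurableSet, h2,
    Measure.smul_apply, ENNReal.smul_def, smul_eq_mul] at h1
  have h3 : (c : ENNReal) * mu (ball 2) = 1 * mu (ball 2) := by rw [one_mul, ← h1]
  exact_mod_cast (ENNReal.mul_left_inj haar_ball_pos (isCompact_ball 2).measure_ne_top).1 h3

lemma haar_mod_K {k : X} (hk : k ∈ K) : Measure.modularCharacter k = 1 :=
  haar_const (continuous_mul_const k) (fun x => ht_mul_right x.val hk)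
    (Measure.map_right_mul_eq_modularCharacterFun_smul mu k)

lemma haar_flip (t : ℝ) : one 2 (-t) * one 3 Real.pi = one 3 Real.pi * one 2 t := by
  refine Subtype.ext (mat_inj ?_)
  change mat (one 2 (-t)).val * mat (one 3 Real.pi).val =
    mat (one 3 Real.pi).val * mat (one 2 t).val
  rw [mat_one', mat_one', mat_one']
  ext a b
  fin_cases a <;> fin_cases b <;>
    simp [sn, cn, bas, Matrix.mul_apply, Fin.sum_univ_four, one_apply]

lemma haar_mod (x : X) : Measure.modularCharacter x = 1 := by
  obtain ⟨k, hk, t, k', hk', rfl⟩ := polar x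
  have h1 := congrArg Measure.modularCharacter (haar_flip t)
  rw [map_mul, map_mul, haar_mod_K (one_mem_K (i := 3) le_rfl _), mul_one, one_mul] at h1
  have h2 : Measure.modularCharacter (one 2 t) * Measure.modularCharacter (one 2 t) = 1 := by
    nth_rw 1 [← h1]
    rw [← map_mul, one_neg, inv_mul_cancel, map_one]
  rw [map_mul, map_mul, haar_mod_K hk, haar_mod_K hk', one_mul, mul_one]
  exact (pow_eq_one_iff_of_nonneg zero_le two_ne_zero).1 (by rw [sq, h2])

lemma haar_rt (a : X) : MeasurePreserving (fun x : X => rt a • x) mu mu := by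
  simp only [rt_smul]
  refine ⟨(continuous_mul_const _).measurable, ?_⟩
  rw [Measure.map_right_mul_eq_modularCharacterFun_smul,
    show Measure.modularCharacterFun a⁻¹ = 1 from haar_mod _, one_smul]

lemma haar_lt (a : X) : MeasurePreserving (fun x : X => lt a • x) mu mu := by
  simp only [lt_smul]
  exact measurePreserving_mul_left mu a

lemma haar_iota_inv : iota⁻¹ = iota := inv_eq_of_mul_eq_one_right iota_sq

/-- Conjugation by the inversion in the base point. -/
def haarCj : X ≃* X where
  toFun x := dg iota • x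
  invFun x := dg iota • x
  left_inv x := by simp only [smul_smul, ← map_mul, iota_sq, map_one, one_smul]
  right_inv x := by simp only [smul_smul, ← map_mul, iota_sq, map_one, one_smul]
  map_mul' x y := Subtype.ext (by
    change iota * (x.val * y.val) * iota⁻¹ = iota * x.val * iota⁻¹ * (iota * y.val * iota⁻¹)
    group)

lemma haar_dg : MeasurePreserving (fun x : X => dg iota • x) mu mu := by
  have c : Continuous fun x : X => dg iota • x := continuous_const_smul _
  have := haarCj.isHaarMeasure_map mu c c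
  have e := Measure.isMulLeftInvariant_eq_smul (Measure.map haarCj mu) mu
  have h1 := haar_const (f := haarCj) c (fun x => by
    change ht (iota * x.val * iota⁻¹) = ht x.val
    rw [haar_iota_inv, ht_mul_right _ iota_o, ht_mul_left _ iota_o]) e
  rw [h1, one_smul] at e
  exact ⟨c.measurable, e⟩

lemma haar_all (g : G) : MeasurePreserving (fun x : X => g • x) mu mu := by
  have h := dt_G g
  rcases dt_cases g.val.1 with h1 | h1
  · have e : g = lt ⟨g.val.1, h1⟩ * rt ⟨g.val.2, h.symm.trans h1⟩ :=
      Subtype.ext (Prod.ext (mul_one _).symm (one_mul _).symm)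
    rw [e]
    simp only [mul_smul]
    exact (haar_lt _).comp (haar_rt _)
  · have k : ∀ a : L, dt a = -1 → dt (a * iota) = 1 := fun a ha => by
      rw [dt_mul, ha, dt_iota]
      norm_num
    have e : g = lt ⟨g.val.1 * iota, k _ h1⟩ * rt ⟨g.val.2 * iota, k _ (h.symm.trans h1)⟩ *
        dg iota := by
      refine Subtype.ext (Prod.ext ?_ ?_)
      · change g.val.1 = g.val.1 * iota * 1 * iota
        rw [mul_one, mul_assoc, iota_sq, mul_one]
      · change g.val.2 = 1 * (g.val.2 * iota) * iota
        rw [one_mul, mul_assoc, iota_sq, mul_one]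
    rw [e]
    simp only [mul_smul]
    exact ((haar_lt _).comp (haar_rt _)).comp haar_dg

theorem invariant_mu : SMulInvariantMeasure G X mu :=
  ⟨fun g _ hs => (haar_all g).measure_preimage hs.nullMeasurableSet⟩

instance invariantX : SMulInvariantMeasure G X mu := invariant_mu

instance compactK : CompactSpace K := isCompact_iff_compactSpace.1 isCompact_K

end Pool.Agent.Lib.MP_99bfa4_al.IR
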