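import Pool.Agent.Lib.MP_99bfa4_al.IR.Fld
import Pool.Agent.Lib.MP_99bfa4_al.IR.Haar

/-! Fundamental domains and conjugation. -/

open Matrix MeasureTheory Filter
open scoped ContDiff Topology InnerProductSpace ComplexConjugate

namespace Pool.Agent.Lib.MP_99bfa4_al.IR

lemma fd_nhds {Γ : Subgroup G} (h0 : SS.Discontinuous X Γ) (x : X) :
    ∃ U : Set X, IsOpen U ∧ x ∈ U ∧ ∀ γ : Γ, ∀ y ∈ U, γ • y ∈ U → γ = 1 := by
  have := h0.1
  obtain ⟨U, hU, h⟩ := ProperlyDiscontinuousSMul.exists_nhds_image_smul_eq_self Γ x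
  refine ⟨interior U, isOpen_interior, mem_interior_iff_mem_nhds.2 hU, fun γ y hy hγ => ?_⟩
  exact Subtype.ext (h0.2 γ γ.2 x (h γ ⟨γ • y, ⟨y, interior_subset hy, rfl⟩, interior_subset hγ⟩))

theorem fd_discrete {Γ : Subgroup G} (h : SS.Discontinuous X Γ) : DiscreteTopology Γ := by
  have h0 := h
  clear h
  obtain ⟨U, hU, hx, h⟩ := fd_nhds h0 1
  refine discreteTopology_of_isOpen_singleton_one ?_
  have hc : Continuous fun γ : Γ => (γ : G) • (1 : X) :=
    continuous_subtype_val.smul continuous_const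
  have e : ({1} : Set Γ) = (fun γ : Γ => (γ : G) • (1 : X)) ⁻¹' U := by
    ext γ
    refine ⟨?_, fun hγ => h γ _ hx hγ⟩
    rintro rfl
    simpa using hx
  rw [e]
  exact hU.preimage hc

lemma secondCountableG : SecondCountableTopology G := by
  have : SecondCountableTopology M4 := inferInstanceAs (SecondCountableTopology Amb)
  have : SecondCountableTopology L := isInducing_mat.secondCountableTopology
  exact (Topology.IsInducing.subtypeVal (t := (Pairs : Set (L × L)))).secondCountableTopology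

theorem fd_countable {Γ : Subgroup G} (h : SS.Discontinuous X Γ) : Countable Γ := by
  have := fd_discrete h
  have : SecondCountableTopology G := secondCountableG
  exact TopologicalSpace.separableSpace_iff_countable.1 inferInstance

/-- A measurable fundamental domain inside a set that meets every orbit. -/
theorem exists_fd {Γ : Subgroup G} (h : SS.Discontinuous X Γ) {C : Set X} (hC : MeasurableSet C)
    (hcov : ∀ x : X, ∃ γ ∈ Γ, γ • x ∈ C) :
    ∃ F ⊆ C, MeasurableSet F ∧ IsFundamentalDomain Γ F mu := by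
  have h0 := h
  clear h
  classical
  have := fd_countable h0
  choose V hV1 hV2 hV3 using fd_nhds h0
  obtain ⟨s, hs, hcover⟩ := TopologicalSpace.countable_cover_nhds
    (f := V) fun x => (hV1 x).mem_nhds (hV2 x)
  have hne : s.Nonempty := by
    have : (1 : X) ∈ ⋃ x ∈ s, V x := hcover ▸ Set.mem_univ _
    obtain ⟨x, hx, -⟩ := Set.mem_iUnion₂.1 this
    exact ⟨x, hx⟩
  obtain ⟨e, rfl⟩ := hs.exists_eq_range hne
  have hex : ∀ y : X, ∃ n, y ∈ V (e n) := fun y => by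
    have : y ∈ ⋃ x ∈ Set.range e, V x := hcover ▸ Set.mem_univ _
    obtain ⟨_, ⟨n, rfl⟩, h⟩ := Set.mem_iUnion₂.1 this
    exact ⟨n, h⟩
  let W : ℕ → Set X := fun n => V (e n) ∩ C
  have hW : ∀ n, MeasurableSet (W n) := fun n => (hV1 _).measurableSet.inter hC
  let F : Set X := ⋃ n, W n \ ⋃ m < n, ⋃ γ : Γ, (fun y => (γ : G) • y) ⁻¹' W m
  have hF : ∀ y, y ∈ F ↔ ∃ n, y ∈ W n ∧ ∀ m < n, ∀ γ : Γ, γ • y ∉ W m := fun y => by
    simp only [F, Set.mem_iUnion, Set.mem_sdiff, not_exists, Set.mem_preimage]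
    rfl
  have hm : MeasurableSet F := by
    refine MeasurableSet.iUnion fun n => (hW n).diff ?_
    refine MeasurableSet.iUnion fun m => MeasurableSet.iUnion fun _ =>
      MeasurableSet.iUnion fun γ => ?_
    exact (continuous_const_smul (γ : G)).measurable (hW m)
  have hfd : IsFundamentalDomain Γ F mu := by
    refine IsFundamentalDomain.mk' hm.nullMeasurableSet fun x => ?_
    · have h1 : ∃ n, ∃ γ : Γ, γ • x ∈ W n := by
        obtain ⟨γ, hγ, h⟩ := hcov x
        obtain ⟨n, hn⟩ := hex (γ • x)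
        exact ⟨n, ⟨γ, hγ⟩, hn, h⟩
      obtain ⟨γ, hγ⟩ := Nat.find_spec h1
      refine ⟨γ, (hF _).2 ⟨_, hγ, fun m hm δ hδ => ?_⟩, fun δ hδ => ?_⟩
      · exact Nat.find_min h1 hm ⟨δ * γ, by rwa [mul_smul]⟩
      · obtain ⟨n, h2, h3⟩ := (hF _).1 hδ
        have h4 : (γ * δ⁻¹) • δ • x = γ • x := by rw [mul_smul, inv_smul_smul]
        have h5 : n = Nat.find h1 := le_antisymm
          (not_lt.1 fun h => h3 _ h (γ * δ⁻¹) (h4 ▸ hγ)) (Nat.find_min' h1 ⟨δ, h2⟩)
        rw [h5] at h2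
        exact (mul_inv_eq_one.1 (hV3 _ (γ * δ⁻¹) _ h2.1 (h4 ▸ hγ.1))).symm
  refine ⟨F, fun y hy => ?_, hm, hfd⟩
  obtain ⟨n, h, -⟩ := (hF y).1 hy
  exact h.2

lemma fd_mem_conj {Γ : Subgroup G} {g γ : G} :
    γ ∈ Γ.map (MulAut.conj g).toMonoidHom ↔ g⁻¹ * γ * g ∈ Γ := by
  constructor
  · rintro ⟨δ, hδ, rfl⟩
    have : g⁻¹ * (MulAut.conj g).toMonoidHom δ * g = δ := by
      change g⁻¹ * (g * δ * g⁻¹) * g = δ
      group
    rwa [this]
  · intro h
    refine ⟨_, h, ?_⟩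
    change g * (g⁻¹ * γ * g) * g⁻¹ = γ
    group

theorem disc_conj {Γ : Subgroup G} (h : SS.Discontinuous X Γ) (g : G) :
    SS.Discontinuous X (Γ.map (MulAut.conj g).toMonoidHom) := by
  have h0 := h
  clear h
  refine ⟨⟨fun {K K'} hK hK' => ?_⟩, fun γ hγ y hy => ?_⟩
  · have h1 := h0.1.finite_disjoint_inter_image (hK.image (continuous_const_smul g⁻¹))
      (hK'.image (continuous_const_smul g⁻¹))
    refine Set.Finite.of_finite_image (f := fun γ => (⟨g⁻¹ * γ.1 * g, fd_mem_conj.1 γ.2⟩ : Γ))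
      (h1.subset ?_) fun γ _ δ _ h => ?_
    · rintro _ ⟨γ, ⟨_, ⟨y, hy, rfl⟩, hy'⟩, rfl⟩
      refine ⟨g⁻¹ • γ.1 • y, ⟨g⁻¹ • y, ⟨y, hy, rfl⟩, ?_⟩, ⟨γ.1 • y, hy', rfl⟩⟩
      change (g⁻¹ * γ.1 * g) • g⁻¹ • y = _
      rw [mul_smul, smul_inv_smul, mul_smul]
    · have h2 : g⁻¹ * γ.1 * g = g⁻¹ * δ.1 * g := congrArg Subtype.val h
      exact Subtype.ext (mul_left_cancel (mul_right_cancel h2))
  · have h1 := h0.2 _ (fd_mem_conj.1 hγ) (g⁻¹ • y) (by
      rw [mul_smul, smul_inv_smul, mul_smul, hy])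
    calc γ = g * (g⁻¹ * γ * g) * g⁻¹ := by group
      _ = 1 := by rw [h1, mul_one, mul_inv_cancel]

theorem hasEigen_conj {Γ : Subgroup G} (h : SS.Discontinuous X Γ) {ρ : ℝ}
    (hcov : ∀ x : X, ∃ γ ∈ Γ, γ • x ∈ ball ρ) (f : Smooth) (hne : f ≠ 0)
    (hinv : ∀ γ ∈ Γ, ∀ x, f.val (γ • x) = f.val x) (l : DX → ℂ)
    (heig : ∀ D : DX, D.val f = l D • f) (g : G) :
    SS.HasEigen mu (Subtype.val : Smooth → X → ℂ) (Γ.map (MulAut.conj g).toMonoidHom)
      (fun D : DX => D.val) l := by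
  have hc : IsCompact ((fun x : X => g • x) '' ball ρ) :=
    (isCompact_ball ρ).image (continuous_const_smul g)
  obtain ⟨F, hFC, hFm, hF⟩ := exists_fd (disc_conj h g) hc.measurableSet fun x => by
    obtain ⟨γ, hγ, k⟩ := hcov (g⁻¹ • x)
    refine ⟨g * γ * g⁻¹, ⟨γ, hγ, rfl⟩, _, k, ?_⟩
    rw [mul_smul, mul_smul]
  have hi : ∀ γ ∈ Γ.map (MulAut.conj g).toMonoidHom, ∀ y,
      (tau g f).val (γ • y) = (tau g f).val y := fun γ hγ y => by
    rw [tau_val, tau_val, ← hinv _ (fd_mem_conj.1 hγ) (g⁻¹ • y), mul_smul, smul_inv_smul, mul_smul]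
  have ct := Smooth.continuous (tau g f)
  refine ⟨tau g f, F, hF, hi, ?_, fun k => hne ?_, fun D => ?_⟩
  · obtain ⟨C, hC⟩ := hc.exists_bound_of_continuousOn ct.continuousOn
    have : IsFiniteMeasure (mu.restrict F) :=
      ⟨by rw [Measure.restrict_apply_univ]; exact (measure_mono hFC).trans_lt hc.measure_lt_top⟩
    exact MemLp.of_bound ct.aestronglyMeasurable C
      ((ae_restrict_iff' hFm).2 (Eventually.of_forall fun x hx' => hC x (hFC hx')))
  · have := fd_countable (disc_conj h g)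
    have h1 : mu {x | (tau g f).val x ≠ 0} = 0 := by
      refine hF.measure_zero_of_invariant _ (fun γ => ?_) ?_
      · ext x
        rw [Set.mem_smul_set_iff_inv_smul_mem]
        exact (congrArg (· ≠ 0) (hi _ (γ⁻¹).2 x)).to_iff
      · rw [← Measure.restrict_apply' hFm]
        exact k
    have h2 : (tau g f).val = 0 := (ct.ae_eq_iff_eq mu continuous_const).1 h1
    refine Subtype.ext (funext fun x => ?_)
    have := congrFun h2 (g • x)
    rwa [tau_val, inv_smul_smul] at this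
  · change D.val (tau g f) = _
    rw [DX_tau, heig, map_smul]

end Pool.Agent.Lib.MP_99bfa4_al.IR
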