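import Pool.Agent.Lib.MP_99bfa4_al.IR.Free
import Pool.Agent.Lib.MP_99bfa4_al.IR.Haar

/-! The groups act properly discontinuously, freely and cocompactly. -/

open Matrix MeasureTheory Filter
open scoped ContDiff Topology InnerProductSpace ComplexConjugate

namespace Pool.Agent.Lib.MP_99bfa4_al.IR

variable {e : Fin 6 → V4}

theorem chi_zero_of_fix (h : Poly e) (w : W0) {p : V4} (hp : Up p)
    (hw : app (rho h.toGram w.val) p = p) : chi w.val = 0 := by
  have h1 : ∀ n : ℕ, app (rho h.toGram (w.val ^ n)) p = p ∧ chi (w.val ^ n) = n * chi w.val :=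
    fun n => by
      induction n with
      | zero => simp [chi]
      | succ n ih =>
        have k : par w.val = 1 := w.property
        rw [pow_succ', map_mul, app_mul, ih.1, chi_mul, ih.2, k]
        exact ⟨hw, by push_cast; ring⟩
  by_contra c
  refine Set.infinite_of_injective_forall_mem (f := fun n : ℕ => w.val ^ n) (fun a b e => ?_)
    (fun n => ?_) (finite_height h (p 0))
  · have := congrArg chi e
    rw [(h1 a).2, (h1 b).2] at this
    exact_mod_cast mul_right_cancel₀ c this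
  · exact ⟨p, hp, le_rfl, by rw [(h1 n).1]⟩

lemma lat_app (h : Gram e) (R : K) (w : W0) (x : X) :
    app (Phi h R w • x).val o = app (rho h w.val) (app x.val o) := by
  rw [smul_val, app_mul, app_inv_o (lat_fix h R _ ⟨w, rfl⟩), app_mul, Phi_fst]

lemma lat_ball {S : Set X} (hS : IsCompact S) : ∃ r, ∀ x ∈ S, hx x ≤ r := by
  obtain ⟨r, hr⟩ := hS.bddAbove_image continuous_hx.continuousOn
  exact ⟨r, fun x k => hr ⟨x, k, rfl⟩⟩

lemma lat_iota (x : L) : x * iota * x⁻¹ = pinv (app x o) (up_o.app x).1 := L_ext fun y => by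
  rw [app_mul, app_mul, app_iota, app_pinv, app_sub, app_smul, app_app_inv, B_comm, B_app_left,
    B_o]

theorem lat_disc (h : Poly e) (R : K) : SS.Discontinuous X (Lat h.toGram R) := by
  refine ⟨⟨fun {S T} hS hT => ?_⟩, ?_⟩
  · obtain ⟨r, hr⟩ := lat_ball hS
    obtain ⟨r', hr'⟩ := lat_ball hT
    refine (((finite_height h (max r r')).preimage Subtype.val_injective.injOn).image
      (Phi h.toGram R).rangeRestrict).subset ?_
    rintro ⟨_, w, rfl⟩ ⟨_, ⟨x, h1, rfl⟩, h2⟩
    refine ⟨w, ⟨app x.val o, up_o.app _, (hr x h1).trans (le_max_left _ _), ?_⟩, rfl⟩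
    rw [← lat_app h.toGram R]
    exact (hr' _ h2).trans (le_max_right _ _)
  · rintro _ ⟨w, rfl⟩ x hx
    have h1 := lat_app h.toGram R w x
    rw [hx] at h1
    have h2 := chi_zero_of_fix h w (up_o.app _) h1.symm
    have h3 : (Phi h.toGram R w).val.2 = sg w.val := by
      rw [Phi_snd, h2, zpow_zero]
      exact mul_one _
    have h4 := congrArg Subtype.val hx
    rw [smul_val, h3, Phi_fst, mul_inv_eq_iff_eq_mul, ← eq_mul_inv_iff_mul_eq] at h4
    rcases sg_cases w.val with c | c <;> rw [c] at h3 h4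
    · rw [mul_one, mul_inv_cancel] at h4
      exact Subtype.ext (Prod.ext h4 h3)
    · exact absurd (h4.trans (lat_iota _)) (no_inversion h w (up_o.app _))

theorem lat_cover (h : Poly e) (R : K) :
    ∃ ρ : ℝ, ∀ x : X, ∃ γ ∈ Lat h.toGram R, γ • x ∈ ball ρ := by
  obtain ⟨r, hr⟩ := h.bdd
  let s := rho h.toGram (cs.simple 4)
  refine ⟨max r (2 * ht s * r), fun x => ?_⟩
  obtain ⟨w, hw⟩ := cover h (up_o.app x.val)
  have h1 : ht (rho h.toGram w * x.val) ≤ r := by
    rw [ht, app_mul]
    exact hr _ ((up_o.app _).app _) hw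
  have h2 : ∀ v : W0, hx (Phi h.toGram R v • x) = ht (rho h.toGram v.val * x.val) := fun v => by
    rw [hx, ht, lat_app, ht, app_mul]
  rcases Int.units_eq_one_or (par w) with c | c
  · exact ⟨_, ⟨⟨w, c⟩, rfl⟩, (h2 _).trans_le (h1.trans (le_max_left _ _))⟩
  · refine ⟨_, ⟨⟨cs.simple 4 * w, ?_⟩, rfl⟩, (h2 _).trans_le (le_trans ?_ (le_max_right _ _))⟩
    · rw [W0, MonoidHom.mem_ker, map_mul, c, par_simple]
      decide
    · rw [map_mul, mul_assoc]
      exact (ht_mul_le _ _).trans (mul_le_mul_of_nonneg_left h1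
        (mul_nonneg zero_le_two (zero_le_one.trans (one_le_ht s))))

end Pool.Agent.Lib.MP_99bfa4_al.IR
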