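import Pool.Agent.Lib.MP_99bfa4_al.IR.Cox

/-! Generators of the subgroup of index two. -/

open Matrix MeasureTheory Filter
open scoped ContDiff Topology InnerProductSpace ComplexConjugate

namespace Pool.Agent.Lib.MP_99bfa4_al.IR

lemma gens_comm {i j : Fin 6} (h : CM i j = 2) :
    cs.simple i * cs.simple j = cs.simple j * cs.simple i := by
  have k := cs.simple_mul_simple_pow i j
  rw [h, pow_two, mul_eq_one_iff_eq_inv, _root_.mul_inv_rev, cs.inv_simple, cs.inv_simple] at k
  exact k

lemma gens_conj : cs.simple 4 * cs.simple 5 * cs.simple 3 * (cs.simple 4 * cs.simple 5)⁻¹ =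
    cs.simple 4 * cs.simple 3 * cs.simple 4 := by
  rw [_root_.mul_inv_rev, cs.inv_simple, cs.inv_simple, mul_assoc (cs.simple 4),
    gens_comm (i := 5) (j := 3) rfl, ← mul_assoc, ← mul_assoc, cs.simple_mul_simple_cancel_right]

theorem closure_gen : Subgroup.closure (Set.range gen) = ⊤ := by
  let H : Subgroup W := (Subgroup.closure (Set.range gen)).map W0.subtype
  have h0 : ∀ i, (gen i).val ∈ H := fun i => ⟨gen i, Subgroup.subset_closure ⟨i, rfl⟩, rfl⟩
  have h1 : ∀ i : Fin 6, i.val < 4 → cs.simple i ∈ H := fun i hi => by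
    have := h0 ⟨i.val, by omega⟩
    rwa [gen_lt hi] at this
  have h2 : cs.simple 4 * cs.simple 5 ∈ H := gen_four ▸ h0 4
  have h3 : ∀ i : Fin 6, i.val < 4 → cs.simple 4 * cs.simple i * cs.simple 4 ∈ H := fun i hi => by
    by_cases e : i = 3
    · rw [e, ← gens_conj]
      exact mul_mem (mul_mem h2 (h1 3 (by decide))) (inv_mem h2)
    · rw [gens_comm (i := 4) (j := i) (by revert i; decide), cs.simple_mul_simple_cancel_right]
      exact h1 i hi
  have h4 : ∀ w : W, w ∈ H ∨ cs.simple 4 * w ∈ H := fun w => by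
    induction w using cs.simple_induction_left with
    | one => exact .inl (one_mem _)
    | mul_simple_left w i ih =>
      obtain hi | rfl | rfl : i.val < 4 ∨ i = 4 ∨ i = 5 := by revert i; decide
      · refine ih.imp (mul_mem (h1 i hi)) fun k => ?_
        have := mul_mem (h3 i hi) k
        rwa [mul_assoc, cs.simple_mul_simple_cancel_left, mul_assoc] at this
      · rw [cs.simple_mul_simple_cancel_left]
        exact ih.symm
      · refine ih.symm.imp (fun k => ?_) fun k => ?_
        · have := mul_mem (inv_mem h2) k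
          rwa [_root_.mul_inv_rev, cs.inv_simple, cs.inv_simple, mul_assoc,
            cs.simple_mul_simple_cancel_left] at this
        · rw [← mul_assoc]
          exact mul_mem h2 k
  refine eq_top_iff.2 fun w _ => ?_
  rcases h4 w.val with ⟨v, hv, e⟩ | ⟨v, -, e⟩
  · exact Subtype.ext e ▸ hv
  · have k1 : par v.val = 1 := v.property
    have k2 : par w.val = 1 := w.property
    rw [show v.val = _ from e, map_mul, k2, par_simple] at k1
    exact absurd k1 (by decide)

theorem hom_ext {H : Type*} [Group H] {f g : W0 →* H} (h : ∀ i, f (gen i) = g (gen i)) :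
    f = g :=
  MonoidHom.eq_of_eqOn_dense closure_gen (by rintro _ ⟨i, rfl⟩; exact h i)

/-- Relations between the first four generators. -/
theorem gen_rel {i j : Fin 5} (hi : i.val < 4) (hj : j.val < 4) :
    (gen i * gen j) ^ CM i.castSucc j.castSucc = 1 := by
  refine Subtype.ext ?_
  rw [Subgroup.coe_pow, Subgroup.coe_mul, gen_lt hi, gen_lt hj]
  exact cs.simple_mul_simple_pow _ _

theorem gen_comm {i : Fin 5} (hi : i.val < 2) : gen 4 * gen i = gen i * gen 4 := by
  refine Subtype.ext ?_
  rw [Subgroup.coe_mul, Subgroup.coe_mul, gen_lt (i := i) (by omega), gen_four, mul_assoc,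
    gens_comm (i := 5) (j := i.castSucc) (by revert i; decide), ← mul_assoc,
    gens_comm (i := 4) (j := i.castSucc) (by revert i; decide), mul_assoc]

theorem gen_rel_conj : (gen 2 * (gen 4 * gen 3 * (gen 4)⁻¹)) ^ 2 = 1 := by
  refine Subtype.ext ?_
  have k : (cs.simple 2 * cs.simple 3) ^ 2 = 1 := cs.simple_mul_simple_pow 2 3
  rw [Subgroup.coe_pow, Subgroup.coe_mul, Subgroup.coe_mul, Subgroup.coe_mul, Subgroup.coe_inv,
    gen_four, gen_lt (i := 2) (by decide), gen_lt (i := 3) (by decide)]
  change (cs.simple 2 * (cs.simple 4 * cs.simple 5 * cs.simple 3 *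
    (cs.simple 4 * cs.simple 5)⁻¹)) ^ 2 = 1
  have k' := conj_pow (i := 2) (a := cs.simple 4) (b := cs.simple 2 * cs.simple 3)
  rw [k, mul_one, mul_inv_cancel, cs.inv_simple] at k'
  rwa [gens_conj, ← mul_assoc, ← mul_assoc, gens_comm (i := 2) (j := 4) rfl,
    mul_assoc (cs.simple 4)]

end Pool.Agent.Lib.MP_99bfa4_al.IR
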