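import Pool.Agent.Lib.MP_99bfa4_al.IR.Near
import Pool.Agent.Lib.MP_99bfa4_al.IR.Gens
import Pool.Agent.Lib.MP_99bfa4_al.IR.Haar

/-! The second coordinate stays in a compact subgroup. -/

open Matrix MeasureTheory Filter
open scoped ContDiff Topology InnerProductSpace ComplexConjugate

namespace Pool.Agent.Lib.MP_99bfa4_al.IR

lemma rig2_conj {b : L} {v : V4} (hv : B v v = 1) (h : app b o = v) :
    pinv v hv = b * iota * b⁻¹ := L_ext fun x => by
  have k : app b⁻¹ x 0 = B x v := by rw [← B_o' (app b⁻¹ x), B_app_left, inv_inv, h]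
  rw [app_mul, app_mul, app_iota, app_pinv, app_sub, app_smul, app_app_inv, h, k]

lemma rig2_fix {q : L} (h : q * iota = iota * q) : app q o = o := by
  have k := congrArg (fun g => app g o) h
  simp only [app_mul, iota_o] at k
  rw [app_iota] at k
  have u := up_o.app q
  generalize app q o = p at k u
  have k1 : p = p 0 • o := by linear_combination (norm := module) (1 / 2 : ℝ) • k
  have k2 := u.1
  rw [k1, B_smul_left, B_smul_right, B_o, o_zero] at k2
  exact u.eq_o (by nlinarith [u.one_le])

lemma rig2_CM (i : Fin 4) : i = 0 ∨ CM (0 : Fin 5).castSucc i.castSucc.castSucc = 2 ∨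
    CM (0 : Fin 5).castSucc i.castSucc.castSucc = 3 ∨
    CM (0 : Fin 5).castSucc i.castSucc.castSucc = 4 := by
  revert i
  decide

theorem rigid_snd :
    ∀ᶠ σ : W0 →* L in SS.near (sg.comp W0.subtype),
      ∃ b : L, (∀ i : Fin 5, i.val < 4 → σ (gen i) = b * iota * b⁻¹) ∧
        app (b⁻¹ * σ (gen 4) * b) o = o := by
  set F := SS.near (sg.comp W0.subtype) with hF
  have ht : ∀ w : W0, Tendsto (fun j : W0 →* L => j w) F (𝓝 (sg w.val)) := fun w =>
    ((continuous_apply w).tendsto _).comp tendsto_comap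
  have hr : ∀ i : Fin 4, Tendsto (fun j : W0 →* L => j (gen i.castSucc)) F (𝓝 iota) :=
    fun i => by
      have := ht (gen i.castSucc)
      rwa [gen_lt i.isLt, sg_simple] at this
  filter_upwards [eventually_all.2 fun i => (hr i).eventually near_iota] with j hj
  have h1 : ∀ i : Fin 4, ∃ (v : V4) (h : Up v), j (gen i.castSucc) = pinv v h.1 := fun i => by
    refine hj i ?_
    have := gen_rel (i := i.castSucc) (j := i.castSucc) i.isLt i.isLt
    rw [CM.diagonal, pow_one] at this
    rw [← map_mul, this, map_one]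
  choose v hv e using h1
  have h2 : ∀ i : Fin 4, v 0 = v i := fun i => by
    rcases rig2_CM i with rfl | c
    · rfl
    refine pinv_eq_of_order c (hv 0) (hv i) ?_
    rw [← e, ← e, ← map_mul, ← map_pow]
    exact (congrArg j (gen_rel (i := 0) (j := i.castSucc) (by decide) i.isLt)).trans (map_one j)
  obtain ⟨k, -, t, hb⟩ := exists_polar (hv 0)
  generalize (k * one 2 t).val = b at hb
  have h3 : ∀ i : Fin 4, j (gen i.castSucc) = b * iota * b⁻¹ := fun i =>
    (e i).trans (rig2_conj _ (hb.trans (h2 i)))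
  refine ⟨b, fun i hi => h3 ⟨i.val, hi⟩, rig2_fix ?_⟩
  have h4 := congrArg j (gen_comm (i := 0) (by decide))
  rw [map_mul, map_mul, show j (gen 0) = b * iota * b⁻¹ from h3 0] at h4
  calc b⁻¹ * j (gen 4) * b * iota = b⁻¹ * (j (gen 4) * (b * iota * b⁻¹)) * b := by group
    _ = iota * (b⁻¹ * j (gen 4) * b) := by rw [h4]; group

end Pool.Agent.Lib.MP_99bfa4_al.IR
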