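import Pool.Agent.Lib.MP_99bfa4_al.IR.Rig1
import Pool.Agent.Lib.MP_99bfa4_al.IR.Rig2
import Pool.Agent.Lib.MP_99bfa4_al.IR.Lat
import Pool.Agent.Lib.MP_99bfa4_al.IR.FD

/-! The group is admissible. -/

open Matrix MeasureTheory Filter
open scoped ContDiff Topology InnerProductSpace ComplexConjugate

namespace Pool.Agent.Lib.MP_99bfa4_al.IR

variable {e : Fin 6 → V4}

lemma adm_tendsto {Γ Γ' H H' : Type} [Group Γ] [Group Γ'] [Group H] [Group H']
    [TopologicalSpace H] [TopologicalSpace H'] (ι : Γ →* H) (f : Γ' →* Γ) (p : H →* H')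
    (hp : Continuous p) : Tendsto (fun φ : Γ →* H => p.comp (φ.comp f)) (SS.near ι)
      (SS.near (p.comp (ι.comp f))) :=
  tendsto_comap_iff.2 (tendsto_pi_nhds.2 fun w => (hp.tendsto _).comp
    (((continuous_apply (f w)).tendsto _).comp tendsto_comap))

/-- The first coordinate. -/
def adm_p1 : G →* L := (MonoidHom.fst L L).comp Pairs.subtype

/-- The second coordinate. -/
def adm_p2 : G →* L := (MonoidHom.snd L L).comp Pairs.subtype

lemma adm_sg_four : sg (gen 4).val = 1 := by
  rw [gen_four, map_mul, sg_simple, sg_simple, iota_sq]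

lemma adm_snd_one (h : Gram e) (w : W0) : (Phi h 1 w).val.2 = sg w.val := by
  rw [Phi_snd, _root_.one_zpow]
  exact mul_one _

lemma adm_snd_four (h : Gram e) (R : K) : (Phi h R (gen 4)).val.2 = R.val.val := by
  rw [Phi_snd, adm_sg_four, chi_gen_four, zpow_one, one_mul]

lemma adm_core (h : Gram e) (ψ : W0 →* G) {a b : L} (hd : dt a = dt b)
    (ha : ∀ i, (ψ (gen i)).val.1 = a * rho h (gen i).val * a⁻¹)
    (hb : ∀ i : Fin 5, i.val < 4 → (ψ (gen i)).val.2 = b * iota * b⁻¹)
    (h4 : app (b⁻¹ * (ψ (gen 4)).val.2 * b) o = o) :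
    ∃ (g : G) (R : K), ψ = (MulAut.conj g).toMonoidHom.comp (Phi h R) := by
  have d : dt (b⁻¹ * (ψ (gen 4)).val.2 * b) = 1 := by
    rw [dt_mul, dt_mul, ← dt_G, ha, dt_mul, dt_mul, dt_rho, adm_sg_four, dt_one, dt_inv, dt_inv,
      mul_one, dt_sq, mul_one, dt_sq]
  refine ⟨⟨(a, b), hd⟩, ⟨⟨_, d⟩, h4⟩, hom_ext fun i => Subtype.ext (Prod.ext (ha i) ?_)⟩
  change _ = b * (Phi h _ (gen i)).val.2 * b⁻¹
  by_cases hi : i.val < 4
  · rw [hb i hi, Phi_snd, chi_gen_lt hi, zpow_zero, gen_lt hi, sg_simple]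
    exact congrArg (fun q => b * q * b⁻¹) (mul_one iota).symm
  · obtain rfl : i = 4 := Fin.ext (by have := i.isLt; change i.val = 4; omega)
    rw [adm_snd_four]
    change _ = b * (b⁻¹ * (ψ (gen 4)).val.2 * b) * b⁻¹
    group

/-- The normal form of small deformations. -/
theorem normal_form (h : Poly e) :
    ∀ᶠ φ in SS.near (Lat h.toGram 1).subtype, ∃ (g : G) (R : K),
      φ.range = (Lat h.toGram R).map (MulAut.conj g).toMonoidHom := by
  let f : W0 →* Lat h.toGram 1 := (Phi h.toGram 1).rangeRestrict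
  have t1 := adm_tendsto (Lat h.toGram 1).subtype f adm_p1
    (continuous_fst.comp continuous_subtype_val)
  have t2 := adm_tendsto (Lat h.toGram 1).subtype f adm_p2
    (continuous_snd.comp continuous_subtype_val)
  rw [show adm_p1.comp ((Lat h.toGram 1).subtype.comp f) = (rho h.toGram).comp W0.subtype from
    rfl] at t1
  rw [show adm_p2.comp ((Lat h.toGram 1).subtype.comp f) = sg.comp W0.subtype from
    MonoidHom.ext (adm_snd_one h.toGram)] at t2
  filter_upwards [t1.eventually (rigid_fst h), t2.eventually rigid_snd] with φ ⟨a, ha⟩ ⟨b, hb, h4⟩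
  have key : ∃ (g : G) (R : K), φ.comp f = (MulAut.conj g).toMonoidHom.comp (Phi h.toGram R) := by
    by_cases hd : dt a = dt b
    · exact adm_core h.toGram (φ.comp f) hd ha hb h4
    refine adm_core h.toGram (φ.comp f) (b := b * iota) ?_ ha (fun i hi => (hb i hi).trans ?_) ?_
    · rw [dt_mul, dt_iota]
      rcases dt_cases a with c | c <;> rcases dt_cases b with d | d <;> simp [c, d] at hd ⊢
    · group
    · change app (b⁻¹ * (φ.comp f (gen 4)).val.2 * b) o = o at h4
      rw [_root_.mul_inv_rev, ← mul_assoc, app_mul, iota_o, mul_assoc iota⁻¹, mul_assoc iota⁻¹,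
        app_mul, h4, app_inv_o iota_o]
  obtain ⟨g, R, k⟩ := key
  refine ⟨g, R, ?_⟩
  have hf : f.range = ⊤ := MonoidHom.range_eq_top.2 (Phi h.toGram 1).rangeRestrict_surjective
  change _ = (Phi h.toGram R).range.map _
  rw [← MonoidHom.range_comp, ← k, MonoidHom.range_comp, hf, MonoidHom.range_eq_map]

theorem deforms (h : Poly e) : SS.Deforms (Lat h.toGram 1).subtype := by
  have hi : Function.Injective (Phi h.toGram 1) := fun v w k =>
    Subtype.ext (rho_injective h (congrArg (fun g : G => g.val.1) k))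
  let r : ℝ → K := fun s => ⟨one 5 s, one_mem_K (by decide) s⟩
  have hr : Continuous r := (continuous_one 5).subtype_mk _
  let f : Lat h.toGram 1 →* W0 := (MonoidHom.ofInjective hi).symm.toMonoidHom
  have hf : ∀ γ, Phi h.toGram 1 (f γ) = γ.val := fun γ =>
    MonoidHom.apply_ofInjective_symm hi γ
  refine ⟨fun s => (Phi h.toGram (r s.val)).comp f, fun γ => ?_, ?_, 1, ?_⟩
  · refine Continuous.subtype_mk (f := fun s : unitInterval =>
      (rho h.toGram (f γ).val, sg (f γ).val * (r s.val ^ chi (f γ).val).val.val)) ?_ _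
    exact continuous_const.prodMk (continuous_const.mul (continuous_subtype_val.comp
      (continuous_subtype_val.comp ((hr.comp continuous_subtype_val).zpow _))))
  · have : r 0 = 1 := Subtype.ext (one_zero 5)
    refine MonoidHom.ext fun γ => ?_
    change Phi h.toGram (r 0) (f γ) = γ.val
    rw [this, hf]
  · rintro ⟨g, hg⟩
    have k := congrArg (fun q : G => q.val.2) (hg ⟨_, gen 4, rfl⟩)
    have k1 : f ⟨_, gen 4, rfl⟩ = gen 4 := hi (hf _)
    change (Phi h.toGram (r 1) (f ⟨_, gen 4, rfl⟩)).val.2 =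
      g.val.2 * (Phi h.toGram 1 (gen 4)).val.2 * g.val.2⁻¹ at k
    rw [k1, adm_snd_four, adm_snd_one, adm_sg_four, mul_one, mul_inv_cancel] at k
    have k2 := congrFun (congrFun (congrArg mat k) 2) 1
    change mat (one 5 1).val 2 1 = _ at k2
    rw [mat_one'] at k2
    simp [sn, cn, bas] at k2
    exact (Real.sin_pos_of_pos_of_le_one one_pos le_rfl).ne' k2

theorem lat_fg (h : Poly e) : (Lat h.toGram 1).FG := by
  refine (Subgroup.fg_iff _).2 ⟨Phi h.toGram 1 '' Set.range gen, ?_, (Set.finite_range _).image _⟩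
  rw [← MonoidHom.map_closure, closure_gen, Lat, MonoidHom.range_eq_map]

theorem admissible (h : Poly e) : SS.Admissible X (Lat h.toGram 1) :=
  ⟨lat_fg h, fd_discrete (lat_disc h 1), lat_disc h 1, (normal_form h).mono fun _ ⟨g, R, k⟩ =>
    k ▸ disc_conj (lat_disc h R) g, deforms h⟩

end Pool.Agent.Lib.MP_99bfa4_al.IR
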