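import Pool.Agent.Lib.MP_99bfa4_al.IR.Fld
import Pool.Agent.Lib.MP_cdc9ab_al.Param

/-! Invariant differential operators commute with averages of translates. -/

open Matrix MeasureTheory Filter
open scoped ContDiff Topology InnerProductSpace ComplexConjugate

namespace Pool.Agent.Lib.MP_99bfa4_al.IR

open Pool.Agent.Lib.MP_cdc9ab_al

/-- A vector field is the derivative in the direction of a smooth ambient field. -/
lemma avg_vf {D : Module.End ℂ Smooth} (hD : ∀ y : X, ∃ c : ℝ → X, c 0 = y ∧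
    ∀ f : Smooth, HasDerivAt (fun t => f.val (c t)) ((D f).val y) 0) :
    ∃ V : Amb → Amb, ContDiff ℝ ∞ V ∧ ∀ (u : Smooth) (F : Amb → ℂ), ContDiff ℝ ∞ F →
      (∀ x, F (mx x) = u.val x) → ∀ x, (D u).val x = fderiv ℝ F (mx x) (V (mx x)) := by
  have hc : ∀ i j, (fun x : X => ((mx x i j : ℝ) : ℂ)) ∈ Smooth := fun i j =>
    smooth_of (F := fun m => ((m i j : ℝ) : ℂ))
      (Complex.ofRealCLM.contDiff.comp (by fun_prop)) fun _ => rfl
  choose W hW hW' using fun i j => Smooth.ext' (D ⟨_, hc i j⟩)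
  refine ⟨fun m i j => (W i j m).re, contDiff_pi.2 fun i => contDiff_pi.2 fun j =>
    Complex.reCLM.contDiff.comp (hW i j), fun u F hF h x => ?_⟩
  obtain ⟨c, c0, H⟩ := hD x
  have h1 : HasDerivAt (fun t => mx (c t)) (fun i j => (W i j (mx x)).re) 0 := by
    refine hasDerivAt_pi.2 fun i => hasDerivAt_pi.2 fun j => ?_
    rw [hW']
    exact Complex.reCLM.hasFDerivAt.comp_hasDerivAt 0 (H ⟨_, hc i j⟩)
  have h2 : HasFDerivAt F (fderiv ℝ F (mx x)) (mx (c 0)) := by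
    rw [c0]
    exact (hF.differentiable (by simp) (mx x)).hasFDerivAt
  refine (H u).unique ?_
  simp only [← h]
  exact h2.comp_hasDerivAt 0 h1

lemma avg_main {T : Type} [TopologicalSpace T] [MeasurableSpace T] [OpensMeasurableSpace T]
    (ν : Measure T) {S : Set T} (hS : IsCompact S) (hm : MeasurableSet S) {c : T → ℝ}
    (hc : IntegrableOn c S ν) {ρ : T → Amb × Amb} (hρ : Continuous ρ) (D : DX) :
    ∀ Φ : Amb × Amb × Amb → ℂ, ContDiff ℝ ∞ Φ → ∃ Φ' : Amb × Amb × Amb → ℂ, ContDiff ℝ ∞ Φ' ∧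
      (∀ q (u : Smooth), (∀ x, u.val x = Φ (mx x, q)) → ∀ x, (D.val u).val x = Φ' (mx x, q)) ∧
      ∀ u : Smooth, (∀ x, u.val x = ∫ t in S, c t • Φ (mx x, ρ t) ∂ν) →
        ∀ x, (D.val u).val x = ∫ t in S, c t • Φ' (mx x, ρ t) ∂ν := by
  have hD := D.property.1
  generalize D.val = D at hD
  have hI : ∀ Φ : Amb × Amb × Amb → ℂ, ContDiff ℝ ∞ Φ → ∀ m,
      Integrable (fun t => c t • Φ (m, ρ t)) (ν.restrict S) := fun Φ hΦ m =>
    param_integrable hS hm hc (hΦ.continuous.comp (continuous_const.prodMk hρ)).continuousOn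
  have hM : ∀ (a : Smooth) (E : Module.End ℂ Smooth), (∀ f, E f = a * f) →
      ∀ Φ : Amb × Amb × Amb → ℂ, ContDiff ℝ ∞ Φ → ∃ Φ' : Amb × Amb × Amb → ℂ, ContDiff ℝ ∞ Φ' ∧
      (∀ q (u : Smooth), (∀ x, u.val x = Φ (mx x, q)) → ∀ x, (E u).val x = Φ' (mx x, q)) ∧
      ∀ u : Smooth, (∀ x, u.val x = ∫ t in S, c t • Φ (mx x, ρ t) ∂ν) →
        ∀ x, (E u).val x = ∫ t in S, c t • Φ' (mx x, ρ t) ∂ν := by
    intro a E hE Φ hΦ
    obtain ⟨A, hA, h⟩ := Smooth.ext' a
    refine ⟨fun p => A p.1 * Φ p, (hA.comp contDiff_fst).mul hΦ, fun q u hu x => ?_,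
      fun u hu x => ?_⟩
    · beta_reduce
      rw [hE, h, ← hu]
      rfl
    · simp only [← mul_smul_comm, integral_const_mul]
      rw [hE, h, ← hu]
      rfl
  induction hD using Algebra.adjoin_induction with
  | mem E hE =>
    rcases hE with ⟨a, ha⟩ | hE
    · exact hM a E ha
    intro Φ hΦ
    obtain ⟨V, hV, H⟩ := avg_vf hE
    have h1 : ∀ m q, fderiv ℝ (fun m => Φ (m, q)) m (V m) = fderiv ℝ Φ (m, q) (V m, 0) :=
      fun m q => DFunLike.congr_fun ((hΦ.differentiable (by simp) (m, q)).hasFDerivAt.comp m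
        (hasFDerivAt_prodMk_left (𝕜 := ℝ) m q)).fderiv (V m)
    refine ⟨fun p => fderiv ℝ Φ p (V p.1, 0), (hΦ.fderiv_right (m := ∞) (le_of_eq rfl)).clm_apply
      ((hV.comp contDiff_fst).prodMk contDiff_const), fun q u hu x => ?_, fun u hu x => ?_⟩
    · rw [H u (fun m => Φ (m, q)) (hΦ.comp (contDiff_id.prodMk contDiff_const))
        (fun x => (hu x).symm), h1]
    · rw [H u (fun m => ∫ t in S, c t • Φ (m, ρ t) ∂ν) (contDiff_iff_contDiffAt.2 fun m =>
        param_smooth hS hm hρ.continuousOn hc isOpen_univ (fun p _ => hΦ.contDiffAt)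
          fun _ _ => trivial) (fun x => (hu x).symm),
        param_fderiv hS hm hρ.continuousOn hc isOpen_univ (fun p _ => hΦ.contDiffAt)
          fun _ _ => trivial]
      simp only [h1]
  | algebraMap r => exact hM (algebraMap ℂ Smooth r) _ fun f => Algebra.smul_def r f
  | add E E' _ _ ih ih' =>
    intro Φ hΦ
    obtain ⟨Ψ, h1, h2, h3⟩ := ih Φ hΦ
    obtain ⟨Ψ', k1, k2, k3⟩ := ih' Φ hΦ
    refine ⟨fun p => Ψ p + Ψ' p, h1.add k1, fun q u hu x => ?_, fun u hu x => ?_⟩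
    · beta_reduce
      rw [← h2 q u hu, ← k2 q u hu]
      rfl
    · simp only [smul_add]
      rw [integral_add (hI Ψ h1 _) (hI Ψ' k1 _), ← h3 u hu, ← k3 u hu]
      rfl
  | mul E E' _ _ ih ih' =>
    intro Φ hΦ
    obtain ⟨Ψ', k1, k2, k3⟩ := ih' Φ hΦ
    obtain ⟨Ψ, h1, h2, h3⟩ := ih Ψ' k1
    exact ⟨Ψ, h1, fun q u hu => h2 q _ (k2 q u hu), fun u hu => h3 _ (k3 u hu)⟩

theorem DX_avg {T : Type} [TopologicalSpace T] [MeasurableSpace T] [OpensMeasurableSpace T]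
    (ν : Measure T) {S : Set T} (hS : IsCompact S) (hm : MeasurableSet S) {c : T → ℝ}
    (hc : IntegrableOn c S ν) {g : T → G} (hg : Continuous g) (f : Smooth) :
    ∃ f' : Smooth, (∀ x, f'.val x = ∫ t in S, c t • f.val (g t • x) ∂ν) ∧
      ∀ (D : DX) (x : X), (D.val f').val x = ∫ t in S, c t • (D.val f).val (g t • x) ∂ν := by
  obtain ⟨F, hF, h⟩ := Smooth.ext' f
  let ρ : T → Amb × Amb := fun t => (amb (mat (g t).val.1), amb (mat (g t).val.2⁻¹))
  have hg' : Continuous fun t => (g t).val := continuous_subtype_val.comp hg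
  have hρ : Continuous ρ :=
    (continuous_mat.comp hg'.fst).prodMk (continuous_mat.comp hg'.snd.inv)
  let Φ : Amb × Amb × Amb → ℂ := fun p =>
    F (amb (Matrix.of p.2.1 * Matrix.of p.1 * Matrix.of p.2.2))
  have hΦ : ContDiff ℝ ∞ Φ := by
    refine hF.comp (contDiff_pi.2 fun i => contDiff_pi.2 fun j => ?_)
    simp only [amb_apply, Matrix.mul_apply, of_apply]
    fun_prop
  have h1 : ∀ x t, Φ (mx x, ρ t) = f.val (g t • x) := fun x t => h (g t • x)
  refine ⟨⟨fun x => ∫ t in S, c t • f.val (g t • x) ∂ν,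
    smooth_of (F := fun m => ∫ t in S, c t • Φ (m, ρ t) ∂ν) (contDiff_iff_contDiffAt.2 fun m =>
      param_smooth hS hm hρ.continuousOn hc isOpen_univ (fun p _ => hΦ.contDiffAt)
        fun _ _ => trivial) fun x => by simp only [h1]⟩, fun _ => rfl, fun D x => ?_⟩
  obtain ⟨Ψ, -, h2, h3⟩ := avg_main ν hS hm hc hρ D Φ hΦ
  rw [h3 _ (fun x => by simp only [h1]) x]
  refine integral_congr_ae (Eventually.of_forall fun t => ?_)
  beta_reduce
  rw [← h2 (ρ t) (tau (g t)⁻¹ f) (fun x => by rw [h1, tau_val, inv_inv]) x, DX_tau, tau_val,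
    inv_inv]

end Pool.Agent.Lib.MP_99bfa4_al.IR
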