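import Pool.Agent.Lib.MP_99bfa4_al.IR.Defs

/-! Elementary facts on the Lorentz form, the groups, reflections and point inversions. -/

open Matrix MeasureTheory
open scoped ContDiff Topology

namespace Pool.Agent.Lib.MP_99bfa4_al.IR

abbrev V4 : Type := Fin 4 → ℝ

abbrev M4 : Type := Matrix (Fin 4) (Fin 4) ℝ

/-- The ambient normed space of matrix entries. -/
abbrev Amb : Type := Fin 4 → Fin 4 → ℝ

/-- The algebra of G-invariant differential operators on X. -/
noncomputable abbrev DX : Subalgebra ℂ (Module.End ℂ Smooth) :=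
  Gen.InvDiffOp G (Subtype.val : Smooth → X → ℂ)

lemma B_comm (x y : V4) : B x y = B y x := by unfold B; ring

@[simp] lemma B_add_left (x y z : V4) : B (x + y) z = B x z + B y z := by
  simp only [B, Pi.add_apply]; ring

@[simp] lemma B_add_right (x y z : V4) : B z (x + y) = B z x + B z y := by
  simp only [B, Pi.add_apply]; ring

@[simp] lemma B_smul_left (c : ℝ) (x z : V4) : B (c • x) z = c * B x z := by
  simp only [B, Pi.smul_apply, smul_eq_mul]; ring

@[simp] lemma B_smul_right (c : ℝ) (x z : V4) : B z (c • x) = c * B z x := by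
  simp only [B, Pi.smul_apply, smul_eq_mul]; ring

@[simp] lemma B_neg_left (x z : V4) : B (-x) z = -B x z := by simp only [B, Pi.neg_apply]; ring

@[simp] lemma B_neg_right (x z : V4) : B z (-x) = -B z x := by simp only [B, Pi.neg_apply]; ring

@[simp] lemma B_sub_left (x y z : V4) : B (x - y) z = B x z - B y z := by
  simp only [B, Pi.sub_apply]; ring

@[simp] lemma B_sub_right (x y z : V4) : B z (x - y) = B z x - B z y := by
  simp only [B, Pi.sub_apply]; ring

@[simp] lemma B_zero_left (z : V4) : B 0 z = 0 := by simp [B]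

@[simp] lemma B_zero_right (z : V4) : B z 0 = 0 := by simp [B]

lemma B_nondeg {x y : V4} (h : ∀ z, B x z = B y z) : x = y := by
  have h0 := h (Pi.single 0 1)
  have h1 := h (Pi.single 1 1)
  have h2 := h (Pi.single 2 1)
  have h3 := h (Pi.single 3 1)
  simp [B] at h0 h1 h2 h3
  ext i
  fin_cases i <;> assumption

@[fun_prop] lemma continuous_B {T : Type*} [TopologicalSpace T] {f g : T → V4}
    (hf : Continuous f) (hg : Continuous g) : Continuous fun t => B (f t) (g t) := by
  unfold B
  fun_prop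

/-- The base point of the hyperboloid. -/
def o : V4 := ![1, 0, 0, 0]

@[simp] lemma B_o (x : V4) : B o x = x 0 := by simp [B, o]

@[simp] lemma B_o' (x : V4) : B x o = x 0 := by simp [B, o]

@[simp] lemma o_zero : o 0 = 1 := rfl

/-- The upper sheet of the hyperboloid. -/
def Up (x : V4) : Prop := B x x = 1 ∧ 0 < x 0

lemma up_o : Up o := ⟨by simp, by simp⟩

lemma Up.one_le {x : V4} (h : Up x) : 1 ≤ x 0 := by
  have h1 := h.1
  rw [B] at h1
  nlinarith [h.2, mul_self_nonneg (x 1), mul_self_nonneg (x 2), mul_self_nonneg (x 3)]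

lemma cs3 (a b c d e f : ℝ) :
    (a * d + b * e + c * f) ^ 2 ≤ (a * a + b * b + c * c) * (d * d + e * e + f * f) := by
  nlinarith [sq_nonneg (a * e - b * d), sq_nonneg (a * f - c * d), sq_nonneg (b * f - c * e)]

lemma sq3 (a b c : ℝ) : 0 ≤ a * a + b * b + c * c :=
  add_nonneg (add_nonneg (mul_self_nonneg a) (mul_self_nonneg b)) (mul_self_nonneg c)

lemma lor_pos {x y : V4} (hx : 0 < B x x) (hy : 0 < B y y) (x0 : 0 < x 0) (y0 : 0 < y 0) :
    0 < B x y := by
  rw [B] at *
  have h : (x 1 * y 1 + x 2 * y 2 + x 3 * y 3) ^ 2 < (x 0 * y 0) ^ 2 := by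
    refine (cs3 _ _ _ _ _ _).trans_lt ?_
    rw [show (x 0 * y 0) ^ 2 = (x 0 * x 0) * (y 0 * y 0) by ring]
    exact mul_lt_mul'' (by linarith) (by linarith) (sq3 _ _ _) (sq3 _ _ _)
  linarith [(abs_lt_of_sq_lt_sq' h (mul_pos x0 y0).le).2]

lemma Up.eq_o {x : V4} (h : Up x) (h0 : x 0 ≤ 1) : x = o := by
  have h1 := h.1
  have h2 : x 0 = 1 := le_antisymm h0 h.one_le
  rw [B, h2] at h1
  have a1 : x 1 = 0 := by nlinarith [mul_self_nonneg (x 1), mul_self_nonneg (x 2), mul_self_nonneg (x 3)]
  have a2 : x 2 = 0 := by nlinarith [mul_self_nonneg (x 1), mul_self_nonneg (x 2), mul_self_nonneg (x 3)]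
  have a3 : x 3 = 0 := by nlinarith [mul_self_nonneg (x 1), mul_self_nonneg (x 2), mul_self_nonneg (x 3)]
  ext i
  fin_cases i <;> simp [o, h2, a1, a2, a3]

/-- A vector orthogonal to a point of the hyperboloid is spacelike or zero. -/
lemma Up.neg_of_orth {p x : V4} (hp : Up p) (h : B p x = 0) (hx : 0 ≤ B x x) : x = 0 := by
  have h1 := hp.1
  have h2 := hp.one_le
  rw [B] at h h1 hx
  have h3 := cs3 (p 1) (p 2) (p 3) (x 1) (x 2) (x 3)
  have e1 : p 1 * x 1 + p 2 * x 2 + p 3 * x 3 = p 0 * x 0 := by linarith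
  have e2 : p 1 * p 1 + p 2 * p 2 + p 3 * p 3 = p 0 * p 0 - 1 := by linarith
  rw [e1, e2] at h3
  have n := sq3 (x 1) (x 2) (x 3)
  have h4 : x 1 * x 1 + x 2 * x 2 + x 3 * x 3 ≤ 0 := by
    nlinarith [mul_le_mul_of_nonneg_left (show x 1 * x 1 + x 2 * x 2 + x 3 * x 3 ≤ x 0 * x 0 by
      linarith) (mul_self_nonneg (p 0))]
  have a1 : x 1 = 0 := by nlinarith [mul_self_nonneg (x 1), mul_self_nonneg (x 2), mul_self_nonneg (x 3)]
  have a2 : x 2 = 0 := by nlinarith [mul_self_nonneg (x 1), mul_self_nonneg (x 2), mul_self_nonneg (x 3)]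
  have a3 : x 3 = 0 := by nlinarith [mul_self_nonneg (x 1), mul_self_nonneg (x 2), mul_self_nonneg (x 3)]
  have a0 : x 0 = 0 := by
    rw [a1, a2, a3] at e1
    have : p 0 * x 0 = 0 := by linarith
    exact (mul_eq_zero.1 this).resolve_left (by linarith)
  ext i
  fin_cases i <;> simp [a0, a1, a2, a3]

/-- The multiplicative triangle inequality at the base point. -/
lemma tri {b c : V4} (hb : Up b) (hc : Up c) : c 0 ≤ 2 * b 0 * B b c := by
  have h1 := hb.one_le
  have c0 := hc.2
  have hb := hb.1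
  have hc := hc.1
  rw [B] at *
  have h : (2 * b 0 * (b 1 * c 1 + b 2 * c 2 + b 3 * c 3)) ^ 2 ≤
      ((2 * b 0 * b 0 - 1) * c 0) ^ 2 := by
    have e1 : (b 1 * c 1 + b 2 * c 2 + b 3 * c 3) ^ 2 ≤ (b 0 ^ 2 - 1) * c 0 ^ 2 := by
      have := cs3 (b 1) (b 2) (b 3) (c 1) (c 2) (c 3)
      have e2 : b 1 * b 1 + b 2 * b 2 + b 3 * b 3 = b 0 ^ 2 - 1 := by linarith
      have e3 : c 1 * c 1 + c 2 * c 2 + c 3 * c 3 ≤ c 0 ^ 2 := by nlinarith
      rw [e2] at this
      exact this.trans (mul_le_mul_of_nonneg_left e3 (by nlinarith))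
    nlinarith [mul_le_mul_of_nonneg_left e1 (sq_nonneg (2 * b 0)), sq_nonneg (c 0)]
  have := (abs_le_of_sq_le_sq' h (mul_nonneg (by nlinarith) c0.le)).2
  nlinarith

/-- The Gram matrix of the form. -/
def eta : M4 := diagonal ![1, -1, -1, -1]

lemma eta_sq : eta * eta = 1 := by
  rw [eta, diagonal_mul_diagonal, ← diagonal_one]
  congr 1
  ext i
  fin_cases i <;> simp

lemma mat_eq {N : M4} (h : ∀ x y, B (N *ᵥ x) (N *ᵥ y) = B x y) : Nᵀ * eta * N = eta := by
  ext i j
  have := h (Pi.single i 1) (Pi.single j 1)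
  simp only [B, mulVec_single_one, col_apply] at this
  simp only [eta, mul_apply, transpose_apply, diagonal_apply, mul_ite, mul_zero,
    Finset.sum_ite_eq', Finset.mem_univ, if_true, Fin.sum_univ_four]
  fin_cases i <;> fin_cases j <;> simp at this ⊢ <;> linarith

lemma left_inv {N : M4} (h : ∀ x y, B (N *ᵥ x) (N *ᵥ y) = B x y) : eta * Nᵀ * eta * N = 1 := by
  rw [Matrix.mul_assoc, Matrix.mul_assoc, ← Matrix.mul_assoc Nᵀ, mat_eq h, eta_sq]

lemma eta_apply (N : M4) : (eta * Nᵀ * eta) 0 0 = N 0 0 := by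
  simp [eta, mul_diagonal, diagonal_mul]

/-- The element of O+(1,3) given by a matrix that preserves the form and has a positive corner. -/
def ofMat (N : M4) (h : ∀ x y, B (N *ᵥ x) (N *ᵥ y) = B x y) (h0 : 0 < N 0 0) : L :=
  ⟨⟨N, eta * Nᵀ * eta, mul_eq_one_comm.1 (left_inv h), left_inv h⟩, h, fun x h1 h2 => by
    have e : N *ᵥ ((eta * Nᵀ * eta) *ᵥ o) = o := by
      rw [mulVec_mulVec, mul_eq_one_comm.1 (left_inv h), one_mulVec]
    have e0 : ((eta * Nᵀ * eta) *ᵥ o) 0 = N 0 0 := by
      rw [← eta_apply N]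
      simp [mulVec, dotProduct, o, Fin.sum_univ_four]
    change 0 < (N *ᵥ x) 0
    rw [← B_o (N *ᵥ x), ← e, h]
    refine lor_pos ?_ (h1 ▸ one_pos) (e0 ▸ h0) h2
    rw [← h, e]
    simp⟩

@[simp] lemma mat_ofMat (N : M4) (h h0) : mat (ofMat N h h0) = N := rfl

lemma mat_mul (g h : L) : mat (g * h) = mat g * mat h := rfl

@[simp] lemma mat_one : mat 1 = 1 := rfl

lemma mat_inj {g h : L} (e : mat g = mat h) : g = h := Subtype.ext (Units.ext e)

/-- The action on vectors. -/
def app (g : L) (x : V4) : V4 := mat g *ᵥ x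

@[simp] lemma B_app (g : L) (x y : V4) : B (app g x) (app g y) = B x y := g.property.1 x y

lemma Up.app {x : V4} (h : Up x) (g : L) : Up (app g x) :=
  ⟨(B_app g x x).trans h.1, g.property.2 x h.1 h.2⟩

lemma app_mul (g h : L) (x : V4) : app (g * h) x = app g (app h x) :=
  (mulVec_mulVec x (mat g) (mat h)).symm

@[simp] lemma app_one (x : V4) : app 1 x = x := one_mulVec x

@[simp] lemma app_inv_app (g : L) (x : V4) : app g⁻¹ (app g x) = x := by
  rw [← app_mul, inv_mul_cancel, app_one]

@[simp] lemma app_app_inv (g : L) (x : V4) : app g (app g⁻¹ x) = x := by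
  rw [← app_mul, mul_inv_cancel, app_one]

@[simp] lemma app_add (g : L) (x y : V4) : app g (x + y) = app g x + app g y := mulVec_add _ _ _

@[simp] lemma app_sub (g : L) (x y : V4) : app g (x - y) = app g x - app g y := mulVec_sub _ _ _

@[simp] lemma app_smul (g : L) (c : ℝ) (x : V4) : app g (c • x) = c • app g x :=
  mulVec_smul _ _ _

@[simp] lemma app_neg (g : L) (x : V4) : app g (-x) = -app g x := mulVec_neg _ _

@[simp] lemma app_zero (g : L) : app g 0 = 0 := mulVec_zero _

lemma B_app_left (g : L) (x y : V4) : B (app g x) y = B x (app g⁻¹ y) := by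
  rw [← B_app g x, app_app_inv]

lemma L_ext {g h : L} (H : ∀ x, app g x = app h x) : g = h := by
  refine mat_inj (Matrix.ext fun i j => ?_)
  have := congrFun (H (Pi.single j 1)) i
  simpa [app] using this

lemma app_inv_o {g : L} (h : app g o = o) : app g⁻¹ o = o := by
  conv_lhs => rw [← h, app_inv_app]

lemma mat_inv (g : L) : mat g⁻¹ = eta * (mat g)ᵀ * eta := by
  have := left_inv (N := mat g) g.property.1
  rw [← Matrix.mul_one (eta * (mat g)ᵀ * eta), ← mat_one, ← mul_inv_cancel g, mat_mul,
    ← Matrix.mul_assoc, this, Matrix.one_mul]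

lemma mat_mul_inv (g : L) : mat g * mat g⁻¹ = 1 := by rw [← mat_mul, mul_inv_cancel, mat_one]

lemma mat_inv_mul (g : L) : mat g⁻¹ * mat g = 1 := by rw [← mat_mul, inv_mul_cancel, mat_one]

lemma mat_eta (g : L) : mat g * eta * (mat g)ᵀ = eta := by
  have h := mat_mul_inv g
  rw [mat_inv, ← Matrix.mul_assoc, ← Matrix.mul_assoc] at h
  rw [← Matrix.mul_one (mat g * eta * (mat g)ᵀ), ← eta_sq, ← Matrix.mul_assoc, h, Matrix.one_mul]

@[fun_prop] lemma continuous_mat : Continuous mat :=
  Units.continuous_val.comp continuous_subtype_val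

lemma continuous_L {T : Type*} [TopologicalSpace T] {g : T → L}
    (h : Continuous fun t => mat (g t)) : Continuous g := by
  refine continuous_induced_rng.2 (Units.continuous_iff.2 ⟨h, ?_⟩)
  have : (fun t => (((Subtype.val ∘ g) t)⁻¹).val) = fun t => eta * (mat (g t))ᵀ * eta :=
    funext fun t => mat_inv (g t)
  rw [this]
  exact (continuous_const.matrix_mul h.matrix_transpose).matrix_mul continuous_const

@[fun_prop] lemma continuous_app {T : Type*} [TopologicalSpace T] {g : T → L} {x : T → V4}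
    (hg : Continuous g) (hx : Continuous x) : Continuous fun t => app (g t) (x t) :=
  (continuous_mat.comp hg).matrix_mulVec hx

lemma isInducing_mat : Topology.IsInducing mat :=
  ⟨le_antisymm continuous_mat.le_induced (by
    have := @continuous_L L (TopologicalSpace.induced mat inferInstance) id continuous_induced_dom
    exact continuous_id_iff_le.1 this)⟩

/-- The determinant. -/
def dt (g : L) : ℝ := (mat g).det

lemma dt_mul (g h : L) : dt (g * h) = dt g * dt h := det_mul _ _

@[simp] lemma dt_one : dt 1 = 1 := det_one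

lemma dt_sq (g : L) : dt g * dt g = 1 := by
  have h := congrArg det (left_inv (N := mat g) g.property.1)
  have k := congrArg det eta_sq
  simp only [det_mul, det_transpose, det_one] at h k
  unfold dt
  linear_combination h - (mat g).det * (mat g).det * k

lemma dt_inv (g : L) : dt g⁻¹ = dt g := by
  have h := dt_mul g⁻¹ g
  rw [inv_mul_cancel, dt_one] at h
  linear_combination -dt g * h - dt g⁻¹ * dt_sq g

lemma dt_cases (g : L) : dt g = 1 ∨ dt g = -1 := mul_self_eq_one_iff.1 (dt_sq g)

lemma dt_X (x : X) : dt x.val = 1 := x.property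

lemma dt_G (g : G) : dt g.val.1 = dt g.val.2 := g.property

@[fun_prop] lemma continuous_dt : Continuous dt := continuous_mat.matrix_det

/-- The hyperbolic cosine of the displacement of the base point. -/
def ht (g : L) : ℝ := app g o 0

lemma ht_eq (g : L) : ht g = mat g 0 0 := by
  simp [ht, app, mulVec, dotProduct, o, Fin.sum_univ_four]

lemma one_le_ht (g : L) : 1 ≤ ht g := (up_o.app g).one_le

@[simp] lemma ht_one : ht 1 = 1 := by simp [ht]

lemma ht_inv_mul (g h : L) : ht (g⁻¹ * h) = B (app g o) (app h o) := by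
  rw [B_app_left, B_o, ht, app_mul]

lemma ht_inv (g : L) : ht g⁻¹ = ht g := by
  rw [← mul_one g⁻¹, ht_inv_mul, app_one, B_o', ht]

lemma ht_mul_right (g : L) {k : L} (hk : app k o = o) : ht (g * k) = ht g := by
  rw [ht, app_mul, hk, ht]

lemma ht_mul_left (g : L) {k : L} (hk : app k o = o) : ht (k * g) = ht g := by
  rw [← ht_inv, _root_.mul_inv_rev, ht_mul_right _ (app_inv_o hk), ht_inv]

lemma ht_mul_le (g h : L) : ht (g * h) ≤ 2 * ht g * ht h := by
  have := tri (up_o.app g) (up_o.app (g * h))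
  rwa [← ht_inv_mul, inv_mul_cancel_left] at this

lemma fix_of_ht {g : L} (h : ht g ≤ 1) : app g o = o := (up_o.app g).eq_o h

@[fun_prop] lemma continuous_ht : Continuous ht :=
  (continuous_apply 0).comp (continuous_app continuous_id continuous_const)

lemma refl_vec (c : ℝ) (e x : V4) :
    ((1 : M4) + c • vecMulVec e (eta *ᵥ e)) *ᵥ x = x + (c * B x e) • e := by
  ext i
  simp [add_mulVec, smul_mulVec, vecMulVec_mulVec, eta, B, mulVec_diagonal, dotProduct,
    Fin.sum_univ_four]
  ring

/-- The reflection in a spacelike unit vector. -/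
def refl (e : V4) (h : B e e = -1) : L :=
  ofMat (1 + (2 : ℝ) • vecMulVec e (eta *ᵥ e)) (fun x y => by
    rw [refl_vec, refl_vec]
    simp only [B_add_left, B_add_right, B_smul_left, B_smul_right, B_comm e y, h]
    ring) (by
    simp [vecMulVec_apply, eta, mulVec_diagonal]
    nlinarith [mul_self_nonneg (e 0)])

lemma app_refl {e : V4} (h : B e e = -1) (x : V4) : app (refl e h) x = x + (2 * B x e) • e :=
  refl_vec 2 e x

lemma refl_sq {e : V4} (h : B e e = -1) : refl e h * refl e h = 1 := L_ext fun x => by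
  simp only [app_mul, app_refl h, B_add_left, B_smul_left, h, app_one]
  module

lemma dt_refl {e : V4} (h : B e e = -1) : dt (refl e h) = -1 := by
  change det (1 + (2 : ℝ) • vecMulVec e (eta *ᵥ e)) = -1
  rw [← smul_vecMulVec, vecMulVec_eq Unit, det_one_add_replicateCol_mul_replicateRow]
  rw [B] at h
  simp [dotProduct, eta, mulVec_diagonal, Fin.sum_univ_four]
  linarith

/-- The inversion in a point of the hyperboloid. -/
def pinv (v : V4) (h : B v v = 1) : L :=
  ofMat (-(1 + (-2 : ℝ) • vecMulVec v (eta *ᵥ v))) (fun x y => by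
    rw [neg_mulVec, neg_mulVec, refl_vec, refl_vec]
    simp only [B_neg_left, B_neg_right, B_add_left, B_add_right, B_smul_left, B_smul_right,
      B_comm v y, h]
    ring) (by
    rw [B] at h
    simp [vecMulVec_apply, eta, mulVec_diagonal]
    nlinarith [mul_self_nonneg (v 1), mul_self_nonneg (v 2), mul_self_nonneg (v 3)])

lemma app_pinv {v : V4} (h : B v v = 1) (x : V4) : app (pinv v h) x = (2 * B x v) • v - x := by
  change (-(1 + (-2 : ℝ) • vecMulVec v (eta *ᵥ v))) *ᵥ x = _
  rw [neg_mulVec, refl_vec]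
  module

/-- The inversion in the base point. -/
def iota : L := pinv o up_o.1

lemma app_iota (x : V4) : app iota x = (2 * x 0) • o - x := by rw [iota, app_pinv, B_o']

lemma mat_iota : mat iota = eta := by
  ext i j
  fin_cases i <;> fin_cases j <;>
    simp [iota, pinv, eta, mulVec_diagonal, o] <;> norm_num

lemma iota_o : app iota o = o := by rw [app_iota, o_zero]; module

lemma iota_sq : iota * iota = 1 := mat_inj (by rw [mat_mul, mat_iota, eta_sq, mat_one])

lemma dt_iota : dt iota = -1 := by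
  rw [dt, mat_iota, eta, det_diagonal, Fin.prod_univ_four]
  simp

lemma iota_comm {k : L} (hk : app k o = o) : iota * k = k * iota := L_ext fun x => by
  have : app k x 0 = x 0 := by rw [← B_o (app k x), ← B_o x, ← B_app k o x, hk]
  simp only [app_mul, app_iota, app_sub, app_smul, hk, this]

lemma smul_val (g : G) (x : X) : (g • x).val = g.val.1 * x.val * g.val.2⁻¹ := rfl

/-- Left translations as elements of G. -/
def lt : X →* G where
  toFun a := ⟨(a.val, 1), (dt_X a).trans dt_one.symm⟩
  map_one' := rfl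
  map_mul' _ _ := Subtype.ext (Prod.ext rfl (mul_one 1).symm)

/-- Right translations as elements of G. -/
def rt : X →* G where
  toFun a := ⟨(1, a.val), dt_one.trans (dt_X a).symm⟩
  map_one' := rfl
  map_mul' _ _ := Subtype.ext (Prod.ext (mul_one 1).symm rfl)

/-- The diagonal embedding. -/
def dg : L →* G where
  toFun a := ⟨(a, a), rfl⟩
  map_one' := rfl
  map_mul' _ _ := rfl

lemma lt_smul (a x : X) : lt a • x = a * x := Subtype.ext (mul_one _)

lemma rt_smul (a x : X) : rt a • x = x * a⁻¹ := Subtype.ext (by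
  change 1 * x.val * a.val⁻¹ = x.val * a.val⁻¹
  rw [one_mul])

/-- Conjugation of an element of X by an element of O+(1,3). -/
def cj (b : L) (x : X) : X := dg b • x

lemma cj_val (b : L) (x : X) : (cj b x).val = b * x.val * b⁻¹ := rfl

lemma continuous_lt : Continuous lt :=
  (continuous_subtype_val.prodMk continuous_const).subtype_mk _

lemma continuous_rt : Continuous rt :=
  (continuous_const.prodMk continuous_subtype_val).subtype_mk _

instance continuousSMulX : ContinuousSMul G X where
  continuous_smul := by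
    refine Continuous.subtype_mk (f := fun p : G × X => p.1.val.1 * p.2.val * p.1.val.2⁻¹) ?_ _
    fun_prop

lemma pretransitive : MulAction.IsPretransitive G X :=
  ⟨fun x y => ⟨lt (y * x⁻¹), by rw [lt_smul, inv_mul_cancel_right]⟩⟩

lemma stabilizer_iff (g : G) : g • (1 : X) = 1 ↔ g.val.1 = g.val.2 := by
  rw [Subtype.ext_iff, smul_val]
  change g.val.1 * 1 * g.val.2⁻¹ = 1 ↔ _
  rw [mul_one, mul_inv_eq_one]

/-- The entries of a matrix. -/
def amb : M4 →ₗ[ℝ] Amb where
  toFun N := fun i j => N i j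
  map_add' _ _ := rfl
  map_smul' _ _ := rfl

@[simp] lemma amb_apply (N : M4) (i j : Fin 4) : amb N i j = N i j := rfl

/-- The matrix entries of a point of X. -/
def mx (x : X) : Amb := amb (mat x.val)

lemma mx_apply (x : X) (i j : Fin 4) : mx x i j = mat x.val i j := rfl

lemma of_mx (x : X) : Matrix.of (mx x) = mat x.val := rfl

lemma Smooth.ext' (f : Smooth) : ∃ F : Amb → ℂ, ContDiff ℝ ∞ F ∧ ∀ x, F (mx x) = f.val x := f.2

lemma smooth_of {f : X → ℂ} {F : Amb → ℂ} (hF : ContDiff ℝ ∞ F) (h : ∀ x, F (mx x) = f x) :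
    f ∈ Smooth := ⟨F, hF, h⟩

@[fun_prop] lemma continuous_mx : Continuous mx := continuous_mat.comp continuous_subtype_val

lemma isEmbedding_mx : Topology.IsEmbedding mx :=
  ⟨isInducing_mat.comp Topology.IsInducing.subtypeVal, fun _ _ h => Subtype.ext (mat_inj h)⟩

instance t2X : T2Space X := isEmbedding_mx.t2Space

instance secondCountableX : SecondCountableTopology X := isEmbedding_mx.secondCountableTopology

instance haar_mu : mu.IsHaarMeasure := inferInstanceAs (Measure.haar : Measure X).IsHaarMeasure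

/-- The height on X. -/
def hx (x : X) : ℝ := ht x.val

@[fun_prop] lemma continuous_hx : Continuous hx := continuous_ht.comp continuous_subtype_val

/-- The closed balls. -/
def ball (R : ℝ) : Set X := {x | hx x ≤ R}

/-- The maximal compact subgroup SO(3). -/
def K : Subgroup X where
  carrier := {k | app k.val o = o}
  one_mem' := app_one o
  mul_mem' := fun {a b} ha hb => (app_mul a.val b.val o).trans ((congrArg _ hb).trans ha)
  inv_mem' := fun ha => app_inv_o ha

lemma mu_ne_zero : mu ≠ 0 := by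
  intro h
  have := isOpen_univ.measure_ne_zero mu ⟨1, Set.mem_univ _⟩
  rw [h] at this
  exact this rfl

end Pool.Agent.Lib.MP_99bfa4_al.IR
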