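import Pool.Agent.Lib.MP_99bfa4_al.IR.Curves

/-! Invariance of the Casimir elements under the adjoint action. -/

open Matrix MeasureTheory Filter
open scoped ContDiff Topology InnerProductSpace ComplexConjugate

namespace Pool.Agent.Lib.MP_99bfa4_al.IR

variable {A : Type*} [Ring A] [Algebra ℂ A]

/-- A quadratic expression in six elements. -/
noncomputable def cas_quad (q : Fin 6 → Fin 6 → ℝ) (d : Fin 6 → A) : A :=
  ∑ k, ∑ l, (q k l : ℂ) • (d k * d l)

lemma cas_quad_lin (q : Fin 6 → Fin 6 → ℝ) (d : Fin 6 → A) (Y : Fin 6 → M4) :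
    cas_quad q (fun i => lin d (Y i)) =
      cas_quad (fun k l => ∑ i, ∑ j, q i j * co (Y i) k * co (Y j) l) d := by
  simp only [cas_quad, lin, Finset.sum_mul_sum, smul_mul_smul_comm, Finset.smul_sum, smul_smul,
    Complex.ofReal_sum, Complex.ofReal_mul, Finset.sum_smul, mul_assoc]
  calc _ = ∑ i, ∑ k, ∑ j, ∑ l, ((q i j : ℂ) * ((co (Y i) k : ℂ) * (co (Y j) l : ℂ))) • (d k * d l) :=
        Finset.sum_congr rfl fun i _ => Finset.sum_comm
    _ = ∑ k, ∑ i, ∑ j, ∑ l, ((q i j : ℂ) * ((co (Y i) k : ℂ) * (co (Y j) l : ℂ))) • (d k * d l) :=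
        Finset.sum_comm
    _ = _ := Finset.sum_congr rfl fun k _ =>
        (Finset.sum_congr rfl fun i _ => Finset.sum_comm).trans Finset.sum_comm

def cas_q1 : Fin 6 → Fin 6 → ℝ :=
  ![![1, 0, 0, 0, 0, 0], ![0, 1, 0, 0, 0, 0], ![0, 0, 1, 0, 0, 0], ![0, 0, 0, -1, 0, 0],
    ![0, 0, 0, 0, -1, 0], ![0, 0, 0, 0, 0, -1]]

def cas_q2 : Fin 6 → Fin 6 → ℝ :=
  ![![0, 0, 0, 1, 0, 0], ![0, 0, 0, 0, 1, 0], ![0, 0, 0, 0, 0, 1], ![1, 0, 0, 0, 0, 0],
    ![0, 1, 0, 0, 0, 0], ![0, 0, 1, 0, 0, 0]]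

lemma cas1_eq (d : Fin 6 → A) : cas1 d = cas_quad cas_q1 d := by
  simp [cas1, cas_quad, cas_q1, Fin.sum_univ_six, sub_eq_add_neg]

lemma cas2_eq (d : Fin 6 → A) : cas2 d = cas_quad cas_q2 d := by
  simp [cas2, cas_quad, cas_q2, Fin.sum_univ_six]
  abel

/-- The minors of a matrix. -/
def cas_m (N : M4) (p q a c : Fin 4) : ℝ := N p a * N q c - N p c * N q a

def cas_s : Fin 4 → ℝ := ![1, -1, -1, -1]

lemma cas_entry (b : L) (i : Fin 6) (p q : Fin 4) : ad b (bas i) p q = cas_s q *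
    ![-cas_m (mat b) p q 0 1, -cas_m (mat b) p q 0 2, -cas_m (mat b) p q 0 3,
      cas_m (mat b) p q 2 3, cas_m (mat b) p q 3 1, cas_m (mat b) p q 1 2] i := by
  rw [ad, mat_inv, ← Matrix.mul_assoc, ← Matrix.mul_assoc, eta, mul_diagonal, mul_comm]
  congr 1
  fin_cases i <;> simp [Matrix.mul_apply, Fin.sum_univ_four, bas, cas_m, diagonal_apply] <;> ring

lemma cas_key (b : L) (p q r s : Fin 4) :
    ad b (bas 0) p q * ad b (bas 0) r s + ad b (bas 1) p q * ad b (bas 1) r s +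
      ad b (bas 2) p q * ad b (bas 2) r s - ad b (bas 3) p q * ad b (bas 3) r s -
      ad b (bas 4) p q * ad b (bas 4) r s - ad b (bas 5) p q * ad b (bas 5) r s =
    -(cas_s q * cas_s s) * (eta p r * eta q s - eta p s * eta q r) := by
  have h : ∀ i j, eta i j = mat b i 0 * mat b j 0 - mat b i 1 * mat b j 1 -
      mat b i 2 * mat b j 2 - mat b i 3 * mat b j 3 := fun i j => by
    conv_lhs => rw [← mat_eta b]
    simp [Matrix.mul_apply, Fin.sum_univ_four, eta, diagonal_apply]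
    ring
  simp only [cas_entry, h]
  simp [cas_m]
  ring

theorem cas1_ad (d : Fin 6 → A) (b : L) : cas1 (fun i => lin d (ad b (bas i))) = cas1 d := by
  rw [cas1_eq, cas1_eq, cas_quad_lin]
  congr 1
  funext k l
  have e : ∑ i, ∑ j, cas_q1 i j * co (ad b (bas i)) k * co (ad b (bas j)) l =
      co (ad b (bas 0)) k * co (ad b (bas 0)) l + co (ad b (bas 1)) k * co (ad b (bas 1)) l +
      co (ad b (bas 2)) k * co (ad b (bas 2)) l - co (ad b (bas 3)) k * co (ad b (bas 3)) l -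
      co (ad b (bas 4)) k * co (ad b (bas 4)) l - co (ad b (bas 5)) k * co (ad b (bas 5)) l := by
    simp [cas_q1, Fin.sum_univ_six, sub_eq_add_neg]
  rw [e]
  fin_cases k <;> fin_cases l <;>
    exact (cas_key b _ _ _ _).trans (by simp [cas_s, eta, cas_q1])

theorem cas2_ad (d : Fin 6 → A) (b : L) :
    cas2 (fun i => lin d (ad b (bas i))) = (dt b : ℂ) • cas2 d := by
  rw [cas2_eq, cas2_eq, cas_quad_lin]
  have k : (fun k l => ∑ i, ∑ j, cas_q2 i j * co (ad b (bas i)) k * co (ad b (bas j)) l) =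
      fun k l => dt b * cas_q2 k l := by
    funext k l
    have e : ∑ i, ∑ j, cas_q2 i j * co (ad b (bas i)) k * co (ad b (bas j)) l =
        co (ad b (bas 0)) k * co (ad b (bas 3)) l + co (ad b (bas 1)) k * co (ad b (bas 4)) l +
        co (ad b (bas 2)) k * co (ad b (bas 5)) l + co (ad b (bas 3)) k * co (ad b (bas 0)) l +
        co (ad b (bas 4)) k * co (ad b (bas 1)) l + co (ad b (bas 5)) k * co (ad b (bas 2)) l := by
      simp [cas_q2, Fin.sum_univ_six]
    rw [e, dt]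
    fin_cases k <;> fin_cases l <;>
      simp [co, cas_entry, cas_s, cas_m, cas_q2, det_succ_row_zero, Fin.sum_univ_succ,
        Fin.succAbove] <;> ring
  rw [k]
  simp only [cas_quad, Finset.smul_sum, smul_smul, Complex.ofReal_mul]

theorem cas2_comm {d : Fin 6 → A} (h : LieRel d) (i : Fin 6) : cas2 d * d i = d i * cas2 d := by
  obtain ⟨⟨a1, a2, a3⟩, ⟨b1, b2, b3⟩, ⟨c1, c2, c3⟩, ⟨d1, d2, d3⟩, e1, e2, e3⟩ := h.rels
  have r : ∀ {x y z : A}, x * y = z → ∀ w, x * (y * w) = z * w := fun h w => by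
    rw [← mul_assoc, h]
  fin_cases i <;>
    simp only [cas2, Fin.zero_eta, Fin.mk_one, Fin.reduceFinMk, mul_add, add_mul, mul_sub, sub_mul,
      mul_assoc, a1, a2, a3, b1, b2, b3, c1, c2, c3, d1, d2, d3, e1, e2, e3, r a1, r a2, r a3, r b1,
      r b2, r b3, r c1, r c2, r c3, r d1, r d2, r d3, r e1, r e2, r e3] <;> abel

lemma cas1_semi {d d' : Fin 6 → A} {T : A} (h : ∀ i, T * d i = d' i * T) :
    T * cas1 d = cas1 d' * T := by
  simp only [cas1, mul_add, mul_sub, add_mul, sub_mul, ← mul_assoc, h]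
  simp only [mul_assoc, h]

lemma cas2_semi {d d' : Fin 6 → A} {T : A} (h : ∀ i, T * d i = d' i * T) :
    T * cas2 d = cas2 d' * T := by
  simp only [cas2, mul_add, add_mul, ← mul_assoc, h]
  simp only [mul_assoc, h]

end Pool.Agent.Lib.MP_99bfa4_al.IR
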