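import Pool.Agent.Lib.MP_99bfa4_al.IR.Rep
import Pool.Agent.Lib.MP_99bfa4_al.IR.AN

/-! Convolutions of square integrable functions with test functions. -/

open Matrix MeasureTheory Filter
open scoped ContDiff Topology InnerProductSpace ComplexConjugate

namespace Pool.Agent.Lib.MP_99bfa4_al.IR

/-- The convolution. -/
noncomputable def conv (F : X → ℂ) (h : Test) (x : X) : ℂ := ∫ y, h.val.val (y⁻¹ * x) * F y ∂mu

lemma conv_bdd (h : Test) : ∃ ρ ε : ℝ, (∀ x, ρ < hx x → h.val.val x = 0) ∧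
    ∀ x, ‖h.val.val x‖ ≤ ε := by
  obtain ⟨ρ, H⟩ := h.2
  obtain ⟨C, hC⟩ := (isCompact_ball ρ).exists_bound_of_continuousOn
    (Smooth.continuous h.val).continuousOn
  refine ⟨ρ, max C 0, H, fun x => ?_⟩
  by_cases k : ρ < hx x
  · rw [H x k, norm_zero]
    exact le_max_right _ _
  · exact (hC x (not_lt.1 k)).trans (le_max_left _ _)

lemma conv_hx_inv (x : X) : hx x⁻¹ = hx x := ht_inv x.val

lemma conv_hx_swap (y z : X) : hx (y⁻¹ * z) = hx (z⁻¹ * y) := by
  rw [← conv_hx_inv, _root_.mul_inv_rev, inv_inv]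

lemma conv_meas_ball (R : ℝ) : MeasurableSet (ball R) :=
  (isClosed_le continuous_hx continuous_const).measurableSet

theorem conv_continuous {F : X → ℂ} (hF : MemLp F 2 mu) (h : Test) : Continuous (conv F h) := by
  obtain ⟨ρ, ε, h1, h2⟩ := conv_bdd h
  have hc := Smooth.continuous h.val
  refine continuous_iff_continuousAt.2 fun x0 => ?_
  have hi : IntegrableOn F (ball (2 * (hx x0 + 1) * ρ)) mu :=
    (hF.locallyIntegrable one_le_two).integrableOn_isCompact (isCompact_ball _)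
  refine continuousAt_of_dominated
    (bound := (ball (2 * (hx x0 + 1) * ρ)).indicator fun y => ε * ‖F y‖)
    (Eventually.of_forall fun x => ?_) ?_ ?_ (Eventually.of_forall fun y => ?_)
  · exact (hc.comp (continuous_inv.mul continuous_const)).aestronglyMeasurable.mul hF.1
  · filter_upwards [continuous_hx.continuousAt.eventually (gt_mem_nhds (lt_add_one (hx x0)))]
      with x hx1
    refine Eventually.of_forall fun y => ?_
    by_cases k : ρ < hx (y⁻¹ * x)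
    · rw [h1 _ k, zero_mul, norm_zero]
      exact Set.indicator_nonneg (fun y _ => mul_nonneg ((norm_nonneg _).trans (h2 1))
        (norm_nonneg _)) _
    · have k1 : hx (x * (x⁻¹ * y)) ≤ 2 * hx x * hx (x⁻¹ * y) := ht_mul_le _ _
      rw [mul_inv_cancel_left, ← conv_hx_swap] at k1
      have k2 : 1 ≤ hx (y⁻¹ * x) := one_le_ht _
      have k3 : 1 ≤ hx x := one_le_ht _
      have k4 : y ∈ ball (2 * (hx x0 + 1) * ρ) :=
        k1.trans (mul_le_mul (by linarith) (not_lt.1 k) (by linarith) (by linarith))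
      rw [Set.indicator_of_mem k4, norm_mul]
      exact mul_le_mul_of_nonneg_right (h2 _) (norm_nonneg _)
  · exact (integrable_indicator_iff (conv_meas_ball _)).2 (hi.norm.const_mul ε)
  · exact ((hc.comp (continuous_const.mul continuous_id)).mul continuous_const).continuousAt

lemma conv_cs {α : Type*} [MeasurableSpace α] (μ : Measure α) {g : α → ENNReal}
    (hg : AEMeasurable g μ) : (∫⁻ y, g y ∂μ) ^ (2 : ℝ) ≤ μ Set.univ * ∫⁻ y, g y ^ (2 : ℝ) ∂μ := by
  have k := ENNReal.lintegral_mul_le_Lp_mul_Lq μ Real.HolderConjugate.two_two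
    (f := fun _ => 1) aemeasurable_const hg
  simp only [Pi.mul_apply, one_mul, ENNReal.one_rpow, lintegral_one] at k
  refine (ENNReal.rpow_le_rpow k (by norm_num)).trans_eq ?_
  rw [← ENNReal.mul_rpow_of_nonneg _ _ (by norm_num), ← ENNReal.rpow_mul]
  norm_num

lemma conv_pt {F : X → ℂ} (hF : MemLp F 2 mu) {ρ ε : ℝ} {h : Test}
    (h1 : ∀ x, ρ < hx x → h.val.val x = 0) (h2 : ∀ x, ‖h.val.val x‖ ≤ ε) (z : X) :
    ‖conv F h z‖ₑ ^ (2 : ℝ) ≤ ENNReal.ofReal ε ^ (2 : ℝ) * (mu (ball ρ) *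
      ∫⁻ y, {y | hx (z⁻¹ * y) ≤ ρ}.indicator (fun y => ‖F y‖ₑ ^ (2 : ℝ)) y ∂mu) := by
  have hS : MeasurableSet {y | hx (z⁻¹ * y) ≤ ρ} :=
    (isClosed_le (continuous_hx.comp (continuous_const.mul continuous_id))
      continuous_const).measurableSet
  have e : mu (ball ρ) = (mu.restrict {y | hx (z⁻¹ * y) ≤ ρ}) Set.univ := by
    rw [Measure.restrict_apply_univ]
    exact (measure_preimage_mul mu z⁻¹ (ball ρ)).symm
  have k : ‖conv F h z‖ₑ ≤ ENNReal.ofReal ε * ∫⁻ y in {y | hx (z⁻¹ * y) ≤ ρ}, ‖F y‖ₑ ∂mu := by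
    rw [← lintegral_const_mul' _ _ ENNReal.ofReal_ne_top, ← lintegral_indicator hS]
    refine (enorm_integral_le_lintegral_enorm _).trans (lintegral_mono fun y => ?_)
    by_cases c : hx (z⁻¹ * y) ≤ ρ
    · rw [Set.indicator_of_mem (show y ∈ {y | hx (z⁻¹ * y) ≤ ρ} from c), enorm_mul]
      refine mul_le_mul_left ?_ _
      rw [← ofReal_norm]
      exact ENNReal.ofReal_le_ofReal (h2 _)
    · rw [h1 _ (by rw [conv_hx_swap]; exact not_le.1 c), zero_mul, enorm_zero]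
      exact zero_le
  refine (ENNReal.rpow_le_rpow k (by norm_num)).trans ?_
  rw [ENNReal.mul_rpow_of_nonneg _ _ (by norm_num), lintegral_indicator hS, e]
  exact mul_le_mul_right (conv_cs _ hF.1.enorm.restrict) _

lemma conv_swap {g : X → ENNReal} (hg : AEMeasurable g mu) (ρ : ℝ) {C : ENNReal} (hC : C ≠ ⊤)
    (H : ∀ w : X, wt {p | hx ((bb p)⁻¹ * w) ≤ ρ} ≤ C) (x : X) :
    ∫⁻ p, ∫⁻ y, {y | hx ((x * bb p)⁻¹ * y) ≤ ρ}.indicator g y ∂mu ∂wt ≤ C * ∫⁻ y, g y ∂mu := by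
  have := wt_sigma
  have hcl : IsClosed {q : (ℝ × ℝ × ℝ) × X | hx ((x * bb q.1)⁻¹ * q.2) ≤ ρ} :=
    isClosed_le (continuous_hx.comp ((continuous_const.mul
      (continuous_bb.comp continuous_fst)).inv.mul continuous_snd)) continuous_const
  have hm : AEMeasurable (Function.uncurry fun p y =>
      {y | hx ((x * bb p)⁻¹ * y) ≤ ρ}.indicator g y) (wt.prod mu) :=
    hg.comp_snd.indicator hcl.measurableSet
  rw [lintegral_lintegral_swap hm, ← lintegral_const_mul' _ _ hC]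
  refine lintegral_mono fun y => ?_
  have hS : MeasurableSet {p | hx ((bb p)⁻¹ * (x⁻¹ * y)) ≤ ρ} :=
    (isClosed_le (continuous_hx.comp (continuous_bb.inv.mul continuous_const))
      continuous_const).measurableSet
  have e : (fun p => {y | hx ((x * bb p)⁻¹ * y) ≤ ρ}.indicator g y) =
      {p | hx ((bb p)⁻¹ * (x⁻¹ * y)) ≤ ρ}.indicator fun _ => g y := funext fun p => by
    simp only [Set.indicator, Set.mem_ofPred_eq, _root_.mul_inv_rev, mul_assoc]
  rw [e, lintegral_indicator_const hS, mul_comm]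
  exact mul_le_mul_left (H _) _

/-- The restriction to a coset of AN is square integrable. -/
theorem conv_bound {F : X → ℂ} (hF : MemLp F 2 mu) (ρ : ℝ) : ∃ C : ℝ, ∀ (h : Test) (ε : ℝ),
    (∀ x, ρ < hx x → h.val.val x = 0) → (∀ x, ‖h.val.val x‖ ≤ ε) → ∀ x : X,
      eLpNorm (fun p => conv F h (x * bb p)) 2 wt ≤ ENNReal.ofReal (C * ε) := by
  obtain ⟨C, hC, H⟩ := wt_mass ρ
  have hb : mu (ball ρ) ≠ ⊤ := (isCompact_ball ρ).measure_lt_top.ne
  have hI : ∫⁻ y, ‖F y‖ₑ ^ (2 : ℝ) ∂mu ≠ ⊤ := by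
    simpa using (lintegral_rpow_enorm_lt_top_of_eLpNorm_lt_top two_ne_zero (by simp) hF.2).ne
  have hD : (mu (ball ρ) * (C * ∫⁻ y, ‖F y‖ₑ ^ (2 : ℝ) ∂mu)) ^ (1 / 2 : ℝ) ≠ ⊤ :=
    ENNReal.rpow_ne_top_of_nonneg (by norm_num) (ENNReal.mul_ne_top hb (ENNReal.mul_ne_top hC hI))
  refine ⟨((mu (ball ρ) * (C * ∫⁻ y, ‖F y‖ₑ ^ (2 : ℝ) ∂mu)) ^ (1 / 2 : ℝ)).toReal,
    fun h ε h1 h2 x => ?_⟩
  rw [eLpNorm_eq_lintegral_rpow_enorm_toReal two_ne_zero (by simp),
    ENNReal.ofReal_mul ENNReal.toReal_nonneg, ENNReal.ofReal_toReal hD, ENNReal.toReal_ofNat]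
  have k : ∫⁻ p, ‖conv F h (x * bb p)‖ₑ ^ (2 : ℝ) ∂wt ≤ ENNReal.ofReal ε ^ (2 : ℝ) *
      (mu (ball ρ) * (C * ∫⁻ y, ‖F y‖ₑ ^ (2 : ℝ) ∂mu)) := by
    refine (lintegral_mono fun p => conv_pt hF h1 h2 (x * bb p)).trans ?_
    rw [lintegral_const_mul' _ _ (ENNReal.rpow_ne_top_of_nonneg (by norm_num)
      ENNReal.ofReal_ne_top), lintegral_const_mul' _ _ hb]
    exact mul_le_mul_right (mul_le_mul_right (conv_swap (hF.1.enorm.pow_const _) ρ hC H x) _) _
  refine (ENNReal.rpow_le_rpow k (by norm_num)).trans_eq ?_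
  rw [ENNReal.mul_rpow_of_nonneg _ _ (by norm_num), ← ENNReal.rpow_mul, mul_comm]
  norm_num

end Pool.Agent.Lib.MP_99bfa4_al.IR
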