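import Pool.Agent.Lib.MP_99bfa4_al.IR.Conv

/-! The image of a smoothed vector is a convolution. -/

open Matrix MeasureTheory Filter
open scoped ContDiff Topology InnerProductSpace ComplexConjugate

namespace Pool.Agent.Lib.MP_99bfa4_al.IR

universe u

variable {V : Type u} [NormedAddCommGroup V] [InnerProductSpace ℂ V] [CompleteSpace V]
  {π : G →* (V ≃ₗᵢ[ℂ] V)}


lemma convP_bdd (h : Test) : ∃ M, ∀ x, ‖h.val.val x‖ ≤ M := by
  obtain ⟨ρ, hρ⟩ := h.property
  obtain ⟨M, hM⟩ := (isCompact_ball ρ).exists_bound_of_continuousOn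
    (Smooth.continuous h.val).continuousOn
  refine ⟨max M 0, fun x => ?_⟩
  by_cases hx' : hx x ≤ ρ
  · exact (hM x hx').trans (le_max_left _ _)
  · rw [hρ x (not_le.1 hx'), norm_zero]
    exact le_max_right _ _

lemma convP_int {F : X → ℂ} (hF : MemLp F 2 mu) (h : Test) {C : Set X} (hC : IsCompact C) :
    Integrable (fun p : X × X => h.val.val (p.2⁻¹ * p.1) * F p.2) ((mu.restrict C).prod mu) := by
  have : IsFiniteMeasure (mu.restrict C) := isFiniteMeasure_restrict.2 hC.measure_ne_top
  obtain ⟨ρ, hρ⟩ := h.property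
  obtain ⟨M, hM⟩ := convP_bdd h
  obtain ⟨R, hR⟩ := hC.bddAbove_image continuous_hx.continuousOn
  have hb := isCompact_ball (2 * R * max ρ 1)
  have i1 : Integrable ((ball (2 * R * max ρ 1)).indicator F) mu :=
    (integrable_indicator_iff hb.measurableSet).2
      ((hF.locallyIntegrable one_le_two).integrableOn_isCompact hb)
  have c : Continuous fun p : X × X => h.val.val (p.2⁻¹ * p.1) :=
    (Smooth.continuous h.val).comp (continuous_snd.inv.mul continuous_fst)
  refine ((i1.comp_snd (mu.restrict C)).bdd_mul c.aestronglyMeasurable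
    (Eventually.of_forall fun p => hM _)).congr ?_
  filter_upwards [Measure.quasiMeasurePreserving_fst.ae (ae_restrict_mem hC.measurableSet)]
    with p hp
  by_cases hz : p.2 ∈ ball (2 * R * max ρ 1)
  · rw [Set.indicator_of_mem hz]
  · rw [hρ, zero_mul, zero_mul]
    by_contra k
    refine hz ?_
    have a1 := ht_mul_le p.1.val (p.2⁻¹ * p.1).val⁻¹
    have a2 : ht p.1.val ≤ R := hR ⟨p.1, hp, rfl⟩
    have a3 : ht (p.2⁻¹ * p.1).val ≤ max ρ 1 := (not_lt.1 k).trans (le_max_left _ _)
    have a4 := one_le_ht p.1.val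
    have a5 := one_le_ht (p.2⁻¹ * p.1).val
    rw [ht_inv, show p.1.val * (p.2⁻¹ * p.1).val⁻¹ = p.2.val by simp] at a1
    exact a1.trans (mul_le_mul (by linarith) a3 (by linarith) (by linarith))

/-- The integral of a convolution over a compact set. -/
lemma convP_fubini {F : X → ℂ} (hF : MemLp F 2 mu) (h : Test) {C : Set X} (hC : IsCompact C) :
    ∫ x in C, conv F h x ∂mu = ∫ y, h.val.val y⁻¹ * ∫ x in C, F (x * y) ∂mu ∂mu := by
  have i1 := (measurePreserving_prod_mul (mu.restrict C) mu).integrable_comp_of_integrable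
    (convP_int hF h hC)
  have i2 : Integrable (Function.uncurry fun x y : X => h.val.val y⁻¹ * F (x * y))
      ((mu.restrict C).prod mu) := by
    refine i1.congr (Eventually.of_forall fun p => ?_)
    simp [Function.uncurry]
  simp only [← integral_const_mul]
  rw [← integral_integral_swap i2]
  refine integral_congr_ae (Eventually.of_forall fun x => ?_)
  change conv F h x = ∫ y, h.val.val y⁻¹ * F (x * y) ∂mu
  rw [conv, ← integral_mul_left_eq_self _ x]
  simp

theorem conv_P (hπ : ∀ v, Continuous fun g => π g v) (T : V →L[ℂ] Lp ℂ 2 mu)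
    (hT : ∀ g v, (T (π g v) : X → ℂ) =ᵐ[mu] fun y => T v (g⁻¹ • y)) (v : V) (h : Test) :
    (T (P π v h) : X → ℂ) =ᵐ[mu] conv (T v) h := by
  have hF := Lp.memLp (T v)
  have l1 := (Lp.memLp (T (P π v h))).locallyIntegrable one_le_two
  have l2 : LocallyIntegrable (conv (T v) h) mu := (conv_continuous hF h).locallyIntegrable
  have key := ae_eq_zero_of_forall_setIntegral_isCompact_eq_zero' (l1.sub l2) fun C hC => by
    simp only [Pi.sub_apply]
    rw [integral_sub (l1.integrableOn_isCompact hC) (l2.integrableOn_isCompact hC), sub_eq_zero,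
      convP_fubini hF h hC]
    obtain ⟨ℓ, hℓ⟩ : ∃ ℓ : V →L[ℂ] ℂ, ∀ w, ℓ w = ∫ x in C, T w x ∂mu :=
      ⟨(innerSL ℂ (indicatorConstLp 2 hC.measurableSet hC.measure_ne_top (1 : ℂ))).comp T,
        fun w => L2.inner_indicatorConstLp_one _ _ _⟩
    rw [← hℓ, P, ← ℓ.integral_comp_comm (P_integrable hπ v h)]
    refine integral_congr_ae (Eventually.of_forall fun y => ?_)
    change ℓ (h.val.val y⁻¹ • π (rt y) v) = h.val.val y⁻¹ * ∫ x in C, T v (x * y) ∂mu
    rw [map_smul, smul_eq_mul, hℓ]
    congr 1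
    refine integral_congr_ae (ae_restrict_of_ae ((hT (rt y) v).mono fun x hx' => ?_))
    refine hx'.trans ?_
    change T v ((rt y)⁻¹ • x) = T v (x * y)
    rw [← map_inv, rt_smul, inv_inv]
  filter_upwards [key] with x hx' using sub_eq_zero.1 hx'

end Pool.Agent.Lib.MP_99bfa4_al.IR
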