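import Pool.Agent.Lib.MP_99bfa4_al.IR.Cas

/-! Extremal vectors of skew symmetric representations of so(1,3). -/

open Matrix MeasureTheory Filter
open scoped ContDiff Topology InnerProductSpace ComplexConjugate

namespace Pool.Agent.Lib.MP_99bfa4_al.IR

variable {E : Type*} [NormedAddCommGroup E] [InnerProductSpace ℂ E]
  {d : Fin 6 → Module.End ℂ E}

/-- A representation by skew symmetric operators. -/
structure Sk (d : Fin 6 → Module.End ℂ E) : Prop where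
  rel : LieRel d
  skew : ∀ i u v, ⟪d i u, v⟫_ℂ = -⟪u, d i v⟫_ℂ

/-- An extremal vector of weight minus l. -/
def Ext (d : Fin 6 → Module.End ℂ E) (l : ℂ) (f : E) : Prop :=
  d 3 f = Complex.I • d 4 f ∧ Complex.I • d 5 f = -l • f

lemma core_rels (h : LieRel d) :
    ((∀ v, d 1 (d 0 v) = d 0 (d 1 v) + d 5 v) ∧ (∀ v, d 2 (d 0 v) = d 0 (d 2 v) - d 4 v) ∧
      ∀ v, d 2 (d 1 v) = d 1 (d 2 v) + d 3 v) ∧
    ((∀ v, d 3 (d 0 v) = d 0 (d 3 v)) ∧ (∀ v, d 4 (d 0 v) = d 0 (d 4 v) - d 2 v) ∧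
      ∀ v, d 5 (d 0 v) = d 0 (d 5 v) + d 1 v) ∧
    ((∀ v, d 3 (d 1 v) = d 1 (d 3 v) + d 2 v) ∧ (∀ v, d 4 (d 1 v) = d 1 (d 4 v)) ∧
      ∀ v, d 5 (d 1 v) = d 1 (d 5 v) - d 0 v) ∧
    ((∀ v, d 3 (d 2 v) = d 2 (d 3 v) - d 1 v) ∧ (∀ v, d 4 (d 2 v) = d 2 (d 4 v) + d 0 v) ∧
      ∀ v, d 5 (d 2 v) = d 2 (d 5 v)) ∧
    ((∀ v, d 4 (d 3 v) = d 3 (d 4 v) - d 5 v) ∧ (∀ v, d 5 (d 3 v) = d 3 (d 5 v) + d 4 v) ∧
      ∀ v, d 5 (d 4 v) = d 4 (d 5 v) - d 3 v) := by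
  obtain ⟨⟨a1, a2, a3⟩, ⟨b1, b2, b3⟩, ⟨c1, c2, c3⟩, ⟨e1, e2, e3⟩, f1, f2, f3⟩ := h.rels
  exact ⟨⟨LinearMap.congr_fun a1, LinearMap.congr_fun a2, LinearMap.congr_fun a3⟩,
    ⟨LinearMap.congr_fun b1, LinearMap.congr_fun b2, LinearMap.congr_fun b3⟩,
    ⟨LinearMap.congr_fun c1, LinearMap.congr_fun c2, LinearMap.congr_fun c3⟩,
    ⟨LinearMap.congr_fun e1, LinearMap.congr_fun e2, LinearMap.congr_fun e3⟩,
    LinearMap.congr_fun f1, LinearMap.congr_fun f2, LinearMap.congr_fun f3⟩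

lemma core_four {l : ℂ} {f : E} (hf : Ext d l f) : d 4 f = -Complex.I • d 3 f := by
  rw [hf.1, smul_smul, neg_mul, Complex.I_mul_I, neg_neg, one_smul]

lemma core_five {l : ℂ} {f : E} (hf : Ext d l f) : d 5 f = (Complex.I * l) • f := by
  have h := congrArg (fun v => -Complex.I • v) hf.2
  simp only [smul_smul, neg_mul, Complex.I_mul_I, neg_neg, one_smul, mul_neg] at h
  exact h

theorem ext_exists (h : LieRel d) (Z : Submodule ℂ E) [FiniteDimensional ℂ Z] (h0 : Z ≠ ⊥)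
    (hZ : ∀ i : Fin 6, 3 ≤ i.val → ∀ u ∈ Z, d i u ∈ Z) : ∃ l, ∃ f ∈ Z, f ≠ 0 ∧ Ext d l f := by
  obtain ⟨-, -, -, -, -, f2, f3⟩ := core_rels h
  have hT : ∀ u ∈ Z, (Complex.I • d 5) u ∈ Z := fun u hu => Z.smul_mem _ (hZ 5 (by decide) u hu)
  have : Nontrivial Z := Submodule.nontrivial_iff_ne_bot.2 h0
  obtain ⟨m, hm, hmin⟩ := Set.exists_min_image _ Complex.re
    (Module.End.finite_hasEigenvalue ((Complex.I • d 5).restrict hT))
    (Module.End.exists_eigenvalue ((Complex.I • d 5).restrict hT))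
  obtain ⟨f, hf⟩ := Module.End.HasEigenvalue.exists_hasEigenvector hm
  have e : Complex.I • d 5 f.1 = m • f.1 := congrArg Subtype.val hf.apply_eq_smul
  refine ⟨-m, f.1, f.2, fun k => hf.2 (Subtype.ext k), ?_, by rw [neg_neg, e]⟩
  by_contra k
  have hg : d 3 f.1 - Complex.I • d 4 f.1 ∈ Z :=
    Z.sub_mem (hZ 3 (by decide) _ f.2) (Z.smul_mem _ (hZ 4 (by decide) _ f.2))
  have e5 : d 5 f.1 = (-Complex.I * m) • f.1 := by
    have h := congrArg (fun v => -Complex.I • v) e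
    simpa only [smul_smul, neg_mul, Complex.I_mul_I, neg_neg, one_smul] using h
  have h1 : Module.End.HasEigenvector ((Complex.I • d 5).restrict hT) (m - 1) ⟨_, hg⟩ := by
    refine ⟨Module.End.mem_eigenspace_iff.2 (Subtype.ext ?_),
      fun e => k (sub_eq_zero.1 (congrArg Subtype.val e))⟩
    change Complex.I • d 5 (d 3 f.1 - Complex.I • d 4 f.1) =
      (m - 1) • (d 3 f.1 - Complex.I • d 4 f.1)
    simp only [map_sub, map_smul, f2, f3, e5]
    match_scalars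
    · linear_combination (1 - m) * Complex.I_sq
    · linear_combination (Complex.I * m) * Complex.I_sq
  have h2 := hmin _ (Module.End.hasEigenvalue_of_hasEigenvector h1)
  simp only [Complex.sub_re, Complex.one_re] at h2
  linarith

theorem ext_nonneg (h : Sk d) {l : ℂ} {f : E} (h0 : f ≠ 0) (hf : Ext d l f) :
    ∃ r : ℝ, 0 ≤ r ∧ l = r := by
  obtain ⟨-, -, -, -, f1, -, -⟩ := core_rels h.rel
  have h4 := core_four hf
  have e : d 3 (d 3 f) + d 4 (d 4 f) = -l • f := by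
    simp only [h4, map_smul, f1, core_five hf]
    match_scalars
    · linear_combination Complex.I_sq
    · linear_combination l * Complex.I_sq
  have h1 := h.skew 3 f (d 3 f)
  have h2 := h.skew 4 f (d 4 f)
  have h3 : l * ⟪f, f⟫_ℂ = ⟪d 3 f, d 3 f⟫_ℂ + ⟪d 4 f, d 4 f⟫_ℂ := by
    rw [h1, h2, ← neg_add, ← inner_add_right, e, inner_smul_right, neg_mul, neg_neg]
  simp only [inner_self_eq_norm_sq_to_K] at h3
  have h5 : (‖f‖ : ℂ) ≠ 0 := by exact_mod_cast norm_ne_zero_iff.2 h0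
  refine ⟨(‖d 3 f‖ ^ 2 + ‖d 4 f‖ ^ 2) / ‖f‖ ^ 2, by positivity, ?_⟩
  push_cast
  rw [eq_div_iff (pow_ne_zero 2 h5)]
  exact h3

theorem ext_descent (h : LieRel d) {l a b : ℂ} {f : E} (h0 : f ≠ 0) (hf : Ext d l f)
    (h1 : cas1 d f = a • f) (h2 : cas2 d f = (2 * b) • f)
    (hn : l ^ 2 * (a + 1 - l ^ 2) + b ^ 2 ≠ 0) :
    ∃ g, g ≠ 0 ∧ Ext d (l - 1) g ∧ cas2 d g = (2 * b) • g := by
  obtain ⟨⟨a1, a2, a3⟩, ⟨b1, b2, b3⟩, ⟨c1, c2, c3⟩, ⟨e1, e2, e3⟩, f1, f2, f3⟩ := core_rels h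
  have h4 := core_four hf
  have h5 := core_five hf
  obtain ⟨g, hg⟩ : ∃ g, g = (2 * l ^ 2) • (d 0 f + Complex.I • d 1 f) +
      (Complex.I * l) • d 2 (d 3 f + Complex.I • d 4 f) + b • (d 3 f + Complex.I • d 4 f) :=
    ⟨_, rfl⟩
  have k1 : d 3 g - Complex.I • d 4 g = l • (cas2 d f - (2 * b) • f) := by
    simp only [hg, cas2, LinearMap.add_apply, Module.End.mul_apply, map_add, map_sub, map_smul,
      a1, a2, a3, b1, b2, b3, c1, c2, c3, e1, e2, e3, f1, f2, f3, h4, h5]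
    match_scalars <;> grind [Complex.I_sq]
  have k2 : d 0 g - Complex.I • d 1 g = (2 * (l ^ 2 * (a + 1 - l ^ 2) + b ^ 2)) • f +
      (2 * l ^ 2) • (cas1 d f - a • f) + (Complex.I * l) • d 2 (cas2 d f - (2 * b) • f) +
      b • (cas2 d f - (2 * b) • f) := by
    simp only [hg, cas1, cas2, LinearMap.add_apply, LinearMap.sub_apply, Module.End.mul_apply,
      map_add, map_sub, map_smul,
      a1, a2, a3, b1, b2, b3, c1, c2, c3, e1, e2, e3, f1, f2, f3, h4, h5]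
    match_scalars <;> grind [Complex.I_sq]
  have k3 : Complex.I • d 5 g = -(l - 1) • g := by
    simp only [hg, map_add, map_sub, map_smul,
      a1, a2, a3, b1, b2, b3, c1, c2, c3, e1, e2, e3, f1, f2, f3, h4, h5]
    match_scalars <;> grind [Complex.I_sq]
  simp only [h1, h2, sub_self, smul_zero, map_zero, add_zero] at k1 k2
  refine ⟨g, fun e => ?_, ⟨sub_eq_zero.1 k1, k3⟩, ?_⟩
  · rw [e, map_zero, map_zero, smul_zero, sub_self] at k2
    exact smul_ne_zero (mul_ne_zero two_ne_zero hn) h0 k2.symm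
  · have c : ∀ i v, cas2 d (d i v) = d i (cas2 d v) := fun i =>
      LinearMap.congr_fun (cas2_comm h i)
    simp only [hg, map_add, map_smul, c, h2]
    module

end Pool.Agent.Lib.MP_99bfa4_al.IR
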