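import Pool.Agent.Lib.MP_99bfa4_al.IR.Virial

/-! The algebraic form of the absence of discrete series. -/

open Matrix MeasureTheory Filter
open scoped ContDiff Topology InnerProductSpace ComplexConjugate

namespace Pool.Agent.Lib.MP_99bfa4_al.IR

variable {E : Type*} [NormedAddCommGroup E] [InnerProductSpace ℂ E]
  {d : Fin 6 → Module.End ℂ E}
  {I H : Type} [NormedAddCommGroup H] [InnerProductSpace ℂ H] {R : I → E →ₗ[ℂ] H}

lemma core2_sym1 (h : Sk d) : LinearMap.IsSymmetric (cas1 d) := fun u v => by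
  simp only [cas1, LinearMap.sub_apply, LinearMap.add_apply, Module.End.mul_apply, inner_sub_left,
    inner_add_left, inner_sub_right, inner_add_right, h.skew, neg_neg]

lemma core2_sym2 (h : Sk d) : LinearMap.IsSymmetric (cas2 d) := fun u v => by
  simp only [cas2, LinearMap.add_apply, Module.End.mul_apply, inner_add_left, inner_add_right,
    h.skew, neg_neg]
  ring

lemma core2_real {A : Module.End ℂ E} (hA : LinearMap.IsSymmetric A) {c : ℂ} {f : E} (h0 : f ≠ 0)
    (h : A f = c • f) : ∃ r : ℝ, c = r := by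
  have k := hA f f
  rw [h, inner_smul_left, inner_smul_right] at k
  exact Complex.conj_eq_iff_real.1 (mul_right_cancel₀ (inner_self_ne_zero.2 h0) k)

lemma core2_ind (h : Sk d) (hR : Res d R) {a b : ℝ} (h1 : ∀ u, cas1 d u = (a : ℂ) • u) (n : ℕ) :
    ∀ l : ℝ, l < n → ∀ f, Ext d l f → cas2 d f = (2 * b : ℂ) • f → f = 0 := by
  induction n with
  | zero =>
    intro l hl f hf _
    by_contra h0
    obtain ⟨r, h2, h3⟩ := ext_nonneg h h0 hf
    rw [Complex.ofReal_inj] at h3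
    rw [Nat.cast_zero, h3] at hl
    exact absurd h2 (not_le.2 hl)
  | succ n ih =>
    intro l hl f hf h2
    by_cases hn : l ^ 2 * (a + 1 - l ^ 2) + b ^ 2 = 0
    · exact virial h hR hf (h1 f) h2 hn
    by_contra h0
    obtain ⟨g, g0, g1, g2⟩ := ext_descent h.rel h0 hf (h1 f) h2 (by exact_mod_cast hn)
    refine g0 (ih (l - 1) (by push_cast at hl; linarith) g (by exact_mod_cast g1) g2)

lemma core2_eig (h : Sk d) (hR : Res d R) {a b : ℂ} (h1 : ∀ u, cas1 d u = a • u)
    (Z : Submodule ℂ E) [FiniteDimensional ℂ Z] (hZ : ∀ i : Fin 6, 3 ≤ i.val → ∀ u ∈ Z, d i u ∈ Z)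
    (h2 : ∀ u ∈ Z, cas2 d u = (2 * b) • u) : Z = ⊥ := by
  by_contra h0
  obtain ⟨l, f, hf, f0, he⟩ := ext_exists h.rel Z h0 hZ
  obtain ⟨l, -, rfl⟩ := ext_nonneg h f0 he
  obtain ⟨a, rfl⟩ := core2_real (core2_sym1 h) f0 (h1 f)
  obtain ⟨c, hc⟩ := core2_real (core2_sym2 h) f0 (h2 f hf)
  obtain ⟨n, hn⟩ := exists_nat_gt l
  refine f0 (core2_ind h hR (b := c / 2) h1 n l hn f he ?_)
  rw [h2 f hf, hc]
  congr 1
  push_cast
  ring

theorem core (h : Sk d) (hR : Res d R) {a s : ℂ} (h1 : ∀ u, cas1 d u = a • u)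
    (h2 : ∀ u, cas2 d (cas2 d u) = s • u) (Z : Submodule ℂ E) [FiniteDimensional ℂ Z]
    (hZ : ∀ i : Fin 6, 3 ≤ i.val → ∀ u ∈ Z, d i u ∈ Z) : Z = ⊥ := by
  obtain ⟨r, hr⟩ := IsAlgClosed.exists_eq_mul_self s
  have k : Z.map (cas2 d + r • LinearMap.id) = ⊥ := by
    refine core2_eig h hR (b := r / 2) h1 _ ?_ ?_
    · rintro i hi _ ⟨u, hu, rfl⟩
      refine ⟨d i u, hZ i hi u hu, ?_⟩
      have := LinearMap.congr_fun (cas2_comm h.rel i) u
      simp only [Module.End.mul_apply] at this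
      simp only [LinearMap.add_apply, LinearMap.smul_apply, LinearMap.id_apply, map_add, map_smul,
        this]
    · rintro _ ⟨u, -, rfl⟩
      simp only [LinearMap.add_apply, LinearMap.smul_apply, LinearMap.id_apply, map_add, map_smul,
        h2, hr]
      module
  refine core2_eig h hR (b := -r / 2) h1 Z hZ fun u hu => ?_
  have h3 : cas2 d u + r • u ∈ Z.map (cas2 d + r • LinearMap.id) := ⟨u, hu, rfl⟩
  rw [k, Submodule.mem_bot] at h3
  rw [eq_neg_of_add_eq_zero_left h3]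
  module

end Pool.Agent.Lib.MP_99bfa4_al.IR
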