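import Pool.Agent.Lib.MP_99bfa4_al.IR.Basic

/-! The Coxeter group of a doubly truncated tetrahedron. -/

open Matrix MeasureTheory
open scoped ContDiff Topology InnerProductSpace ComplexConjugate

namespace Pool.Agent.Lib.MP_99bfa4_al.IR

/-- The Coxeter matrix: faces 0, 1, 2, 3 of the tetrahedron, truncating faces 4 and 5. -/
def CM : CoxeterMatrix (Fin 6) where
  M := !![1, 4, 3, 3, 2, 2; 4, 1, 3, 3, 2, 2; 3, 3, 1, 2, 2, 0; 3, 3, 2, 1, 0, 2;
    2, 2, 2, 0, 1, 0; 2, 2, 0, 2, 0, 1]

abbrev W : Type := CM.Group

def cs : CoxeterSystem CM W := CM.toCoxeterSystem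

/-- The prescribed Gram entries. -/
noncomputable def gm (m : ℕ) : ℝ :=
  if m = 1 then -1 else if m = 2 then 0 else if m = 3 then 1 / 2 else √2 / 2

/-- Six vectors with the Gram entries of the finite labels. -/
structure Gram (e : Fin 6 → V4) : Prop where
  gram : ∀ i j, CM i j ≠ 0 → B (e i) (e j) = gm (CM i j)

/-- The outward data of a compact polytope that contains the base point. -/
structure Poly (e : Fin 6 → V4) : Prop extends Gram e where
  far : ∀ i j, CM i j = 0 → 1 < B (e i) (e j)
  pos : ∀ i, 0 < e i 0
  bdd : ∃ R, ∀ x, Up x → (∀ i, 0 ≤ B x (e i)) → x 0 ≤ R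

variable {e : Fin 6 → V4}

lemma Gram.unit (h : Gram e) (i : Fin 6) : B (e i) (e i) = -1 := by
  rw [h.gram i i (by rw [CM.diagonal]; exact one_ne_zero), CM.diagonal, gm, if_pos rfl]

lemma refl_two {u v : V4} (hu : B u u = -1) (hv : B v v = -1) (h : B u v = 0) :
    (refl u hu * refl v hv) ^ 2 = 1 := L_ext fun x => by
  simp only [pow_succ, pow_zero, one_mul, app_mul, app_refl hu, app_refl hv, B_add_left,
    B_smul_left, hu, hv, h, B_comm v u, app_one]
  module

lemma refl_three {u v : V4} (hu : B u u = -1) (hv : B v v = -1) (h : B u v = 1 / 2) :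
    (refl u hu * refl v hv) ^ 3 = 1 := L_ext fun x => by
  simp only [pow_succ, pow_zero, one_mul, app_mul, app_refl hu, app_refl hv, B_add_left,
    B_smul_left, hu, hv, h, B_comm v u, app_one]
  module

lemma refl_four {u v : V4} (hu : B u u = -1) (hv : B v v = -1) {c : ℝ} (h : B u v = c)
    (hc : c * c = 1 / 2) : (refl u hu * refl v hv) ^ 4 = 1 := by
  have k : ∀ x, app ((refl u hu * refl v hv) ^ 2) x =
      x + (2 * B x u + 4 * c * B x v) • ((2 : ℝ) • u) +
        (2 * B x v + 2 * c * B x u) • ((2 : ℝ) • v) - (4 * c * B x v) • u := fun x => by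
    simp only [pow_succ, pow_zero, one_mul, app_mul, app_refl hu, app_refl hv, B_add_left,
      B_smul_left, hu, hv, h, B_comm v u]
    match_scalars
    · ring
    · linear_combination (8 * B x v) * hc
    · linear_combination (8 * B x u + 16 * c * B x v) * hc
  refine L_ext fun x => ?_
  rw [show (refl u hu * refl v hv) ^ 4 = _ from pow_add _ 2 2, app_mul, k, k]
  simp only [B_add_left, B_sub_left, B_smul_left, hu, hv, h, B_comm v u, app_one]
  match_scalars
  · ring
  · linear_combination (16 * B x u + 16 * c * B x v) * hc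
  · linear_combination (16 * B x v + 16 * c * B x u) * hc

lemma CM_cases (i j : Fin 6) : CM i j = 0 ∨ i = j ∨ CM i j = 2 ∨ CM i j = 3 ∨ CM i j = 4 := by
  revert i j
  decide

lemma Gram.liftable (h : Gram e) : CM.IsLiftable fun i => refl (e i) (h.unit i) := by
  intro i j
  by_cases h0 : CM i j = 0
  · rw [h0, pow_zero]
  have k := h.gram i j h0
  rcases CM_cases i j with c | rfl | c | c | c
  · exact absurd c h0
  · rw [CM.diagonal, pow_one, refl_sq]
  · rw [c] at k ⊢
    exact refl_two _ _ (k.trans (by norm_num [gm]))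
  · rw [c] at k ⊢
    exact refl_three _ _ (k.trans (by norm_num [gm]))
  · rw [c] at k ⊢
    refine refl_four _ _ k ?_
    have := Real.mul_self_sqrt (show (0 : ℝ) ≤ 2 by norm_num)
    norm_num [gm]
    linarith

/-- The geometric representation. -/
noncomputable def rho (h : Gram e) : W →* L := cs.lift ⟨fun i => refl (e i) (h.unit i), h.liftable⟩

lemma rho_simple (h : Gram e) (i : Fin 6) : rho h (cs.simple i) = refl (e i) (h.unit i) :=
  cs.lift_apply_simple _ i

lemma app_rho_simple (h : Gram e) (i : Fin 6) (x : V4) :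
    app (rho h (cs.simple i)) x = x + (2 * B x (e i)) • e i := by rw [rho_simple, app_refl]

/-- Involutions that agree along the labels 3 and commute along the other finite labels. -/
lemma liftable_const {H : Type*} [Group H] (a c d : H) (ha : a * a = 1) (hc : c * c = 1)
    (hd : d * d = 1) (h1 : a * c = c * a) (h2 : a * d = d * a) :
    CM.IsLiftable ![a, a, a, a, c, d] := by
  have k1 : (a * c) ^ 2 = 1 := by rw [pow_two, mul_assoc, ← mul_assoc c, ← h1, mul_assoc, hc, mul_one, ha]
  have k2 : (c * a) ^ 2 = 1 := by rw [← h1, k1]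
  have k3 : (a * d) ^ 2 = 1 := by rw [pow_two, mul_assoc, ← mul_assoc d, ← h2, mul_assoc, hd, mul_one, ha]
  have k4 : (d * a) ^ 2 = 1 := by rw [← h2, k3]
  intro i j
  fin_cases i <;> fin_cases j <;> simp [CM, ha, hc, hd, k1, k2, k3, k4]

/-- The action of W on the integers through the infinite dihedral group. -/
noncomputable def th : W →* Equiv.Perm ℤ :=
  cs.lift ⟨![1, 1, 1, 1, Equiv.subLeft 1, Equiv.neg ℤ], liftable_const _ _ _ (one_mul 1)
    (Equiv.ext fun n => by simp) (Equiv.ext fun n => by simp) (by simp) (by simp)⟩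

/-- The parity of the number of letters 4 and 5. -/
noncomputable def par : W →* ℤˣ :=
  cs.lift ⟨![1, 1, 1, 1, -1, -1], liftable_const _ _ _ (one_mul 1) (by simp) (by simp) (by simp)
    (by simp)⟩

/-- All generators go to the inversion in the base point. -/
noncomputable def sg : W →* L :=
  cs.lift ⟨![iota, iota, iota, iota, iota, iota],
    liftable_const _ _ _ iota_sq iota_sq iota_sq rfl rfl⟩

lemma sg_simple (i : Fin 6) : sg (cs.simple i) = iota := by
  rw [sg, cs.lift_apply_simple]
  fin_cases i <;> rfl

lemma par_simple (i : Fin 6) : par (cs.simple i) = if i.val < 4 then 1 else -1 := by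
  rw [par, cs.lift_apply_simple]
  fin_cases i <;> rfl

lemma th_simple (i : Fin 6) (n : ℤ) :
    th (cs.simple i) n = if i.val < 4 then n else if i.val = 4 then 1 - n else -n := by
  rw [th, cs.lift_apply_simple]
  fin_cases i <;> rfl

/-- The translation length. -/
noncomputable def chi (w : W) : ℤ := th w 0

lemma th_eq (w : W) (n : ℤ) : th w n = par w * n + chi w := by
  induction w using cs.simple_induction_left generalizing n with
  | one => simp [chi]
  | mul_simple_left w i ih =>
    rw [chi, map_mul, map_mul, Equiv.Perm.mul_apply, Equiv.Perm.mul_apply, ih n, ih 0, th_simple,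
      th_simple, par_simple]
    split_ifs <;> simp <;> ring

lemma chi_mul (v w : W) : chi (v * w) = par v * chi w + chi v := by
  rw [chi, map_mul, Equiv.Perm.mul_apply, th_eq]
  rfl

lemma sg_cases (w : W) : sg w = 1 ∨ sg w = iota := by
  induction w using cs.simple_induction_left with
  | one => exact Or.inl (map_one _)
  | mul_simple_left w i ih =>
    rw [map_mul, sg_simple]
    rcases ih with h | h <;> rw [h]
    · exact Or.inr (mul_one _)
    · exact Or.inl iota_sq

lemma sg_o (w : W) : app (sg w) o = o := by
  rcases sg_cases w with h | h <;> rw [h]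
  · exact app_one o
  · exact iota_o

lemma sg_comm (w : W) {k : L} (hk : app k o = o) : sg w * k = k * sg w := by
  rcases sg_cases w with h | h <;> rw [h]
  · rw [one_mul, mul_one]
  · exact iota_comm hk

lemma dt_rho (h : Gram e) (w : W) : dt (rho h w) = dt (sg w) := by
  induction w using cs.simple_induction_left with
  | one => rw [map_one, map_one]
  | mul_simple_left w i ih =>
    rw [map_mul, map_mul, dt_mul, dt_mul, ih, rho_simple, sg_simple, dt_refl, dt_iota]

/-- The subgroup of index two. -/
noncomputable def W0 : Subgroup W := par.ker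

/-- The generators of the subgroup of index two. -/
noncomputable def gen : Fin 5 → W0 := fun i =>
  if h : i.val < 4 then ⟨cs.simple i.castSucc, (par_simple _).trans (if_pos h)⟩
  else ⟨cs.simple 4 * cs.simple 5, by
    rw [W0, MonoidHom.mem_ker, map_mul, par_simple, par_simple]
    simp⟩

lemma gen_lt {i : Fin 5} (h : i.val < 4) : (gen i).val = cs.simple i.castSucc := by
  rw [gen, dif_pos h]

lemma gen_four : (gen 4).val = cs.simple 4 * cs.simple 5 := by
  rw [gen, dif_neg (by decide)]

lemma chi_gen_lt {i : Fin 5} (h : i.val < 4) : chi (gen i).val = 0 := by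
  rw [gen_lt h, chi, th_simple]
  exact if_pos h

lemma chi_gen_four : chi (gen 4).val = 1 := by
  rw [gen_four, chi, map_mul, Equiv.Perm.mul_apply, th_simple, th_simple]
  simp

/-- The family of homomorphisms into G. -/
noncomputable def Phi (h : Gram e) (R : K) : W0 →* G where
  toFun w := ⟨(rho h w.val, sg w.val * (R ^ chi w.val).val.val),
    (dt_rho h w.val).trans (by
      change _ = dt (sg w.val * (R ^ chi w.val).val.val)
      rw [dt_mul, dt_X, mul_one])⟩
  map_one' := Subtype.ext (Prod.ext (map_one _) (by simp [chi]))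
  map_mul' v w := Subtype.ext (Prod.ext (map_mul _ _ _) (by
    have hv : par v.val = 1 := v.property
    change sg (v.val * w.val) * (R ^ chi (v.val * w.val)).val.val =
      sg v.val * (R ^ chi v.val).val.val * (sg w.val * (R ^ chi w.val).val.val)
    rw [chi_mul, hv, Units.val_one, one_mul, add_comm, _root_.zpow_add, map_mul, mul_assoc, mul_assoc,
      ← mul_assoc (R ^ chi v.val).val.val, ← sg_comm w.val (R ^ chi v.val).property, mul_assoc]
    rfl))

lemma Phi_fst (h : Gram e) (R : K) (w : W0) : (Phi h R w).val.1 = rho h w.val := rfl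

lemma Phi_snd (h : Gram e) (R : K) (w : W0) :
    (Phi h R w).val.2 = sg w.val * (R ^ chi w.val).val.val := rfl

/-- The discontinuous groups. -/
noncomputable def Lat (h : Gram e) (R : K) : Subgroup G := (Phi h R).range

lemma lat_fix (h : Gram e) (R : K) : ∀ γ ∈ Lat h R, app γ.val.2 o = o := by
  rintro _ ⟨w, rfl⟩
  rw [Phi_snd, app_mul, show app (R ^ chi w.val).val.val o = o from (R ^ chi w.val).property, sg_o]

end Pool.Agent.Lib.MP_99bfa4_al.IR
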