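import Pool.Agent.Lib.MP_99bfa4_al.IR.Basic

/-! The Lie algebra so(1,3), its one parameter groups and the two Casimir elements. -/

open Matrix MeasureTheory
open scoped ContDiff Topology

namespace Pool.Agent.Lib.MP_99bfa4_al.IR

/-- The basis K1, K2, K3 (boosts), J1, J2, J3 (rotations) of so(1,3). -/
def bas : Fin 6 → M4 :=
  ![!![0, 1, 0, 0; 1, 0, 0, 0; 0, 0, 0, 0; 0, 0, 0, 0],
    !![0, 0, 1, 0; 0, 0, 0, 0; 1, 0, 0, 0; 0, 0, 0, 0],
    !![0, 0, 0, 1; 0, 0, 0, 0; 0, 0, 0, 0; 1, 0, 0, 0],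
    !![0, 0, 0, 0; 0, 0, 0, 0; 0, 0, 0, -1; 0, 0, 1, 0],
    !![0, 0, 0, 0; 0, 0, 0, 1; 0, 0, 0, 0; 0, -1, 0, 0],
    !![0, 0, 0, 0; 0, 0, -1, 0; 0, 1, 0, 0; 0, 0, 0, 0]]

/-- The coordinates with respect to the basis. -/
def co (Y : M4) : Fin 6 → ℝ := ![Y 0 1, Y 0 2, Y 0 3, Y 3 2, Y 1 3, Y 2 1]

/-- Membership in so(1,3). -/
def So (Y : M4) : Prop := ∀ x y, B (Y *ᵥ x) y + B x (Y *ᵥ y) = 0

/-- The adjoint action. -/
def ad (b : L) (Y : M4) : M4 := mat b * Y * mat b⁻¹

lemma so_bas (i : Fin 6) : So (bas i) := fun x y => by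
  fin_cases i <;> simp [bas, B, mulVec, dotProduct, Fin.sum_univ_four] <;> ring

lemma So.expand {Y : M4} (h : So Y) : Y = ∑ i, co Y i • bas i := by
  have k : ∀ i j, B (Y *ᵥ Pi.single i 1) (Pi.single j 1) +
    B (Pi.single i 1) (Y *ᵥ Pi.single j 1) = 0 := fun i j => h _ _
  have k00 := k 0 0
  have k01 := k 0 1
  have k02 := k 0 2
  have k03 := k 0 3
  have k11 := k 1 1
  have k12 := k 1 2
  have k13 := k 1 3
  have k22 := k 2 2
  have k23 := k 2 3
  have k33 := k 3 3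
  simp [B] at k00 k01 k02 k03 k11 k12 k13 k22 k23 k33
  ext i j
  fin_cases i <;> fin_cases j <;> simp [co, bas, Fin.sum_univ_six] <;> linarith

lemma So.ad {Y : M4} (h : So Y) (b : L) : So (ad b Y) := fun x y => by
  have e : ∀ z, IR.ad b Y *ᵥ z = app b (Y *ᵥ app b⁻¹ z) := fun z => by
    simp only [IR.ad, app, mulVec_mulVec, Matrix.mul_assoc]
  rw [e, e, B_app_left, B_comm x, B_app_left, B_comm (Y *ᵥ app b⁻¹ y)]
  exact h _ _

lemma So.add {Y Z : M4} (h : So Y) (k : So Z) : So (Y + Z) := fun x y => by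
  rw [add_mulVec, add_mulVec, B_add_left, B_add_right]
  linarith [h x y, k x y]

lemma So.sub {Y Z : M4} (h : So Y) (k : So Z) : So (Y - Z) := fun x y => by
  rw [sub_mulVec, sub_mulVec, B_sub_left, B_sub_right]
  linarith [h x y, k x y]

lemma So.smul {Y : M4} (h : So Y) (c : ℝ) : So (c • Y) := fun x y => by
  rw [smul_mulVec, smul_mulVec, B_smul_left, B_smul_right, ← mul_add, h, mul_zero]

lemma So.lie {Y Z : M4} (h : So Y) (k : So Z) : So (Y * Z - Z * Y) := fun x y => by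
  simp only [sub_mulVec, ← mulVec_mulVec, B_sub_left, B_sub_right]
  linarith [h (Z *ᵥ x) y, k x (Y *ᵥ y), k (Y *ᵥ x) y, h x (Z *ᵥ y)]

section alg

variable {A : Type*} [Ring A] [Algebra ℂ A]

/-- The linear extension of an assignment on the basis. -/
noncomputable def lin (d : Fin 6 → A) (Y : M4) : A := ∑ i, (co Y i : ℂ) • d i

lemma lin_eq (d : Fin 6 → A) (Y : M4) : lin d Y = (Y 0 1 : ℂ) • d 0 + (Y 0 2 : ℂ) • d 1 +
    (Y 0 3 : ℂ) • d 2 + (Y 3 2 : ℂ) • d 3 + (Y 1 3 : ℂ) • d 4 + (Y 2 1 : ℂ) • d 5 := by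
  simp [lin, co, Fin.sum_univ_six]

lemma lin_bas (d : Fin 6 → A) (i : Fin 6) : lin d (bas i) = d i := by
  fin_cases i <;> simp [lin_eq, bas]

lemma lin_add (d : Fin 6 → A) (Y Z : M4) : lin d (Y + Z) = lin d Y + lin d Z := by
  simp only [lin_eq, Matrix.add_apply, Complex.ofReal_add]
  module

lemma lin_sub (d : Fin 6 → A) (Y Z : M4) : lin d (Y - Z) = lin d Y - lin d Z := by
  simp only [lin_eq, Matrix.sub_apply, Complex.ofReal_sub]
  module

lemma lin_smul (d : Fin 6 → A) (c : ℝ) (Y : M4) : lin d (c • Y) = (c : ℂ) • lin d Y := by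
  simp only [lin_eq, Matrix.smul_apply, smul_eq_mul, Complex.ofReal_mul]
  module

/-- The commutation relations of so(1,3). -/
def LieRel (d : Fin 6 → A) : Prop :=
  ∀ i j, d i * d j - d j * d i = lin d (bas i * bas j - bas j * bas i)

/-- The commutation relations written out. -/
theorem LieRel.rels {d : Fin 6 → A} (h : LieRel d) :
    (d 1 * d 0 = d 0 * d 1 + d 5 ∧ d 2 * d 0 = d 0 * d 2 - d 4 ∧ d 2 * d 1 = d 1 * d 2 + d 3) ∧
    (d 3 * d 0 = d 0 * d 3 ∧ d 4 * d 0 = d 0 * d 4 - d 2 ∧ d 5 * d 0 = d 0 * d 5 + d 1) ∧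
    (d 3 * d 1 = d 1 * d 3 + d 2 ∧ d 4 * d 1 = d 1 * d 4 ∧ d 5 * d 1 = d 1 * d 5 - d 0) ∧
    (d 3 * d 2 = d 2 * d 3 - d 1 ∧ d 4 * d 2 = d 2 * d 4 + d 0 ∧ d 5 * d 2 = d 2 * d 5) ∧
    (d 4 * d 3 = d 3 * d 4 - d 5 ∧ d 5 * d 3 = d 3 * d 5 + d 4 ∧ d 5 * d 4 = d 4 * d 5 - d 3) := by
  have k : ∀ i j, d i * d j = d j * d i + lin d (bas i * bas j - bas j * bas i) := fun i j => by
    rw [← h i j]
    abel
  refine ⟨⟨?_, ?_, ?_⟩, ⟨?_, ?_, ?_⟩, ⟨?_, ?_, ?_⟩, ⟨?_, ?_, ?_⟩, ⟨?_, ?_, ?_⟩⟩ <;>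
    rw [k] <;> simp [lin_eq, bas, Matrix.mul_apply, Fin.sum_univ_four, sub_eq_add_neg]

/-- The first Casimir element. -/
def cas1 (d : Fin 6 → A) : A :=
  d 0 * d 0 + d 1 * d 1 + d 2 * d 2 - d 3 * d 3 - d 4 * d 4 - d 5 * d 5

/-- Twice the second Casimir element. -/
def cas2 (d : Fin 6 → A) : A :=
  d 3 * d 0 + d 0 * d 3 + (d 4 * d 1 + d 1 * d 4) + (d 5 * d 2 + d 2 * d 5)

end alg

noncomputable def sn (i : Fin 6) (t : ℝ) : ℝ := if i.val < 3 then Real.sinh t else Real.sin t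

noncomputable def cn (i : Fin 6) (t : ℝ) : ℝ :=
  if i.val < 3 then Real.cosh t - 1 else 1 - Real.cos t

noncomputable def oneM (i : Fin 6) (t : ℝ) : M4 := 1 + sn i t • bas i + cn i t • (bas i * bas i)

noncomputable def oneL (i : Fin 6) (t : ℝ) : L :=
  ofMat (oneM i t) (fun x y => by
    have h1 := Real.cosh_sq t
    have h2 := Real.sin_sq_add_cos_sq t
    fin_cases i <;>
      simp [oneM, sn, cn, bas, B, add_mulVec, smul_mulVec, mulVec, dotProduct, Fin.sum_univ_four,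
        Matrix.mul_apply, one_apply]
    · linear_combination (x 0 * y 0 - x 1 * y 1) * h1
    · linear_combination (x 0 * y 0 - x 2 * y 2) * h1
    · linear_combination (x 0 * y 0 - x 3 * y 3) * h1
    · linear_combination (-x 2 * y 2 - x 3 * y 3) * h2
    · linear_combination (-x 1 * y 1 - x 3 * y 3) * h2
    · linear_combination (-x 1 * y 1 - x 2 * y 2) * h2) (by
    have := Real.cosh_pos t
    fin_cases i <;> simp [oneM, sn, cn, bas, Matrix.mul_apply, Fin.sum_univ_four, this])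

lemma oneL_add (i : Fin 6) (s t : ℝ) : oneL i (s + t) = oneL i s * oneL i t := by
  refine mat_inj ?_
  change oneM i (s + t) = oneM i s * oneM i t
  ext a b
  fin_cases i <;> fin_cases a <;> fin_cases b <;>
    simp [oneM, sn, cn, bas, Matrix.mul_apply, Fin.sum_univ_four, one_apply, Real.sinh_add,
      Real.cosh_add, Real.sin_add, Real.cos_add] <;> ring

/-- The one parameter group generated by a basis element. -/
noncomputable def one (i : Fin 6) (t : ℝ) : X :=
  ⟨oneL i t, by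
    change dt (oneL i t) = 1
    rw [← add_halves t, oneL_add, dt_mul, dt_sq]⟩

lemma mat_one' (i : Fin 6) (t : ℝ) :
    mat (one i t).val = 1 + sn i t • bas i + cn i t • (bas i * bas i) := rfl

lemma one_add (i : Fin 6) (s t : ℝ) : one i (s + t) = one i s * one i t :=
  Subtype.ext (oneL_add i s t)

lemma one_zero (i : Fin 6) : one i 0 = 1 :=
  Subtype.ext (mat_inj (by rw [mat_one']; simp [sn, cn]))

lemma one_neg (i : Fin 6) (t : ℝ) : one i (-t) = (one i t)⁻¹ :=
  eq_inv_of_mul_eq_one_left (by rw [← one_add, neg_add_cancel, one_zero])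

lemma continuous_one (i : Fin 6) : Continuous (one i) := by
  refine (continuous_L ?_).subtype_mk _
  change Continuous fun t => 1 + sn i t • bas i + cn i t • (bas i * bas i)
  unfold sn cn
  split_ifs <;> fun_prop

lemma one_mem_K {i : Fin 6} (hi : 3 ≤ i.val) (t : ℝ) : one i t ∈ K := by
  refine fix_of_ht (le_of_eq ?_)
  rw [ht_eq, mat_one']
  fin_cases i <;> simp [bas, Matrix.mul_apply, Fin.sum_univ_four] at hi ⊢

lemma app_boost (t : ℝ) : app (one 2 t).val o = ![Real.cosh t, 0, 0, Real.sinh t] := by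
  rw [app, mat_one']
  ext a
  fin_cases a <;> simp [sn, cn, bas, o, mulVec, dotProduct, Fin.sum_univ_four, Matrix.mul_apply,
    one_apply]

lemma hx_boost (t : ℝ) : hx (one 2 t) = Real.cosh t := by
  rw [hx, ht, app_boost]
  rfl

/-- A curve in X through the identity with tangent vector Y. -/
structure Crv (c : ℝ → X) (Y : M4) : Prop where
  zero : c 0 = 1
  der : HasDerivAt (fun t => mx (c t)) (amb Y) 0

lemma crv_one (i : Fin 6) : Crv (one i) (bas i) := by
  refine ⟨one_zero i, ?_⟩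
  have h1 : HasDerivAt (sn i) 1 0 := by
    unfold sn
    split_ifs
    · simpa using Real.hasDerivAt_sinh 0
    · simpa using Real.hasDerivAt_sin 0
  have h2 : HasDerivAt (cn i) 0 0 := by
    unfold cn
    split_ifs
    · simpa using (Real.hasDerivAt_cosh 0).sub_const 1
    · simpa using (Real.hasDerivAt_cos 0).const_sub 1
  refine hasDerivAt_pi.2 fun a => hasDerivAt_pi.2 fun b => ?_
  have := ((h1.mul_const (bas i a b)).const_add ((1 : M4) a b)).fun_add
    (h2.mul_const ((bas i * bas i) a b))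
  simpa [mx, mat_one'] using this

lemma Crv.entry {c : ℝ → X} {Y : M4} (h : Crv c Y) (a b : Fin 4) :
    HasDerivAt (fun t => mat (c t).val a b) (Y a b) 0 :=
  hasDerivAt_pi.1 (hasDerivAt_pi.1 h.der a) b

lemma Crv.mul {c : ℝ → X} {Y : M4} (h : Crv c Y) (P Q : M4) :
    HasDerivAt (fun t => amb (P * mat (c t).val * Q)) (amb (P * Y * Q)) 0 := by
  refine hasDerivAt_pi.2 fun a => hasDerivAt_pi.2 fun b => ?_
  simp only [amb_apply, Matrix.mul_apply]
  exact HasDerivAt.fun_sum fun k _ =>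
    (HasDerivAt.fun_sum fun j _ => (h.entry j k).const_mul _).mul_const _

lemma Crv.cj {c : ℝ → X} {Y : M4} (h : Crv c Y) (b : L) : Crv (fun t => cj b (c t)) (ad b Y) :=
  ⟨Subtype.ext (by rw [cj_val, h.zero]; simp), h.mul (mat b) (mat b⁻¹)⟩

lemma Crv.so {c : ℝ → X} {Y : M4} (h : Crv c Y) : So Y := fun x y => by
  have k : ∀ (z : V4) a, HasDerivAt (fun t => app (c t).val z a) ((Y *ᵥ z) a) 0 := fun z a => by
    simp only [app, mulVec, dotProduct]
    exact HasDerivAt.fun_sum fun j _ => (h.entry a j).mul_const _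
  have h1 := ((((k x 0).mul (k y 0)).sub ((k x 1).mul (k y 1))).sub ((k x 2).mul (k y 2))).sub
    ((k x 3).mul (k y 3))
  have h2 : HasDerivAt (fun t => B (app (c t).val x) (app (c t).val y)) 0 0 := by
    simp only [B_app]
    exact hasDerivAt_const _ _
  have h3 := h1.unique h2
  simp only [h.zero, OneMemClass.coe_one, app_one] at h3
  simp only [B]
  linarith

lemma Crv.continuousAt {c : ℝ → X} {Y : M4} (h : Crv c Y) : ContinuousAt c 0 :=
  isEmbedding_mx.isInducing.continuousAt_iff.2 h.der.continuousAt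

noncomputable def nilM (a b : ℝ) : M4 :=
  !![1 + (a * a + b * b) / 2, a, b, -((a * a + b * b) / 2); a, 1, 0, -a; b, 0, 1, -b;
    (a * a + b * b) / 2, a, b, 1 - (a * a + b * b) / 2]

noncomputable def nilL (a b : ℝ) : L :=
  ofMat (nilM a b) (fun x y => by
    simp [nilM, B, mulVec, dotProduct, Fin.sum_univ_four]
    ring) (by
    simp [nilM]
    nlinarith [mul_self_nonneg a, mul_self_nonneg b])

lemma nilL_add (a b a' b' : ℝ) : nilL (a + a') (b + b') = nilL a b * nilL a' b' := by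
  refine mat_inj ?_
  change nilM _ _ = nilM a b * nilM a' b'
  ext i j
  fin_cases i <;> fin_cases j <;> simp [nilM, Matrix.mul_apply, Fin.sum_univ_four] <;> ring

/-- The unipotent subgroup. -/
noncomputable def nil (a b : ℝ) : X :=
  ⟨nilL a b, by
    change dt (nilL a b) = 1
    rw [← add_halves a, ← add_halves b, nilL_add, dt_mul, dt_sq]⟩

lemma mat_nil (a b : ℝ) : mat (nil a b).val = nilM a b := rfl

lemma nil_add (a b a' b' : ℝ) : nil (a + a') (b + b') = nil a b * nil a' b' :=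
  Subtype.ext (nilL_add a b a' b')

lemma nil_zero : nil 0 0 = 1 := by
  refine Subtype.ext (mat_inj ?_)
  rw [mat_nil]
  ext i j
  fin_cases i <;> fin_cases j <;> simp [nilM]

lemma crv_nil1 : Crv (fun t => nil t 0) (bas 0 - bas 4) := by
  refine ⟨nil_zero, hasDerivAt_pi.2 fun a => hasDerivAt_pi.2 fun b => ?_⟩
  have h1 : HasDerivAt (fun t : ℝ => t * t / 2) 0 0 := by
    simpa using ((hasDerivAt_id' (0 : ℝ)).fun_mul (hasDerivAt_id' 0)).div_const 2
  have h2 := hasDerivAt_id' (0 : ℝ)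
  fin_cases a <;> fin_cases b <;> simp [mx, mat_nil, nilM, bas] <;>
    first | exact hasDerivAt_const _ _ | exact h1 | exact h2 | exact h2.neg | simpa using h1.fun_neg
          | simpa using h1.const_add 1 | simpa using h1.const_sub 1

lemma crv_nil2 : Crv (fun t => nil 0 t) (bas 1 + bas 3) := by
  refine ⟨nil_zero, hasDerivAt_pi.2 fun a => hasDerivAt_pi.2 fun b => ?_⟩
  have h1 : HasDerivAt (fun t : ℝ => t * t / 2) 0 0 := by
    simpa using ((hasDerivAt_id' (0 : ℝ)).fun_mul (hasDerivAt_id' 0)).div_const 2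
  have h2 := hasDerivAt_id' (0 : ℝ)
  fin_cases a <;> fin_cases b <;> simp [mx, mat_nil, nilM, bas] <;>
    first | exact hasDerivAt_const _ _ | exact h1 | exact h2 | exact h2.neg | simpa using h1.fun_neg
          | simpa using h1.const_add 1 | simpa using h1.const_sub 1

end Pool.Agent.Lib.MP_99bfa4_al.IR
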