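import Pool.Agent.Lib.MP_99bfa4_al.IR.Fld
import Pool.Agent.Lib.MP_99bfa4_al.IR.Cas

/-! Commutation relations of the vector fields and the Casimir operator. -/

open Matrix MeasureTheory Filter
open scoped ContDiff Topology InnerProductSpace ComplexConjugate

namespace Pool.Agent.Lib.MP_99bfa4_al.IR

lemma lie_second {f : Smooth} {F : Amb → ℂ} (hF : ContDiff ℝ ∞ F) (h : ∀ x, F (mx x) = f.val x)
    (i j : Fin 6) (x : X) : (fld i (fld j f)).val x =
      fderiv ℝ (fderiv ℝ F) (mx x) (amb (mat x.val * bas i)) (amb (mat x.val * bas j)) +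
        fderiv ℝ F (mx x) (amb (mat x.val * bas i * bas j)) := by
  have h1 : ContDiff ℝ ∞ (fderiv ℝ F) := hF.fderiv_right (m := ∞) (le_of_eq rfl)
  rw [fld_eq (F := fun m => fderiv ℝ F m (amb (Matrix.of m * bas j)))
    (h1.clm_apply (contDiff_mulR _)) fun y => (fld_eq hF h j y).symm]
  let T : Amb →ₗ[ℝ] Amb :=
    { toFun := fun m => amb (Matrix.of m * bas j)
      map_add' := fun a b => by rw [← map_add, ← Matrix.add_mul]; rfl
      map_smul' := fun c a => by rw [RingHom.id_apply, ← map_smul, ← Matrix.smul_mul]; rfl }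
  have h2 : HasFDerivAt (fun m : Amb => amb (Matrix.of m * bas j)) T.toContinuousLinearMap (mx x) :=
    T.toContinuousLinearMap.hasFDerivAt
  rw [((h1.differentiable (by simp) (mx x)).hasFDerivAt.clm_apply h2).fderiv, add_comm]
  rfl

theorem lieRel_fld : LieRel fld := by
  intro i j
  refine LinearMap.ext fun f => Subtype.ext (funext fun x => ?_)
  obtain ⟨F, hF, h⟩ := Smooth.ext' f
  change (fld i (fld j f)).val x - (fld j (fld i f)).val x = _
  rw [lie_second hF h, lie_second hF h, lin_fld_eq hF h ((so_bas i).lie (so_bas j)),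
    (hF.contDiffAt (x := mx x)).isSymmSndFDerivAt (by simp; norm_cast) (amb (mat x.val * bas i)),
    Matrix.mul_sub, map_sub, map_sub, Matrix.mul_assoc, Matrix.mul_assoc]
  ring

lemma lie_mem (S : Subalgebra ℂ (Module.End ℂ Smooth)) (k : ∀ i, fld i ∈ S) : cas1 fld ∈ S := by
  have m : ∀ i, fld i * fld i ∈ S := fun i => S.mul_mem (k i) (k i)
  have s : ∀ {a b : Module.End ℂ Smooth}, a ∈ S → b ∈ S → a - b ∈ S := fun {a b} ha hb => by
    have : a - b = a + (-1 : ℂ) • b := LinearMap.ext fun f => Subtype.ext (funext fun x => by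
      change (a f).val x - (b f).val x = (a f).val x + (-1) * (b f).val x
      ring)
    rw [this]
    exact S.add_mem ha (S.smul_mem hb _)
  exact s (s (s (S.add_mem (S.add_mem (m 0) (m 1)) (m 2)) (m 3)) (m 4)) (m 5)

theorem cas1_mem : cas1 fld ∈ DX := by
  refine ⟨?_, ?_⟩
  · have k : ∀ i, fld i ∈ Algebra.adjoin ℂ ({D : Module.End ℂ Smooth | ∃ a : Smooth, ∀ f, D f = a * f} ∪
        {D | ∀ y, ∃ c : ℝ → X, c 0 = y ∧
          ∀ f : Smooth, HasDerivAt (fun t => f.val (c t)) ((D f).val y) 0}) := fun i =>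
      Algebra.subset_adjoin (Or.inr fun y => ⟨fun t => y * one i t, by
        simp only [one_zero, mul_one], fun f => hasDerivAt_fld' f i y⟩)
    exact lie_mem _ k
  · rintro T ⟨g, hg⟩
    obtain rfl : T = tau g := LinearMap.ext fun f => Subtype.ext (funext fun y => hg f y)
    rw [cas1_semi (tau_fld g), cas1_ad]

/-- The Casimir operator. -/
noncomputable def Cs : DX := ⟨cas1 fld, cas1_mem⟩

end Pool.Agent.Lib.MP_99bfa4_al.IR
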