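import Pool.Agent.Lib.MP_99bfa4_al.IR.Rep
import Pool.Agent.Lib.MP_99bfa4_al.IR.Core
import Pool.Agent.Lib.MP_99bfa4_al.IR.Lie

/-! The derived representation exists. -/

open Matrix MeasureTheory Filter
open scoped ContDiff Topology InnerProductSpace ComplexConjugate

namespace Pool.Agent.Lib.MP_99bfa4_al.IR

universe u

variable {V : Type u} [NormedAddCommGroup V] [InnerProductSpace ℂ V] [CompleteSpace V]
  {π : G →* (V ≃ₗᵢ[ℂ] V)}


lemma drep_co (i j : Fin 6) : co (bas i) j = if i = j then 1 else 0 := by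
  fin_cases i <;> fin_cases j <;> simp [co, bas]

lemma drep_fldT (Y : M4) (h : Test) : fldT Y h = ∑ i, (co Y i : ℂ) • fldT (bas i) h := by
  refine Subtype.ext ?_
  rw [Submodule.coe_sum]
  change lin fld Y h.val = ∑ i, (co Y i : ℂ) • lin fld (bas i) h.val
  simp only [lin_bas]
  simp only [lin, LinearMap.sum_apply, LinearMap.smul_apply]

lemma drep_P (hπ : ∀ v, Continuous fun g => π g v) (v : V) (Y : M4) (h : Test) :
    P π v (fldT Y h) = ∑ i, (co Y i : ℂ) • P π v (fldT (bas i) h) := by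
  change PL hπ v _ = ∑ i, (co Y i : ℂ) • PL hπ v _
  rw [drep_fldT, map_sum]
  simp only [map_smul]

lemma drep_ex (hπ : ∀ v, Continuous fun g => π g v) : ∀ w ∈ Sm π, ∃ u : Fin 6 → V,
    (∀ i, u i ∈ Sm π) ∧ ∀ c Y, Crv c Y →
      HasDerivAt (fun t => π (rt (c t)) w) (∑ i, (co Y i : ℂ) • u i) 0 := by
  intro w hw
  induction hw using Submodule.span_induction with
  | mem w h =>
    obtain ⟨v, h, rfl⟩ := h
    refine ⟨fun i => P π v (fldT (bas i) h), fun i => P_mem _ _, fun c Y hc => ?_⟩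
    simp only [P_rt hπ]
    rw [← drep_P hπ]
    exact deriv_of_bound (P_bdd hπ v) hc h
  | zero =>
    refine ⟨0, fun _ => zero_mem _, fun c Y _ => ?_⟩
    simp only [map_zero, Pi.zero_apply, smul_zero, Finset.sum_const_zero]
    exact hasDerivAt_const _ _
  | add a b _ _ ha hb =>
    obtain ⟨u, h1, h2⟩ := ha
    obtain ⟨u', h3, h4⟩ := hb
    refine ⟨u + u', fun i => add_mem (h1 i) (h3 i), fun c Y hc => ?_⟩
    simp only [map_add, Pi.add_apply, smul_add, Finset.sum_add_distrib]
    exact (h2 c Y hc).fun_add (h4 c Y hc)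
  | smul z a _ ha =>
    obtain ⟨u, h1, h2⟩ := ha
    refine ⟨z • u, fun i => Submodule.smul_mem _ z (h1 i), fun c Y hc => ?_⟩
    simp only [map_smul, Pi.smul_apply, smul_comm _ z, ← Finset.smul_sum]
    exact (h2 c Y hc).fun_const_smul z

lemma drep_ex' (hπ : ∀ v, Continuous fun g => π g v) (w : Sm π) : ∃ u : Fin 6 → Sm π,
    (∀ i, HasDerivAt (fun t => π (rt (one i t)) w.val) (u i).val 0) ∧ ∀ c Y, Crv c Y →
      HasDerivAt (fun t => π (rt (c t)) w.val) (∑ i, (co Y i : ℂ) • (u i).val) 0 := by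
  obtain ⟨u, h1, h2⟩ := drep_ex hπ w.val w.property
  refine ⟨fun i => ⟨u i, h1 i⟩, fun i => ?_, h2⟩
  have := h2 _ _ (crv_one i)
  simp only [drep_co, apply_ite, Complex.ofReal_one, Complex.ofReal_zero, ite_smul, one_smul,
    zero_smul, Finset.sum_ite_eq, Finset.mem_univ, if_true] at this
  exact this

omit [CompleteSpace V] in
lemma drep_lin (d : Fin 6 → Module.End ℂ (Sm π)) (Y : M4) (w : Sm π) :
    (lin d Y w).val = ∑ i, (co Y i : ℂ) • (d i w).val := by
  simp only [lin, LinearMap.sum_apply, LinearMap.smul_apply, Submodule.coe_sum,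
    Submodule.coe_smul]

theorem exists_drep (hπ : ∀ v, Continuous fun g => π g v) : ∃ d, DRep π d := by
  choose u h1 h2 using drep_ex' hπ
  let d : Fin 6 → Module.End ℂ (Sm π) := fun i =>
    { toFun := fun w => u w i
      map_add' := fun a b => Subtype.ext ((h1 (a + b) i).unique (by
        simp only [Submodule.coe_add, map_add]
        exact (h1 a i).fun_add (h1 b i)))
      map_smul' := fun z a => Subtype.ext ((h1 (z • a) i).unique (by
        simp only [Submodule.coe_smul, map_smul, RingHom.id_apply]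
        exact (h1 a i).fun_const_smul z)) }
  refine ⟨d, fun Y _ v h => ?_, fun c Y hc w => ?_⟩
  · rw [drep_lin, drep_P hπ]
    refine Finset.sum_congr rfl fun i _ => congrArg _ ((h1 ⟨P π v h, P_mem v h⟩ i).unique ?_)
    simp only [P_rt hπ]
    exact deriv_of_bound (P_bdd hπ v) (crv_one i) h
  · rw [drep_lin]
    exact h2 w c Y hc

lemma drep_ext {A C : Module.End ℂ (Sm π)}
    (H : ∀ v h, (A ⟨P π v h, P_mem v h⟩).val = (C ⟨P π v h, P_mem v h⟩).val) : A = C := by
  refine LinearMap.ext fun ⟨w, hw⟩ => ?_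
  induction hw using Submodule.span_induction with
  | mem w h =>
    obtain ⟨v, h, rfl⟩ := h
    exact Subtype.ext (H v h)
  | zero => exact (map_zero A).trans (map_zero C).symm
  | add a b ha hb h1 h2 =>
    exact (map_add A ⟨a, ha⟩ ⟨b, hb⟩).trans
      ((congrArg₂ (· + ·) h1 h2).trans (map_add C ⟨a, ha⟩ ⟨b, hb⟩).symm)
  | smul z a ha h1 =>
    exact (map_smul A z ⟨a, ha⟩).trans
      ((congrArg (z • ·) h1).trans (map_smul C z ⟨a, ha⟩).symm)

lemma drep_gen {d : Fin 6 → Module.End ℂ (Sm π)} (h : DRep π d) (i : Fin 6) (v : V) (k : Test) :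
    d i ⟨P π v k, P_mem v k⟩ = ⟨P π v (fldT (bas i) k), P_mem _ _⟩ :=
  Subtype.ext (by rw [← lin_bas d i]; exact h.gen _ (so_bas i) v k)

theorem DRep.sk (hπ : ∀ v, Continuous fun g => π g v) {d : Fin 6 → Module.End ℂ (Sm π)}
    (h : DRep π d) : Sk d := by
  refine ⟨fun i j => drep_ext fun v k => ?_, fun i a b => ?_⟩
  · rw [h.gen _ ((so_bas i).lie (so_bas j)), LinearMap.sub_apply, Module.End.mul_apply,
      Module.End.mul_apply, drep_gen h, drep_gen h, drep_gen h, drep_gen h]
    change PL hπ v _ - PL hπ v _ = PL hπ v _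
    rw [← map_sub]
    refine congrArg _ (Subtype.ext ?_)
    change lin fld (bas i) (lin fld (bas j) k.val) - lin fld (bas j) (lin fld (bas i) k.val) =
      lin fld (bas i * bas j - bas j * bas i) k.val
    rw [← lieRel_fld i j, lin_bas, lin_bas]
    rfl
  · have h1 := (h.der _ _ (crv_one i) a).inner ℂ (h.der _ _ (crv_one i) b)
    simp only [LinearIsometryEquiv.inner_map_map, lin_bas, one_zero, map_one,
      LinearIsometryEquiv.coe_one, id] at h1
    exact eq_neg_of_add_eq_zero_right (h1.unique (hasDerivAt_const _ _))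

/-- The action of G on smoothed vectors. -/
noncomputable def actS (hπ : ∀ v, Continuous fun g => π g v) (g : G) : Module.End ℂ (Sm π) :=
  (π g).toLinearEquiv.toLinearMap.restrict (Sm_act hπ g)

theorem DRep.conj (hπ : ∀ v, Continuous fun g => π g v) {d : Fin 6 → Module.End ℂ (Sm π)}
    (h : DRep π d) (g : G) (i : Fin 6) :
    actS hπ g * d i = lin d (ad g.val.2 (bas i)) * actS hπ g := by
  have e : ∀ v k, actS hπ g ⟨P π v k, P_mem v k⟩ =
      ⟨P π (π g v) (tauT (dg g.val.2) k), P_mem _ _⟩ := fun v k => Subtype.ext (P_act hπ v k g)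
  refine drep_ext fun v k => ?_
  rw [Module.End.mul_apply, Module.End.mul_apply, drep_gen h, e, e,
    h.gen _ ((so_bas i).ad _)]
  refine congrArg (P π (π g v)) (Subtype.ext ?_)
  change tau (dg g.val.2) (lin fld (bas i) k.val) =
    lin fld (ad g.val.2 (bas i)) (tau (dg g.val.2) k.val)
  rw [lin_bas]
  exact LinearMap.congr_fun (tau_fld (dg g.val.2) i) k.val

end Pool.Agent.Lib.MP_99bfa4_al.IR
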