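import Pool.Agent.Lib.MP_99bfa4_al.Gen
import Pool.Agent.Lib.MP_99bfa4_al.SS.Defs

/-!
Definitions for the irreducible counterexample: the group manifold X = SO+(1,3), acted on from
both sides by the pairs (a, b) of elements of O+(1,3) with equal determinant.
-/

open Matrix MeasureTheory
open scoped ContDiff Topology

namespace Pool.Agent.Lib.MP_99bfa4_al.IR

/-- The Lorentz form of signature (1,3). -/
def B (x y : Fin 4 → ℝ) : ℝ := x 0 * y 0 - x 1 * y 1 - x 2 * y 2 - x 3 * y 3

/-- The group O+(1,3): invertible matrices that preserve the Lorentz form and the upper sheet of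
the hyperboloid. -/
def L : Subgroup (GL (Fin 4) ℝ) where
  carrier := {g | (∀ x y, B (g.val *ᵥ x) (g.val *ᵥ y) = B x y) ∧
    ∀ x, B x x = 1 → 0 < x 0 → 0 < (g.val *ᵥ x) 0}
  one_mem' := ⟨fun x y => by simp, fun x _ h => by simpa using h⟩
  mul_mem' := fun {a b} ha hb => ⟨fun x y => by
      rw [Units.val_mul, ← mulVec_mulVec, ← mulVec_mulVec, ha.1, hb.1],
    fun x h1 h2 => by
      rw [Units.val_mul, ← mulVec_mulVec]
      exact ha.2 _ ((hb.1 x x).trans h1) (hb.2 x h1 h2)⟩
  inv_mem' := fun {a} ha => by
    have e : ∀ x, a.val *ᵥ (a⁻¹.val *ᵥ x) = x := fun x => by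
      rw [mulVec_mulVec, a.mul_inv, one_mulVec]
    have h : ∀ x y, B (a⁻¹.val *ᵥ x) (a⁻¹.val *ᵥ y) = B x y := fun x y => by rw [← ha.1, e, e]
    refine ⟨h, fun x h1 h2 => ?_⟩
    have h3 := (h x x).trans h1
    generalize hy : a⁻¹.val *ᵥ x = y at h3
    have h4 : a.val *ᵥ (-y) = -x := by rw [mulVec_neg, ← hy, e]
    by_contra c
    have h5 : B (-y) (-y) = 1 := by simpa [B] using h3
    have h6 : 0 < (-y) 0 := by
      rcases (not_lt.1 c).lt_or_eq with c | c
      · simpa using c
      · rw [B, c] at h3
        nlinarith [mul_self_nonneg (y 1), mul_self_nonneg (y 2), mul_self_nonneg (y 3)]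
    have h7 := ha.2 _ h5 h6
    rw [h4, Pi.neg_apply] at h7
    linarith

/-- The matrix of an element of O+(1,3). -/
def mat (g : L) : Matrix (Fin 4) (Fin 4) ℝ := g.val.val

/-- The subgroup SO+(1,3) of the elements of determinant one. -/
def SO : Subgroup L where
  carrier := {g | (mat g).det = 1}
  one_mem' := det_one
  mul_mem' := fun {a b} ha hb => (det_mul (mat a) (mat b)).trans
    ((congrArg₂ (· * ·) ha hb).trans (one_mul 1))
  inv_mem' := fun {a} ha => by
    have h : (mat a⁻¹).det * (mat a).det = 1 :=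
      (det_mul _ _).symm.trans ((congrArg det a.val.inv_mul).trans det_one)
    rwa [show (mat a).det = 1 from ha, mul_one] at h

/-- The pairs of elements of O+(1,3) with equal determinant. -/
def Pairs : Subgroup (L × L) where
  carrier := {p | (mat p.1).det = (mat p.2).det}
  one_mem' := rfl
  mul_mem' := fun {a b} ha hb => (det_mul (mat a.1) (mat b.1)).trans
    ((congrArg₂ (· * ·) ha hb).trans (det_mul (mat a.2) (mat b.2)).symm)
  inv_mem' := fun {a} ha => by
    have h : ∀ g : L, (mat g⁻¹).det = ((mat g).det)⁻¹ := fun g => eq_inv_of_mul_eq_one_left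
      ((det_mul _ _).symm.trans ((congrArg det g.val.inv_mul).trans det_one))
    exact (h a.1).trans ((congrArg (·⁻¹) ha).trans (h a.2).symm)

/-- The group G. -/
abbrev G : Type := Pairs

/-- The space X = SO+(1,3). -/
abbrev X : Type := SO

/-- The group structure of G as a subgroup. -/
instance grpG : Group G := Pairs.toGroup

/-- The subspace topology on G. -/
instance topG : TopologicalSpace G := instTopologicalSpaceSubtype

/-- The group structure of X as a subgroup. -/
instance grpX : Group X := SO.toGroup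

/-- The subspace topology on X. -/
instance topX : TopologicalSpace X := instTopologicalSpaceSubtype

/-- The map (a, b), x to a x b^(-1). -/
def sm (g : G) (x : X) : X :=
  ⟨g.val.1 * x.val * g.val.2⁻¹, by
    have h : ∀ g h : L, mat (g * h) = mat g * mat h := fun _ _ => rfl
    have h1 : (mat g.val.1).det = (mat g.val.2).det := g.property
    have h2 : (mat x.val).det = 1 := x.property
    change (mat (g.val.1 * x.val * g.val.2⁻¹)).det = 1
    rw [h, h, det_mul, det_mul, h2, mul_one, h1, ← det_mul, ← h, mul_inv_cancel]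
    exact det_one⟩

theorem sm_one (x : X) : sm 1 x = x := Subtype.ext (show 1 * x.val * 1⁻¹ = x.val by simp)

theorem sm_mul (g h : G) (x : X) : sm (g * h) x = sm g (sm h x) :=
  Subtype.ext (show g.val.1 * h.val.1 * x.val * (g.val.2 * h.val.2)⁻¹ =
    g.val.1 * (h.val.1 * x.val * h.val.2⁻¹) * g.val.2⁻¹ by simp [mul_assoc])

/-- The action (a, b) x = a x b^(-1). -/
instance act : MulAction G X where
  smul := sm
  one_smul := sm_one
  mul_smul := sm_mul

/-- The Borel sigma-algebra on X. -/
instance borelX : MeasurableSpace X := borel X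

instance borelSpaceX : BorelSpace X := ⟨rfl⟩

instance locallyCompactX : LocallyCompactSpace X := by
  have : LocallyCompactSpace (Matrix (Fin 4) (Fin 4) ℝ) :=
    inferInstanceAs (LocallyCompactSpace (Fin 4 → Fin 4 → ℝ))
  have c : Continuous fun g : GL (Fin 4) ℝ => g.val := Units.continuous_val
  have cv : ∀ x, Continuous fun g : GL (Fin 4) ℝ => g.val *ᵥ x := fun x =>
    c.matrix_mulVec continuous_const
  have h1 : IsClosed (L : Set (GL (Fin 4) ℝ)) := by
    have e : (L : Set (GL (Fin 4) ℝ)) =
        (⋂ x, ⋂ y, {g | B (g.val *ᵥ x) (g.val *ᵥ y) = B x y}) ∩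
          ⋂ x, ⋂ (_ : B x x = 1), ⋂ (_ : 0 < x 0), {g | 0 ≤ (g.val *ᵥ x) 0} := by
      ext g
      simp only [Set.mem_inter_iff, Set.mem_iInter, Set.mem_ofPred_eq]
      refine ⟨fun h => ⟨h.1, fun x h1 h2 => (h.2 x h1 h2).le⟩,
        fun h => ⟨h.1, fun x h1 h2 => (h.2 x h1 h2).lt_of_ne fun c => ?_⟩⟩
      have h3 := (h.1 x x).trans h1
      rw [B, ← c] at h3
      nlinarith [mul_self_nonneg ((g.val *ᵥ x) 1), mul_self_nonneg ((g.val *ᵥ x) 2),
        mul_self_nonneg ((g.val *ᵥ x) 3)]
    rw [e]
    refine (isClosed_iInter fun x => isClosed_iInter fun y => isClosed_eq ?_ continuous_const).inter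
      (isClosed_iInter fun x => isClosed_iInter fun _ => isClosed_iInter fun _ =>
        isClosed_le continuous_const ((continuous_apply 0).comp (cv x)))
    have k := fun x i => (continuous_apply i).comp (cv x)
    exact ((((k x 0).mul (k y 0)).sub ((k x 1).mul (k y 1))).sub ((k x 2).mul (k y 2))).sub
      ((k x 3).mul (k y 3))
  have : LocallyCompactSpace L := h1.isClosedEmbedding_subtypeVal.locallyCompactSpace
  have h2 : IsClosed (SO : Set L) :=
    isClosed_eq (c.comp continuous_subtype_val).matrix_det continuous_const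
  exact h2.isClosedEmbedding_subtypeVal.locallyCompactSpace

/-- The Haar measure on X. -/
noncomputable def mu : Measure X := Measure.haar

/-- The algebra of smooth complex valued functions on the closed submanifold X of the space of
4 by 4 real matrices: the restrictions of smooth functions of the matrix entries. -/
def Smooth : Subalgebra ℂ (X → ℂ) where
  carrier := {f | ∃ F : (Fin 4 → Fin 4 → ℝ) → ℂ, ContDiff ℝ ∞ F ∧ ∀ x : X, F (mat x.val) = f x}
  mul_mem' := fun ⟨F, hF, h⟩ ⟨F', hF', h'⟩ => ⟨fun e => F e * F' e, hF.mul hF', fun x =>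
    congrArg₂ (· * ·) (h x) (h' x)⟩
  add_mem' := fun ⟨F, hF, h⟩ ⟨F', hF', h'⟩ => ⟨fun e => F e + F' e, hF.add hF', fun x =>
    congrArg₂ (· + ·) (h x) (h' x)⟩
  algebraMap_mem' := fun c => ⟨fun _ => c, contDiff_const, fun _ => rfl⟩

/-- For a group K acting on Y and an algebra A of functions on Y: infinitely many characters of
the algebra of invariant differential operators are stable spectra. -/
def InfStable {K : Type} [Group K] [TopologicalSpace K] {Y : Type} [MeasurableSpace Y]
    [MulAction K Y] {A : Type} [CommRing A] [Algebra ℂ A] (μ : Measure Y) (val : A → Y → ℂ)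
    (Γ : Subgroup K) : Prop :=
  {l : Gen.InvDiffOp K val →ₐ[ℂ] ℂ | ∀ᶠ φ in SS.near Γ.subtype,
    SS.HasEigen μ val φ.range (fun D : Gen.InvDiffOp K val => D.val) l}.Infinite

end Pool.Agent.Lib.MP_99bfa4_al.IR
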