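import Pool.Agent.Lib.MP_99bfa4_al.IR.Rop
import Pool.Agent.Lib.MP_99bfa4_al.IR.FD

/-! Approximate identities; the space of invariant functions is infinite dimensional. -/

open Matrix MeasureTheory Filter
open scoped ContDiff Topology InnerProductSpace ComplexConjugate

namespace Pool.Agent.Lib.MP_99bfa4_al.IR

theorem approx {f : X → ℂ} (hf : Continuous f) (hK : RK f) (h0 : f ≠ 0) :
    ∃ ψ, Bump ψ ∧ Rop ψ f ≠ 0 := by
  obtain ⟨x, hx0⟩ := Function.ne_iff.1 h0
  have hc : Continuous fun y => f (x * y) := hf.comp (continuous_const_mul x)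
  have hc' : Continuous fun y => ⟪f x, f (x * y)⟫_ℝ := continuous_const.inner hc
  have hp : ∀ k ∈ K, 0 < ⟪f x, f (x * k)⟫_ℝ := fun k hk => by
    rw [hK k hk]
    exact real_inner_self_pos.2 hx0
  obtain ⟨R, hR, hU⟩ := ball_subset (isOpen_lt continuous_const hc') hp
  have hB : Bump fun u => expNegInvGlue (R - u) :=
    ⟨expNegInvGlue.contDiff.comp (contDiff_const.sub contDiff_id), R, fun u hu =>
      expNegInvGlue.zero_of_nonpos (by linarith)⟩
  refine ⟨_, hB, fun h => ?_⟩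
  have hi := hB.integrable hc
  have h1 := integral_inner (𝕜 := ℝ) hi (f x)
  have h2 : (∫ y, expNegInvGlue (R - hx y) • f (x * y) ∂mu) = 0 := congrFun h x
  rw [h2, inner_zero_right] at h1
  refine (integral_pos_of_integrable_nonneg_nonzero (x := 1) (continuous_const.inner
    ((hB.1.continuous.comp continuous_hx).smul hc)) (hi.const_inner (f x)) (fun y => ?_) ?_).ne' h1
  · change 0 ≤ ⟪f x, expNegInvGlue (R - hx y) • f (x * y)⟫_ℝ
    rw [real_inner_smul_right]
    rcases le_total (hx y) R with c | c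
    · exact mul_nonneg (expNegInvGlue.nonneg _) (hU c).le
    · rw [expNegInvGlue.zero_of_nonpos (by linarith), zero_mul]
  · change ⟪f x, expNegInvGlue (R - ht 1) • f (x * 1)⟫_ℝ ≠ 0
    rw [real_inner_smul_right, ht_one]
    exact (mul_pos (expNegInvGlue.pos_of_pos (by linarith)) (hp 1 (one_mem _))).ne'

lemma dim_poly {Γ : Subgroup G} [FiniteDimensional ℂ (Inv Γ)] {f : X → ℂ} (hf : f ∈ Inv Γ) :
    (Set.range f).Finite := by
  let P : Polynomial ℂ →ₗ[ℂ] Inv Γ :=
    { toFun := fun p => ⟨fun x => p.eval (f x), p.continuous.comp hf.1,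
        fun γ h x => congrArg (fun z => p.eval z) (hf.2.1 γ h x),
        fun k h x => congrArg (fun z => p.eval z) (hf.2.2 k h x)⟩
      map_add' := fun p q => Subtype.ext (funext fun x => Polynomial.eval_add)
      map_smul' := fun c p => Subtype.ext (funext fun x => Polynomial.eval_smul c p (f x)) }
  by_contra hi
  refine Polynomial.not_finite (FiniteDimensional.of_injective P
    ((injective_iff_map_eq_zero P).2 fun p hp => p.eq_zero_of_infinite_isRoot
      (Set.Infinite.mono ?_ hi)))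
  rintro _ ⟨x, rfl⟩
  exact congrFun (congrArg Subtype.val hp) x

lemma dim_fin {Γ : Subgroup G} (h : SS.Discontinuous X Γ) (a b : ℝ) :
    {γ : Γ | ∃ x, hx x ≤ a ∧ hx ((γ : G) • x) ≤ b}.Finite :=
  (h.1.finite_disjoint_inter_image (isCompact_ball a) (isCompact_ball b)).subset
    fun _ ⟨x, h1, h2⟩ => ⟨_, ⟨x, h1, rfl⟩, h2⟩

lemma dim_far {Γ : Subgroup G} (h : SS.Discontinuous X Γ) (hΓ : ∀ γ ∈ Γ, app γ.val.2 o = o) :
    ∃ t c : ℝ, 1 < c ∧ ∀ γ : Γ, c ≤ hx ((γ : G) • one 2 t) := by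
  have := fd_countable h
  obtain ⟨t, ht'⟩ := ((Set.countable_range fun γ : Γ =>
    Real.arsinh (app (γ : G).val.1⁻¹ o 3)).dense_compl ℝ).nonempty
  have hT := (dim_fin h (hx (one 2 t)) 2).image fun γ : Γ => (γ : G) • one 2 t
  obtain ⟨R, hR, hU⟩ := ball_subset hT.isClosed.isOpen_compl (by
    rintro _ hk ⟨γ, -, rfl⟩
    refine ht' ⟨γ, ?_⟩
    have h1 : app ((γ : G).val.1 * (one 2 t).val * (γ : G).val.2⁻¹) o = o := hk
    rw [app_mul, app_inv_o (hΓ γ γ.2), app_mul] at h1
    have h2 : app (γ : G).val.1⁻¹ o = app (one 2 t).val o := by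
      conv_lhs => rw [← h1, app_inv_app]
    change Real.arsinh (app (γ : G).val.1⁻¹ o 3) = t
    rw [h2, app_boost]
    exact Real.arsinh_sinh t)
  refine ⟨t, min R 2, lt_min hR one_lt_two, fun γ => not_lt.1 fun c => ?_⟩
  exact hU (c.le.trans (min_le_left _ _)) ⟨γ, ⟨_, le_rfl, c.le.trans (min_le_right _ _)⟩, rfl⟩

theorem inf_dim {Γ : Subgroup G} (h : SS.Discontinuous X Γ) (hΓ : ∀ γ ∈ Γ, app γ.val.2 o = o) :
    ¬ FiniteDimensional ℂ (Inv Γ) := by
  intro hd
  obtain ⟨t, c, hc, ht'⟩ := dim_far h hΓ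
  let g : X → ℝ := fun x => ∑ᶠ γ : Γ, max 0 (c - hx ((γ : G) • x))
  have hs : ∀ (γ : Γ) x, max 0 (c - hx ((γ : G) • x)) ≠ 0 → hx ((γ : G) • x) ≤ c :=
    fun γ x k => not_lt.1 fun k' => k (max_eq_left (by linarith))
  have hg : Continuous g := by
    refine continuous_finsum (fun γ => continuous_const.max (continuous_const.sub
      (continuous_hx.comp (continuous_const_smul (γ : G))))) fun x => ?_
    refine ⟨{y | hx y < hx x + 1}, (isOpen_lt continuous_hx continuous_const).mem_nhds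
      (lt_add_one (hx x)), (dim_fin h (hx x + 1) c).subset ?_⟩
    rintro γ ⟨y, h1, h2⟩
    exact ⟨y, le_of_lt h2, hs γ y h1⟩
  have hf : (fun x => (g x : ℂ)) ∈ Inv Γ := by
    refine ⟨Complex.continuous_ofReal.comp hg, fun δ hδ x => congrArg Complex.ofReal ?_,
      fun k hk x => congrArg Complex.ofReal (finsum_congr fun γ => ?_)⟩
    · refine Eq.trans (finsum_congr fun γ => ?_) (finsum_comp_equiv
        (Equiv.mulRight (⟨δ, hδ⟩ : Γ)) (f := fun γ : Γ => max 0 (c - hx ((γ : G) • x))))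
      rw [← mul_smul]
      rfl
    · have e : ∀ y : X, hx ((γ : G) • y) = ht ((γ : G).val.1 * y.val) := fun y =>
        ht_mul_right _ (app_inv_o (hΓ γ γ.2))
      rw [e, e]
      change max 0 (c - ht ((γ : G).val.1 * (x.val * k.val))) = _
      rw [← mul_assoc, ht_mul_right _ hk]
  have h0 : g (one 2 t) = 0 :=
    finsum_eq_zero_of_forall_eq_zero fun γ => max_eq_left (by linarith [ht' γ])
  have h1 : 0 < g (one 2 0) := by
    refine finsum_pos (fun γ => le_max_left _ _) ⟨1, lt_max_of_lt_right ?_⟩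
      ((dim_fin h (hx (one 2 0)) c).subset fun γ k => ⟨_, le_rfl, hs γ _ k⟩)
    rw [OneMemClass.coe_one, one_smul, hx_boost, Real.cosh_zero]
    linarith
  refine (Set.Icc_infinite h1).image Complex.ofReal_injective.injOn ((dim_poly hf).subset ?_)
  rintro _ ⟨r, hr, rfl⟩
  obtain ⟨s, hs'⟩ := intermediate_value_univ t 0 (hg.comp (continuous_one 2))
    (show r ∈ Set.Icc (g (one 2 t)) (g (one 2 0)) from h0.symm ▸ hr)
  exact ⟨one 2 s, congrArg Complex.ofReal hs'⟩

end Pool.Agent.Lib.MP_99bfa4_al.IR
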