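import Pool.Agent.Lib.MP_99bfa4_al.IR.Rep

/-! Vectors that are finite under the rotations. -/

open Matrix MeasureTheory Filter
open scoped ContDiff Topology InnerProductSpace ComplexConjugate

namespace Pool.Agent.Lib.MP_99bfa4_al.IR

universe u

variable {V : Type u} [NormedAddCommGroup V] [InnerProductSpace ℂ V] [CompleteSpace V]
  {π : G →* (V ≃ₗᵢ[ℂ] V)}

/-- The matrix entries as smooth functions. -/
noncomputable def kfCd (a b : Fin 4) : Smooth :=
  ⟨fun x => (mat x.val a b : ℂ), smooth_of (F := fun m => (m a b : ℂ))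
    (Complex.ofRealCLM.contDiff.comp (by fun_prop)) fun _ => rfl⟩

/-- The span of the constants and the matrix entries. -/
noncomputable def kfS : Submodule ℂ Smooth :=
  Submodule.span ℂ (insert 1 (Set.range fun p : Fin 4 × Fin 4 => kfCd p.1 p.2))

lemma kf_one_mem : (1 : Smooth) ∈ kfS := Submodule.subset_span (Set.mem_insert _ _)

lemma kf_cd_mem (a b : Fin 4) : kfCd a b ∈ kfS :=
  Submodule.subset_span (Set.mem_insert_of_mem _ ⟨(a, b), rfl⟩)

lemma kf_fld_one (i : Fin 6) : fld i 1 = 0 := by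
  have h := fld_mul i 1 1
  rw [one_mul, one_mul] at h
  exact left_eq_add.1 h

lemma kf_fld_cd (i : Fin 6) (a b : Fin 4) :
    fld i (kfCd a b) = ∑ c, (bas i c b : ℂ) • kfCd a c := by
  refine Subtype.ext (funext fun x => (hasDerivAt_fld' _ i x).unique ?_)
  have h := hasDerivAt_pi.1 (hasDerivAt_pi.1 ((crv_one i).mul (mat x.val) 1) a) b
  simp only [Matrix.mul_one, amb_apply] at h
  have e : (∑ c, (bas i c b : ℂ) • kfCd a c).val x = (((mat x.val * bas i) a b : ℝ) : ℂ) := by
    simp only [AddSubmonoidClass.coe_finsetSum, Finset.sum_apply, SetLike.val_smul, Pi.smul_apply,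
      smul_eq_mul, kfCd, Matrix.mul_apply, Complex.ofReal_sum, Complex.ofReal_mul, mul_comm]
  rw [e]
  exact h.ofReal_comp

lemma kf_fld_S (i : Fin 6) {m : Smooth} (hm : m ∈ kfS) : fld i m ∈ kfS := by
  induction hm using Submodule.span_induction with
  | mem m h =>
    rcases h with rfl | ⟨p, rfl⟩
    · rw [kf_fld_one]; exact zero_mem _
    · rw [kf_fld_cd]; exact Submodule.sum_mem _ fun c _ => Submodule.smul_mem _ _ (kf_cd_mem _ _)
  | zero => rw [map_zero]; exact zero_mem _
  | add a b _ _ ha hb => rw [map_add]; exact add_mem ha hb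
  | smul c a _ ha => rw [map_smul]; exact Submodule.smul_mem _ c ha

lemma kf_fld_pow (i : Fin 6) {n : ℕ} {q : Smooth} (hq : q ∈ kfS ^ n) : fld i q ∈ kfS ^ n := by
  induction hq using Submodule.pow_induction_on_left' with
  | algebraMap r => rw [Algebra.algebraMap_eq_smul_one, map_smul, kf_fld_one, smul_zero]; exact zero_mem _
  | add x y n _ _ hx hy => rw [map_add]; exact add_mem hx hy
  | mem_mul m hm n x hx ih =>
    rw [fld_mul, mul_comm x, pow_succ']
    exact add_mem (Submodule.mul_mem_mul hm ih) (Submodule.mul_mem_mul (kf_fld_S i hm) hx)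

lemma kf_pow_add {n : ℕ} {q : Smooth} (hq : q ∈ kfS ^ n) (m : ℕ) : q ∈ kfS ^ (n + m) := by
  have := Submodule.mul_mem_mul hq (Submodule.pow_mem_pow kfS kf_one_mem m)
  rwa [one_pow, mul_one, ← pow_add] at this

/-- The cut-off function. -/
noncomputable def kfB : Smooth :=
  ⟨fun x => (Real.smoothTransition (2 - hx x) : ℂ),
    smooth_of (F := fun m => (Real.smoothTransition (2 - m 0 0) : ℂ))
      (Complex.ofRealCLM.contDiff.comp (Real.smoothTransition.contDiff.comp (by fun_prop)))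
      fun x => by rw [hx, ht_eq, mx_apply]⟩

lemma kf_fld_B {i : Fin 6} (hi : 3 ≤ i.val) : fld i kfB = 0 := by
  refine Subtype.ext (funext fun x => (hasDerivAt_fld' _ i x).unique ?_)
  have e : (fun t => kfB.val (x * one i t)) = fun _ => kfB.val x := funext fun t =>
    congrArg (fun r : ℝ => (Real.smoothTransition (2 - r) : ℂ))
      (ht_mul_right x.val (one_mem_K hi t))
  rw [e]
  exact hasDerivAt_const _ _

/-- Multiplication by the cut-off function. -/
noncomputable def kfM : Smooth →ₗ[ℂ] Test :=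
  (LinearMap.mulRight ℂ kfB).codRestrict Test fun q => ⟨2, fun x h => by
    change q.val x * (Real.smoothTransition (2 - hx x) : ℂ) = 0
    rw [Real.smoothTransition.zero_of_nonpos (by linarith), Complex.ofReal_zero, mul_zero]⟩

lemma kf_fldT {i : Fin 6} (hi : 3 ≤ i.val) (q : Smooth) :
    fldT (bas i) (kfM q) = kfM (fld i q) := by
  refine Subtype.ext ?_
  change lin fld (bas i) (q * kfB) = fld i q * kfB
  rw [lin_bas, fld_mul, kf_fld_B hi, mul_zero, zero_add, mul_comm]

/-- The real polynomial functions. -/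
noncomputable def kfA : Subalgebra ℝ C(X, ℝ) where
  carrier := {g | ∃ n, ∃ q ∈ kfS ^ n, ∀ x, q.val x = (g x : ℂ)}
  mul_mem' := fun ⟨n, q, hq, e⟩ ⟨m, r, hr, e'⟩ => ⟨n + m, q * r,
    pow_add kfS n m ▸ Submodule.mul_mem_mul hq hr, fun x => by
      rw [ContinuousMap.mul_apply, Complex.ofReal_mul, ← e, ← e']; rfl⟩
  add_mem' := fun ⟨n, q, hq, e⟩ ⟨m, r, hr, e'⟩ => ⟨n + m, q + r,
    add_mem (kf_pow_add hq m) (add_comm m n ▸ kf_pow_add hr n), fun x => by
      rw [ContinuousMap.add_apply, Complex.ofReal_add, ← e, ← e']; rfl⟩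
  algebraMap_mem' := fun c => ⟨1, (c : ℂ) • 1, by
    rw [pow_one]; exact Submodule.smul_mem _ _ kf_one_mem, fun x => by
      change (c : ℂ) • (1 : ℂ) = _
      simp⟩

lemma kf_sep : kfA.SeparatesPoints := by
  intro x y hxy
  obtain ⟨a, ha⟩ := Function.ne_iff.1 (isEmbedding_mx.injective.ne hxy)
  obtain ⟨b, hb⟩ := Function.ne_iff.1 ha
  exact ⟨_, ⟨⟨fun x => mx x a b, by fun_prop⟩,
    ⟨1, kfCd a b, by rw [pow_one]; exact kf_cd_mem a b, fun _ => rfl⟩, rfl⟩, hb⟩

lemma kf_hx_inv (y : X) : hx y⁻¹ = hx y := ht_inv y.val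

lemma kf_out {y : X} (h : y ∉ ball 2) : Real.smoothTransition (2 - hx y) = 0 :=
  Real.smoothTransition.zero_of_nonpos (sub_nonpos.2 (le_of_not_ge h))

lemma kf_orth {f : C(X, ℝ)} (H : ∀ g ∈ kfA,
    ∫ y, g y⁻¹ * (Real.smoothTransition (2 - hx y) * f y⁻¹) ∂mu = 0) : f 1 = 0 := by
  by_contra h1
  have hw : ∀ g : C(X, ℝ), (Continuous fun y => g y⁻¹ * (Real.smoothTransition (2 - hx y) * f y⁻¹)) ∧
      HasCompactSupport fun y => g y⁻¹ * (Real.smoothTransition (2 - hx y) * f y⁻¹) := fun g =>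
    ⟨(g.continuous.comp continuous_inv).mul ((Real.smoothTransition.continuous.comp
      (continuous_const.sub continuous_hx)).mul (f.continuous.comp continuous_inv)),
     HasCompactSupport.intro (isCompact_ball 2) fun x h => by
      rw [kf_out h, zero_mul, mul_zero]⟩
  have hi := fun g => (hw g).1.integrable_of_hasCompactSupport (μ := mu) (hw g).2
  have pos : 0 < ∫ y, f y⁻¹ * (Real.smoothTransition (2 - hx y) * f y⁻¹) ∂mu := by
    refine (hw f).1.integral_pos_of_hasCompactSupport_nonneg_nonzero (x := 1) (hw f).2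
      (fun y => ?_) ?_
    · have := Real.smoothTransition.nonneg (2 - hx y)
      change (0 : ℝ) ≤ _
      nlinarith [mul_nonneg this (mul_self_nonneg (f y⁻¹))]
    · have : hx 1 = 1 := ht_one
      rw [inv_one, this, Real.smoothTransition.one_of_one_le (by norm_num), one_mul]
      exact mul_ne_zero h1 h1
  set I := ∫ y, f y⁻¹ * (Real.smoothTransition (2 - hx y) * f y⁻¹) ∂mu with hI
  set J := ∫ y, ‖(1 : C(X, ℝ)) y⁻¹ * (Real.smoothTransition (2 - hx y) * f y⁻¹)‖ ∂mu with hJ
  have J0 : 0 ≤ J := integral_nonneg fun _ => norm_nonneg _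
  obtain ⟨g, hg, hn⟩ :=
    ContinuousMap.exists_mem_subalgebra_near_continuous_of_isCompact_of_separatesPoints kf_sep f
      (isCompact_ball 2) (show 0 < I / (J + 1) by positivity)
  have h2 : I ≤ I / (J + 1) * J := by
    have e : I = ∫ y, (f y⁻¹ * (Real.smoothTransition (2 - hx y) * f y⁻¹) -
        g y⁻¹ * (Real.smoothTransition (2 - hx y) * f y⁻¹)) ∂mu := by
      rw [integral_sub (hi f) (hi g), H g hg, sub_zero]
    refine e.le.trans ?_
    generalize I / (J + 1) = ε at hn
    rw [hJ, ← integral_const_mul]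
    refine integral_mono ((hi f).sub (hi g)) ((hi 1).norm.const_mul _) fun y => ?_
    by_cases hy : y ∈ ball 2
    · have h3 := hn y⁻¹ ((kf_hx_inv y).trans_le hy)
      simp only [ContinuousMap.one_apply, one_mul]
      rw [← sub_mul]
      refine (le_abs_self _).trans ?_
      rw [abs_mul, abs_sub_comm]
      exact mul_le_mul_of_nonneg_right h3.le (abs_nonneg _)
    · simp only [kf_out hy, zero_mul, mul_zero, sub_self, norm_zero, le_refl]
  rw [div_mul_eq_mul_div, le_div_iff₀ (by linarith)] at h2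
  nlinarith

theorem exists_kfin (hπ : ∀ v, Continuous fun g => π g v) [Nontrivial V]
    {d : Fin 6 → Module.End ℂ (Sm π)} (h : DRep π d) :
    ∃ Z : Submodule ℂ (Sm π), FiniteDimensional ℂ Z ∧ Z ≠ ⊥ ∧
      ∀ i : Fin 6, 3 ≤ i.val → ∀ u ∈ Z, d i u ∈ Z := by
  obtain ⟨v, hv⟩ := exists_ne (0 : V)
  let Φ : Smooth →ₗ[ℂ] Sm π := ((PL hπ v).codRestrict (Sm π) fun k => P_mem v k).comp kfM
  have hfg : kfS.FG := Submodule.fg_span ((Set.finite_range _).insert _)
  by_contra hc
  have hz : ∀ n, ∀ q ∈ kfS ^ n, P π v (kfM q) = 0 := by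
    intro n q hq
    by_contra h0
    refine hc ⟨(kfS ^ n).map Φ, Module.Finite.iff_fg.2 ((hfg.pow n).map Φ), fun e => ?_, ?_⟩
    · exact h0 (congrArg Subtype.val ((Submodule.eq_bot_iff _).1 e _ ⟨q, hq, rfl⟩))
    · rintro i hi _ ⟨r, hr, rfl⟩
      refine ⟨fld i r, kf_fld_pow i hr, Subtype.ext ?_⟩
      have := h.gen (bas i) (so_bas i) v (kfM r)
      rw [lin_bas, kf_fldT hi] at this
      exact this.symm
  have := kf_orth (f := ⟨fun x => (⟪v, π (rt x⁻¹) v⟫_ℂ).re, Complex.continuous_re.comp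
    (continuous_const.inner ((hπ v).comp (continuous_rt.comp continuous_inv)))⟩) (by
      rintro g ⟨n, q, hq, e⟩
      have h1 := congrArg (fun w => (⟪v, w⟫_ℂ).re) (hz n q hq)
      have h2 := (P_integrable hπ v (kfM q)).const_inner (𝕜 := ℂ) v
      simp only [inner_zero_right, Complex.zero_re] at h1
      rw [P, ← integral_inner (P_integrable hπ v _), ← RCLike.re_to_complex, ← integral_re h2] at h1
      refine Eq.trans (integral_congr_ae (Eventually.of_forall fun y => ?_)) h1
      change _ = RCLike.re ⟪v, (q.val y⁻¹ * (Real.smoothTransition (2 - hx y⁻¹) : ℂ)) • π (rt y) v⟫_ℂ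
      rw [inner_smul_right, e, kf_hx_inv, ← Complex.ofReal_mul, RCLike.re_to_complex,
        Complex.re_ofReal_mul, mul_assoc]
      simp only [ContinuousMap.coe_mk, inv_inv])
  simp only [ContinuousMap.coe_mk, inv_one, map_one] at this
  exact hv (inner_self_eq_zero.1 (Complex.ext this (inner_self_im (𝕜 := ℂ) v)))

end Pool.Agent.Lib.MP_99bfa4_al.IR
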