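import Mathlib

/-! The lemma of Schur for symmetric operators on an invariant subspace. -/

open Matrix MeasureTheory Filter
open scoped ContDiff Topology InnerProductSpace ComplexConjugate

namespace Pool.Agent.Lib.MP_99bfa4_al.IR

universe u

/-- The lemma of Schur for self-adjoint operators. -/
theorem schur_sa {Γ : Type*} [Group Γ] {V : Type u} [NormedAddCommGroup V]
    [InnerProductSpace ℂ V] [CompleteSpace V] [Nontrivial V] (π : Γ →* (V ≃ₗᵢ[ℂ] V))
    (hirr : ∀ W : Submodule ℂ V, IsClosed (W : Set V) → (∀ g, ∀ v ∈ W, π g v ∈ W) → W = ⊥ ∨ W = ⊤)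
    (U : V →L[ℂ] V) (hsa : star U = U) (hU : ∀ g v, U (π g v) = π g (U v)) :
    ∃ c : ℂ, ∀ v, U v = c • v := by
  let ρ : Γ → (V →L[ℂ] V) := fun g => (π g).toContinuousLinearEquiv
  have c1 (g : Γ) : Commute U (ρ g) := ContinuousLinearMap.ext fun v => hU g v
  have c2 (g : Γ) : Commute (star U) (ρ g) := by rw [hsa]; exact c1 g
  have hn : IsStarNormal U := ⟨by rw [hsa]⟩
  have ker_bot (f : ℂ → ℂ) (hf : cfc f U ≠ 0) : ∀ v, cfc f U v = 0 → v = 0 := by
    rcases hirr (cfc f U).ker (cfc f U).isClosed_ker (fun g v hv => by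
      have h1 := congrArg (fun T : V →L[ℂ] V => T v) ((c1 g).cfc (c2 g) f).eq
      simp only [mul_apply_eq_comp] at h1
      have hv' : cfc f U v = 0 := hv
      change cfc f U (ρ g v) = 0
      rw [h1, hv', map_zero]) with h | h
    · intro v hv
      have : v ∈ (cfc f U).ker := hv
      rw [h] at this
      exact this
    · exfalso
      apply hf
      ext v
      have : v ∈ (cfc f U).ker := by rw [h]; trivial
      exact this
  have ne_zero (f : ℂ → ℂ) (hf : Continuous f) (a : ℂ) (ha : a ∈ spectrum ℂ U) (hfa : f a ≠ 0) :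
      cfc f U ≠ 0 := by
    intro h
    have h1 : f a ∈ spectrum ℂ (cfc f U) := by
      rw [cfc_map_spectrum f U hn hf.continuousOn]
      exact ⟨a, ha, rfl⟩
    rw [h, spectrum.zero_eq] at h1
    exact hfa h1
  have hsub : (spectrum ℂ U).Subsingleton := by
    intro a ha b hb
    by_contra hab
    set r : ℝ := dist a b / 2 with hr
    have hr0 : 0 < r := by
      have := dist_pos.2 hab
      positivity
    let f : ℂ → ℂ := fun w => ((max 0 (r - dist w a) : ℝ) : ℂ)
    let g : ℂ → ℂ := fun w => ((max 0 (r - dist w b) : ℝ) : ℂ)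
    have hf : Continuous f := by fun_prop
    have hg : Continuous g := by fun_prop
    have hfa : f a ≠ 0 := by simp [f, hr0.le, hr0.ne']
    have hgb : g b ≠ 0 := by simp [g, hr0.le, hr0.ne']
    have hfg : ∀ w, f w * g w = 0 := by
      intro w
      have h1 := dist_triangle_left a b w
      by_cases h2 : r ≤ dist w a
      · have : max 0 (r - dist w a) = 0 := max_eq_left (by linarith)
        simp [f, this]
      · have : max 0 (r - dist w b) = 0 := max_eq_left (by linarith)
        simp [g, this]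
    have h1 : cfc f U * cfc g U = 0 := by
      rw [← cfc_mul f g U hf.continuousOn hg.continuousOn]
      simp [hfg]
    apply ne_zero g hg b hb hgb
    ext v
    apply ker_bot f (ne_zero f hf a ha hfa)
    have := congrArg (fun T : V →L[ℂ] V => T v) h1
    simpa using this
  obtain ⟨c, hc⟩ := spectrum.nonempty U
  have hUc : U = algebraMap ℂ (V →L[ℂ] V) c := by
    rw [← cfc_id ℂ U hn, ← cfc_const c U hn]
    exact cfc_congr fun w hw => hsub hw hc
  refine ⟨c, fun v => ?_⟩
  rw [hUc]
  simp [Algebra.algebraMap_eq_smul_one]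

/-- The lemma of Schur for bounded operators. -/
theorem schur_bdd {Γ : Type*} [Group Γ] {V : Type u} [NormedAddCommGroup V]
    [InnerProductSpace ℂ V] [CompleteSpace V] [Nontrivial V] (π : Γ →* (V ≃ₗᵢ[ℂ] V))
    (hirr : ∀ W : Submodule ℂ V, IsClosed (W : Set V) → (∀ g, ∀ v ∈ W, π g v ∈ W) → W = ⊥ ∨ W = ⊤)
    (U : V →L[ℂ] V) (hU : ∀ g v, U (π g v) = π g (U v)) : ∃ c : ℂ, ∀ v, U v = c • v := by
  have hA : ∀ g v, U.adjoint (π g v) = π g (U.adjoint v) := by
    intro g F
    refine ext_inner_left ℂ fun v => ?_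
    obtain ⟨w, rfl⟩ := (π g).surjective v
    rw [U.adjoint_inner_right, hU, (π g).inner_map_map, (π g).inner_map_map,
      U.adjoint_inner_right]
  obtain ⟨a, ha⟩ := schur_sa π hirr (U + star U) (by rw [star_add, star_star, add_comm])
    fun g v => by
      simp only [_root_.add_apply, ContinuousLinearMap.star_eq_adjoint, hU, hA, map_add]
  obtain ⟨b, hb⟩ := schur_sa π hirr (Complex.I • (U - star U))
    (by rw [star_smul, star_sub, star_star, Complex.star_def, Complex.conj_I, neg_smul, ← smul_neg,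
      neg_sub])
    fun g v => by
      simp only [_root_.smul_apply, _root_.sub_apply,
        ContinuousLinearMap.star_eq_adjoint, hU, hA, map_sub, map_smul]
  refine ⟨(a - Complex.I * b) / 2, fun v => ?_⟩
  have h1 : U v + star U v = a • v := ha v
  have h2 : Complex.I • (U v - star U v) = b • v := hb v
  have h3 : U v - star U v = -(Complex.I * b) • v := by
    rw [neg_smul, mul_smul, ← h2, smul_smul, Complex.I_mul_I, neg_smul, one_smul, neg_neg]
  linear_combination (norm := module) (1 / 2 : ℂ) • h1 + (1 / 2 : ℂ) • h3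

theorem schur_sym {Γ : Type*} [Group Γ] {V : Type u} [NormedAddCommGroup V]
    [InnerProductSpace ℂ V] [CompleteSpace V] (π : Γ →* (V ≃ₗᵢ[ℂ] V))
    (hirr : ∀ U : Submodule ℂ V, IsClosed (U : Set V) → (∀ g, ∀ v ∈ U, π g v ∈ U) → U = ⊥ ∨ U = ⊤)
    (E : Submodule ℂ V) (hE : ∀ g, ∀ v ∈ E, π g v ∈ E) (A : E →ₗ[ℂ] E) (hA : A.IsSymmetric)
    (hc : ∀ g (v : E), (A ⟨π g v.val, hE g _ v.2⟩).val = π g (A v).val) :
    ∃ c : ℂ, ∀ v, A v = c • v := by
  by_cases hE0 : ∀ v : E, v = 0
  · exact ⟨0, fun v => (hE0 _).trans (hE0 _).symm⟩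
  obtain ⟨v0, hv0⟩ := not_forall.1 hE0
  have : Nontrivial V := ⟨v0.val, 0, fun h => hv0 (Subtype.ext h)⟩
  let S : E →ₗ[ℂ] V := E.subtype ∘ₗ (A + Complex.I • LinearMap.id)
  have hS : ∀ v : E, S v = (A v).val + Complex.I • v.val := fun v => rfl
  have hb : ∀ v : E, ‖v.val‖ ≤ 1 * ‖S v‖ := fun v => by
    have h1 : (⟪v, A v⟫_ℂ).im = 0 := by
      have := hA.conj_inner_sym v v
      rw [hA] at this
      exact Complex.conj_eq_iff_im.1 this
    have h2 : (⟪v.val, S v⟫_ℂ).im = ‖v.val‖ ^ 2 := by
      rw [hS, inner_add_right, inner_smul_right, inner_self_eq_norm_sq_to_K, Complex.add_im]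
      rw [show (⟪v.val, (A v).val⟫_ℂ).im = 0 from h1]
      simp [← Complex.ofReal_pow]
    have h3 := (Complex.im_le_norm _).trans (norm_inner_le_norm (𝕜 := ℂ) v.val (S v))
    rw [h2, pow_two] at h3
    rw [one_mul]
    rcases (norm_nonneg v.val).eq_or_lt with h | h
    · rw [← h]
      exact norm_nonneg _
    · exact le_of_mul_le_mul_left h3 h
  have hSg : ∀ g (v : E), S ⟨π g v.val, hE g _ v.2⟩ = π g (S v) := fun g v => by
    rw [hS, hS, hc, map_add, map_smul]
  have hd : DenseRange S := by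
    rcases hirr S.range.topologicalClosure S.range.isClosed_topologicalClosure (fun g v hv => by
      refine map_mem_closure (π g).continuous hv ?_
      rintro _ ⟨w, rfl⟩
      exact ⟨_, hSg g w⟩) with h | h
    · have h1 : S v0 ∈ S.range.topologicalClosure := S.range.le_topologicalClosure ⟨v0, rfl⟩
      rw [h, Submodule.mem_bot] at h1
      have h2 := hb v0
      rw [h1, norm_zero, mul_zero] at h2
      exact absurd (Subtype.ext (norm_le_zero_iff.1 h2)) hv0
    · exact Submodule.dense_iff_topologicalClosure_eq_top.2 h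
  let U : V →L[ℂ] V := LinearMap.extendOfNorm E.subtype S
  have hU : ∀ v : E, U (S v) = v.val := fun v => LinearMap.extendOfNorm_eq hd ⟨1, hb⟩ v
  obtain ⟨c, h1⟩ := schur_bdd π hirr U fun g v => by
    refine hd.induction_on v (isClosed_eq (U.continuous.comp (π g).continuous)
      ((π g).continuous.comp U.continuous)) fun w => ?_
    rw [← hSg, hU, hU]
  have c0 : c ≠ 0 := by
    rintro rfl
    exact hv0 (Subtype.ext ((hU v0).symm.trans ((h1 _).trans (zero_smul ℂ _))))
  refine ⟨c⁻¹ - Complex.I, fun v => Subtype.ext ?_⟩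
  have h2 : c • ((A v).val + Complex.I • v.val) = v.val := (h1 _).symm.trans (hU v)
  have h3 : (A v).val + Complex.I • v.val = c⁻¹ • v.val := by
    rw [eq_inv_smul_iff₀ c0, h2]
  change _ = (c⁻¹ - Complex.I) • v.val
  rw [sub_smul, ← h3, add_sub_cancel_right]

end Pool.Agent.Lib.MP_99bfa4_al.IR
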