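import Pool.Agent.Lib.MP_99bfa4_al.IR.Restr
import Pool.Agent.Lib.MP_99bfa4_al.IR.KFin
import Pool.Agent.Lib.MP_99bfa4_al.IR.Schur
import Pool.Agent.Lib.MP_99bfa4_al.IR.DRep
import Pool.Agent.Lib.MP_99bfa4_al.IR.Core2

/-! There is no discrete series. -/

open Matrix MeasureTheory Filter
open scoped ContDiff Topology InnerProductSpace ComplexConjugate

namespace Pool.Agent.Lib.MP_99bfa4_al.IR

universe u

lemma disc_sym1 {E : Type*} [NormedAddCommGroup E] [InnerProductSpace ℂ E]
    {d : Fin 6 → Module.End ℂ E} (h : Sk d) : LinearMap.IsSymmetric (cas1 d) := fun u v => by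
  simp only [cas1, LinearMap.sub_apply, LinearMap.add_apply, Module.End.mul_apply, inner_sub_left,
    inner_add_left, inner_sub_right, inner_add_right, h.skew, neg_neg]

lemma disc_sym2 {E : Type*} [NormedAddCommGroup E] [InnerProductSpace ℂ E]
    {d : Fin 6 → Module.End ℂ E} (h : Sk d) : LinearMap.IsSymmetric (cas2 d) := fun u v => by
  simp only [cas2, LinearMap.add_apply, Module.End.mul_apply, inner_add_left, inner_add_right,
    h.skew, neg_neg]
  ring

theorem disc_empty : ¬ SS.DiscNonempty.{u} G mu := by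
  rintro ⟨V, _, _, _, π, ⟨hπ, _, hirr⟩, T, hT0, hT⟩
  have hinj : ∀ v, T v = 0 → v = 0 := by
    rcases hirr T.ker T.isClosed_ker (fun g v hv => by
      have h0 : T v = 0 := hv
      change T (π g v) = 0
      refine Lp.ext ((hT g v).trans ?_)
      rw [h0]
      exact ((measurePreserving_smul g⁻¹ mu).quasiMeasurePreserving.ae_eq_comp
        (Lp.coeFn_zero ℂ 2 mu)).trans (Lp.coeFn_zero ℂ 2 mu).symm) with k | k
    · intro v hv
      have : v ∈ T.ker := hv
      rwa [k] at this
    · refine absurd (ContinuousLinearMap.ext fun v => ?_) hT0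
      have : v ∈ T.ker := k ▸ Submodule.mem_top
      exact this
  obtain ⟨d, hd⟩ := exists_drep hπ
  have hs := hd.sk hπ
  obtain ⟨R, hR⟩ := exists_res hπ T hT hinj hd
  obtain ⟨Z, hZ1, hZ2, hZ3⟩ := exists_kfin hπ hd
  have c1 : ∀ g, actS hπ g * cas1 d = cas1 d * actS hπ g := fun g => by
    rw [cas1_semi (hd.conj hπ g), cas1_ad]
  have c2 : ∀ g, actS hπ g * (cas2 d * cas2 d) = cas2 d * cas2 d * actS hπ g := fun g => by
    have k := cas2_semi (hd.conj hπ g)
    rw [cas2_ad] at k
    rw [← mul_assoc, k, mul_assoc, k, ← mul_assoc, smul_mul_smul_comm, ← Complex.ofReal_mul, dt_sq,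
      Complex.ofReal_one, one_smul]
  obtain ⟨a, ha⟩ := schur_sym π hirr (Sm π) (Sm_act hπ) (cas1 d) (disc_sym1 hs) fun g v =>
    congrArg Subtype.val (LinearMap.congr_fun (c1 g) v).symm
  obtain ⟨s, hs2⟩ := schur_sym π hirr (Sm π) (Sm_act hπ) (cas2 d * cas2 d)
    (fun u v => (disc_sym2 hs _ _).trans (disc_sym2 hs _ _)) fun g v =>
    congrArg Subtype.val (LinearMap.congr_fun (c2 g) v).symm
  exact hZ2 (core hs hR ha hs2 Z hZ3)

end Pool.Agent.Lib.MP_99bfa4_al.IR
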