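import Pool.Agent.Lib.MP_99bfa4_al.IR.Curves

/-! Translations and left invariant vector fields on smooth functions. -/

open Matrix MeasureTheory Filter
open scoped ContDiff Topology InnerProductSpace ComplexConjugate

namespace Pool.Agent.Lib.MP_99bfa4_al.IR

lemma contDiff_mul (P Q : M4) : ContDiff ℝ ∞ fun m : Amb => amb (P * Matrix.of m * Q) := by
  refine contDiff_pi.2 fun i => contDiff_pi.2 fun j => ?_
  simp only [amb_apply, Matrix.mul_apply, of_apply]
  fun_prop

lemma contDiff_mulR (Y : M4) : ContDiff ℝ ∞ fun m : Amb => amb (Matrix.of m * Y) := by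
  simpa using contDiff_mul 1 Y

lemma smooth_tau (g : G) (f : Smooth) : (fun x => f.val (g⁻¹ • x)) ∈ Smooth := by
  obtain ⟨F, hF, h⟩ := Smooth.ext' f
  refine smooth_of (hF.comp (contDiff_mul (mat g.val.1⁻¹) (mat g.val.2))) fun x => ?_
  refine Eq.trans ?_ (h _)
  change F (amb (mat g.val.1⁻¹ * mat x.val * mat g.val.2)) =
    F (amb (mat (g.val.1⁻¹ * x.val * g.val.2⁻¹⁻¹)))
  rw [inv_inv, mat_mul, mat_mul]

/-- The translation operators. -/
noncomputable def tau (g : G) : Module.End ℂ Smooth where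
  toFun f := ⟨fun x => f.val (g⁻¹ • x), smooth_tau g f⟩
  map_add' _ _ := rfl
  map_smul' _ _ := rfl

lemma tau_val (g : G) (f : Smooth) (x : X) : (tau g f).val x = f.val (g⁻¹ • x) := rfl

lemma tau_rt (c : X) (f : Smooth) (x : X) : (tau (rt c) f).val x = f.val (x * c) := by
  rw [tau_val, ← map_inv, rt_smul, inv_inv]

lemma tau_lt (c : X) (f : Smooth) (x : X) : (tau (lt c)⁻¹ f).val x = f.val (c * x) := by
  rw [tau_val, inv_inv, lt_smul]

lemma DX_tau (D : DX) (g : G) (f : Smooth) : D.val (tau g f) = tau g (D.val f) :=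
  (LinearMap.congr_fun (D.property.2 (tau g) ⟨g, fun _ _ => rfl⟩) f).symm

lemma Smooth.continuous (f : Smooth) : Continuous f.val := by
  obtain ⟨F, hF, h⟩ := Smooth.ext' f
  rw [← funext h]
  exact hF.continuous.comp continuous_mx

lemma hasDerivAt_crv {f : X → ℂ} {F : Amb → ℂ} (hF : ContDiff ℝ ∞ F) (h : ∀ x, F (mx x) = f x)
    {c : ℝ → X} {Y : M4} (hc : Crv c Y) (x : X) :
    HasDerivAt (fun t => f (x * c t)) (fderiv ℝ F (mx x) (amb (mat x.val * Y))) 0 := by
  have h1 := hc.mul (mat x.val) 1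
  simp only [Matrix.mul_one] at h1
  have h2 : HasFDerivAt F (fderiv ℝ F (mx x)) (amb (mat x.val * mat (c 0).val)) := by
    rw [hc.zero]
    simpa [mx] using (hF.differentiable (by simp) (mx x)).hasFDerivAt
  simp only [← h]
  exact h2.comp_hasDerivAt 0 h1

lemma smooth_fld (i : Fin 6) (f : Smooth) :
    (fun x => deriv (fun t => f.val (x * one i t)) 0) ∈ Smooth := by
  obtain ⟨F, hF, h⟩ := Smooth.ext' f
  exact smooth_of (F := fun m => fderiv ℝ F m (amb (Matrix.of m * bas i)))
    ((hF.fderiv_right (m := ∞) (le_of_eq rfl)).clm_apply (contDiff_mulR _))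
    fun x => (hasDerivAt_crv hF h (crv_one i) x).deriv.symm

lemma differentiableAt_crv (f : Smooth) {c : ℝ → X} {Y : M4} (hc : Crv c Y) (x : X) :
    DifferentiableAt ℝ (fun t => f.val (x * c t)) 0 := by
  obtain ⟨F, hF, h⟩ := Smooth.ext' f
  exact (hasDerivAt_crv hF h hc x).differentiableAt

/-- The left invariant vector fields of the basis. -/
noncomputable def fld (i : Fin 6) : Module.End ℂ Smooth where
  toFun f := ⟨fun x => deriv (fun t => f.val (x * one i t)) 0, smooth_fld i f⟩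
  map_add' f g := Subtype.ext (funext fun x =>
    deriv_fun_add (differentiableAt_crv f (crv_one i) x) (differentiableAt_crv g (crv_one i) x))
  map_smul' c f := Subtype.ext (funext fun x =>
    deriv_fun_const_smul c (differentiableAt_crv f (crv_one i) x))

lemma fld_eq {f : Smooth} {F : Amb → ℂ} (hF : ContDiff ℝ ∞ F) (h : ∀ x, F (mx x) = f.val x)
    (i : Fin 6) (x : X) : (fld i f).val x = fderiv ℝ F (mx x) (amb (mat x.val * bas i)) :=
  (hasDerivAt_crv hF h (crv_one i) x).deriv

lemma lin_fld_eq {f : Smooth} {F : Amb → ℂ} (hF : ContDiff ℝ ∞ F) (h : ∀ x, F (mx x) = f.val x)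
    {Y : M4} (hY : So Y) (x : X) :
    (lin fld Y f).val x = fderiv ℝ F (mx x) (amb (mat x.val * Y)) := by
  conv_rhs => rw [hY.expand, Matrix.mul_sum, map_sum, map_sum]
  simp only [lin, LinearMap.sum_apply, LinearMap.smul_apply, AddSubmonoidClass.coe_finsetSum,
    Finset.sum_apply, SetLike.val_smul, Pi.smul_apply, fld_eq hF h, smul_eq_mul, Matrix.mul_smul,
    map_smul, Complex.real_smul]

/-- The derivative along any curve through the identity. -/
lemma hasDerivAt_fld (f : Smooth) {c : ℝ → X} {Y : M4} (hc : Crv c Y) (x : X) :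
    HasDerivAt (fun t => f.val (x * c t)) ((lin fld Y f).val x) 0 := by
  obtain ⟨F, hF, h⟩ := Smooth.ext' f
  rw [lin_fld_eq hF h hc.so]
  exact hasDerivAt_crv hF h hc x

lemma hasDerivAt_fld' (f : Smooth) (i : Fin 6) (x : X) :
    HasDerivAt (fun t => f.val (x * one i t)) ((fld i f).val x) 0 :=
  (differentiableAt_crv f (crv_one i) x).hasDerivAt

lemma fld_mul (i : Fin 6) (f g : Smooth) : fld i (f * g) = f * fld i g + g * fld i f := by
  refine Subtype.ext (funext fun x => ?_)
  have h := (hasDerivAt_fld' (f * g) i x).unique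
    ((hasDerivAt_fld' f i x).mul (hasDerivAt_fld' g i x))
  simp only [one_zero, mul_one] at h
  rw [h]
  change _ = f.val x * (fld i g).val x + g.val x * (fld i f).val x
  ring

lemma tau_fld (g : G) (i : Fin 6) :
    tau g * fld i = lin fld (ad g.val.2 (bas i)) * tau g := by
  refine LinearMap.ext fun f => Subtype.ext (funext fun x => ?_)
  refine (hasDerivAt_fld' f i (g⁻¹ • x)).unique ?_
  have := hasDerivAt_fld (tau g f) ((crv_one i).cj g.val.2) x
  refine (congrArg (fun φ => HasDerivAt φ _ (0 : ℝ)) (funext fun t => ?_)).mp this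
  refine congrArg f.val (Subtype.ext ?_)
  change g.val.1⁻¹ * (x.val * (g.val.2 * (one i t).val * g.val.2⁻¹)) * g.val.2⁻¹⁻¹ =
    g.val.1⁻¹ * x.val * g.val.2⁻¹⁻¹ * (one i t).val
  group

/-- Right invariance under K. -/
def RK (f : X → ℂ) : Prop := ∀ k ∈ K, ∀ x, f (x * k) = f x

/-- The smooth functions of bounded support. -/
def Test : Submodule ℂ Smooth where
  carrier := {h | ∃ ρ, ∀ x, ρ < hx x → h.val x = 0}
  zero_mem' := ⟨0, fun _ _ => rfl⟩
  add_mem' := fun {a b} ⟨r, hr⟩ ⟨s, hs⟩ => ⟨max r s, fun x h => by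
    change a.val x + b.val x = 0
    rw [hr x ((le_max_left _ _).trans_lt h), hs x ((le_max_right _ _).trans_lt h), add_zero]⟩
  smul_mem' := fun c a ⟨r, hr⟩ => ⟨r, fun x h => by
    change c • a.val x = 0
    rw [hr x h, smul_zero]⟩

lemma fld_zero {h : Smooth} {ρ : ℝ} (H : ∀ x, ρ < hx x → h.val x = 0) (i : Fin 6) (x : X)
    (hx' : ρ < hx x) : (fld i h).val x = 0 := by
  have c : ContinuousAt (fun t => hx (x * one i t)) 0 :=
    (continuous_hx.comp (continuous_const.mul (continuous_one i))).continuousAt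
  refine (hasDerivAt_fld' h i x).unique ((hasDerivAt_const (0 : ℝ) (0 : ℂ)).congr_of_eventuallyEq ?_)
  filter_upwards [c.eventually (lt_mem_nhds (show ρ < hx (x * one i 0) by
    rwa [one_zero, mul_one]))] with t ht using H _ ht

lemma fld_test (i : Fin 6) {h : Smooth} (H : h ∈ Test) : fld i h ∈ Test :=
  let ⟨ρ, H⟩ := H
  ⟨ρ, fld_zero H i⟩

lemma lin_fld_test (Y : M4) {h : Smooth} (H : h ∈ Test) : lin fld Y h ∈ Test := by
  simp only [lin, LinearMap.sum_apply, LinearMap.smul_apply]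
  exact Test.sum_mem fun i _ => Test.smul_mem _ (fld_test i H)

lemma tau_test (g : G) {h : Smooth} (H : h ∈ Test) : tau g h ∈ Test := by
  obtain ⟨ρ, H⟩ := H
  refine ⟨2 * (2 * ht g.val.1 * max ρ 1) * ht g.val.2, fun x hx' => H _ ?_⟩
  by_contra c
  have e : x.val = g.val.1 * (g⁻¹ • x).val * g.val.2⁻¹ := by rw [← smul_val, smul_inv_smul]
  have h1 := ht_mul_le (g.val.1 * (g⁻¹ • x).val) g.val.2⁻¹
  have h2 := ht_mul_le g.val.1 (g⁻¹ • x).val
  have h3 : ht (g⁻¹ • x).val ≤ max ρ 1 := (not_lt.1 c).trans (le_max_left _ _)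
  rw [← e, ht_inv] at h1
  have p1 := one_le_ht g.val.1
  have p2 := one_le_ht g.val.2
  have h4 : ht (g.val.1 * (g⁻¹ • x).val) ≤ 2 * ht g.val.1 * max ρ 1 :=
    h2.trans (mul_le_mul_of_nonneg_left h3 (by linarith))
  exact absurd (h1.trans (mul_le_mul_of_nonneg_right (by linarith) (by linarith))) (not_le.2 hx')

end Pool.Agent.Lib.MP_99bfa4_al.IR
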