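import Pool.Agent.Lib.MP_99bfa4_al.IR.Tits2

/-! The subgroup of index two contains no point inversion. -/

open Matrix MeasureTheory Filter
open scoped ContDiff Topology InnerProductSpace ComplexConjugate

namespace Pool.Agent.Lib.MP_99bfa4_al.IR

variable {e : Fin 6 → V4}

lemma fr_ind {I : Fin 6 → Prop} {Q : W → Prop} (h1 : Q 1) (h2 : ∀ a b, Q a → Q b → Q (a * b))
    (h3 : ∀ i, I i → Q (cs.simple i)) {w : W}
    (hw : w ∈ Subgroup.closure {v : W | ∃ i, I i ∧ v = cs.simple i}) : Q w := by
  induction hw using Subgroup.closure_induction'' with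
  | mem v h => obtain ⟨i, hi, rfl⟩ := h; exact h3 i hi
  | inv_mem v h => obtain ⟨i, hi, rfl⟩ := h; rw [cs.inv_simple]; exact h3 i hi
  | one => exact h1
  | mul a b _ _ ha hb => exact h2 a b ha hb

lemma fr_axis (h : Gram e) {I : Fin 6 → Prop} {k : Fin 6} (hk : ¬ k.val < 4)
    (hI : ∀ i, I i → i = k ∨ (i.val < 4 ∧ CM k i = 2)) {w : W}
    (hw : w ∈ Subgroup.closure {v : W | ∃ i, I i ∧ v = cs.simple i}) :
    app (rho h w) (e k) = (((par w : ℤˣ) : ℤ) : ℝ) • e k := by
  refine fr_ind (Q := fun w => app (rho h w) (e k) = (((par w : ℤˣ) : ℤ) : ℝ) • e k) (by simp)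
    (fun a b ha hb => ?_) (fun i hi => ?_) hw
  · rw [map_mul, app_mul, hb, app_smul, ha, map_mul, smul_smul, Units.val_mul, Int.cast_mul,
      mul_comm]
  · rw [app_rho_simple, par_simple]
    rcases hI i hi with rfl | ⟨a, b⟩
    · rw [if_neg hk, h.unit]
      simp only [Units.val_neg, Units.val_one, Int.cast_neg, Int.cast_one]
      module
    · rw [if_pos a, h.gram k i (by rw [b]; norm_num), b]
      simp [gm]

/-- Four vectors that are permuted by a group of type A3. -/
def frT (a b c y : V4) : Prop :=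
  y = (3 : ℝ) • a + (2 : ℝ) • b + c ∨ y = (2 : ℝ) • b + c - a ∨ y = c - a - (2 : ℝ) • b ∨
    y = -a - (2 : ℝ) • b - (3 : ℝ) • c

lemma fr_tet {a b c : V4} (ha : B a a = -1) (hb : B b b = -1) (hc : B c c = -1)
    (hab : B a b = 1 / 2) (hcb : B c b = 1 / 2) (hac : B a c = 0) {u y : V4}
    (hu : u = a ∨ u = b ∨ u = c) (hy : frT a b c y) : frT a b c (y + (2 * B y u) • u) := by
  have k1 := B_comm b a
  have k2 := B_comm b c
  have k3 := B_comm c a
  unfold frT
  rcases hu with rfl | rfl | rfl <;> rcases hy with rfl | rfl | rfl | rfl <;>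
    simp only [B_add_left, B_sub_left, B_smul_left, B_neg_left, k1, k2, k3, ha, hb, hc, hab, hcb,
      hac] <;>
    first
      | exact Or.inl (by module)
      | exact Or.inr (Or.inl (by module))
      | exact Or.inr (Or.inr (Or.inl (by module)))
      | exact Or.inr (Or.inr (Or.inr (by module)))

lemma fr_neg {a b c : V4} (ha : B a a = -1) (hb : B b b = -1) (hc : B c c = -1)
    (hab : B a b = 1 / 2) (hcb : B c b = 1 / 2) (hac : B a c = 0) {y : V4} (hy : frT a b c y) :
    B ((3 : ℝ) • a + (2 : ℝ) • b + c + y) ((3 : ℝ) • a + (2 : ℝ) • b + c + y) < 0 := by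
  have k1 := B_comm b a
  have k2 := B_comm b c
  have k3 := B_comm c a
  rcases hy with rfl | rfl | rfl | rfl <;>
    simp only [B_add_left, B_sub_left, B_smul_left, B_neg_left, B_add_right, B_sub_right,
      B_smul_right, B_neg_right, k1, k2, k3, ha, hb, hc, hab, hcb, hac] <;> norm_num

theorem no_inversion (h : Poly e) (w : W0) {p : V4} (hp : Up p) :
    rho h.toGram w.val ≠ pinv p hp.1 := by
  intro hw
  obtain ⟨u, hu⟩ := cover h hp
  have hx := hp.app (rho h.toGram u)
  generalize hxe : app (rho h.toGram u) p = x at hu hx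
  have hv : ∀ y, app (rho h.toGram (u * w.val * u⁻¹)) y = (2 * B y x) • x - y := fun y => by
    rw [map_mul, map_mul, app_mul, app_mul, hw, app_pinv, app_sub, app_smul, map_inv, app_app_inv,
      B_comm _ p, ← B_app_left, hxe, B_comm x]
  have hpar : par (u * w.val * u⁻¹) = 1 := by
    rw [map_mul, map_mul, show par w.val = 1 from w.property, mul_one, map_inv, mul_inv_cancel]
  generalize u * w.val * u⁻¹ = v at hv hpar
  have hs := stab h hu (w := v) (by rw [hv, hx.1]; module)
  have key : ∀ y, 0 ≤ B (y + app (rho h.toGram v) y) (y + app (rho h.toGram v) y) := fun y => by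
    rw [hv, add_sub_cancel, B_smul_left, B_smul_right, hx.1, mul_one]
    exact mul_self_nonneg _
  have pos : ∀ y, B x y = 0 → B y y ≤ 0 := fun y hy => by
    by_contra c
    rw [hx.neg_of_orth hy (not_le.1 c).le] at c
    simp at c
  have far : ∀ i j, CM i j = 0 → B x (e i) = 0 → B x (e j) = 0 → False := fun i j c hi hj => by
    have := pos (e i + e j) (by rw [B_add_right, hi, hj, add_zero])
    simp only [B_add_left, B_add_right, h.unit, B_comm (e j) (e i)] at this
    linarith [h.far i j c]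
  have axis : ∀ k : Fin 6, ¬ k.val < 4 →
      (∀ i, B x (e i) = 0 → i = k ∨ (i.val < 4 ∧ CM k i = 2)) → False := fun k hk hI => by
    have := key (e k)
    rw [fr_axis h.toGram hk hI hs, hpar] at this
    simp only [Units.val_one, Int.cast_one, one_smul, B_add_left, B_add_right, h.unit] at this
    linarith
  have g3 : ∀ i j, CM i j = 3 → B (e i) (e j) = 1 / 2 := fun i j c => by
    rw [h.gram i j (by rw [c]; norm_num), c]
    simp [gm]
  have g2 : B (e 2) (e 3) = 0 := by
    rw [h.gram 2 3 (by decide), show CM 2 3 = 2 by decide]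
    simp [gm]
  have tet : ∀ b : Fin 6, CM 2 b = 3 → CM 3 b = 3 →
      (∀ i, B x (e i) = 0 → i = 2 ∨ i = b ∨ i = 3) → False := fun b c2 c3 hI => by
    have := fr_ind (Q := fun v => ∀ y, frT (e 2) (e b) (e 3) y →
      frT (e 2) (e b) (e 3) (app (rho h.toGram v) y)) (by simp)
      (fun a b ha hb y hy => by rw [map_mul, app_mul]; exact ha _ (hb y hy))
      (fun i hi y hy => by
        rw [app_rho_simple]
        exact fr_tet (h.unit 2) (h.unit b) (h.unit 3) (g3 _ _ c2) (g3 _ _ c3) g2
          ((hI i hi).imp (congrArg e) (Or.imp (congrArg e) (congrArg e))) hy) hs _ (Or.inl rfl)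
    exact absurd (key _) (not_le.2
      (fr_neg (h.unit 2) (h.unit b) (h.unit 3) (g3 _ _ c2) (g3 _ _ c3) g2 this))
  by_cases c35 : B x (e 3) ≠ 0 ∧ B x (e 5) ≠ 0
  · refine axis 4 (by decide) fun i hi => ?_
    have n3 : i ≠ 3 := fun c => c35.1 (c ▸ hi)
    have n5 : i ≠ 5 := fun c => c35.2 (c ▸ hi)
    revert n3 n5
    clear hi
    revert i
    decide
  by_cases c24 : B x (e 2) ≠ 0 ∧ B x (e 4) ≠ 0
  · refine axis 5 (by decide) fun i hi => ?_
    have n2 : i ≠ 2 := fun c => c24.1 (c ▸ hi)
    have n4 : i ≠ 4 := fun c => c24.2 (c ▸ hi)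
    revert n2 n4
    clear hi
    revert i
    decide
  rw [not_and_or, not_not, not_not] at c35 c24
  have z3 : B x (e 3) = 0 := c35.resolve_right fun c =>
    c24.elim (fun d => far 2 5 (by decide) d c) fun d => far 4 5 (by decide) d c
  have z2 : B x (e 2) = 0 := c24.resolve_right fun d => far 3 4 (by decide) z3 d
  have m4 : ∀ i, B x (e i) = 0 → i ≠ 4 := fun i hi c => far 3 4 (by decide) z3 (c ▸ hi)
  have m5 : ∀ i, B x (e i) = 0 → i ≠ 5 := fun i hi c => far 2 5 (by decide) z2 (c ▸ hi)
  by_cases z0 : B x (e 0) = 0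
  swap
  · refine tet 1 (by decide) (by decide) fun i hi => ?_
    have n0 : i ≠ 0 := fun c => z0 (c ▸ hi)
    have n4 := m4 i hi
    have n5 := m5 i hi
    revert n0 n4 n5
    clear hi
    revert i
    decide
  by_cases z1 : B x (e 1) = 0
  swap
  · refine tet 0 (by decide) (by decide) fun i hi => ?_
    have n1 : i ≠ 1 := fun c => z1 (c ▸ hi)
    have n4 := m4 i hi
    have n5 := m5 i hi
    revert n1 n4 n5
    clear hi
    revert i
    decide
  have := pos (e 0 + e 1 + e 2 + e 3) (by simp only [B_add_right, z0, z1, z2, z3, add_zero])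
  have g4 : B (e 0) (e 1) = √2 / 2 := by
    rw [h.gram 0 1 (by decide), show CM 0 1 = 4 by decide]
    simp [gm]
  simp only [B_add_left, B_add_right, h.unit, B_comm (e 1) (e 0), B_comm (e 3) (e 2), g4, g2,
    g3 0 2 (by decide), g3 0 3 (by decide), g3 1 2 (by decide), g3 1 3 (by decide),
    g3 2 0 (by decide), g3 3 0 (by decide), g3 2 1 (by decide), g3 3 1 (by decide)] at this
  linarith [Real.sqrt_pos.2 (show (0 : ℝ) < 2 by norm_num)]

end Pool.Agent.Lib.MP_99bfa4_al.IR
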