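import Pool.Agent.Lib.MP_99bfa4_al.IR.Cox
import Pool.Agent.Lib.MP_99bfa4_al.IR.Haar

/-! The polytope exists. -/

open Matrix MeasureTheory Filter
open scoped ContDiff Topology InnerProductSpace ComplexConjugate

namespace Pool.Agent.Lib.MP_99bfa4_al.IR

lemma poly_bd {x c a b : ℝ} (ha : 0 ≤ a) (hb : 0 ≤ b) (ha' : a ≤ 17 / 20 * x)
    (hb' : b ≤ 17 / 20 * x) (h1 : c ≤ 2 / 3 * x - 5 / 9 * (a + b))
    (h2 : -c ≤ 2 / 3 * x - 5 / 9 * (a + b)) : c * c + a * a + b * b ≤ 7 / 8 * (x * x) := by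
  have h3 : c * c ≤ (2 / 3 * x - 5 / 9 * (a + b)) ^ 2 := by
    nlinarith [mul_nonneg (sub_nonneg.2 h1) (sub_nonneg.2 h2)]
  have hx : 0 ≤ x := by linarith
  rcases le_total (a + b) (17 / 20 * x) with h | h
  · nlinarith [mul_nonneg ha hb, mul_nonneg (add_nonneg ha hb) (sub_nonneg.2 h),
      mul_nonneg hx (add_nonneg ha hb), mul_nonneg hx (sub_nonneg.2 h), mul_nonneg hx hx]
  · have h4 : a + b ≤ 6 / 5 * x := by linarith
    nlinarith [mul_nonneg (sub_nonneg.2 ha') (sub_nonneg.2 hb'),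
      mul_nonneg (sub_nonneg.2 h) (sub_nonneg.2 h4), mul_nonneg hx (sub_nonneg.2 h),
      mul_nonneg hx (sub_nonneg.2 h4), mul_nonneg hx hx]

lemma poly_num : ∃ t u a : ℝ, t * t = √2 / 4 ∧ u * u = (2 + √2) / 4 ∧ a * a = √2 + 1 ∧
    59 / 100 < t ∧ t < 3 / 5 ∧ 9 / 10 < u ∧ 3 / 2 < a := by
  have h := Real.mul_self_sqrt (show (0 : ℝ) ≤ 2 by norm_num)
  have h0 := Real.sqrt_nonneg 2
  have h1 : 141 / 100 < √2 := by nlinarith
  have h2 : √2 < 142 / 100 := by nlinarith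
  have t1 := Real.mul_self_sqrt (show (0 : ℝ) ≤ √2 / 4 by positivity)
  have t2 := Real.mul_self_sqrt (show (0 : ℝ) ≤ (2 + √2) / 4 by positivity)
  have t3 := Real.mul_self_sqrt (show (0 : ℝ) ≤ √2 + 1 by positivity)
  have s1 := Real.sqrt_nonneg (√2 / 4)
  have s2 := Real.sqrt_nonneg ((2 + √2) / 4)
  have s3 := Real.sqrt_nonneg (√2 + 1)
  exact ⟨_, _, _, t1, t2, t3, by nlinarith, by nlinarith, by nlinarith, by nlinarith⟩

lemma poly_base : ∃ (f : Fin 6 → V4) (p : V4), Gram f ∧ (∀ i j, CM i j = 0 → 1 < B (f i) (f j)) ∧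
    Up p ∧ (∀ i, 0 < B p (f i)) ∧ ∀ x, Up x → (∀ i, 0 ≤ B x (f i)) → B p x ≤ 4 := by
  obtain ⟨t, u, a, ht, hu, ha, t1, t2, u1, a1⟩ := poly_num
  have h := Real.mul_self_sqrt (show (0 : ℝ) ≤ 2 by norm_num)
  have k1 : 1 < 2 * t * a := by nlinarith
  have k2 : 1 < a * a := by nlinarith
  have k3 : a * a - 2 * t * a * (2 * t * a) = -1 := by
    linear_combination (1 - 4 * t * t) * ha - 4 * (√2 + 1) * ht - h
  refine ⟨![![t, u, -1 / 2, -1 / 2], ![t, -u, -1 / 2, -1 / 2], ![0, 0, 1, 0], ![0, 0, 0, 1],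
    ![a, 0, 0, -(2 * t * a)], ![a, 0, -(2 * t * a), 0]], ![9 / 7, 0, -4 / 7, -4 / 7],
    ⟨fun i j => ?_⟩, fun i j => ?_, ⟨by simp [B]; norm_num, by norm_num⟩, fun i => ?_,
    fun x hx H => ?_⟩
  · fin_cases i <;> fin_cases j <;> simp [CM, gm, B] <;> linarith
  · fin_cases i <;> fin_cases j <;> simp [CM, B] <;> linarith
  · fin_cases i <;> simp [B] <;> nlinarith
  · have h0 := H 0
    have h1 := H 1
    have h2 := H 2
    have h3 := H 3
    have h4 := H 4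
    have h5 := H 5
    have x0 := hx.2
    have e := hx.1
    simp [B] at h0 h1 h2 h3 h4 h5 e ⊢
    have a0 : 0 < a := by linarith
    have g4 : 0 ≤ x 0 + 2 * t * x 3 := by
      refine le_of_mul_le_mul_left ?_ a0
      nlinarith
    have g5 : 0 ≤ x 0 + 2 * t * x 2 := by
      refine le_of_mul_le_mul_left ?_ a0
      nlinarith
    have b := poly_bd (x := x 0) (c := x 1) (a := -x 2) (b := -x 3) (by linarith) (by linarith)
      (by nlinarith) (by nlinarith) (by rcases le_total (x 1) 0 with c | c <;> nlinarith)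
      (by rcases le_total (x 1) 0 with c | c <;> nlinarith)
    have : x 0 ≤ 3 := by nlinarith
    linarith

theorem exists_poly : ∃ e : Fin 6 → V4, Poly e := by
  obtain ⟨f, p, h1, h2, h3, h4, h5⟩ := poly_base
  obtain ⟨k, -, t, hg⟩ := exists_polar h3
  generalize (k * one 2 t).val = g at hg
  refine ⟨fun i => app g⁻¹ (f i), ⟨fun i j h => ?_⟩, fun i j h => ?_, fun i => ?_,
    4, fun x hx H => ?_⟩
  · rw [B_app, h1.gram i j h]
  · rw [B_app]
    exact h2 i j h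
  · rw [← B_o (app g⁻¹ (f i)), ← B_app_left, hg]
    exact h4 i
  · rw [← B_o x, ← B_app g, hg]
    exact h5 _ (hx.app g) fun i => by rw [B_app_left]; exact H i

end Pool.Agent.Lib.MP_99bfa4_al.IR
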