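import Pool.Agent.Lib.MP_99bfa4_al.IR.Lie
import Pool.Agent.Lib.MP_99bfa4_al.IR.Haar

/-! Uniqueness of spherical functions. -/

open Matrix MeasureTheory Filter
open scoped ContDiff Topology InnerProductSpace ComplexConjugate

namespace Pool.Agent.Lib.MP_99bfa4_al.IR

lemma ode_first {y : ℝ → ℂ} {c : ℂ} (h : ∀ t, HasDerivAt y (c * y t) t) (h0 : y 0 = 0) (t : ℝ) :
    y t = 0 := by
  have k : ∀ s : ℝ, HasDerivAt (fun s : ℝ => Complex.exp (-c * s) * y s) 0 s := fun s => by
    have e : HasDerivAt (fun s : ℝ => Complex.exp (-c * s)) (Complex.exp (-c * s) * (-c * 1)) s :=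
      ((Complex.ofRealCLM.hasDerivAt (x := s)).const_mul (-c)).cexp
    exact (e.fun_mul (h s)).congr_deriv (by ring)
  have := is_const_of_deriv_eq_zero (fun s => (k s).differentiableAt) (fun s => (k s).deriv) t 0
  simp only [h0, mul_zero] at this
  exact (mul_eq_zero.1 this).resolve_left (Complex.exp_ne_zero _)

lemma ode_second {y z : ℝ → ℂ} {c : ℂ} (h : ∀ t, HasDerivAt y (z t) t)
    (h' : ∀ t, HasDerivAt z (c * y t) t) (h0 : y 0 = 0) (h1 : z 0 = 0) (t : ℝ) : y t = 0 := by
  obtain ⟨m, rfl⟩ := IsAlgClosed.exists_eq_mul_self c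
  have a := ode_first (y := fun s => z s - m * y s) (c := -m)
    (fun s => ((h' s).fun_sub ((h s).const_mul m)).congr_deriv (by ring)) (by simp [h0, h1])
  exact ode_first (c := m) (fun s => (h s).congr_deriv (sub_eq_zero.1 (a s))) h0 t

lemma ode_boost (u : Smooth) (t : ℝ) :
    HasDerivAt (fun s => u.val (one 2 s)) ((fld 2 u).val (one 2 t)) t := by
  have a := hasDerivAt_fld' u 2 (one 2 t)
  simp only [← one_add] at a
  rw [← sub_self t] at a
  simpa using a.comp_sub_const t t

lemma ode_rot {f : Smooth} (h1 : RK f.val) {i : Fin 6} (hi : 3 ≤ i.val) : fld i f = 0 :=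
  Subtype.ext (funext fun x => (hasDerivAt_fld' f i x).unique (by
    simp only [h1 _ (one_mem_K hi _)]
    exact hasDerivAt_const _ _))

lemma ode_left {f : Smooth} (h2 : ∀ k ∈ K, ∀ x, f.val (k * x) = f.val x) {i : Fin 6}
    (hi : 3 ≤ i.val) (a : X) :
    (lin fld (ad a.val⁻¹ (bas i)) (lin fld (ad a.val⁻¹ (bas i)) f)).val a = 0 := by
  have c := (crv_one i).cj a.val⁻¹
  have e : ∀ s, a * cj a.val⁻¹ (one i s) = one i s * a := fun s => Subtype.ext (by
    change a.val * (a.val⁻¹ * (one i s).val * a.val⁻¹⁻¹) = (one i s).val * a.val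
    group)
  have z : ∀ s, (lin fld (ad a.val⁻¹ (bas i)) f).val (one i s * a) = 0 := fun s =>
    (hasDerivAt_fld f c _).unique (by
      simp only [mul_assoc, e, h2 _ (one_mem_K hi _)]
      exact hasDerivAt_const _ _)
  refine (hasDerivAt_fld _ c a).unique ?_
  simp only [e, z]
  exact hasDerivAt_const _ _

lemma ode_ad (t : ℝ) :
    ad (one 2 t).val⁻¹ (bas 4) = Real.cosh t • bas 4 + Real.sinh t • bas 0 ∧
      ad (one 2 t).val⁻¹ (bas 3) = Real.cosh t • bas 3 - Real.sinh t • bas 1 := by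
  have e : (one 2 t).val⁻¹ = (one 2 (-t)).val := by rw [one_neg]; rfl
  unfold ad
  rw [inv_inv, e, mat_one', mat_one']
  constructor <;> ext a b <;> fin_cases a <;> fin_cases b <;>
    simp [sn, cn, bas, Matrix.mul_apply, Fin.sum_univ_four, one_apply]

lemma ode_radial {f : Smooth} (h1 : RK f.val) (h2 : ∀ k ∈ K, ∀ x, f.val (k * x) = f.val x)
    {lam : ℂ} (h : Cs.val f = lam • f) (t : ℝ) :
    (Real.sinh t : ℂ) * (fld 2 (fld 2 f)).val (one 2 t) +
      2 * Real.cosh t * (fld 2 f).val (one 2 t) = lam * (Real.sinh t * f.val (one 2 t)) := by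
  have r3 : fld 3 f = 0 := ode_rot h1 (by decide)
  have r4 : fld 4 f = 0 := ode_rot h1 (by decide)
  have r5 : fld 5 f = 0 := ode_rot h1 (by decide)
  have q4 : fld 4 (fld 0 f) = -fld 2 f := by
    simpa [r4] using LinearMap.congr_fun lieRel_fld.rels.2.1.2.1 f
  have q3 : fld 3 (fld 1 f) = fld 2 f := by
    simpa [r3] using LinearMap.congr_fun lieRel_fld.rels.2.2.1.1 f
  have hc : fld 0 (fld 0 f) + fld 1 (fld 1 f) + fld 2 (fld 2 f) = lam • f := by
    rw [← h]
    change _ = cas1 fld f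
    simp [cas1, r3, r4, r5]
  have key : ∀ s : ℝ, s ≠ 0 → (Real.sinh s : ℂ) * (fld 2 (fld 2 f)).val (one 2 s) +
      2 * Real.cosh s * (fld 2 f).val (one 2 s) = lam * (Real.sinh s * f.val (one 2 s)) := by
    intro s hs
    have a := ode_left h2 (i := 4) (by decide) (one 2 s)
    have b := ode_left h2 (i := 3) (by decide) (one 2 s)
    have c := congrFun (congrArg Subtype.val hc) (one 2 s)
    rw [(ode_ad s).1, lin_add, lin_smul, lin_smul, lin_bas, lin_bas] at a
    rw [(ode_ad s).2, lin_sub, lin_smul, lin_smul, lin_bas, lin_bas] at b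
    simp only [LinearMap.add_apply, LinearMap.sub_apply, LinearMap.smul_apply, r3, r4, smul_zero,
      zero_add, zero_sub, map_smul, map_neg, q3, q4, AddMemClass.coe_add, AddSubgroupClass.coe_sub,
      NegMemClass.coe_neg, SetLike.val_smul, Pi.add_apply, Pi.sub_apply, Pi.neg_apply,
      Pi.smul_apply, smul_eq_mul] at a b c
    have n : (Real.sinh s : ℂ) ≠ 0 := Complex.ofReal_ne_zero.2 (Real.sinh_ne_zero.2 hs)
    refine mul_left_cancel₀ n ?_
    linear_combination (Real.sinh s : ℂ) ^ 2 * c - a - b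
  have cu : ∀ u : Smooth, Continuous fun s => u.val (one 2 s) := fun u =>
    (Smooth.continuous u).comp (continuous_one 2)
  have c1 := cu f
  have c2 := cu (fld 2 f)
  have c3 := cu (fld 2 (fld 2 f))
  exact congrFun (Continuous.ext_on (dense_compl_singleton (0 : ℝ))
    (f := fun s : ℝ => (Real.sinh s : ℂ) * (fld 2 (fld 2 f)).val (one 2 s) +
      2 * Real.cosh s * (fld 2 f).val (one 2 s))
    (g := fun s : ℝ => lam * (Real.sinh s * f.val (one 2 s))) (by fun_prop)
    (continuous_const.mul ((Complex.continuous_ofReal.comp Real.continuous_sinh).mul c1)) key) t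

theorem ode_unique (f : Smooth) (h1 : RK f.val) (h2 : ∀ k ∈ K, ∀ x, f.val (k * x) = f.val x)
    {lam : ℂ} (h : Cs.val f = lam • f) (h0 : f.val 1 = 0) : f = 0 := by
  have ds : ∀ t, HasDerivAt (fun s => (Real.sinh s : ℂ)) (Real.cosh t : ℂ) t := fun t =>
    (Real.hasDerivAt_sinh t).ofReal_comp
  have dc : ∀ t, HasDerivAt (fun s => (Real.cosh s : ℂ)) (Real.sinh t : ℂ) t := fun t =>
    (Real.hasDerivAt_cosh t).ofReal_comp
  have z := ode_second (y := fun s => (Real.sinh s : ℂ) * f.val (one 2 s))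
    (z := fun s => (Real.cosh s : ℂ) * f.val (one 2 s) + Real.sinh s * (fld 2 f).val (one 2 s))
    (c := lam + 1) (fun s => (ds s).fun_mul (ode_boost f s))
    (fun s => (((dc s).fun_mul (ode_boost f s)).fun_add
      ((ds s).fun_mul (ode_boost (fld 2 f) s))).congr_deriv (by
        linear_combination ode_radial h1 h2 h s)) (by simp) (by simp [one_zero, h0])
  refine Subtype.ext (funext fun x => ?_)
  obtain ⟨k, hk, t, k', hk', rfl⟩ := polar x
  rw [h1 _ hk', h2 _ hk]
  by_cases ht : t = 0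
  · rw [ht, one_zero, h0]
    rfl
  · exact (mul_eq_zero.1 (z t)).resolve_left (Complex.ofReal_ne_zero.2 (Real.sinh_ne_zero.2 ht))

end Pool.Agent.Lib.MP_99bfa4_al.IR
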