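import Pool.Agent.Lib.MP_99bfa4_al.IR.Lie
import Pool.Agent.Lib.MP_99bfa4_al.IR.Haar

/-! Radial convolution operators. -/

open Matrix MeasureTheory Filter
open scoped ContDiff Topology InnerProductSpace ComplexConjugate

namespace Pool.Agent.Lib.MP_99bfa4_al.IR

/-- Smooth functions that vanish far out. -/
def Bump (ψ : ℝ → ℝ) : Prop := ContDiff ℝ ∞ ψ ∧ ∃ ρ, ∀ u, ρ < u → ψ u = 0

/-- The convolution with a radial function. -/
noncomputable def Rop (ψ : ℝ → ℝ) (f : X → ℂ) (x : X) : ℂ := ∫ y, ψ (hx y) • f (x * y) ∂mu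

/-- The radial part of the Laplacian. -/
noncomputable def lap (ψ : ℝ → ℝ) (u : ℝ) : ℝ :=
  (u ^ 2 - 1) * deriv (deriv ψ) u + 3 * u * deriv ψ u

lemma Rop_eq (ψ : ℝ → ℝ) (f : X → ℂ) (x : X) :
    Rop ψ f x = ∫ y, ψ (hx (x⁻¹ * y)) • f y ∂mu := by
  rw [Rop, ← integral_mul_left_eq_self (fun y => ψ (hx (x⁻¹ * y)) • f y) x]
  simp only [inv_mul_cancel_left]

lemma Bump.integrable {ψ : ℝ → ℝ} (h : Bump ψ) {f : X → ℂ} (hf : Continuous f) :
    Integrable (fun y => ψ (hx y) • f y) mu := by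
  obtain ⟨ρ, hρ⟩ := h.2
  refine ((h.1.continuous.comp continuous_hx).smul hf).integrable_of_hasCompactSupport
    (HasCompactSupport.intro (isCompact_ball ρ) fun y hy => ?_)
  exact (congrArg (· • f y) (hρ _ (not_le.1 hy))).trans (zero_smul ℝ _)

/-- The continuous functions invariant under the group and under K on the right. -/
def Inv (Γ : Subgroup G) : Submodule ℂ (X → ℂ) where
  carrier := {f | Continuous f ∧ (∀ γ ∈ Γ, ∀ x, f (γ • x) = f x) ∧ RK f}
  zero_mem' := ⟨continuous_const, fun _ _ _ => rfl, fun _ _ _ => rfl⟩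
  add_mem' := fun ha hb => ⟨ha.1.add hb.1, fun γ h x =>
    congrArg₂ (· + ·) (ha.2.1 γ h x) (hb.2.1 γ h x), fun γ h x =>
    congrArg₂ (· + ·) (ha.2.2 γ h x) (hb.2.2 γ h x)⟩
  smul_mem' := fun c _ ha => ⟨ha.1.const_smul c, fun γ h x => congrArg (c • ·) (ha.2.1 γ h x),
    fun γ h x => congrArg (c • ·) (ha.2.2 γ h x)⟩

/-- A cocompact discontinuous group whose second coordinates fix the base point. -/
structure Cc (Γ : Subgroup G) (F : Set X) (ρ : ℝ) : Prop where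
  disc : SS.Discontinuous X Γ
  fix : ∀ γ ∈ Γ, app γ.val.2 o = o
  cov : ∀ x : X, ∃ γ ∈ Γ, γ • x ∈ ball ρ
  fd : IsFundamentalDomain Γ F mu
  meas : MeasurableSet F
  sub : F ⊆ ball ρ

/-- The inner product on a fundamental domain. -/
noncomputable def ip (F : Set X) (f g : X → ℂ) : ℂ := ∫ x in F, conj (f x) * g x ∂mu

end Pool.Agent.Lib.MP_99bfa4_al.IR
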