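import Pool.Agent.Lib.MP_99bfa4_al.IR.Avg
import Pool.Agent.Lib.MP_99bfa4_al.IR.Ode
import Pool.Agent.Lib.MP_99bfa4_al.IR.Rop

/-! The mean value property and its consequences. -/

open Matrix MeasureTheory Filter
open scoped ContDiff Topology InnerProductSpace ComplexConjugate

namespace Pool.Agent.Lib.MP_99bfa4_al.IR

lemma mean_nu : ∃ ν : Measure K, IsProbabilityMeasure ν ∧ ν.IsMulRightInvariant :=
  ⟨(Measure.haarMeasure ⊤).inv, ⟨by
    rw [Measure.inv_apply, Set.inv_univ]
    exact Measure.haarMeasure_self (K₀ := ⊤)⟩, inferInstance⟩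

lemma mean_avg (ν : Measure K) [IsProbabilityMeasure ν] (f : Smooth) (x : X) :
    ∃ A : Smooth, (∀ y, A.val y = ∫ k : K, f.val (x * k.val * y) ∂ν) ∧
      ∀ (D : DX) (y : X), (D.val A).val y = ∫ k : K, (D.val f).val (x * k.val * y) ∂ν := by
  obtain ⟨A, h1, h2⟩ := DX_avg ν isCompact_univ MeasurableSet.univ (c := fun _ => 1)
    (integrable_const _).integrableOn (g := fun k : K => lt (x * k.val))
    (continuous_lt.comp (continuous_const.mul continuous_subtype_val)) f
  simp only [Measure.restrict_univ, one_smul, lt_smul] at h1 h2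
  exact ⟨A, h1, h2⟩

lemma mean_one (ν : Measure K) [IsProbabilityMeasure ν] {f : X → ℂ} (h : RK f) (x : X) :
    ∫ k : K, f (x * k.val * 1) ∂ν = f x := by
  simp only [mul_one, fun k : K => h k.val k.2 x, integral_const, probReal_univ, one_smul]

lemma mean_RK (D : DX) {f : Smooth} (h : RK f.val) : RK (D.val f).val := fun k hk x => by
  rw [← tau_rt, ← DX_tau,
    show tau (rt k) f = f from Subtype.ext (funext fun y => (tau_rt k f y).trans (h k hk y))]

lemma mean_sph (ν : Measure K) [IsProbabilityMeasure ν] [ν.IsMulRightInvariant] {lam : ℂ}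
    {f : Smooth} (hK : RK f.val) (h : Cs.val f = lam • f) (x : X) :
    ∃ A : Smooth, (∀ y, A.val y = ∫ k : K, f.val (x * k.val * y) ∂ν) ∧ RK A.val ∧
      (∀ k ∈ K, ∀ y, A.val (k * y) = A.val y) ∧ Cs.val A = lam • A ∧ A.val 1 = f.val x := by
  obtain ⟨A, h1, h2⟩ := mean_avg ν f x
  refine ⟨A, h1, fun k hk y => ?_, fun k hk y => ?_, Subtype.ext (funext fun y => ?_), ?_⟩
  · simp only [h1, ← mul_assoc, hK k hk]
  · rw [h1, h1, ← integral_mul_right_eq_self (fun c : K => f.val (x * c.val * y)) ⟨k, hk⟩]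
    simp only [Subgroup.coe_mul, mul_assoc]
  · rw [h2, h]
    change ∫ k : K, lam * f.val (x * k.val * y) ∂ν = lam * A.val y
    rw [integral_const_mul, h1]
  · rw [h1, mean_one ν hK]

/-- The product formula for eigenfunctions of the Casimir operator. -/
theorem mean_value (lam : ℂ) : ∃ (ν : Measure K) (φ : Smooth), IsProbabilityMeasure ν ∧
    φ.val 1 = 1 ∧ ∀ f : Smooth, RK f.val → Cs.val f = lam • f → ∀ x y,
      ∫ k : K, f.val (x * k.val * y) ∂ν = f.val x * φ.val y := by
  obtain ⟨ν, _, _⟩ := mean_nu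
  by_cases H : ∃ (f : Smooth) (x : X), RK f.val ∧ Cs.val f = lam • f ∧ f.val x ≠ 0
  · obtain ⟨f₀, x₀, a1, a2, a3⟩ := H
    obtain ⟨A, -, b1, b2, b3, b4⟩ := mean_sph ν a1 a2 x₀
    have e : ∀ y, ((f₀.val x₀)⁻¹ • A).val y = (f₀.val x₀)⁻¹ * A.val y := fun _ => rfl
    refine ⟨ν, (f₀.val x₀)⁻¹ • A, inferInstance, by rw [e, b4, inv_mul_cancel₀ a3],
      fun f c1 c2 x y => ?_⟩
    obtain ⟨A', d0, d1, d2, d3, d4⟩ := mean_sph ν c1 c2 x
    have e' : ∀ y, (A' - f.val x • (f₀.val x₀)⁻¹ • A).val y =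
        A'.val y - f.val x * ((f₀.val x₀)⁻¹ * A.val y) := fun _ => rfl
    have := ode_unique (A' - f.val x • (f₀.val x₀)⁻¹ • A)
      (fun k hk y => by rw [e', e', b1 k hk, d1 k hk])
      (fun k hk y => by rw [e', e', b2 k hk, d2 k hk]) (lam := lam)
      (by
        rw [map_sub, map_smul, map_smul, b3, d3, smul_sub, smul_comm lam, smul_comm lam])
      (by rw [e', b4, d4, inv_mul_cancel₀ a3, mul_one, sub_self])
    rw [← d0, e, ← sub_eq_zero, ← e', this]
    rfl
  · push Not at H
    exact ⟨ν, 1, inferInstance, rfl, fun f c1 c2 x y => by simp [H f _ c1 c2]⟩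

theorem eigen_all {lam : ℂ} {f : Smooth} (h0 : f ≠ 0) (hK : RK f.val) (h : Cs.val f = lam • f) :
    ∃ l : DX →ₐ[ℂ] ℂ, l Cs = lam ∧ ∀ D : DX, D.val f = l D • f := by
  obtain ⟨ν, φ, _, -, H⟩ := mean_value lam
  obtain ⟨c, key⟩ : ∃ c : DX → ℂ, ∀ D : DX, D.val f = c D • f :=
    ⟨fun D => (D.val φ).val 1, fun D => Subtype.ext (funext fun x => by
      obtain ⟨A, h1, h2⟩ := mean_avg ν f x
      have e : A = f.val x • φ := Subtype.ext (funext fun y => (h1 y).trans (H f hK h x y))
      have := h2 D 1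
      rw [mean_one ν (mean_RK D hK), e, map_smul] at this
      exact this.symm.trans (mul_comm _ _))⟩
  have inj := smul_left_injective ℂ h0
  refine ⟨⟨⟨⟨⟨c, inj ?_⟩, fun D D' => inj ?_⟩, inj ?_, fun D D' => inj ?_⟩, fun a => inj ?_⟩,
    inj ((key Cs).symm.trans h), key⟩
  · exact (key 1).symm.trans (one_smul _ _).symm
  · refine (key _).symm.trans ?_
    change D.val (D'.val f) = (c D * c D') • f
    rw [key D', map_smul, key D, smul_smul, mul_comm]
  · exact (key 0).symm.trans (zero_smul _ _).symm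
  · refine (key _).symm.trans ?_
    change D.val f + D'.val f = (c D + c D') • f
    rw [key D, key D', add_smul]
  · exact (key _).symm

theorem rop_scalar (lam : ℂ) {ψ : ℝ → ℝ} (hψ : Bump ψ) : ∃ κ : ℂ, ∀ f : Smooth, RK f.val →
    Cs.val f = lam • f → Rop ψ f.val = κ • f.val := by
  obtain ⟨ν, φ, _, -, H⟩ := mean_value lam
  refine ⟨∫ y, ψ (hx y) • φ.val y ∂mu, fun f hK h => funext fun x => ?_⟩
  obtain ⟨ρ, hρ⟩ := hψ.2
  have e : ∀ k : K, Rop ψ f.val x = ∫ y, ψ (hx y) • f.val (x * k.val * y) ∂mu := fun k => by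
    rw [Rop, ← integral_mul_left_eq_self _ k.val]
    refine integral_congr_ae (Eventually.of_forall fun y => ?_)
    have : hx (k.val * y) = hx y := ht_mul_left _ k.2
    simp only [this, mul_assoc]
  have sw := integral_integral_swap_of_hasCompactSupport (μ := ν) (ν := mu)
    (f := fun (k : K) (y : X) => ψ (hx y) • f.val (x * k.val * y))
    ((hψ.1.continuous.comp (continuous_hx.comp continuous_snd)).smul ((Smooth.continuous f).comp
      ((continuous_const.mul (continuous_subtype_val.comp continuous_fst)).mul continuous_snd)))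
    (HasCompactSupport.intro (isCompact_univ.prod (isCompact_ball ρ)) fun p hp => by
      have : ψ (hx p.2) = 0 := hρ _ (not_le.1 fun c => hp ⟨trivial, c⟩)
      exact (congrArg (· • f.val (x * p.1.val * p.2)) this).trans (zero_smul ℝ _))
  simp only [← e, integral_const, probReal_univ, one_smul, integral_smul, H f hK h] at sw
  rw [sw, Pi.smul_apply, smul_eq_mul, ← integral_mul_const]
  refine integral_congr_ae (Eventually.of_forall fun y => ?_)
  simp only [Complex.real_smul]
  ring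

theorem rop_cas {ψ : ℝ → ℝ} (hψ : Bump ψ) (f F : Smooth) (hF : F.val = Rop ψ f.val) :
    (Cs.val F).val = Rop ψ (Cs.val f).val := by
  obtain ⟨ρ, hρ⟩ := hψ.2
  obtain ⟨A, h1, h2⟩ := DX_avg mu (isCompact_ball ρ) (isCompact_ball ρ).measurableSet
    (c := fun y => ψ (hx y))
    ((hψ.1.continuous.comp continuous_hx).continuousOn.integrableOn_compact (isCompact_ball ρ))
    (g := fun y : X => rt y⁻¹) (continuous_rt.comp continuous_inv) f
  have e : ∀ (u : X → ℂ) x, ∫ y in ball ρ, ψ (hx y) • u (rt y⁻¹ • x) ∂mu = Rop ψ u x := fun u x => by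
    simp only [rt_smul, inv_inv]
    exact setIntegral_eq_integral_of_forall_compl_eq_zero fun y hy => by
      rw [hρ _ (not_le.1 hy), zero_smul]
  obtain rfl : F = A := Subtype.ext (hF.trans (funext fun x => ((h1 x).trans (e _ x)).symm))
  exact funext fun x => (h2 Cs x).trans (e _ x)

end Pool.Agent.Lib.MP_99bfa4_al.IR
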