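import Pool.Agent.Lib.MP_99bfa4_al.IR.Rop
import Pool.Agent.Lib.MP_cdc9ab_al.Param

/-! The convolution operators are smoothing; the Casimir operator acts on the kernel. -/

open Matrix MeasureTheory Filter
open scoped ContDiff Topology InnerProductSpace ComplexConjugate

namespace Pool.Agent.Lib.MP_99bfa4_al.IR

lemma ropS_deriv_zero {ψ : ℝ → ℝ} {ρ : ℝ} (h : ∀ u, ρ < u → ψ u = 0) (u : ℝ) (hu : ρ < u) :
    deriv ψ u = 0 := by
  have : ψ =ᶠ[𝓝 u] fun _ => 0 := by
    filter_upwards [lt_mem_nhds hu] with v hv using h v hv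
  rw [this.deriv_eq, deriv_const]

lemma ropS_deriv_smooth {ψ : ℝ → ℝ} (h : ContDiff ℝ ∞ ψ) : ContDiff ℝ ∞ (deriv ψ) :=
  (contDiff_infty_iff_deriv.1 h).2

theorem bump_lap {ψ : ℝ → ℝ} (h : Bump ψ) : Bump (lap ψ) := by
  obtain ⟨h1, ρ, h2⟩ := h
  have d1 := ropS_deriv_smooth h1
  have d2 := ropS_deriv_smooth d1
  refine ⟨?_, ρ, fun u hu => ?_⟩
  · exact (((contDiff_id.pow 2).sub contDiff_const).mul d2).add
      ((contDiff_const.mul contDiff_id).mul d1)
  · rw [lap, ropS_deriv_zero h2 u hu, ropS_deriv_zero (ropS_deriv_zero h2) u hu]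
    ring

lemma ropS_hx_le (x y : X) {r : ℝ} (h : hx (x⁻¹ * y) ≤ r) : hx y ≤ 2 * hx x * r := by
  have h1 := ht_mul_le x.val (x⁻¹ * y).val
  have h2 : x.val * (x⁻¹ * y).val = y.val := by simp
  rw [h2] at h1
  exact h1.trans (mul_le_mul_of_nonneg_left h (by linarith [one_le_ht x.val]))

lemma ropS_int {k : X → ℝ} (hk : Continuous k) {ρ : ℝ} (x : X)
    (hs : ∀ y, ρ < hx (x⁻¹ * y) → k y = 0) {f : X → ℂ} (hf : Continuous f) :
    Integrable (fun y => k y • f y) mu := by
  refine (hk.smul hf).integrable_of_hasCompactSupport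
    (HasCompactSupport.intro (isCompact_ball (2 * hx x * ρ)) fun y hy => ?_)
  have : k y = 0 := hs y (not_le.1 fun c => hy (ropS_hx_le x y c))
  exact (congrArg (· • f y) this).trans (zero_smul ℝ _)

lemma ropS_mx (x : X) : mx x 0 0 = hx x := (ht_eq x.val).symm

/-- Integral operators with a smooth kernel of bounded propagation. -/
lemma ropS_gen {κ : Amb × V4 → ℝ} (hκ : ContDiff ℝ ∞ κ) {ρ : ℝ}
    (hs : ∀ x y : X, ρ < hx (x⁻¹ * y) → κ (mx x, app y.val o) = 0) {f : X → ℂ}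
    (hf : Continuous f) :
    ∃ F : Smooth, (∀ x, F.val x = ∫ y, κ (mx x, app y.val o) • f y ∂mu) ∧
      ∀ (i : Fin 6) (x : X) (k' : X → ℝ),
        (∀ y : X, HasDerivAt (fun t => κ (mx (x * one i t), app y.val o)) (k' y) 0) →
        (fld i F).val x = ∫ y, k' y • f y ∂mu := by
  let r := max ρ 1
  have r0 : 0 < r := lt_max_of_lt_right one_pos
  let κ' : Amb × V4 → ℝ := fun p =>
    κ p * Real.smoothTransition (1 + r * (1 + p.1 0 0 ^ 2) - p.2 0)
  have hκ' : ContDiff ℝ ∞ κ' :=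
    hκ.mul (Real.smoothTransition.contDiff.comp (by fun_prop))
  have e : ∀ x y : X, κ' (mx x, app y.val o) = κ (mx x, app y.val o) := fun x y => by
    by_cases c : ρ < hx (x⁻¹ * y)
    · simp only [κ', hs x y c, zero_mul]
    · have h1 := ropS_hx_le x y ((not_lt.1 c).trans (le_max_left ρ 1))
      have h2 : app y.val o 0 = hx y := rfl
      have h3 : 1 ≤ 1 + r * (1 + mx x 0 0 ^ 2) - app y.val o 0 := by
        rw [h2, ropS_mx]
        nlinarith [mul_nonneg r0.le (sq_nonneg (hx x - 1))]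
      simp only [κ', Real.smoothTransition.one_of_one_le h3, mul_one]
  let Ψ : Amb × (V4 × ℂ) → ℂ := fun p => κ' (p.1, p.2.1) • p.2.2
  have hΨ : ContDiff ℝ ∞ Ψ := (hκ'.comp (by fun_prop)).smul (by fun_prop)
  let q : X → V4 × ℂ := fun y => (app y.val o, f y)
  have hq : Continuous q := (continuous_app continuous_subtype_val continuous_const).prodMk hf
  let R : Amb → ℝ := fun m => 1 + r * (2 + m 0 0 ^ 2)
  have z : ∀ m₀ : Amb, ∀ᶠ m in 𝓝 m₀, ∀ y : X, y ∉ ball (R m₀) → Ψ (m, q y) = 0 := fun m₀ => by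
    have c : ContinuousAt (fun m : Amb => m 0 0 ^ 2) m₀ :=
      (((continuous_apply 0).comp (continuous_apply 0)).pow 2).continuousAt
    filter_upwards [c.eventually (gt_mem_nhds (lt_add_one (m₀ 0 0 ^ 2)))] with m hm y hy
    have h1 : R m₀ < app y.val o 0 := not_le.1 hy
    have h3 : 1 + r * (1 + m 0 0 ^ 2) - app y.val o 0 ≤ 0 := by
      simp only [R] at h1
      nlinarith [mul_pos r0 (sub_pos.2 hm)]
    simp only [Ψ, κ', q, Real.smoothTransition.zero_of_nonpos h3, mul_zero, zero_smul]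
  let G : Amb → ℂ := fun m => ∫ y, Ψ (m, q y) ∂mu
  have mb : ∀ s, MeasurableSet (ball s) := fun s => (isCompact_ball s).measurableSet
  have ib : ∀ s, IntegrableOn (fun _ : X => (1 : ℝ)) (ball s) mu := fun s =>
    continuous_const.continuousOn.integrableOn_compact (isCompact_ball s)
  have loc : ∀ m₀ : Amb, G =ᶠ[𝓝 m₀] fun m => ∫ y in ball (R m₀), (1 : ℝ) • Ψ (m, q y) ∂mu :=
    fun m₀ => by
      filter_upwards [z m₀] with m hm
      simp only [one_smul]
      exact (setIntegral_eq_integral_of_forall_compl_eq_zero hm).symm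
  have hG : ContDiff ℝ ∞ G := contDiff_iff_contDiffAt.2 fun m₀ =>
    (MP_cdc9ab_al.param_smooth (isCompact_ball _) (mb _) hq.continuousOn (ib _) isOpen_univ
      (fun p _ => hΨ.contDiffAt) (fun _ _ => Set.mem_univ _)).congr_of_eventuallyEq (loc m₀)
  have hGx : ∀ x : X, G (mx x) = ∫ y, κ (mx x, app y.val o) • f y ∂mu := fun x => by
    simp only [G, Ψ, q, e]
  refine ⟨⟨_, smooth_of hG hGx⟩, fun _ => rfl, fun i x k' hk => ?_⟩
  have d : ∀ y : X, fderiv ℝ (fun m => Ψ (m, q y)) (mx x) (amb (mat x.val * bas i)) =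
      k' y • f y := fun y => by
    have h1 := hasDerivAt_crv (f := fun x => κ (mx x, app y.val o) • f y)
      (F := fun m => Ψ (m, q y)) (hΨ.comp (by fun_prop)) (fun x => by simp only [Ψ, q, e])
      (crv_one i) x
    exact h1.unique ((hk y).smul_const (f y))
  rw [fld_eq hG hGx, (loc (mx x)).fderiv_eq,
    MP_cdc9ab_al.param_fderiv (isCompact_ball _) (mb _) hq.continuousOn (ib _) isOpen_univ
      (fun p _ => hΨ.contDiffAt) (fun _ _ => Set.mem_univ _)]
  simp only [one_smul, d]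
  refine setIntegral_eq_integral_of_forall_compl_eq_zero fun y hy => ?_
  have : (fun m => Ψ (m, q y)) =ᶠ[𝓝 (mx x)] fun _ => 0 := (z (mx x)).mono fun m hm => hm y hy
  rw [← d, this.fderiv_eq]
  simp

/-- The pairing of a column combination with a vector. -/
def ropS_b (v : V4) (p : Amb × V4) : ℝ := B (Matrix.of p.1 *ᵥ v) p.2

lemma ropS_b_smooth (v : V4) : ContDiff ℝ ∞ (ropS_b v) := by
  unfold ropS_b B
  simp only [mulVec, dotProduct, Fin.sum_univ_four, of_apply]
  fun_prop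

lemma ropS_b_eq (v : V4) (x y : X) :
    ropS_b v (mx x, app y.val o) = B v (app (x⁻¹ * y).val o) := by
  change B (app x.val v) (app y.val o) = B v (app (x.val⁻¹ * y.val) o)
  rw [B_app_left, app_mul]

lemma ropS_b_o (x y : X) : ropS_b o (mx x, app y.val o) = hx (x⁻¹ * y) := by
  rw [ropS_b_eq, B_o]
  rfl

lemma ropS_b_der (v w : V4) (i : Fin 6) (x : X) :
    HasDerivAt (fun t => ropS_b v (mx (x * one i t), w)) (ropS_b (bas i *ᵥ v) (mx x, w)) 0 := by
  have h1 := (crv_one i).mul (mat x.val) 1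
  simp only [Matrix.mul_one] at h1
  have k : ∀ a, HasDerivAt (fun t => (Matrix.of (mx (x * one i t)) *ᵥ v) a)
      ((Matrix.of (mx x) *ᵥ (bas i *ᵥ v)) a) 0 := fun a => by
    rw [mulVec_mulVec]
    simp only [mulVec, dotProduct]
    exact HasDerivAt.fun_sum fun j _ =>
      (hasDerivAt_pi.1 (hasDerivAt_pi.1 h1 a) j).mul_const _
  exact ((((k 0).mul_const _).sub ((k 1).mul_const _)).sub ((k 2).mul_const _)).sub
    ((k 3).mul_const _)

lemma ropS_comp_der {ψ : ℝ → ℝ} (h : ContDiff ℝ ∞ ψ) (w : V4) (i : Fin 6) (x : X) :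
    HasDerivAt (fun t => ψ (ropS_b o (mx (x * one i t), w)))
      (deriv ψ (ropS_b o (mx x, w)) * ropS_b (bas i *ᵥ o) (mx x, w)) 0 := by
  have h1 : HasDerivAt ψ (deriv ψ (ropS_b o (mx x, w))) (ropS_b o (mx (x * one i 0), w)) := by
    rw [one_zero, mul_one]
    exact (h.differentiable (by simp) _).hasDerivAt
  exact h1.comp 0 (ropS_b_der o w i x)

/-- The kernel of a second derivative. -/
noncomputable def ropS_k (ψ : ℝ → ℝ) (i : Fin 6) (x y : X) : ℝ :=
  deriv (deriv ψ) (hx (x⁻¹ * y)) * B (bas i *ᵥ o) (app (x⁻¹ * y).val o) ^ 2 +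
    deriv ψ (hx (x⁻¹ * y)) * B (bas i *ᵥ (bas i *ᵥ o)) (app (x⁻¹ * y).val o)

lemma ropS_sum (ψ : ℝ → ℝ) (x y : X) :
    ropS_k ψ 0 x y + ropS_k ψ 1 x y + ropS_k ψ 2 x y - ropS_k ψ 3 x y - ropS_k ψ 4 x y -
      ropS_k ψ 5 x y = lap ψ (hx (x⁻¹ * y)) := by
  have h := (up_o.app (x⁻¹ * y).val).1
  have e : hx (x⁻¹ * y) = app (x⁻¹ * y).val o 0 := rfl
  unfold ropS_k lap
  rw [e]
  generalize app (x⁻¹ * y).val o = p at h ⊢
  rw [B] at h
  simp [bas, o, B, mulVec, dotProduct, Fin.sum_univ_four]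
  linear_combination (-deriv (deriv ψ) (p 0)) * h

theorem rop_smooth {ψ : ℝ → ℝ} (h : Bump ψ) {f : X → ℂ} (hf : Continuous f) :
    ∃ F : Smooth, F.val = Rop ψ f ∧ (Cs.val F).val = Rop (lap ψ) f := by
  obtain ⟨h1, ρ, h2⟩ := h
  have d1 := ropS_deriv_smooth h1
  have d2 := ropS_deriv_smooth d1
  have z1 := ropS_deriv_zero h2
  have z2 := ropS_deriv_zero z1
  obtain ⟨F, hF, hF'⟩ := ropS_gen (κ := fun p => ψ (ropS_b o p)) (h1.comp (ropS_b_smooth o))
    (ρ := ρ) (fun x y c => by rw [ropS_b_o, h2 _ c]) hf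
  have key : ∀ i x, (fld i (fld i F)).val x = ∫ y, ropS_k ψ i x y • f y ∂mu := fun i x => by
    obtain ⟨F1, hF1, hF1'⟩ := ropS_gen
      (κ := fun p => deriv ψ (ropS_b o p) * ropS_b (bas i *ᵥ o) p)
      ((d1.comp (ropS_b_smooth o)).mul (ropS_b_smooth _))
      (ρ := ρ) (fun x y c => by rw [ropS_b_o, z1 _ c, zero_mul]) hf
    have e : fld i F = F1 := Subtype.ext (funext fun x =>
      (hF' i x _ fun y => ropS_comp_der h1 _ i x).trans (hF1 x).symm)
    rw [e]
    refine hF1' i x _ fun y => ?_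
    have := (ropS_comp_der d1 (app y.val o) i x).mul (ropS_b_der (bas i *ᵥ o) (app y.val o) i x)
    refine this.congr_deriv ?_
    rw [one_zero, mul_one, ropS_b_o, ropS_b_eq, ropS_b_eq, ropS_k]
    ring
  have int : ∀ i x, Integrable (fun y => ropS_k ψ i x y • f y) mu := fun i x => by
    refine ropS_int ?_ (ρ := ρ) x (fun y c => by rw [ropS_k, z1 _ c, z2 _ c]; ring) hf
    have c1 : Continuous fun y : X => hx (x⁻¹ * y) :=
      continuous_hx.comp (continuous_const.mul continuous_id)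
    have c2 : Continuous fun y : X => app (x⁻¹ * y).val o :=
      continuous_app (continuous_subtype_val.comp (continuous_const.mul continuous_id))
        continuous_const
    exact ((d2.continuous.comp c1).mul ((continuous_B continuous_const c2).pow 2)).add
      ((d1.continuous.comp c1).mul (continuous_B continuous_const c2))
  refine ⟨F, funext fun x => ?_, funext fun x => ?_⟩
  · rw [hF, Rop_eq]
    simp only [ropS_b_o]
  · change (fld 0 (fld 0 F)).val x + (fld 1 (fld 1 F)).val x + (fld 2 (fld 2 F)).val x -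
      (fld 3 (fld 3 F)).val x - (fld 4 (fld 4 F)).val x - (fld 5 (fld 5 F)).val x = _
    simp only [key]
    rw [Rop_eq, ← integral_add' (int 0 x) (int 1 x),
      ← integral_add' ((int 0 x).add (int 1 x)) (int 2 x),
      ← integral_sub' (((int 0 x).add (int 1 x)).add (int 2 x)) (int 3 x),
      ← integral_sub' ((((int 0 x).add (int 1 x)).add (int 2 x)).sub (int 3 x)) (int 4 x),
      ← integral_sub' (((((int 0 x).add (int 1 x)).add (int 2 x)).sub (int 3 x)).sub (int 4 x))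
        (int 5 x)]
    refine integral_congr_ae (Eventually.of_forall fun y => ?_)
    simp only [Pi.add_apply, Pi.sub_apply, ← ropS_sum, add_smul, sub_smul]

end Pool.Agent.Lib.MP_99bfa4_al.IR
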