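import Pool.Agent.Lib.MP_99bfa4_al.IR.RopI
import Pool.Agent.Lib.MP_99bfa4_al.IR.RopS

/-! Compactness of the convolution operators. -/

open Matrix MeasureTheory Filter
open scoped ContDiff Topology InnerProductSpace ComplexConjugate

namespace Pool.Agent.Lib.MP_99bfa4_al.IR

variable {Γ : Subgroup G} {F : Set X} {ρ : ℝ} {ψ : ℝ → ℝ}

lemma ropC_ip (F : Set X) (f : X → ℂ) : (ip F f f).re = ∫ x in F, ‖f x‖ ^ 2 ∂mu := by
  have : ∀ x, conj (f x) * f x = ((‖f x‖ ^ 2 : ℝ) : ℂ) := fun x => by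
    rw [Complex.conj_mul', Complex.ofReal_pow]
  simp only [ip, this]
  rw [integral_complex_ofReal, Complex.ofReal_re]

lemma ropC_ball {E : Type} [NormedAddCommGroup E] {k : X → E} (hk : Continuous k) (R : ℝ) :
    IntegrableOn k (ball R) mu :=
  hk.continuousOn.integrableOn_compact (isCompact_ball R)

/-- The integral over a ball is bounded by the norm on the fundamental domain. -/
theorem ball_bound (H : Cc Γ F ρ) (R : ℝ) : ∃ C : ℝ, ∀ f ∈ Inv Γ, (ip F f f).re ≤ 1 →
    ∫ y in ball R, ‖f y‖ ∂mu ≤ C := by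
  have := H.disc.1
  have hS := ProperlyDiscontinuousSMul.finite_disjoint_inter_image (Γ := Γ) (isCompact_ball R)
    (isCompact_ball ρ)
  obtain ⟨S, hS'⟩ : ∃ S : Finset Γ, ∀ (γ : Γ) (y : X), y ∈ ball R → γ • y ∈ ball ρ → γ ∈ S :=
    ⟨hS.toFinset, fun γ y hy k => hS.mem_toFinset.2 ⟨γ • y, ⟨y, hy, rfl⟩, k⟩⟩
  clear hS
  refine ⟨S.card * (mu.real F + 1), fun f hf h1 => ?_⟩
  have c : Continuous fun y => ‖f y‖ := hf.1.norm
  have iF : IntegrableOn (fun y => ‖f y‖) F mu := (ropC_ball c ρ).mono_set H.sub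
  have i1 : IntegrableOn (fun _ : X => (1 : ℝ)) F mu :=
    (ropC_ball continuous_const ρ).mono_set H.sub
  have i2 : IntegrableOn (fun y => ‖f y‖ ^ 2) F mu := (ropC_ball (c.pow 2) ρ).mono_set H.sub
  have hF : ∫ y in F, ‖f y‖ ∂mu ≤ mu.real F + 1 := by
    rw [ropC_ip] at h1
    have h2 : ∫ y in F, ‖f y‖ ∂mu ≤ ∫ y in F, (1 + ‖f y‖ ^ 2) ∂mu :=
      integral_mono iF (i1.add i2) fun y => by nlinarith [sq_nonneg (‖f y‖ - 1), norm_nonneg (f y)]
    rw [integral_add i1 i2, setIntegral_const, smul_eq_mul, mul_one] at h2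
    linarith
  let k : X → ℝ := F.indicator fun y => ‖f y‖
  have k0 : ∀ y, 0 ≤ k y := fun y => Set.indicator_nonneg (fun _ _ => norm_nonneg _) y
  have ik : Integrable k mu := (integrable_indicator_iff H.meas).2 iF
  have ig : ∀ γ : Γ, Integrable (fun y => k ((γ : G) • y)) mu := fun γ => by
    have := (measurePreserving_smul (γ : G) mu).integrable_comp_of_integrable ik
    simpa only [Function.comp_def] using this
  have mb := (isCompact_ball R).measurableSet
  calc ∫ y in ball R, ‖f y‖ ∂mu = ∫ y, (ball R).indicator (fun y => ‖f y‖) y ∂mu :=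
        (integral_indicator mb).symm
    _ ≤ ∫ y, ∑ γ ∈ S, k ((γ : G) • y) ∂mu := by
        have j1 : Integrable ((ball R).indicator fun y => ‖f y‖) mu :=
          (integrable_indicator_iff mb).2 (ropC_ball c R)
        have j2 : Integrable (fun y => ∑ γ ∈ S, k ((γ : G) • y)) mu :=
          integrable_finsetSum S fun γ _ => ig γ
        refine integral_mono_ae j1 j2 ?_
        filter_upwards [H.fd.ae_covers] with y ⟨γ, hγ⟩
        by_cases hy : y ∈ ball R
        · rw [Set.indicator_of_mem hy]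
          have hm : γ ∈ S := hS' γ y hy (H.sub hγ)
          have hγ' : (γ : G) • y ∈ F := hγ
          have e1 : ‖f y‖ = k ((γ : G) • y) := by
            simp only [k, Set.indicator_of_mem hγ', hf.2.1 γ γ.2 y]
          rw [e1]
          exact Finset.single_le_sum (f := fun δ : Γ => k ((δ : G) • y))
            (fun δ _ => k0 ((δ : G) • y)) hm
        · rw [Set.indicator_of_notMem hy]
          exact Finset.sum_nonneg fun δ _ => k0 ((δ : G) • y)
    _ = ∑ γ ∈ S, ∫ y in F, ‖f y‖ ∂mu := by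
        rw [integral_finsetSum _ fun γ _ => ig γ]
        refine Finset.sum_congr rfl fun γ _ => ?_
        rw [integral_smul_eq_self k, integral_indicator H.meas]
    _ ≤ _ := by
        rw [Finset.sum_const, nsmul_eq_mul]
        exact mul_le_mul_of_nonneg_left hF (Nat.cast_nonneg _)

lemma ropC_est {k : X → ℝ} (hk : Continuous k) {R ε : ℝ} (h0 : ∀ y, y ∉ ball R → k y = 0)
    (h1 : ∀ y ∈ ball R, |k y| ≤ ε) {f : X → ℂ} (hf : Continuous f) :
    ‖∫ y, k y • f y ∂mu‖ ≤ ε * ∫ y in ball R, ‖f y‖ ∂mu := by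
  rw [← setIntegral_eq_integral_of_forall_compl_eq_zero (s := ball R)
    (fun y hy => by rw [h0 y hy, zero_smul]), ← integral_const_mul]
  refine (norm_integral_le_integral_norm _).trans (setIntegral_mono_on
    (ropC_ball (hk.smul hf).norm R) (ropC_ball (continuous_const.mul hf.norm) R)
    (isCompact_ball R).measurableSet fun y hy => ?_)
  rw [norm_smul, Real.norm_eq_abs]
  exact mul_le_mul_of_nonneg_right (h1 y hy) (norm_nonneg _)

theorem rop_compact (H : Cc Γ F ρ) (h : Bump ψ) (f : ℕ → X → ℂ) (hf : ∀ n, f n ∈ Inv Γ)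
    (h1 : ∀ n, (ip F (f n) (f n)).re ≤ 1) :
    ∃ φ : ℕ → ℕ, StrictMono φ ∧ ∃ g ∈ Inv Γ,
      Tendsto (fun n => (ip F (Rop ψ (f (φ n)) - g) (Rop ψ (f (φ n)) - g)).re) atTop (𝓝 0) := by
  have hg : ∀ n, Rop ψ (f n) ∈ Inv Γ := fun n => rop_inv H.fix h (hf n)
  obtain ⟨hψ, r, hr⟩ := h
  let κ : X × X → ℝ := fun p => ψ (hx (p.1⁻¹ * p.2))
  have hκ : Continuous κ :=
    hψ.continuous.comp (continuous_hx.comp (continuous_fst.inv.mul continuous_snd))
  have hκ' : ∀ x, Continuous fun y => κ (x, y) := fun x => hκ.comp (Continuous.prodMk_right x)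
  let R := 2 * ρ * max r 1
  have z : ∀ x ∈ ball ρ, ∀ y, y ∉ ball R → κ (x, y) = 0 := fun x hx' y hy => by
    refine hr _ (not_le.1 fun c => hy ?_)
    refine (ropS_hx_le x y (c.trans (le_max_left r 1))).trans ?_
    have : hx x ≤ ρ := hx'
    exact mul_le_mul_of_nonneg_right (by linarith) (zero_le_one.trans (le_max_right r 1))
  have RE : ∀ n x, Rop ψ (f n) x = ∫ y, κ (x, y) • f n y ∂mu := fun n x => Rop_eq ψ (f n) x
  have i : ∀ n (x : X), Integrable (fun y => κ (x, y) • f n y) mu := fun n x =>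
    ropS_int (hκ' x) x (fun y hy => hr _ hy) (hf n).1
  clear_value κ R
  obtain ⟨C, hC⟩ := ball_bound H R
  have hC' : ∀ n, ∫ y in ball R, ‖f n y‖ ∂mu ≤ max C 1 := fun n =>
    (hC _ (hf n) (h1 n)).trans (le_max_left _ _)
  have C0 : 0 < max C 1 := lt_max_of_lt_right one_pos
  obtain ⟨M, hM⟩ := ((isCompact_ball ρ).prod (isCompact_ball R)).exists_bound_of_continuousOn
    hκ.continuousOn
  have : CompactSpace (ball ρ) := isCompact_iff_compactSpace.1 (isCompact_ball ρ)
  let g : ℕ → BoundedContinuousFunction (ball ρ) ℂ := fun n =>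
    BoundedContinuousFunction.mkOfCompact ⟨fun x => Rop ψ (f n) x.val,
      (hg n).1.comp continuous_subtype_val⟩
  have gv : ∀ n x, g n x = Rop ψ (f n) x.val := fun _ _ => rfl
  have A : IsCompact (closure (Set.range g)) := by
    refine BoundedContinuousFunction.arzela_ascoli (Metric.closedBall 0 (max M 0 * max C 1))
      (isCompact_closedBall _ _) _ ?_ fun x₀ => Metric.equicontinuousAt_iff_right.2 fun ε hε => ?_
    · rintro _ x ⟨n, rfl⟩
      rw [mem_closedBall_zero_iff, gv, RE]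
      refine (ropC_est (hκ' x) (z x x.2) (ε := max M 0)
        (fun y hy => (hM (x, y) ⟨x.2, hy⟩).trans (le_max_left _ _)) (hf n).1).trans ?_
      exact mul_le_mul_of_nonneg_left (hC' n) (le_max_right _ _)
    · have e0 : 0 < ε / 2 / max C 1 := by positivity
      have ev : ∀ᶠ x : ball ρ in 𝓝 x₀, ∀ y ∈ ball R,
          |κ (x₀.val, y) - κ (x.val, y)| ≤ ε / 2 / max C 1 := by
        refine (isCompact_ball R).eventually_forall_of_forall_eventually fun y _ => ?_
        have c : Continuous fun p : ball ρ × X => |κ (x₀.val, p.2) - κ (p.1.val, p.2)| :=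
          (((hκ' x₀).comp continuous_snd).sub (hκ.comp
            ((continuous_subtype_val.comp continuous_fst).prodMk continuous_snd))).abs
        exact c.continuousAt.eventually (ge_mem_nhds (by simpa using e0))
      filter_upwards [ev] with x hx'
      rintro ⟨_, n, rfl⟩
      change dist (g n x₀) (g n x) < ε
      rw [dist_eq_norm, gv, gv, RE, RE, ← integral_sub (i n x₀) (i n x)]
      simp only [← sub_smul]
      refine (ropC_est (k := fun y => κ (x₀.val, y) - κ (x.val, y)) ((hκ' x₀).sub (hκ' x)) (R := R)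
        (fun y hy => by rw [z x₀ x₀.2 y hy, z x x.2 y hy, sub_self]) hx' (hf n).1).trans_lt ?_
      refine (mul_le_mul_of_nonneg_left (hC' n) e0.le).trans_lt ?_
      rw [div_mul_cancel₀ _ C0.ne']
      linarith
  obtain ⟨g₀, -, φ, hφ, lim⟩ := A.tendsto_subseq (x := g) fun n => subset_closure ⟨n, rfl⟩
  choose γ hγ hγ' using H.cov
  let u : X → ℂ := fun x => g₀ ⟨γ x • x, hγ' x⟩
  have d0 : Tendsto (fun n => dist (g (φ n)) g₀) atTop (𝓝 0) := tendsto_iff_dist_tendsto_zero.1 lim
  have key : ∀ n x, dist (Rop ψ (f (φ n)) x) (u x) ≤ dist (g (φ n)) g₀ := fun n x => by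
    rw [← (hg (φ n)).2.1 _ (hγ x) x]
    exact BoundedContinuousFunction.dist_coe_le_dist (f := g (φ n)) (g := g₀) ⟨γ x • x, hγ' x⟩
  have pt : ∀ x, Tendsto (fun n => Rop ψ (f (φ n)) x) atTop (𝓝 (u x)) := fun x =>
    tendsto_iff_dist_tendsto_zero.2 (squeeze_zero (fun _ => dist_nonneg) (fun n => key n x) d0)
  have uc : Continuous u := by
    refine TendstoUniformly.continuous (F := fun n => Rop ψ (f (φ n))) (p := atTop)
      (Metric.tendstoUniformly_iff.2 fun ε hε => ?_) (Frequently.of_forall fun n => (hg _).1)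
    filter_upwards [d0.eventually (gt_mem_nhds hε)] with n hn x
    rw [dist_comm]
    exact (key n x).trans_lt hn
  refine ⟨φ, hφ, u, ⟨uc, fun a ha x => tendsto_nhds_unique (pt _) ?_,
    fun a ha x => tendsto_nhds_unique (pt _) ?_⟩, ?_⟩
  · simpa only [(hg _).2.1 a ha x] using pt x
  · simpa only [(hg _).2.2 a ha x] using pt x
  · simp only [ropC_ip]
    refine squeeze_zero (fun n => integral_nonneg fun _ => sq_nonneg _)
      (g := fun n => mu.real F * dist (g (φ n)) g₀ ^ 2) (fun n => ?_)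
      (by simpa using (d0.pow 2).const_mul (mu.real F))
    rw [← smul_eq_mul, ← setIntegral_const]
    refine integral_mono ((ropC_ball (((hg _).1.sub uc).norm.pow 2) ρ).mono_set H.sub)
      ((ropC_ball continuous_const ρ).mono_set H.sub) fun x => ?_
    refine pow_le_pow_left₀ (norm_nonneg _) ?_ 2
    rw [Pi.sub_apply, ← dist_eq_norm]
    exact key n x

end Pool.Agent.Lib.MP_99bfa4_al.IR
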