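import Pool.Agent.Lib.MP_99bfa4_al.IR.Spec
import Pool.Agent.Lib.MP_99bfa4_al.IR.RopS
import Pool.Agent.Lib.MP_99bfa4_al.IR.RopC
import Pool.Agent.Lib.MP_99bfa4_al.IR.Dim
import Pool.Agent.Lib.MP_99bfa4_al.IR.Mean

/-! Infinitely many joint eigenfunctions on a compact quotient. -/

open Matrix MeasureTheory Filter
open scoped ContDiff Topology InnerProductSpace ComplexConjugate

namespace Pool.Agent.Lib.MP_99bfa4_al.IR

/-- The invariant functions as a space without topology. -/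
def InvT (Γ : Subgroup G) : Type := Inv Γ

noncomputable instance (Γ : Subgroup G) : AddCommGroup (InvT Γ) :=
  inferInstanceAs (AddCommGroup (Inv Γ))

noncomputable instance (Γ : Subgroup G) : Module ℂ (InvT Γ) := inferInstanceAs (Module ℂ (Inv Γ))

/-- The underlying function. -/
def InvT.fn {Γ : Subgroup G} (u : InvT Γ) : X → ℂ := Subtype.val (p := (· ∈ Inv Γ)) u

lemma InvT.mem {Γ : Subgroup G} (u : InvT Γ) : u.fn ∈ Inv Γ := Subtype.property (p := (· ∈ Inv Γ)) u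

lemma InvT.ext' {Γ : Subgroup G} {u v : InvT Γ} (h : u.fn = v.fn) : u = v :=
  Subtype.ext (p := (· ∈ Inv Γ)) h

lemma spectral_self (F : Set X) (f : X → ℂ) : 0 ≤ (ip F f f).re := by
  have : ip F f f = ((∫ x in F, Complex.normSq (f x) ∂mu : ℝ) : ℂ) := by
    rw [ip, ← integral_complex_ofReal]
    exact integral_congr_ae (Eventually.of_forall fun x => Complex.normSq_eq_conj_mul_self.symm)
  rw [this, Complex.ofReal_re]
  exact integral_nonneg fun x => Complex.normSq_nonneg _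

/-- The inner product on the invariant functions. -/
@[reducible] noncomputable def invCore {Γ : Subgroup G} {F : Set X} {ρ : ℝ} (H : Cc Γ F ρ) :
    InnerProductSpace.Core ℂ (InvT Γ) where
  inner u v := ip F u.fn v.fn
  conj_inner_symm u v := by
    change conj (ip F v.fn u.fn) = ip F u.fn v.fn
    rw [ip, ip, ← integral_conj]
    exact integral_congr_ae (Eventually.of_forall fun x => by simp [mul_comm])
  re_inner_nonneg u := spectral_self F u.fn
  add_left u v w := by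
    change ip F (u.fn + v.fn) w.fn = ip F u.fn w.fn + ip F v.fn w.fn
    rw [ip, ip, ip, ← integral_add (ip_integrable H u.mem.1 w.mem.1)
      (ip_integrable H v.mem.1 w.mem.1)]
    exact integral_congr_ae (Eventually.of_forall fun x => by simp [add_mul])
  smul_left u v c := by
    change ip F (c • u.fn) v.fn = conj c * ip F u.fn v.fn
    rw [ip, ip, ← integral_const_mul]
    exact integral_congr_ae (Eventually.of_forall fun x => by simp [mul_assoc])
  definite u h := InvT.ext' (ip_definite H u.mem h)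

/-- The convolution operators on the invariant functions. -/
noncomputable def RopL {Γ : Subgroup G} (hΓ : ∀ γ ∈ Γ, app γ.val.2 o = o) (ψ : {ψ // Bump ψ}) :
    InvT Γ →ₗ[ℂ] InvT Γ where
  toFun u := (⟨Rop ψ.val u.fn, rop_inv hΓ ψ.2 u.mem⟩ : Inv Γ)
  map_add' u v := InvT.ext' (funext fun x => by
    change Rop ψ.val (u.fn + v.fn) x = Rop ψ.val u.fn x + Rop ψ.val v.fn x
    rw [Rop, Rop, Rop, ← integral_add
      (ψ.2.integrable (f := fun y => u.fn (x * y)) (u.mem.1.comp (continuous_const_mul x)))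
      (ψ.2.integrable (f := fun y => v.fn (x * y)) (v.mem.1.comp (continuous_const_mul x)))]
    exact integral_congr_ae (Eventually.of_forall fun y => smul_add _ _ _))
  map_smul' c u := InvT.ext' (funext fun x => by
    change Rop ψ.val (c • u.fn) x = c • Rop ψ.val u.fn x
    rw [Rop, Rop, ← integral_smul]
    exact integral_congr_ae (Eventually.of_forall fun y =>
      smul_comm (ψ.val (hx y)) c (u.fn (x * y))))

/-- The eigenspaces of the Casimir operator. -/
noncomputable def eigC (Γ : Subgroup G) (lam : ℂ) : Submodule ℂ (InvT Γ) where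
  carrier := {u | ∃ f : Smooth, f.val = u.fn ∧ Cs.val f = lam • f}
  zero_mem' := ⟨0, rfl, by simp⟩
  add_mem' := fun ⟨f, h1, h2⟩ ⟨g, k1, k2⟩ =>
    ⟨f + g, congrArg₂ (· + ·) h1 k1, by rw [map_add, h2, k2, smul_add]⟩
  smul_mem' := fun c _ ⟨f, h1, h2⟩ =>
    ⟨c • f, congrArg (c • ·) h1, by rw [map_smul, h2, smul_comm]⟩

theorem spectral_cas {Γ : Subgroup G} {F : Set X} {ρ : ℝ} (H : Cc Γ F ρ) :
    {lam : ℂ | ∃ f : Smooth, f ≠ 0 ∧ f.val ∈ Inv Γ ∧ Cs.val f = lam • f}.Infinite := by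
  let : InnerProductSpace.Core ℂ (InvT Γ) := invCore H
  let : NormedAddCommGroup (InvT Γ) := InnerProductSpace.Core.toNormedAddCommGroup (𝕜 := ℂ)
  let : InnerProductSpace ℂ (InvT Γ) := InnerProductSpace.ofCore (invCore H).toCore
  have hn : ∀ u : InvT Γ, ‖u‖ = √(ip F u.fn u.fn).re := fun u => rfl
  refine (spec_core (RopL H.fix) (fun ψ u hu => ?_)
    (fun ψ u v => rop_symm H ψ.2 u.mem v.mem) (fun u hu => ?_) (inf_dim H.disc H.fix) (eigC Γ)
    (fun lam ψ => ?_) (fun ψ => ⟨lap ψ.val, bump_lap ψ.2⟩) (fun ψ u => ?_)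
    (fun ψ m lam u hm h1 h2 => ?_)).mono fun lam h => ?_
  · obtain ⟨φ, hφ, g, hg, k⟩ := rop_compact H ψ.2 (fun n => (u n).fn) (fun n => (u n).mem)
      fun n => by
        have := hu n
        rwa [hn, Real.sqrt_le_one] at this
    refine ⟨φ, hφ, (⟨g, hg⟩ : Inv Γ), tendsto_iff_norm_sub_tendsto_zero.2 ?_⟩
    have := k.sqrt
    rw [Real.sqrt_zero] at this
    exact this
  · obtain ⟨ψ, h1, h2⟩ := approx u.mem.1 u.mem.2.2 fun h => hu (InvT.ext' h)
    exact ⟨⟨ψ, h1⟩, fun h => h2 (congrArg InvT.fn h)⟩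
  · obtain ⟨κ, hκ⟩ := rop_scalar lam ψ.2
    refine ⟨κ, fun u hu => InvT.ext' ?_⟩
    obtain ⟨f, h1, h2⟩ := hu
    change Rop ψ.val u.fn = κ • u.fn
    rw [← h1]
    exact hκ f (h1 ▸ u.mem.2.2) h2
  · obtain ⟨f, h1, h2⟩ := rop_smooth ψ.2 u.mem.1
    obtain ⟨g, k1, k2⟩ := rop_smooth ψ.2 (Smooth.continuous f)
    refine InvT.ext' ?_
    change Rop ψ.val (Rop (lap ψ.val) u.fn) = Rop (lap ψ.val) (Rop ψ.val u.fn)
    rw [← h2, ← h1, ← k2, rop_cas ψ.2 f g k1]
  · obtain ⟨f, k1, k2⟩ := rop_smooth ψ.2 u.mem.1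
    have e1 : Rop ψ.val u.fn = m • u.fn := congrArg InvT.fn h1
    have e2 : Rop (lap ψ.val) u.fn = lam • u.fn := congrArg InvT.fn h2
    refine ⟨m⁻¹ • f, ?_, Subtype.ext ?_⟩
    · change m⁻¹ • f.val = _
      rw [k1, e1, inv_smul_smul₀ hm]
    · rw [map_smul]
      change m⁻¹ • (Cs.val f).val = (lam / m) • m⁻¹ • f.val
      rw [k2, e2, k1, e1, inv_smul_smul₀ hm, smul_smul, div_eq_inv_mul]
  · obtain ⟨u, ⟨f, h1, h2⟩, h0⟩ := (Submodule.ne_bot_iff _).1 h
    refine ⟨f, fun c => h0 (InvT.ext' ?_), h1 ▸ u.mem, h2⟩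
    rw [← h1, c]
    rfl

theorem spectral {Γ : Subgroup G} {F : Set X} {ρ : ℝ} (H : Cc Γ F ρ) :
    {l : DX →ₐ[ℂ] ℂ | ∃ f : Smooth, f ≠ 0 ∧ f.val ∈ Inv Γ ∧
      ∀ D : DX, D.val f = l D • f}.Infinite := by
  refine Set.Infinite.of_image (fun l => l Cs) ((spectral_cas H).mono ?_)
  rintro lam ⟨f, h0, h1, h2⟩
  obtain ⟨l, h3, h4⟩ := eigen_all h0 h1.2.2 h2
  exact ⟨l, ⟨f, h0, h1, h4⟩, h3⟩

end Pool.Agent.Lib.MP_99bfa4_al.IR
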