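import Pool.Agent.Lib.MP_99bfa4_al.IR.Disc
import Pool.Agent.Lib.MP_99bfa4_al.IR.Spectral
import Pool.Agent.Lib.MP_99bfa4_al.IR.Adm
import Pool.Agent.Lib.MP_99bfa4_al.IR.Poly

/-! The main statement. -/

open Matrix MeasureTheory Filter
open scoped ContDiff Topology InnerProductSpace ComplexConjugate

namespace Pool.Agent.Lib.MP_99bfa4_al.IR

variable {e : Fin 6 → V4}

lemma main_inv (h : Gram e) (R : K) {f : X → ℂ} (hf : f ∈ Inv (Lat h 1)) :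
    ∀ γ ∈ Lat h R, ∀ x, f (γ • x) = f x := by
  rintro _ ⟨w, rfl⟩ x
  have k : Phi h R w • x = Phi h 1 w • (x * (R ^ chi w.val)⁻¹.val) := Subtype.ext (by
    rw [smul_val, smul_val, Phi_fst, Phi_fst, Phi_snd, Phi_snd, _root_.one_zpow]
    simp [mul_assoc])
  rw [k, hf.2.1 _ ⟨w, rfl⟩, hf.2.2 _ (R ^ chi w.val)⁻¹.property]

theorem infStable (h : Poly e) :
    InfStable mu (Subtype.val : Smooth → X → ℂ) (Lat h.toGram 1) := by
  obtain ⟨ρ, hρ⟩ := lat_cover h 1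
  obtain ⟨F, h1, h2, h3⟩ := exists_fd (lat_disc h 1) (isCompact_ball ρ).measurableSet hρ
  refine (spectral ⟨lat_disc h 1, lat_fix _ 1, hρ, h3, h2, h1⟩).mono ?_
  rintro l ⟨f, h0, hf, hl⟩
  refine (normal_form h).mono ?_
  rintro φ ⟨g, R, k⟩
  obtain ⟨r, hr⟩ := lat_cover h R
  rw [k]
  exact hasEigen_conj (lat_disc h R) hr f h0 (main_inv _ R hf) l hl g

theorem cocompact (h : Poly e) :
    ∃ C : Set X, IsCompact C ∧ ∀ x : X, ∃ γ ∈ Lat h.toGram 1, γ • x ∈ C :=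
  let ⟨ρ, k⟩ := lat_cover h 1
  ⟨ball ρ, isCompact_ball ρ, k⟩

end Pool.Agent.Lib.MP_99bfa4_al.IR
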