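import Pool.Agent.Lib.MP_99bfa4_al.IR.Cox

/-! Involutions near a reflection or near a point inversion. -/

open Matrix MeasureTheory Filter
open scoped ContDiff Topology InnerProductSpace ComplexConjugate

namespace Pool.Agent.Lib.MP_99bfa4_al.IR

lemma near_invol {N : M4} (hN : N * N = 1) (h : (N + 1).det ≠ 0) : N = 1 := by
  have : (N + 1) * (N - 1) = 0 := by simp [Matrix.add_mul, Matrix.mul_sub, hN, add_comm]
  have k := congrArg ((N + 1)⁻¹ * ·) this
  simp only [← Matrix.mul_assoc, nonsing_inv_mul _ (Ne.isUnit h), Matrix.one_mul,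
    Matrix.mul_zero] at k
  exact sub_eq_zero.1 k

lemma near_invol' {T : Type} {l : Filter T} {N : T → M4} (h : Tendsto N l (𝓝 1)) :
    ∀ᶠ t in l, N t * N t = 1 → N t = 1 := by
  have k : Continuous fun M : M4 => (M + 1).det :=
    (continuous_id.add continuous_const).matrix_det
  filter_upwards [((k.tendsto _).comp h).eventually_ne (b₂ := 0) (by
    rw [← two_smul ℝ (1 : M4), det_smul, det_one, mul_one]
    exact pow_ne_zero _ two_ne_zero)] with t ht hN
  exact near_invol hN ht

/-- Two commuting involutions with a product near the identity are equal. -/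
lemma near_eq {g r : L} (hg : g * g = 1) (hr : r * r = 1) (hc : r * g = g * r)
    (h : mat g * mat r * (mat g * mat r) = 1 → mat g * mat r = 1) : g = r := by
  have sq : g * r * (g * r) = 1 := by
    rw [mul_assoc, ← mul_assoc r, hc, mul_assoc, hr, mul_one, hg]
  have k : g * r = 1 := mat_inj (h (congrArg mat sq))
  exact (eq_inv_of_mul_eq_one_left k).trans (inv_eq_of_mul_eq_one_left hr)

lemma near_cm (c : ℝ) : Continuous fun u : V4 => (1 + c • vecMulVec u (eta *ᵥ u) : M4) :=
  continuous_const.add ((continuous_id.matrix_vecMulVec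
    (continuous_const.matrix_mulVec continuous_id)).const_smul c)

/-- The normal vector of an involution near a reflection. -/
noncomputable def near_nv (u : V4) (g : L) : V4 :=
  (√(-B (u - app g u) (u - app g u)))⁻¹ • (u - app g u)

/-- An involution near a reflection is a reflection in a nearby vector. -/
theorem near_refl {u : V4} (hu : B u u = -1) :
    ∃ n : L → V4, Tendsto n (𝓝 (refl u hu)) (𝓝 u) ∧ ∀ᶠ g in 𝓝 (refl u hu),
      ∃ h : B (n g) (n g) = -1, g * g = 1 → g = refl (n g) h := by
  have cv : Continuous fun g : L => u - app g u :=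
    continuous_const.sub (continuous_app continuous_id continuous_const)
  have cq : Continuous fun g : L => -B (u - app g u) (u - app g u) := (continuous_B cv cv).neg
  have v0 : u - app (refl u hu) u = (2 : ℝ) • u := by
    rw [app_refl hu, hu]
    module
  have q0 : -B (u - app (refl u hu) u) (u - app (refl u hu) u) = 2 * 2 := by
    rw [v0, B_smul_left, B_smul_right, hu]
    norm_num
  have t1 : Tendsto (near_nv u) (𝓝 (refl u hu)) (𝓝 u) := by
    have := ((cq.sqrt.tendsto (refl u hu)).inv₀ (by rw [q0]; positivity)).smul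
      (cv.tendsto (refl u hu))
    rwa [q0, v0, Real.sqrt_mul_self zero_le_two, smul_smul, inv_mul_cancel₀ two_ne_zero,
      one_smul] at this
  have u1 : ∀ᶠ g in 𝓝 (refl u hu), B (near_nv u g) (near_nv u g) = -1 := by
    filter_upwards [(cq.tendsto _).eventually_const_lt (u := 0) (by rw [q0]; norm_num)] with g hg
    rw [near_nv, B_smul_left, B_smul_right, ← mul_assoc, ← mul_inv, Real.mul_self_sqrt hg.le,
      inv_neg, neg_mul, inv_mul_cancel₀ (neg_ne_zero.1 hg.ne')]
  have t2 := (continuous_mat.tendsto (refl u hu)).mul (((near_cm 2).tendsto u).comp t1)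
  have m1 : mat (refl u hu) * (1 + (2 : ℝ) • vecMulVec u (eta *ᵥ u)) = 1 :=
    congrArg mat (refl_sq hu)
  rw [m1] at t2
  refine ⟨near_nv u, t1, ?_⟩
  filter_upwards [u1, near_invol' t2] with g h1 h2
  refine ⟨h1, fun hg => near_eq hg (refl_sq h1) (L_ext fun x => ?_) h2⟩
  have gg : ∀ x, app g (app g x) = x := fun x => by rw [← app_mul, hg, app_one]
  have gu : app g (near_nv u g) = -near_nv u g := by
    rw [near_nv, app_smul, app_sub, gg, ← smul_neg, neg_sub]
  have : B (app g x) (near_nv u g) = -B x (near_nv u g) := by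
    rw [← B_app g x, gu, B_neg_right, neg_neg]
  rw [app_mul, app_mul, app_refl, app_refl, app_add, app_smul, gu, this]
  module

lemma near_pinv_sq {v : V4} (h : B v v = 1) : pinv v h * pinv v h = 1 := L_ext fun x => by
  simp only [app_mul, app_pinv h, B_sub_left, B_smul_left, h, app_one]
  module

/-- The fixed point of an involution near the inversion in the base point. -/
noncomputable def near_fx (g : L) : V4 := (√(2 + 2 * ht g))⁻¹ • (o + app g o)

lemma near_fx_up (g : L) : Up (near_fx g) := by
  have h := one_le_ht g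
  have h1 : 0 < 2 + 2 * ht g := by linarith
  have e : B (o + app g o) (o + app g o) = 2 + 2 * ht g := by
    rw [B_add_left, B_add_right, B_add_right, B_app, B_o, B_o, B_o', o_zero, ht]
    ring
  refine ⟨?_, ?_⟩
  · rw [near_fx, B_smul_left, B_smul_right, ← mul_assoc, ← mul_inv, Real.mul_self_sqrt h1.le, e,
      inv_mul_cancel₀ h1.ne']
  · change 0 < (√(2 + 2 * ht g))⁻¹ * (1 + ht g)
    exact mul_pos (inv_pos.2 (Real.sqrt_pos.2 h1)) (by linarith)

/-- An involution near the inversion in the base point is a point inversion. -/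
theorem near_iota : ∀ᶠ g in 𝓝 iota, g * g = 1 → ∃ (v : V4) (h : Up v), g = pinv v h.1 := by
  have cv : Continuous fun g : L => o + app g o :=
    continuous_const.add (continuous_app continuous_id continuous_const)
  have cq : Continuous fun g : L => 2 + 2 * ht g :=
    continuous_const.add (continuous_const.mul continuous_ht)
  have q0 : 2 + 2 * ht iota = 2 * 2 := by
    rw [ht, iota_o, o_zero]
    norm_num
  have t1 : Tendsto near_fx (𝓝 iota) (𝓝 o) := by
    have := ((cq.sqrt.tendsto iota).inv₀ (by rw [q0]; positivity)).smul (cv.tendsto iota)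
    rwa [q0, iota_o, ← two_smul ℝ o, Real.sqrt_mul_self zero_le_two, smul_smul,
      inv_mul_cancel₀ two_ne_zero, one_smul] at this
  have t2 := (continuous_mat.tendsto iota).mul (((near_cm (-2)).neg.tendsto o).comp t1)
  have m1 : mat iota * -(1 + (-2 : ℝ) • vecMulVec o (eta *ᵥ o)) = 1 := congrArg mat iota_sq
  rw [Pi.neg_apply, m1] at t2
  filter_upwards [near_invol' t2] with g h2 hg
  refine ⟨near_fx g, near_fx_up g, near_eq hg (near_pinv_sq _) (L_ext fun x => ?_) h2⟩
  have gu : app g (near_fx g) = near_fx g := by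
    rw [near_fx, app_smul, app_add, ← app_mul, hg, app_one, add_comm (app g o)]
  have : B (app g x) (near_fx g) = B x (near_fx g) := by rw [← B_app g x, gu]
  rw [app_mul, app_mul, app_pinv, app_pinv, app_sub, app_smul, gu, this]

/-- The second coefficient of the orbit. -/
def near_q (m : ℕ) (c : ℝ) : ℝ :=
  if m = 2 then 4 * c * (2 * c * c - 1) else if m = 3 then 2 * c * (4 * c * c - 1) * (4 * c * c - 3)
  else 8 * c * (2 * c * c - 1) * (8 * (c * c) ^ 2 - 8 * (c * c) + 1)

lemma near_orbit {m : ℕ} (hm : m = 2 ∨ m = 3 ∨ m = 4) {T : L} {a b : V4} {c : ℝ}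
    (ha : app T a = (4 * c * c - 1) • a + (2 * c) • b) (hb : app T b = (-2 * c) • a - b) :
    ∃ p : ℝ, app (T ^ m) a = p • a + near_q m c • b := by
  rcases hm with rfl | rfl | rfl
  · refine ⟨16 * c ^ 4 - 12 * c ^ 2 + 1, ?_⟩
    simp only [pow_succ T, pow_zero, one_mul, app_mul, app_add, app_smul, ha, hb, near_q]
    norm_num
    module
  · refine ⟨64 * c ^ 6 - 80 * c ^ 4 + 24 * c ^ 2 - 1, ?_⟩
    simp only [pow_succ T, pow_zero, one_mul, app_mul, app_add, app_smul, app_sub, ha, hb, near_q]
    norm_num
    module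
  · refine ⟨256 * c ^ 8 - 448 * c ^ 6 + 240 * c ^ 4 - 40 * c ^ 2 + 1, ?_⟩
    simp only [pow_succ T, pow_zero, one_mul, app_mul, app_add, app_smul, app_sub, ha, hb, near_q]
    norm_num
    module

/-- The order of a product of two reflections determines the angle locally. -/
theorem gram_of_order {m : ℕ} (hm : m = 2 ∨ m = 3 ∨ m = 4) {u v : V4} (hu : B u u = -1)
    (hv : B v v = -1) (h : (refl u hu * refl v hv) ^ m = 1) (hn : |B u v - gm m| < 1 / 10) :
    B u v = gm m := by
  obtain ⟨p, hp⟩ := near_orbit hm (T := refl u hu * refl v hv) (a := u) (b := v) (c := B u v) (by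
    simp only [app_mul, app_refl hu, app_refl hv, B_add_left, B_smul_left, hu, B_comm v u]
    module) (by
    simp only [app_mul, app_refl hu, app_refl hv, B_add_left, B_smul_left, hv, B_comm v u]
    module)
  rw [h, app_one] at hp
  have k1 := congrArg (fun x => B x u) hp
  have k2 := congrArg (fun x => B x v) hp
  simp only [B_add_left, B_smul_left, hu, hv, B_comm v u] at k1 k2
  have k : near_q m (B u v) * (B u v * B u v - 1) = 0 := by
    linear_combination -B u v * k1 - k2
  generalize B u v = c at k hn ⊢
  obtain ⟨n1, n2⟩ := abs_lt.1 hn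
  rcases hm with rfl | rfl | rfl
  · norm_num [gm, near_q] at n1 n2 k ⊢
    rcases k with (k | k) | k
    · exact k
    · nlinarith
    · nlinarith
  · norm_num [gm, near_q] at n1 n2 k ⊢
    rcases k with ((k | k) | k) | k
    · linarith
    · nlinarith
    · nlinarith
    · nlinarith
  · have s1 := Real.mul_self_sqrt (show (0 : ℝ) ≤ 2 by norm_num)
    have s2 : 141 / 100 ≤ √2 := Real.le_sqrt_of_sq_le (by norm_num)
    have s3 : √2 ≤ 142 / 100 := Real.sqrt_le_iff.2 ⟨by norm_num, by norm_num⟩
    norm_num [gm, near_q] at n1 n2 k ⊢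
    have c1 : 36 / 100 ≤ c * c := by nlinarith
    have c2 : c * c ≤ 66 / 100 := by nlinarith
    rcases k with ((k | k) | k) | k
    · linarith
    · have : (c - √2 / 2) * (c + √2 / 2) = 0 := by linear_combination (1 / 2) * k - (1 / 4) * s1
      linarith [(mul_eq_zero.1 this).resolve_right (by linarith)]
    · nlinarith
    · linarith

/-- A product of two different point inversions does not have order 2, 3 or 4. -/
theorem pinv_eq_of_order {m : ℕ} (hm : m = 2 ∨ m = 3 ∨ m = 4) {u v : V4} (hu : Up u) (hv : Up v)
    (h : (pinv u hu.1 * pinv v hv.1) ^ m = 1) : u = v := by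
  have c0 : 0 < B u v := lor_pos (hu.1 ▸ one_pos) (hv.1 ▸ one_pos) hu.2 hv.2
  by_cases hc : B u v ≤ 1
  · have e : B (v - B u v • u) (v - B u v • u) = 1 - B u v * B u v := by
      simp only [B_sub_left, B_sub_right, B_smul_left, B_smul_right, hu.1, hv.1, B_comm v u]
      ring
    have w := hu.neg_of_orth (x := v - B u v • u) (by
      rw [B_sub_right, B_smul_right, hu.1, mul_one, sub_self]) (by rw [e]; nlinarith)
    rw [w, B_zero_left] at e
    have c1 : B u v = 1 := by nlinarith
    rw [c1, one_smul] at w
    exact (sub_eq_zero.1 w).symm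
  obtain ⟨p, hp⟩ := near_orbit hm (T := pinv u hu.1 * pinv v hv.1) (a := u) (b := -v)
    (c := B u v) (by
    simp only [app_mul, app_pinv hu.1, app_pinv hv.1, B_sub_left, B_smul_left, hu.1, B_comm v u]
    module) (by
    simp only [app_mul, app_pinv hu.1, app_pinv hv.1, B_sub_left, B_smul_left, B_neg_left, hv.1,
      B_comm v u]
    module)
  rw [h, app_one] at hp
  have k1 := congrArg (fun x => B x u) hp
  have k2 := congrArg (fun x => B x v) hp
  simp only [B_add_left, B_smul_left, B_neg_left, hu.1, hv.1, B_comm v u] at k1 k2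
  have k : near_q m (B u v) * (B u v * B u v - 1) = 0 := by
    linear_combination B u v * k1 - k2
  generalize B u v = c at k hc
  have c1 : 1 < c := not_le.1 hc
  have c2 : 1 < c * c := by nlinarith
  have k' : near_q m c = 0 := (mul_eq_zero.1 k).resolve_right (by linarith)
  refine absurd k' (ne_of_gt ?_)
  unfold near_q
  split_ifs
  · exact mul_pos (by linarith) (by linarith)
  · exact mul_pos (mul_pos (by linarith) (by linarith)) (by linarith)
  · exact mul_pos (mul_pos (by linarith) (by linarith)) (by nlinarith)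

end Pool.Agent.Lib.MP_99bfa4_al.IR
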