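import Pool.Agent.Lib.MP_99bfa4_al.IR.Unif

/-! Smoothed vectors of a unitary representation. -/

open Matrix MeasureTheory Filter
open scoped ContDiff Topology InnerProductSpace ComplexConjugate

namespace Pool.Agent.Lib.MP_99bfa4_al.IR

universe u

variable {V : Type u} [NormedAddCommGroup V] [InnerProductSpace ℂ V] [CompleteSpace V]
  {π : G →* (V ≃ₗᵢ[ℂ] V)}


/-- The smoothing of a vector by a function. -/
noncomputable def P (π : G →* (V ≃ₗᵢ[ℂ] V)) (v : V) (h : Test) : V :=
  ∫ y, h.val.val y⁻¹ • π (rt y) v ∂mu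

lemma rep_hx_inv (y : X) : hx y⁻¹ = hx y := ht_inv y.val

omit [CompleteSpace V] in
lemma rep_zero (v : V) {h : Test} {ρ : ℝ} (H : ∀ x, ρ < hx x → h.val.val x = 0) (y : X)
    (hy : y ∉ ball ρ) : h.val.val y⁻¹ • π (rt y) v = 0 := by
  rw [H _ (by rw [rep_hx_inv]; exact not_le.1 hy), zero_smul]

theorem P_integrable (hπ : ∀ v, Continuous fun g => π g v) (v : V) (h : Test) :
    Integrable (fun y => h.val.val y⁻¹ • π (rt y) v) mu := by
  obtain ⟨ρ, H⟩ := h.property
  exact (((Smooth.continuous h.val).comp continuous_inv).smul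
    ((hπ v).comp continuous_rt)).integrable_of_hasCompactSupport
    (HasCompactSupport.intro (isCompact_ball ρ) (rep_zero v H))

/-- The smoothing as a linear map. -/
noncomputable def PL (hπ : ∀ v, Continuous fun g => π g v) (v : V) : Test →ₗ[ℂ] V where
  toFun := P π v
  map_add' h k := by
    rw [P, P, P, ← integral_add (P_integrable hπ v h) (P_integrable hπ v k)]
    exact integral_congr_ae (Eventually.of_forall fun y => add_smul _ _ _)
  map_smul' c h := by
    rw [P, P, RingHom.id_apply, ← integral_smul]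
    exact integral_congr_ae (Eventually.of_forall fun y => mul_smul _ _ _)

theorem P_bdd (hπ : ∀ v, Continuous fun g => π g v) (v : V) : Bdd (PL hπ v) := by
  refine fun ρ => ⟨‖v‖ * mu.real (ball ρ), fun h ε H hε => ?_⟩
  change ‖∫ y, h.val.val y⁻¹ • π (rt y) v ∂mu‖ ≤ _
  rw [← setIntegral_eq_integral_of_forall_compl_eq_zero (rep_zero v H)]
  refine (norm_setIntegral_le_of_norm_le_const (C := ε * ‖v‖) (isCompact_ball ρ).measure_lt_top
    fun y _ => ?_).trans (le_of_eq (by ring))
  rw [norm_smul, LinearIsometryEquiv.norm_map]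
  exact mul_le_mul_of_nonneg_right (hε _) (norm_nonneg v)

lemma rep_map (hπ : ∀ v, Continuous fun g => π g v) (v : V) (h : Test) (g : G) :
    π g (P π v h) = ∫ y, h.val.val y⁻¹ • π (g * rt y) v ∂mu := by
  refine ((π g).toLinearIsometry.toContinuousLinearMap.integral_comp_comm
    (P_integrable hπ v h)).symm.trans (integral_congr_ae (Eventually.of_forall fun y => ?_))
  change π g (h.val.val y⁻¹ • π (rt y) v) = h.val.val y⁻¹ • π (g * rt y) v
  rw [map_smul, map_mul]
  rfl

theorem P_rt (hπ : ∀ v, Continuous fun g => π g v) (v : V) (h : Test) (c : X) :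
    π (rt c) (P π v h) = P π v (tauT (rt c) h) := by
  rw [rep_map hπ, P, ← integral_mul_left_eq_self
    (fun y => (tauT (rt c) h).val.val y⁻¹ • π (rt y) v) c]
  refine integral_congr_ae (Eventually.of_forall fun y => ?_)
  change h.val.val y⁻¹ • π (rt c * rt y) v =
    (tau (rt c) h.val).val (c * y)⁻¹ • π (rt (c * y)) v
  rw [tau_rt, _root_.mul_inv_rev, inv_mul_cancel_right, map_mul rt]

lemma rep_conj (g : G) (y : X) : g * rt y = rt (dg g.val.2 • y) * g := by
  refine Subtype.ext (Prod.ext ?_ ?_)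
  · change g.val.1 * 1 = 1 * g.val.1
    rw [mul_one, one_mul]
  · change g.val.2 * y.val = g.val.2 * y.val * g.val.2⁻¹ * g.val.2
    rw [inv_mul_cancel_right]

lemma rep_dg_inv (b : L) (y : X) : (dg b)⁻¹ • (dg b • y)⁻¹ = y⁻¹ := by
  refine Subtype.ext ?_
  change b⁻¹ * (b * y.val * b⁻¹)⁻¹ * b⁻¹⁻¹ = y.val⁻¹
  group

theorem P_act (hπ : ∀ v, Continuous fun g => π g v) (v : V) (h : Test) (g : G) :
    π g (P π v h) = P π (π g v) (tauT (dg g.val.2) h) := by
  rw [rep_map hπ, P, ← integral_smul_eq_self (μ := mu)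
    (fun y => (tauT (dg g.val.2) h).val.val y⁻¹ • π (rt y) (π g v)) (g := dg g.val.2)]
  refine integral_congr_ae (Eventually.of_forall fun y => ?_)
  change h.val.val y⁻¹ • π (g * rt y) v =
    h.val.val ((dg g.val.2)⁻¹ • (dg g.val.2 • y)⁻¹) • π (rt (dg g.val.2 • y)) (π g v)
  rw [rep_dg_inv, rep_conj, map_mul]
  rfl

/-- The space of smoothed vectors. -/
noncomputable def Sm (π : G →* (V ≃ₗᵢ[ℂ] V)) : Submodule ℂ V :=
  Submodule.span ℂ {w | ∃ v h, w = P π v h}

lemma P_mem (v : V) (h : Test) : P π v h ∈ Sm π := Submodule.subset_span ⟨v, h, rfl⟩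

lemma Sm_act (hπ : ∀ v, Continuous fun g => π g v) (g : G) : ∀ w ∈ Sm π, π g w ∈ Sm π := by
  intro w hw
  induction hw using Submodule.span_induction with
  | mem w h =>
    obtain ⟨v, h, rfl⟩ := h
    rw [P_act hπ]
    exact P_mem _ _
  | zero => rw [map_zero]; exact zero_mem _
  | add a b _ _ ha hb => rw [map_add]; exact add_mem ha hb
  | smul c a _ ha => rw [map_smul]; exact Submodule.smul_mem _ c ha

/-- The derived representation on the smoothed vectors. -/
structure DRep (π : G →* (V ≃ₗᵢ[ℂ] V)) (d : Fin 6 → Module.End ℂ (Sm π)) : Prop where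
  gen : ∀ Y, So Y → ∀ v h, (lin d Y ⟨P π v h, P_mem v h⟩).val = P π v (fldT Y h)
  der : ∀ c Y, Crv c Y → ∀ w : Sm π, HasDerivAt (fun t => π (rt (c t)) w.val) (lin d Y w).val 0

end Pool.Agent.Lib.MP_99bfa4_al.IR
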