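import Pool.Agent.Lib.MP_99bfa4_al.IR.Core

/-! The virial argument. -/

open Matrix MeasureTheory Filter
open scoped ContDiff Topology InnerProductSpace ComplexConjugate

namespace Pool.Agent.Lib.MP_99bfa4_al.IR

variable {E : Type*} [NormedAddCommGroup E] [InnerProductSpace ℂ E]
  {d : Fin 6 → Module.End ℂ E}

/-- A separating family of maps for which the Borel subalgebra is skew symmetric up to a shift. -/
structure Res {I H : Type} [NormedAddCommGroup H] [InnerProductSpace ℂ H]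
    (d : Fin 6 → Module.End ℂ E) (R : I → E →ₗ[ℂ] H) : Prop where
  n1 : ∀ x u v, ⟪R x ((d 0 - d 4) u), R x v⟫_ℂ + ⟪R x u, R x ((d 0 - d 4) v)⟫_ℂ = 0
  n2 : ∀ x u v, ⟪R x ((d 1 + d 3) u), R x v⟫_ℂ + ⟪R x u, R x ((d 1 + d 3) v)⟫_ℂ = 0
  a : ∀ x u v, ⟪R x (d 2 u), R x v⟫_ℂ + ⟪R x u, R x (d 2 v)⟫_ℂ = 2 * ⟪R x u, R x v⟫_ℂ
  sep : ∀ u, (∀ x, R x u = 0) → u = 0

variable {I H : Type} [NormedAddCommGroup H] [InnerProductSpace ℂ H] {R : I → E →ₗ[ℂ] H}

lemma virial_re {T : E →ₗ[ℂ] H} {A : Module.End ℂ E}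
    (hA : ∀ u v, ⟪T (A u), T v⟫_ℂ + ⟪T u, T (A v)⟫_ℂ = 0) (u : E) : (⟪T u, T (A u)⟫_ℂ).re = 0 := by
  have h := congrArg Complex.re (hA u u)
  rw [← inner_conj_symm (T (A u)) (T u)] at h
  simp only [Complex.add_re, Complex.conj_re, Complex.zero_re] at h
  linarith

lemma virial_sq {T : E →ₗ[ℂ] H} {A : Module.End ℂ E}
    (hA : ∀ u v, ⟪T (A u), T v⟫_ℂ + ⟪T u, T (A v)⟫_ℂ = 0) (u : E) :
    ⟪T u, T (A (A u))⟫_ℂ = -((‖T (A u)‖ ^ 2 : ℝ) : ℂ) := by
  have h := hA u (A u)
  rw [inner_self_eq_norm_sq_to_K] at h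
  push_cast
  exact eq_neg_of_add_eq_zero_right h

lemma virial_mix {T : E →ₗ[ℂ] H} {D N : Module.End ℂ E}
    (hD : ∀ u v, ⟪T (D u), T v⟫_ℂ + ⟪T u, T (D v)⟫_ℂ = 0)
    (hN : ∀ u v, ⟪T (N u), T v⟫_ℂ + ⟪T u, T (N v)⟫_ℂ = 0) (hc : ∀ u, N (D u) = D (N u) - N u)
    (u : E) : (⟪T (D u), T (N (N u))⟫_ℂ).re = ‖T (N u)‖ ^ 2 := by
  have h := congrArg Complex.re (hN (D u) (N u))
  have h2 := virial_re hD (N u)
  rw [← inner_conj_symm, Complex.conj_re] at h2
  rw [hc, map_sub, inner_sub_left, inner_self_eq_norm_sq_to_K] at h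
  have h3 : (((‖T (N u)‖ : ℝ) : ℂ) ^ 2).re = ‖T (N u)‖ ^ 2 := by
    rw [← Complex.ofReal_pow, Complex.ofReal_re]
  simp only [Complex.add_re, Complex.sub_re, Complex.zero_re, Complex.coe_algebraMap, h3] at h
  linarith

lemma virial_core {T : E →ₗ[ℂ] H} {D N M : Module.End ℂ E}
    (hD : ∀ u v, ⟪T (D u), T v⟫_ℂ + ⟪T u, T (D v)⟫_ℂ = 0)
    (hN : ∀ u v, ⟪T (N u), T v⟫_ℂ + ⟪T u, T (N v)⟫_ℂ = 0)
    (hM : ∀ u v, ⟪T (M u), T v⟫_ℂ + ⟪T u, T (M v)⟫_ℂ = 0)
    (cN : ∀ u, N (D u) = D (N u) - N u) (cM : ∀ u, M (D u) = D (M u) - M u) {l k b : ℝ} {f : E}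
    (he : ((k : ℂ) + 2 * b * Complex.I) • f =
      D (D f) - (2 * l : ℂ) • D f + N (N f) + M (M f)) (hn : l ^ 2 * k + b ^ 2 = 0) :
    T (N f) = 0 ∧ T (M f) = 0 := by
  have key : ‖T (N f)‖ ^ 2 + ‖T (M f)‖ ^ 2 ≤ 0 := by
    have e0 := virial_re hD f
    by_cases hl : l = 0
    · obtain rfl : b = 0 := by
        rw [hl] at hn
        exact pow_eq_zero_iff two_ne_zero |>.1 (by linarith)
      subst hl
      have e := congrArg (fun v => (⟪T (D f), T v⟫_ℂ).re) he
      rw [← inner_conj_symm, Complex.conj_re] at e0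
      simp only [map_add, map_sub, map_smul, inner_add_right, inner_sub_right, inner_smul_right,
        Complex.add_re, Complex.sub_re, virial_re hD, virial_mix hD hN cN, virial_mix hD hM cM,
        Complex.ofReal_zero, mul_zero, zero_mul, add_zero, Complex.re_ofReal_mul, e0,
        Complex.zero_re] at e
      linarith
    · have e := congrArg (fun v => ⟪T f, T v⟫_ℂ) he
      simp only [map_add, map_sub, map_smul, inner_add_right, inner_sub_right, inner_smul_right,
        virial_sq hD, virial_sq hN, virial_sq hM] at e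
      have e' : ⟪T f, T f⟫_ℂ = ((‖T f‖ ^ 2 : ℝ) : ℂ) := by
        rw [inner_self_eq_norm_sq_to_K]
        push_cast
        rfl
      rw [e'] at e
      have cs := norm_inner_le_norm (𝕜 := ℂ) (T f) (T (D f))
      have cs2 : (⟪T f, T (D f)⟫_ℂ).im ^ 2 ≤ ‖T f‖ ^ 2 * ‖T (D f)‖ ^ 2 := by
        rw [← mul_pow, ← sq_abs]
        exact pow_le_pow_left₀ (abs_nonneg _) ((Complex.abs_im_le_norm _).trans cs) 2
      have f0 := sq_nonneg ‖T f‖
      have p0 := sq_nonneg ‖T (D f)‖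
      generalize ‖T f‖ ^ 2 = F at e cs2 f0
      generalize ‖T (D f)‖ ^ 2 = P at e cs2 p0
      generalize ‖T (N f)‖ ^ 2 = n at e ⊢
      generalize ‖T (M f)‖ ^ 2 = m at e ⊢
      generalize ⟪T f, T (D f)⟫_ℂ = t at e e0 cs2
      have e1 := congrArg Complex.re e
      have e2 := congrArg Complex.im e
      simp [e0] at e1 e2
      have l0 : 0 < l ^ 2 := by positivity
      rcases f0.eq_or_lt with rfl | f1
      · linarith
      · have e3 : b * F = -(l * t.im) := by linarith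
        have e4 : l ^ 2 * (F * (n + m)) ≤ l ^ 2 * 0 := by
          have e5 : (b * F) ^ 2 = l ^ 2 * t.im ^ 2 := by rw [e3]; ring
          have e6 : n + m = -(k * F) - P := by linarith
          have e7 : l ^ 2 * k = -b ^ 2 := by linarith
          have e8 := mul_le_mul_of_nonneg_left cs2 l0.le
          calc l ^ 2 * (F * (n + m)) = -(l ^ 2 * k) * F ^ 2 - l ^ 2 * (F * P) := by rw [e6]; ring
            _ = (b * F) ^ 2 - l ^ 2 * (F * P) := by rw [e7]; ring
            _ ≤ _ := by linarith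
        have e9 := le_of_mul_le_mul_left e4 l0
        exact le_of_mul_le_mul_left (a := F) (by linarith) f1
  have a1 := sq_nonneg ‖T (N f)‖
  have a2 := sq_nonneg ‖T (M f)‖
  exact ⟨norm_eq_zero.1 (pow_eq_zero_iff two_ne_zero |>.1 (by linarith)),
    norm_eq_zero.1 (pow_eq_zero_iff two_ne_zero |>.1 (by linarith))⟩

theorem virial (h : Sk d) (hR : Res d R) {l a b : ℝ} {f : E} (hf : Ext d l f)
    (h1 : cas1 d f = (a : ℂ) • f) (h2 : cas2 d f = (2 * b : ℂ) • f)
    (hn : l ^ 2 * (a + 1 - l ^ 2) + b ^ 2 = 0) : f = 0 := by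
  obtain ⟨⟨-, r20, r21⟩, ⟨r30, r40, -⟩, ⟨r31, r41, -⟩, ⟨r32, r42, r52⟩, r43, -, -⟩ := h.rel.rels
  have s20 := LinearMap.congr_fun r20
  have s21 := LinearMap.congr_fun r21
  have s30 := LinearMap.congr_fun r30
  have s40 := LinearMap.congr_fun r40
  have s31 := LinearMap.congr_fun r31
  have s41 := LinearMap.congr_fun r41
  have s32 := LinearMap.congr_fun r32
  have s42 := LinearMap.congr_fun r42
  have s52 := LinearMap.congr_fun r52
  have s43 := LinearMap.congr_fun r43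
  simp only [Module.End.mul_apply, LinearMap.add_apply, LinearMap.sub_apply] at s20 s21 s30 s40 s31
  simp only [Module.End.mul_apply, LinearMap.add_apply, LinearMap.sub_apply] at s41 s32 s42 s52 s43
  obtain ⟨f3, f5⟩ := hf
  have g5 : d 5 f = (Complex.I * l) • f := by
    have := congrArg (fun v => (-Complex.I) • v) f5
    simp only [smul_smul, neg_mul, Complex.I_mul_I, neg_neg, one_smul, mul_neg] at this
    exact this
  have ii := Complex.I_mul_I
  have k0 : d 0 (d 3 f) = Complex.I • d 0 (d 4 f) := by rw [f3, map_smul]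
  have k1 : d 1 (d 3 f) = Complex.I • d 1 (d 4 f) := by rw [f3, map_smul]
  have k3 : d 3 (d 3 f) = Complex.I • d 3 (d 4 f) := by conv_lhs => rw [f3, map_smul]
  have k4 : d 4 (d 3 f) = Complex.I • d 4 (d 4 f) := by rw [f3, map_smul]
  have k2 : d 2 (d 5 f) = (Complex.I * l) • d 2 f := by rw [g5, map_smul]
  have k5 : d 5 (d 5 f) = (Complex.I * l) • (Complex.I * l) • f := by
    conv_lhs => rw [g5, map_smul, g5]
  have k6 : d 3 (d 4 f) = Complex.I • d 4 (d 4 f) + (Complex.I * l) • f := by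
    rw [← k4, ← g5, s43, sub_add_cancel]
  have he : (((a + 1 - l ^ 2 : ℝ) : ℂ) + 2 * b * Complex.I) • f =
      (d 2 - 1) ((d 2 - 1) f) - (2 * l : ℂ) • (d 2 - 1) f + (d 0 - d 4) ((d 0 - d 4) f) +
        (d 1 + d 3) ((d 1 + d 3) f) := by
    simp only [cas1, cas2, Module.End.mul_apply, LinearMap.add_apply, LinearMap.sub_apply,
      s30, s41, s52, k0, k2, k3, k5, k6] at h1 h2
    simp only [LinearMap.add_apply, LinearMap.sub_apply, Module.End.one_apply, map_add, map_sub,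
      s40, s31, k1, k3, k6]
    push_cast
    linear_combination (norm := module) -h1 - Complex.I • h2 +
      ii • ((2 : ℂ) • d 0 (d 4 f) + (2 * l : ℂ) • d 2 f - (2 : ℂ) • d 4 (d 4 f) -
        (2 * l + l ^ 2 : ℂ) • f)
  have hc : ∀ x, R x ((d 0 - d 4) f) = 0 ∧ R x ((d 1 + d 3) f) = 0 := fun x =>
    virial_core (D := d 2 - 1) (fun u v => by
        simp only [LinearMap.sub_apply, Module.End.one_apply, map_sub, inner_sub_left,
          inner_sub_right]
        linear_combination hR.a x u v) (hR.n1 x) (hR.n2 x)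
      (fun u => by
        simp only [LinearMap.sub_apply, Module.End.one_apply, map_sub, s20, s42]
        abel)
      (fun u => by
        simp only [LinearMap.add_apply, LinearMap.sub_apply, Module.End.one_apply, map_sub, map_add,
          s21, s32]
        abel) he hn
  have n1 : d 0 f = d 4 f := sub_eq_zero.1 (hR.sep _ fun x => (hc x).1)
  have g2 : d 2 f = (l : ℂ) • f := by
    have a1 := s30 f
    have a2 := s40 f
    rw [n1] at a1 a2
    rw [k0, k6] at a1
    linear_combination (norm := module) a2 + Complex.I • a1 +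
      ii • (d 0 (d 4 f) - d 4 (d 4 f) - (l : ℂ) • f)
  have a3 := h.skew 2 f f
  rw [g2, inner_smul_left, inner_smul_right, Complex.conj_ofReal] at a3
  have a4 : (l : ℂ) * ⟪f, f⟫_ℂ = 0 := by linear_combination a3 / 2
  rcases mul_eq_zero.1 a4 with a5 | a5
  · refine hR.sep f fun x => inner_self_eq_zero (𝕜 := ℂ) |>.1 ?_
    have a6 := hR.a x f f
    rw [g2, a5, zero_smul, map_zero, inner_zero_left, inner_zero_right] at a6
    linear_combination -a6 / 2
  · exact inner_self_eq_zero.1 a5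

end Pool.Agent.Lib.MP_99bfa4_al.IR
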