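import Pool.Agent.Lib.MP_99bfa4_al.IR.ConvP
import Pool.Agent.Lib.MP_99bfa4_al.IR.Virial

/-! Restriction of smoothed vectors to the cosets of AN. -/

open Matrix MeasureTheory Filter
open scoped ContDiff Topology InnerProductSpace ComplexConjugate

namespace Pool.Agent.Lib.MP_99bfa4_al.IR

universe u

variable {V : Type u} [NormedAddCommGroup V] [InnerProductSpace ℂ V] [CompleteSpace V]
  {π : G →* (V ≃ₗᵢ[ℂ] V)}

/-- Right translations on smoothed vectors. -/
noncomputable def restrAct (hπ : ∀ v, Continuous fun g => π g v) (c : X) : Module.End ℂ (Sm π) :=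
  (π (rt c)).toLinearEquiv.toLinearMap.restrict (Sm_act hπ (rt c))

/-- The smoothing map with values in the smoothed vectors. -/
noncomputable def restrP (hπ : ∀ v, Continuous fun g => π g v) (v : V) : Test →ₗ[ℂ] Sm π :=
  (PL hπ v).codRestrict (Sm π) (P_mem v)

lemma restr_act_one (hπ : ∀ v, Continuous fun g => π g v) (u : Sm π) : restrAct hπ 1 u = u :=
  Subtype.ext (by
    change π (rt 1) u.val = u.val
    rw [map_one, map_one]
    rfl)

section abstract

variable {H : Type} [NormedAddCommGroup H] [InnerProductSpace ℂ H]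
  {d : Fin 6 → Module.End ℂ (Sm π)}

lemma restr_der (hπ : ∀ v, Continuous fun g => π g v) (h : DRep π d) (R : Sm π →ₗ[ℂ] H)
    (hR : ∀ v, Bdd (R ∘ₗ restrP hπ v)) {c : ℝ → X} {Y : M4} (hc : Crv c Y) (u : Sm π) :
    HasDerivAt (fun t => R (restrAct hπ (c t) u)) (R (lin d Y u)) 0 := by
  obtain ⟨u, hu⟩ := u
  induction hu using Submodule.span_induction with
  | mem w hw =>
    obtain ⟨v, k, rfl⟩ := hw
    have h1 := deriv_of_bound (hR v) hc k
    have e1 : ∀ t, restrP hπ v (tauT (rt (c t)) k) = restrAct hπ (c t) ⟨P π v k, P_mem v k⟩ :=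
      fun t => Subtype.ext (P_rt hπ v k (c t)).symm
    have e2 : restrP hπ v (fldT Y k) = lin d Y ⟨P π v k, P_mem v k⟩ :=
      Subtype.ext (h.gen Y hc.so v k).symm
    simpa only [LinearMap.comp_apply, e1, e2] using h1
  | zero =>
    change HasDerivAt (fun t => R (restrAct hπ (c t) 0)) (R (lin d Y 0)) 0
    simp only [map_zero]
    exact hasDerivAt_const _ _
  | add a b ha hb iha ihb =>
    change HasDerivAt (fun t => R (restrAct hπ (c t) (⟨a, ha⟩ + ⟨b, hb⟩)))
      (R (lin d Y (⟨a, ha⟩ + ⟨b, hb⟩))) 0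
    simp only [map_add]
    exact iha.add ihb
  | smul z a ha iha =>
    change HasDerivAt (fun t => R (restrAct hπ (c t) (z • ⟨a, ha⟩))) (R (lin d Y (z • ⟨a, ha⟩))) 0
    simp only [map_smul]
    exact iha.const_smul z

lemma restr_inner (hπ : ∀ v, Continuous fun g => π g v) (h : DRep π d) (R : Sm π →ₗ[ℂ] H)
    (hR : ∀ v, Bdd (R ∘ₗ restrP hπ v)) {c : ℝ → X} {Y : M4} (hc : Crv c Y) {φ : ℝ → ℂ} {φ' : ℂ}
    (hφ : HasDerivAt φ φ' 0) (u v : Sm π)
    (e : ∀ t, ⟪R (restrAct hπ (c t) u), R (restrAct hπ (c t) v)⟫_ℂ = φ t * ⟪R u, R v⟫_ℂ) :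
    ⟪R (lin d Y u), R v⟫_ℂ + ⟪R u, R (lin d Y v)⟫_ℂ = φ' * ⟪R u, R v⟫_ℂ := by
  have h1 := (restr_der hπ h R hR hc u).inner ℂ (restr_der hπ h R hR hc v)
  simp only [e, hc.zero, restr_act_one] at h1
  rw [add_comm]
  exact h1.unique (hφ.mul_const _)

end abstract

lemma restr_bdd (h : Test) : ∃ ρ ε : ℝ, (∀ x, ρ < hx x → h.val.val x = 0) ∧
    ∀ x, ‖h.val.val x‖ ≤ ε := by
  obtain ⟨ρ, H⟩ := h.2
  obtain ⟨C, hC⟩ := (isCompact_ball ρ).exists_bound_of_continuousOn
    (Smooth.continuous h.val).continuousOn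
  refine ⟨ρ, max C 0, H, fun x => ?_⟩
  by_cases k : ρ < hx x
  · rw [H x k, norm_zero]
    exact le_max_right _ _
  · exact (hC x (not_lt.1 k)).trans (le_max_left _ _)

/-- A continuous representative with square integrable restrictions. -/
structure RestrRep (T : V →L[ℂ] Lp ℂ 2 mu) (u : V) (f : X → ℂ) : Prop where
  cont : Continuous f
  ae : (T u : X → ℂ) =ᵐ[mu] f
  mem : ∀ x, MemLp (fun p => f (x * bb p)) 2 wt

lemma restr_cont {f : X → ℂ} (hf : Continuous f) (x : X) : Continuous fun p => f (x * bb p) :=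
  hf.comp (continuous_const.mul continuous_bb)

lemma restr_exists (hπ : ∀ v, Continuous fun g => π g v) (T : V →L[ℂ] Lp ℂ 2 mu)
    (hT : ∀ g v, (T (π g v) : X → ℂ) =ᵐ[mu] fun y => T v (g⁻¹ • y)) (u : Sm π) :
    ∃ f, RestrRep T u.val f := by
  obtain ⟨u, hu⟩ := u
  induction hu using Submodule.span_induction with
  | mem w hw =>
    obtain ⟨v, k, rfl⟩ := hw
    have hc := conv_continuous (Lp.memLp (T v)) k
    obtain ⟨ρ, ε, h1, h2⟩ := restr_bdd k
    obtain ⟨C, hC⟩ := conv_bound (Lp.memLp (T v)) ρ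
    exact ⟨_, hc, conv_P hπ T hT v k, fun x => ⟨(restr_cont hc x).aestronglyMeasurable,
      (hC k ε h1 h2 x).trans_lt ENNReal.ofReal_lt_top⟩⟩
  | zero =>
    refine ⟨0, continuous_const, ?_, fun _ => MemLp.zero⟩
    change (T 0 : X → ℂ) =ᵐ[mu] 0
    rw [map_zero]
    exact Lp.coeFn_zero _ _ _
  | add a b _ _ iha ihb =>
    obtain ⟨f, hf⟩ := iha
    obtain ⟨g, hg⟩ := ihb
    refine ⟨f + g, hf.cont.add hg.cont, ?_, fun x => (hf.mem x).add (hg.mem x)⟩
    change (T (a + b) : X → ℂ) =ᵐ[mu] f + g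
    rw [map_add]
    exact (Lp.coeFn_add _ _).trans (hf.ae.add hg.ae)
  | smul z a _ iha =>
    obtain ⟨f, hf⟩ := iha
    refine ⟨z • f, hf.cont.const_smul z, ?_, fun x => (hf.mem x).const_smul z⟩
    change (T (z • a) : X → ℂ) =ᵐ[mu] z • f
    rw [map_smul]
    exact (Lp.coeFn_smul _ _).trans (hf.ae.const_smul z)

omit [CompleteSpace V] in
lemma RestrRep.eq {T : V →L[ℂ] Lp ℂ 2 mu} {u : V} {f g : X → ℂ} (hf : RestrRep T u f)
    (hg : Continuous g) (e : (T u : X → ℂ) =ᵐ[mu] g) : f = g :=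
  (hf.cont.ae_eq_iff_eq mu hg).1 (hf.ae.symm.trans e)

lemma restr_toLp {f g : ℝ × ℝ × ℝ → ℂ} (hf : MemLp f 2 wt) (hg : MemLp g 2 wt) :
    ⟪hf.toLp f, hg.toLp g⟫_ℂ = ∫ p, ⟪f p, g p⟫_ℂ ∂wt := by
  rw [L2.inner_def]
  refine integral_congr_ae ?_
  filter_upwards [hf.coeFn_toLp, hg.coeFn_toLp] with p h1 h2
  rw [h1, h2]

lemma restr_bb_nil (p : ℝ × ℝ × ℝ) (a b : ℝ) : bb p * nil a b =
    bb (p.1 + Real.exp p.2.2 * a, p.2.1 + Real.exp p.2.2 * b, p.2.2) := by
  have := bb_mul p (a, b, 0)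
  rwa [bb.eq_1 (a, b, 0), one_zero, mul_one, add_zero] at this

lemma restr_bb_one (p : ℝ × ℝ × ℝ) (r : ℝ) : bb p * one 2 r = bb (p.1, p.2.1, p.2.2 + r) := by
  have := bb_mul p (0, 0, r)
  rwa [bb.eq_1 (0, 0, r), nil_zero, one_mul, mul_zero, add_zero, add_zero] at this

theorem exists_res (hπ : ∀ v, Continuous fun g => π g v) (T : V →L[ℂ] Lp ℂ 2 mu)
    (hT : ∀ g v, (T (π g v) : X → ℂ) =ᵐ[mu] fun y => T v (g⁻¹ • y))
    (hinj : ∀ v, T v = 0 → v = 0) {d : Fin 6 → Module.End ℂ (Sm π)} (h : DRep π d) :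
    ∃ R : X → Sm π →ₗ[ℂ] Lp ℂ 2 wt, Res d R := by
  choose rep hr using restr_exists hπ T hT
  have radd : ∀ u v, rep (u + v) = rep u + rep v := fun u v =>
    (hr (u + v)).eq ((hr u).cont.add (hr v).cont) (by
      rw [Submodule.coe_add, map_add]
      exact (Lp.coeFn_add _ _).trans ((hr u).ae.add (hr v).ae))
  have rsmul : ∀ (z : ℂ) u, rep (z • u) = z • rep u := fun z u =>
    (hr (z • u)).eq ((hr u).cont.const_smul z) (by
      rw [Submodule.coe_smul, map_smul]
      exact (Lp.coeFn_smul _ _).trans ((hr u).ae.const_smul z))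
  have ract : ∀ c u, rep (restrAct hπ c u) = fun y => rep u (y * c) := fun c u =>
    (hr _).eq ((hr u).cont.comp (continuous_id.mul continuous_const)) (by
      refine (hT (rt c) u.val).trans ?_
      have := (measurePreserving_smul (rt c)⁻¹ mu).quasiMeasurePreserving.ae_eq_comp (hr u).ae
      filter_upwards [this] with y hy
      refine Eq.trans hy ?_
      change rep u ((rt c)⁻¹ • y) = _
      rw [← map_inv, rt_smul, inv_inv])
  have rP : ∀ v k, rep (restrP hπ v k) = conv (T v) k := fun v k =>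
    (hr _).eq (conv_continuous (Lp.memLp (T v)) k) (conv_P hπ T hT v k)
  let R : X → Sm π →ₗ[ℂ] Lp ℂ 2 wt := fun x =>
    { toFun := fun u => ((hr u).mem x).toLp _
      map_add' := fun u v => by
        rw [← MemLp.toLp_add]
        exact MemLp.toLp_congr _ _ (Eventually.of_forall fun p => by rw [radd]; rfl)
      map_smul' := fun z u => by
        rw [RingHom.id_apply, ← MemLp.toLp_const_smul]
        exact MemLp.toLp_congr _ _ (Eventually.of_forall fun p => by rw [rsmul]; rfl) }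
  have hR : ∀ x v, Bdd (R x ∘ₗ restrP hπ v) := fun x v ρ => by
    obtain ⟨C, hC⟩ := conv_bound (Lp.memLp (T v)) ρ
    refine ⟨max C 0, fun k ε h1 h2 => ?_⟩
    have h3 : 0 ≤ ε := (norm_nonneg _).trans (h2 1)
    change ‖((hr (restrP hπ v k)).mem x).toLp _‖ ≤ _
    rw [Lp.norm_toLp, rP]
    exact ENNReal.toReal_le_of_le_ofReal (mul_nonneg (le_max_right _ _) h3)
      ((hC k ε h1 h2 x).trans (ENNReal.ofReal_le_ofReal
        (mul_le_mul_of_nonneg_right (le_max_left _ _) h3)))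
  have hin : ∀ x u v, ⟪R x u, R x v⟫_ℂ = ∫ p, ⟪rep u (x * bb p), rep v (x * bb p)⟫_ℂ ∂wt :=
    fun x u v => restr_toLp ((hr u).mem x) ((hr v).mem x)
  have key : ∀ (x c : X) (S : ℝ × ℝ × ℝ → ℝ × ℝ × ℝ) (ν : Measure (ℝ × ℝ × ℝ)),
      MeasurePreserving S wt ν → (∀ p, bb p * c = bb (S p)) → ∀ u v,
      ⟪R x (restrAct hπ c u), R x (restrAct hπ c v)⟫_ℂ =
        ∫ p, ⟪rep u (x * bb p), rep v (x * bb p)⟫_ℂ ∂ν := fun x c S ν hS e u v => by
    rw [hin, ← hS.map_eq, integral_map hS.measurable.aemeasurable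
      ((restr_cont (hr u).cont x).inner (restr_cont (hr v).cont x)).aestronglyMeasurable]
    simp only [ract, mul_assoc, e]
  have knil : ∀ x a b u v, ⟪R x (restrAct hπ (nil a b) u), R x (restrAct hπ (nil a b) v)⟫_ℂ =
      1 * ⟪R x u, R x v⟫_ℂ := fun x a b u v => by
    rw [key x _ _ _ (wt_nil a b) (fun p => restr_bb_nil p a b), one_mul, hin]
  refine ⟨R, fun x u v => ?_, fun x u v => ?_, fun x u v => ?_, fun u hu => ?_⟩
  · have := restr_inner hπ h (R x) (hR x) crv_nil1 (hasDerivAt_const _ 1) u v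
      fun t => knil x t 0 u v
    rwa [lin_sub, lin_bas, lin_bas, zero_mul] at this
  · have := restr_inner hπ h (R x) (hR x) crv_nil2 (hasDerivAt_const _ 1) u v
      fun t => knil x 0 t u v
    rwa [lin_add, lin_bas, lin_bas, zero_mul] at this
  · have h1 : HasDerivAt (fun t : ℝ => (Real.exp (2 * t) : ℂ)) 2 0 := by
      simpa using (((hasDerivAt_id' (0 : ℝ)).const_mul 2).exp).ofReal_comp
    have := restr_inner hπ h (R x) (hR x) (crv_one 2) h1 u v fun t => by
      rw [key x _ _ _ (wt_boost t) (fun p => restr_bb_one p t), integral_smul_measure,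
        ENNReal.toReal_ofReal (Real.exp_pos _).le, hin, Complex.real_smul]
    rwa [lin_bas] at this
  · have := wt_pos
    have h1 : rep u = 0 := funext fun x => by
      have h2 : (fun p => rep u (x * bb p)) =ᵐ[wt] 0 :=
        ((hr u).mem x).coeFn_toLp.symm.trans (Lp.eq_zero_iff_ae_eq_zero.1 (hu x))
      have h3 := congrFun (((restr_cont (hr u).cont x).ae_eq_iff_eq wt continuous_const).1 h2)
        (0, 0, 0)
      rwa [bb, nil_zero, one_zero, mul_one, mul_one] at h3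
    exact Subtype.ext (hinj _ (Lp.eq_zero_iff_ae_eq_zero.2 (h1 ▸ (hr u).ae)))

end Pool.Agent.Lib.MP_99bfa4_al.IR
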