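import Pool.Agent.Lib.MP_99bfa4_al.IR.Near
import Pool.Agent.Lib.MP_99bfa4_al.IR.Gens

/-! Local rigidity of the first coordinate. -/

open Matrix MeasureTheory Filter
open scoped ContDiff Topology InnerProductSpace ComplexConjugate

namespace Pool.Agent.Lib.MP_99bfa4_al.IR

variable {e : Fin 6 → V4}

/-- The matrix with given columns. -/
def rig1_col (f : Fin 4 → V4) : M4 := Matrix.of fun i j => f j i

lemma rig1_col_single (f : Fin 4 → V4) (i : Fin 4) : rig1_col f *ᵥ Pi.single i 1 = f i := by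
  ext k
  simp [rig1_col]

lemma rig1_gram (f : Fin 4 → V4) (i j : Fin 4) :
    ((rig1_col f)ᵀ * eta * rig1_col f) i j = B (f i) (f j) := by
  rw [mul_apply, Fin.sum_univ_four]
  simp [rig1_col, eta, mul_diagonal, B]
  ring

lemma rig1_B (N : M4) (x y : V4) : B (N *ᵥ x) (N *ᵥ y) = x ⬝ᵥ ((Nᵀ * eta * N) *ᵥ y) := by
  rw [← mulVec_mulVec, ← mulVec_mulVec, dotProduct_mulVec, vecMul_transpose]
  simp [B, eta, dotProduct, mulVec_diagonal, Fin.sum_univ_four]
  ring

lemma rig1_det {f : Fin 4 → V4}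
    (h : ∀ c : V4, (∀ j, c 0 * B (f 0) (f j) + c 1 * B (f 1) (f j) + c 2 * B (f 2) (f j) +
      c 3 * B (f 3) (f j) = 0) → c = 0) : (rig1_col f).det ≠ 0 := by
  intro h0
  obtain ⟨c, hc, k⟩ := Matrix.exists_mulVec_eq_zero_iff.2 h0
  refine hc (h c fun j => ?_)
  have e : rig1_col f *ᵥ c = c 0 • f 0 + c 1 • f 1 + c 2 • f 2 + c 3 • f 3 := by
    ext i
    simp [rig1_col, mulVec, dotProduct, Fin.sum_univ_four, mul_comm]
  have := congrArg (fun x => B x (f j)) (e.symm.trans k)
  simpa using this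

lemma rig1_orth {f : Fin 4 → V4} (hd : (rig1_col f).det ≠ 0) {x : V4}
    (hx : ∀ i, B (f i) x = 0) : x = 0 := by
  have k := congrArg det eta_sq
  rw [det_mul, det_one] at k
  have h1 : ((rig1_col f)ᵀ * eta).det ≠ 0 := by
    rw [det_mul, det_transpose]
    exact mul_ne_zero hd (left_ne_zero_of_mul_eq_one k)
  refine Matrix.eq_zero_of_mulVec_eq_zero h1 (funext fun i => ?_)
  rw [← mulVec_mulVec, Pi.zero_apply, ← hx i]
  simp [rig1_col, mulVec, dotProduct, eta, B, Fin.sum_univ_four, diagonal_apply]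
  ring

lemma rig1_g2 (h : Gram e) (i j : Fin 6) (k : CM i j = 2) : B (e i) (e j) = 0 := by
  rw [h.gram i j (by omega), k]
  norm_num [gm]

lemma rig1_g3 (h : Gram e) (i j : Fin 6) (k : CM i j = 3) : B (e i) (e j) = 1 / 2 := by
  rw [h.gram i j (by omega), k]
  norm_num [gm]

lemma rig1_g4 (h : Gram e) (i j : Fin 6) (k : CM i j = 4) : B (e i) (e j) = √2 / 2 := by
  rw [h.gram i j (by omega), k]
  norm_num [gm]

lemma rig1_sqrt : (1 : ℝ) < √2 := by
  rw [Real.lt_sqrt (by norm_num)]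
  norm_num

lemma rig1_detA (h : Gram e) :
    (rig1_col fun i : Fin 4 => e (i.castLE (by norm_num))).det ≠ 0 := by
  refine rig1_det fun c hc => ?_
  have h0 : c 0 * B (e 0) (e 0) + c 1 * B (e 1) (e 0) + c 2 * B (e 2) (e 0) +
    c 3 * B (e 3) (e 0) = 0 := hc 0
  have h1 : c 0 * B (e 0) (e 1) + c 1 * B (e 1) (e 1) + c 2 * B (e 2) (e 1) +
    c 3 * B (e 3) (e 1) = 0 := hc 1
  have h2 : c 0 * B (e 0) (e 2) + c 1 * B (e 1) (e 2) + c 2 * B (e 2) (e 2) +
    c 3 * B (e 3) (e 2) = 0 := hc 2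
  have h3 : c 0 * B (e 0) (e 3) + c 1 * B (e 1) (e 3) + c 2 * B (e 2) (e 3) +
    c 3 * B (e 3) (e 3) = 0 := hc 3
  rw [h.unit, rig1_g4 h 1 0 rfl, rig1_g3 h 2 0 rfl, rig1_g3 h 3 0 rfl] at h0
  rw [h.unit, rig1_g4 h 0 1 rfl, rig1_g3 h 2 1 rfl, rig1_g3 h 3 1 rfl] at h1
  rw [h.unit, rig1_g3 h 0 2 rfl, rig1_g3 h 1 2 rfl, rig1_g2 h 3 2 rfl] at h2
  rw [h.unit, rig1_g3 h 0 3 rfl, rig1_g3 h 1 3 rfl, rig1_g2 h 2 3 rfl] at h3
  have r := rig1_sqrt
  have a1 : c 1 = c 0 := by
    have : (1 + √2 / 2) * (c 1 - c 0) = 0 := by linear_combination h0 - h1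
    linarith [(mul_eq_zero.1 this).resolve_left (by linarith)]
  have a0 : c 0 = 0 := by
    have : √2 / 2 * c 0 = 0 := by
      rw [a1] at h0 h2 h3
      linear_combination h0 + (1 / 2) * h2 + (1 / 2) * h3
    exact (mul_eq_zero.1 this).resolve_left (by linarith)
  have a2 : c 2 = 0 := by linarith
  have a3 : c 3 = 0 := by linarith
  ext i
  fin_cases i
  exacts [a0, a1.trans a0, a2, a3]

lemma rig1_detB (h : Gram e) (a b : Fin 6) (k0 : CM 0 a = 3) (k1 : CM 1 a = 3) (l0 : CM 0 b = 2)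
    (l1 : CM 1 b = 2) (l2 : CM a b = 2) : (rig1_col ![e 0, e 1, e a, e b]).det ≠ 0 := by
  refine rig1_det fun c hc => ?_
  have h0 : c 0 * B (e 0) (e 0) + c 1 * B (e 1) (e 0) + c 2 * B (e a) (e 0) +
    c 3 * B (e b) (e 0) = 0 := hc 0
  have h1 : c 0 * B (e 0) (e 1) + c 1 * B (e 1) (e 1) + c 2 * B (e a) (e 1) +
    c 3 * B (e b) (e 1) = 0 := hc 1
  have h2 : c 0 * B (e 0) (e a) + c 1 * B (e 1) (e a) + c 2 * B (e a) (e a) +
    c 3 * B (e b) (e a) = 0 := hc 2
  have h3 : c 0 * B (e 0) (e b) + c 1 * B (e 1) (e b) + c 2 * B (e a) (e b) +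
    c 3 * B (e b) (e b) = 0 := hc 3
  rw [h.unit, rig1_g4 h 1 0 rfl, B_comm (e a), B_comm (e b), rig1_g3 h 0 a k0,
    rig1_g2 h 0 b l0] at h0
  rw [h.unit, rig1_g4 h 0 1 rfl, B_comm (e a), B_comm (e b), rig1_g3 h 1 a k1,
    rig1_g2 h 1 b l1] at h1
  rw [h.unit, B_comm (e b), rig1_g3 h 0 a k0, rig1_g3 h 1 a k1, rig1_g2 h a b l2] at h2
  rw [h.unit, rig1_g2 h 0 b l0, rig1_g2 h 1 b l1, rig1_g2 h a b l2] at h3
  have r := rig1_sqrt
  have a1 : c 1 = c 0 := by
    have : (1 + √2 / 2) * (c 1 - c 0) = 0 := by linear_combination h0 - h1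
    linarith [(mul_eq_zero.1 this).resolve_left (by linarith)]
  have a0 : c 0 = 0 := by
    have : (√2 / 2 - 1 / 2) * c 0 = 0 := by
      rw [a1] at h0 h2
      linear_combination h0 + (1 / 2) * h2
    exact (mul_eq_zero.1 this).resolve_left (by linarith)
  have a2 : c 2 = 0 := by linarith
  have a3 : c 3 = 0 := by linarith
  ext i
  fin_cases i
  exacts [a0, a1.trans a0, a2, a3]

/-- A vector orthogonal to three of the vectors is a multiple of the fourth one. -/
lemma rig1_mult (h : Gram e) (a b : Fin 6) (k0 : CM 0 a = 3) (k1 : CM 1 a = 3) (l0 : CM 0 b = 2)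
    (l1 : CM 1 b = 2) (l2 : CM a b = 2) {x : V4} (x0 : B (e 0) x = 0) (x1 : B (e 1) x = 0)
    (x2 : B (e a) x = 0) : x = (-B (e b) x) • e b := by
  have : x - (-B (e b) x) • e b = 0 := by
    refine rig1_orth (rig1_detB h a b k0 k1 l0 l1 l2) fun i => ?_
    fin_cases i
    · simp [x0, rig1_g2 h 0 b l0]
    · simp [x1, rig1_g2 h 1 b l1]
    · simp [x2, rig1_g2 h a b l2]
    · simp [h.unit]
  exact sub_eq_zero.1 this

lemma rig1_fix {f : Fin 4 → V4} (hd : (rig1_col f).det ≠ 0) {k : L}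
    (hk : ∀ i, app k (f i) = f i) : k = 1 := L_ext fun x => by
  refine (sub_eq_zero.1 (rig1_orth hd fun i => ?_)).trans (app_one x).symm
  rw [B_sub_right, ← B_app k (f i) x, hk, sub_self]

lemma rig1_conj {a : L} {u v : V4} (hu : B u u = -1) (hv : B v v = -1) {s : ℝ} (hs : s * s = 1)
    (h : app a u = s • v) : a * refl u hu * a⁻¹ = refl v hv := L_ext fun x => by
  have k : B (app a⁻¹ x) u = s * B x v := by rw [← B_app a, app_app_inv, h, B_smul_right]
  rw [app_mul, app_mul, app_refl hu, app_refl hv, app_add, app_smul, app_app_inv, h, k, smul_smul]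
  congr 2
  linear_combination (2 * B x v) * hs

lemma rig1_eq {u v : V4} (hu : B u u = -1) (hv : B v v = -1) (h : refl u hu = refl v hv)
    (hn : B u v < 0) : u = v := by
  have k := congrArg (fun g => app g u) h
  simp only [app_refl hu, app_refl hv, hu] at k
  have k1 : u = (-B u v) • v := by
    linear_combination (norm := module) (-1 / 2 : ℝ) • k
  have k2 : B u v * B u v = 1 := by
    have := hu
    rw [k1, B_smul_left, B_smul_right, hv] at this
    linarith
  have k3 : B u v = -1 := (mul_self_eq_one_iff.1 k2).resolve_left (by linarith)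
  rw [k1, k3, neg_neg, one_smul]

lemma rig1_app_fix {u x : V4} (hu : B u u = -1) (h : B x u = 0) : app (refl u hu) x = x := by
  rw [app_refl, h, mul_zero, zero_smul, add_zero]

lemma rig1_g_fix (h : Gram e) (i : Fin 6) (k4 : CM i 4 = 2) (k5 : CM i 5 = 2) :
    app (refl (e 4) (h.unit 4) * refl (e 5) (h.unit 5)) (e i) = e i := by
  rw [app_mul, rig1_app_fix _ (rig1_g2 h i 5 k5), rig1_app_fix _ (rig1_g2 h i 4 k4)]

lemma rig1_g_three (h : Gram e) : app (refl (e 4) (h.unit 4) * refl (e 5) (h.unit 5)) (e 3) =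
    e 3 + (2 * B (e 3) (e 4)) • e 4 := by
  rw [app_mul, rig1_app_fix _ (rig1_g2 h 3 5 rfl), app_refl]

lemma rig1_last (h : Gram e) {q : L} (h0 : app q (e 0) = e 0) (h1 : app q (e 1) = e 1)
    (h2 : B (e 2) (app q (e 3)) = 0) (h3 : -1 < B (app q (e 3)) (e 3)) (hd : dt q = 1) :
    q = refl (e 4) (h.unit 4) * refl (e 5) (h.unit 5) := by
  set g := refl (e 4) (h.unit 4) * refl (e 5) (h.unit 5) with hg
  have hv : app q (e 3) = app g (e 3) := by
    have k := rig1_mult h 2 4 rfl rfl rfl rfl rfl (x := app q (e 3) - e 3)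
      (by rw [B_sub_right, ← B_app q (e 0) (e 3), h0, sub_self])
      (by rw [B_sub_right, ← B_app q (e 1) (e 3), h1, sub_self])
      (by rw [B_sub_right, h2, rig1_g2 h 2 3 rfl, sub_self])
    generalize -B (e 4) (app q (e 3) - e 3) = t at k
    have k1 : app q (e 3) = e 3 + t • e 4 := by rw [← k, add_sub_cancel]
    have k2 := B_app q (e 3) (e 3)
    rw [k1] at k2 h3
    simp only [B_add_left, B_add_right, B_smul_left, B_smul_right, h.unit, B_comm (e 4) (e 3)]
      at k2 h3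
    have k3 : t * (2 * B (e 3) (e 4) - t) = 0 := by linear_combination k2
    have k4 : t ≠ 0 := by
      rintro rfl
      simp at h3
    have k5 : t = 2 * B (e 3) (e 4) := by linarith [(mul_eq_zero.1 k3).resolve_left k4]
    rw [k1, k5, hg, rig1_g_three h]
  have f0 : app (g⁻¹ * q) (e 0) = e 0 := by
    rw [app_mul, h0, ← rig1_g_fix h 0 rfl rfl, app_inv_app, rig1_g_fix h 0 rfl rfl]
  have f1 : app (g⁻¹ * q) (e 1) = e 1 := by
    rw [app_mul, h1, ← rig1_g_fix h 1 rfl rfl, app_inv_app, rig1_g_fix h 1 rfl rfl]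
  have f3 : app (g⁻¹ * q) (e 3) = e 3 := by rw [app_mul, hv, app_inv_app]
  have hk : dt (g⁻¹ * q) = 1 := by
    rw [dt_mul, dt_inv, hg, dt_mul, dt_refl, dt_refl, hd]
    norm_num
  refine (inv_mul_eq_one.1 ?_).symm
  generalize g⁻¹ * q = k at f0 f1 f3 hk
  have m := rig1_mult h 3 5 rfl rfl rfl rfl rfl (x := app k (e 5))
    (by rw [← f0, B_app, rig1_g2 h 0 5 rfl]) (by rw [← f1, B_app, rig1_g2 h 1 5 rfl])
    (by rw [← f3, B_app, rig1_g2 h 3 5 rfl])
  generalize -B (e 5) (app k (e 5)) = t at m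
  have m2 := B_app k (e 5) (e 5)
  rw [m, B_smul_left, B_smul_right, h.unit] at m2
  have hD := rig1_detB h 3 5 rfl rfl rfl rfl rfl
  rcases mul_self_eq_one_iff.1 (show t * t = 1 by linarith) with rfl | rfl
  · refine rig1_fix hD fun i => ?_
    fin_cases i
    exacts [f0, f1, f3, m.trans (one_smul _ _)]
  · have : k * refl (e 5) (h.unit 5) = 1 := by
      refine rig1_fix hD fun i => ?_
      fin_cases i
      · exact (app_mul ..).trans ((congrArg _ (rig1_app_fix _ (rig1_g2 h 0 5 rfl))).trans f0)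
      · exact (app_mul ..).trans ((congrArg _ (rig1_app_fix _ (rig1_g2 h 1 5 rfl))).trans f1)
      · exact (app_mul ..).trans ((congrArg _ (rig1_app_fix _ (rig1_g2 h 3 5 rfl))).trans f3)
      · change app (k * refl (e 5) (h.unit 5)) (e 5) = e 5
        rw [app_mul, app_refl, app_add, app_smul, m, h.unit]
        module
    have d := congrArg dt this
    rw [dt_mul, dt_refl, hk, dt_one] at d
    norm_num at d

/-- Four vectors with the Gram matrix of the tetrahedron are moved by an isometry. -/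
theorem exists_move (h : Gram e) {f : Fin 4 → V4}
    (hf : ∀ i j : Fin 4, B (f i) (f j) = B (e (i.castLE (by norm_num))) (e (j.castLE (by norm_num)))) :
    ∃ (a : L) (s : ℝ), s * s = 1 ∧ ∀ i : Fin 4, app a (e (i.castLE (by norm_num))) = s • f i := by
  have hd := rig1_detA h
  set e' : Fin 4 → V4 := fun i : Fin 4 => e (i.castLE (by norm_num)) with he'
  have hu : IsUnit (rig1_col e').det := isUnit_iff_ne_zero.2 hd
  have hG : (rig1_col f)ᵀ * eta * rig1_col f = (rig1_col e')ᵀ * eta * rig1_col e' := by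
    ext i j
    rw [rig1_gram, rig1_gram, hf]
  set N : M4 := rig1_col f * (rig1_col e')⁻¹ with hN
  have hB : ∀ x y, B (N *ᵥ x) (N *ᵥ y) = B x y := fun x y => by
    rw [hN, ← mulVec_mulVec, ← mulVec_mulVec, rig1_B, hG, ← rig1_B, mulVec_mulVec, mulVec_mulVec,
      mul_nonsing_inv _ hu, one_mulVec, one_mulVec]
  have hm : ∀ i, N *ᵥ e' i = f i := fun i => by
    rw [← rig1_col_single e' i, mulVec_mulVec, hN, Matrix.mul_assoc, nonsing_inv_mul _ hu,
      Matrix.mul_one, rig1_col_single]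
  have h0 : N 0 0 ≠ 0 := by
    intro k
    have k1 := hB o o
    have k2 : (N *ᵥ o) 0 = 0 := by
      rw [← k]
      simp [mulVec, dotProduct, o, Fin.sum_univ_four]
    rw [B_o, o_zero, B, k2] at k1
    nlinarith [sq3 ((N *ᵥ o) 1) ((N *ᵥ o) 2) ((N *ᵥ o) 3)]
  rcases h0.lt_or_gt with k | k
  · refine ⟨ofMat (-N) (fun x y => by rw [neg_mulVec, neg_mulVec, B_neg_left, B_neg_right, neg_neg,
      hB]) (by simpa using k), -1, by norm_num, fun i => ?_⟩
    change (-N) *ᵥ e' i = _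
    rw [neg_mulVec, hm, neg_one_smul]
  · refine ⟨ofMat N hB k, 1, one_mul 1, fun i => ?_⟩
    change N *ᵥ e' i = _
    rw [hm, one_smul]

lemma rig1_CM (i k : Fin 4) : i = k ∨ CM i.castSucc.castSucc k.castSucc.castSucc = 2 ∨
    CM i.castSucc.castSucc k.castSucc.castSucc = 3 ∨
    CM i.castSucc.castSucc k.castSucc.castSucc = 4 := by
  revert i k
  decide

lemma rig1_core (h : Gram e) (j : W0 →* L) (f : Fin 4 → V4) (hu : ∀ i, B (f i) (f i) = -1)
    (hj : ∀ i : Fin 4, j (gen i.castSucc) = refl (f i) (hu i))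
    (hn : ∀ i k : Fin 4, |B (f i) (f k) - B (e i.castSucc.castSucc) (e k.castSucc.castSucc)| < 1 / 10)
    (h0 : B (app (j (gen 4)) (f 0)) (f 0) < 0) (h1 : B (app (j (gen 4)) (f 1)) (f 1) < 0)
    (h2 : |B (f 2) (app (j (gen 4)) (f 3))| < 1 / 10) (h3 : -1 < B (app (j (gen 4)) (f 3)) (f 3))
    (hd : 0 < dt (j (gen 4))) : ∃ a : L, ∀ i, j (gen i) = a * rho h (gen i).val * a⁻¹ := by
  have hG : ∀ i k : Fin 4, B (f i) (f k) =
      B (e i.castSucc.castSucc) (e k.castSucc.castSucc) := fun i k => by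
    rcases rig1_CM i k with rfl | c
    · rw [hu, h.unit]
    have k0 := h.gram i.castSucc.castSucc k.castSucc.castSucc (by omega)
    rw [k0]
    refine gram_of_order c (hu i) (hu k) ?_ (k0 ▸ hn i k)
    rw [← hj, ← hj, ← map_mul, ← map_pow, gen_rel i.isLt k.isLt, map_one]
  obtain ⟨a, s, hs, ha⟩ := exists_move h hG
  set g := j (gen 4) with hg
  have hc : ∀ i : Fin 4, g * refl (f i) (hu i) * g⁻¹ =
      refl (app g (f i)) ((B_app ..).trans (hu i)) := fun i =>
    rig1_conj _ _ (one_mul 1) (one_smul _ _).symm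
  have hfix : ∀ i : Fin 4, i.val < 2 → B (app g (f i)) (f i) < 0 → app g (f i) = f i :=
    fun i hi k => by
      refine rig1_eq _ (hu i) ((hc i).symm.trans ?_) k
      rw [← hj, hg, ← map_mul, gen_comm (i := i.castSucc) hi, map_mul, mul_inv_cancel_right]
  have h23 : B (f 2) (app g (f 3)) = 0 := by
    have k := gram_of_order (m := 2) (Or.inl rfl) (hu 2) ((B_app g _ _).trans (hu 3)) (by
      rw [← hc, ← hj, ← hj, hg, ← map_inv, ← map_mul, ← map_mul, ← map_mul, ← map_pow]
      exact (congrArg j gen_rel_conj).trans (map_one j)) (by simpa [gm] using h2)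
    simpa [gm] using k
  have hq : ∀ i : Fin 4, app (a⁻¹ * g * a) (e (i.castLE (by norm_num))) =
      app a⁻¹ (s • app g (f i)) := fun i => by rw [app_mul, app_mul, ha, app_smul g]
  have hB : ∀ i k : Fin 4, B (app (a⁻¹ * g * a) (e (i.castLE (by norm_num))))
      (e (k.castLE (by norm_num))) = B (app g (f i)) (f k) := fun i k => by
    rw [hq, ← B_app a, app_app_inv, ha, B_smul_left, B_smul_right, ← mul_assoc, hs, one_mul]
  have hl := rig1_last h (q := a⁻¹ * g * a)
    ((hq 0).trans (by rw [hfix 0 (by decide) h0, ← ha, app_inv_app]; rfl))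
    ((hq 1).trans (by rw [hfix 1 (by decide) h1, ← ha, app_inv_app]; rfl))
    ((B_comm _ _).trans ((hB 3 2).trans ((B_comm _ _).trans h23))) ((hB 3 3).symm ▸ h3) (by
      rw [dt_mul, dt_mul, dt_inv, (dt_cases g).resolve_right (by linarith), mul_one, dt_sq])
  refine ⟨a, fun i => ?_⟩
  induction i using Fin.lastCases with
  | last =>
    change g = a * rho h (gen 4).val * a⁻¹
    rw [gen_four, map_mul, rho_simple, rho_simple, ← hl]
    group
  | cast i =>
    rw [hj, gen_lt i.isLt, rho_simple]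
    exact (rig1_conj _ _ hs (ha i)).symm

theorem rigid_fst (h : Poly e) :
    ∀ᶠ j : W0 →* L in SS.near ((rho h.toGram).comp W0.subtype),
      ∃ a : L, ∀ i, j (gen i) = a * rho h.toGram (gen i).val * a⁻¹ := by
  set F := SS.near ((rho h.toGram).comp W0.subtype) with hF
  have ht : ∀ w : W0, Tendsto (fun j : W0 →* L => j w) F (𝓝 (rho h.toGram w.val)) := fun w =>
    ((continuous_apply w).tendsto _).comp tendsto_comap
  choose n hn1 hn2 using fun i : Fin 6 => near_refl (h.toGram.unit i)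
  have hr : ∀ i : Fin 4, Tendsto (fun j : W0 →* L => j (gen i.castSucc)) F
      (𝓝 (refl (e i.castSucc.castSucc) (h.toGram.unit _))) := fun i => by
    have := ht (gen i.castSucc)
    rwa [gen_lt i.isLt, rho_simple] at this
  let f : (W0 →* L) → Fin 4 → V4 := fun j i => n i.castSucc.castSucc (j (gen i.castSucc))
  have hf : ∀ i : Fin 4, Tendsto (fun j => f j i) F (𝓝 (e i.castSucc.castSucc)) := fun i =>
    (hn1 _).comp (hr i)
  have hg := ht (gen 4)
  rw [gen_four, map_mul, rho_simple, rho_simple] at hg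
  have tB : ∀ {u v : (W0 →* L) → V4} {x y : V4}, Tendsto u F (𝓝 x) → Tendsto v F (𝓝 y) →
      Tendsto (fun j => B (u j) (v j)) F (𝓝 (B x y)) := fun hx hy =>
    ((continuous_B continuous_fst continuous_snd).tendsto (_, _)).comp (hx.prodMk_nhds hy)
  have tA : ∀ i : Fin 4, Tendsto (fun j : W0 →* L => app (j (gen 4)) (f j i)) F
      (𝓝 (app (refl (e 4) (h.toGram.unit 4) * refl (e 5) (h.toGram.unit 5))
        (e i.castSucc.castSucc))) := fun i =>
    ((continuous_app continuous_fst continuous_snd).tendsto (_, _)).comp (hg.prodMk_nhds (hf i))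
  have E1 : ∀ᶠ j in F, ∀ i : Fin 4, ∃ k : B (f j i) (f j i) = -1,
      j (gen i.castSucc) * j (gen i.castSucc) = 1 → j (gen i.castSucc) = refl (f j i) k :=
    eventually_all.2 fun i => (hr i).eventually (hn2 _)
  have E2 : ∀ᶠ j in F, ∀ i k : Fin 4,
      |B (f j i) (f j k) - B (e i.castSucc.castSucc) (e k.castSucc.castSucc)| < 1 / 10 :=
    eventually_all.2 fun i => eventually_all.2 fun k =>
      Metric.tendsto_nhds.1 (tB (hf i) (hf k)) _ (by norm_num)
  have E3 := (tB (tA 0) (hf 0)).eventually_lt_const (u := 0) (by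
    change B (app _ (e 0)) (e 0) < 0
    rw [rig1_g_fix h.toGram 0 rfl rfl, h.toGram.unit]
    norm_num)
  have E4 := (tB (tA 1) (hf 1)).eventually_lt_const (u := 0) (by
    change B (app _ (e 1)) (e 1) < 0
    rw [rig1_g_fix h.toGram 1 rfl rfl, h.toGram.unit]
    norm_num)
  have E5 := (tB (hf 2) (tA 3)).abs.eventually_lt_const (u := 1 / 10) (by
    change |B (e 2) (app _ (e 3))| < 1 / 10
    rw [rig1_g_three h.toGram, B_add_right, B_smul_right, rig1_g2 h.toGram 2 3 rfl,
      rig1_g2 h.toGram 2 4 rfl]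
    norm_num)
  have E6 := (tB (tA 3) (hf 3)).eventually_const_lt (u := -1) (by
    change -1 < B (app _ (e 3)) (e 3)
    rw [rig1_g_three h.toGram, B_add_left, B_smul_left, h.toGram.unit, B_comm (e 4)]
    nlinarith [h.far 3 4 rfl])
  have E7 := ((continuous_dt.tendsto _).comp hg).eventually_const_lt (u := 0) (by
    rw [dt_mul, dt_refl, dt_refl]
    norm_num)
  filter_upwards [E1, E2, E3, E4, E5, E6, E7] with j e1 e2 e3 e4 e5 e6 e7
  choose hu hj using e1
  refine rig1_core h.toGram j (f j) hu (fun i => hj i ?_) e2 e3 e4 e5 e6 e7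
  have := gen_rel (i := i.castSucc) (j := i.castSucc) i.isLt i.isLt
  rw [CM.diagonal, pow_one] at this
  rw [← map_mul, this, map_one]

end Pool.Agent.Lib.MP_99bfa4_al.IR
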