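import Pool.Agent.Lib.MP_99bfa4_al.IR.Rop
import Pool.Agent.Lib.MP_99bfa4_al.IR.FD

/-! Invariance and symmetry of the convolution operators. -/

open Matrix MeasureTheory Filter
open scoped ContDiff Topology InnerProductSpace ComplexConjugate

namespace Pool.Agent.Lib.MP_99bfa4_al.IR

variable {Γ : Subgroup G} {F : Set X} {ρ : ℝ} {ψ : ℝ → ℝ}

lemma ropi_sym (x y : X) : hx (x⁻¹ * y) = hx (y⁻¹ * x) := by
  change ht (x.val⁻¹ * y.val) = ht (y.val⁻¹ * x.val)
  rw [ht_inv_mul, ht_inv_mul, B_comm]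

lemma ropi_smul {γ : G} (h : app γ.val.2 o = o) (x y : X) :
    hx ((γ • x)⁻¹ * γ • y) = hx (x⁻¹ * y) := by
  change ht ((γ.val.1 * x.val * γ.val.2⁻¹)⁻¹ * (γ.val.1 * y.val * γ.val.2⁻¹)) =
    ht (x.val⁻¹ * y.val)
  rw [ht_inv_mul, ht_inv_mul, app_mul, app_mul, app_mul, app_mul, app_inv_o h, B_app]

lemma ropi_K {k : X} (h : k ∈ K) (x y : X) : hx ((x * k)⁻¹ * y) = hx (x⁻¹ * y) := by
  change ht ((x.val * k.val)⁻¹ * y.val) = ht (x.val⁻¹ * y.val)
  rw [ht_inv_mul, ht_inv_mul, app_mul, show app k.val o = o from h]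

lemma ropi_continuous (h : Bump ψ) {f : X → ℂ} (hf : Continuous f) : Continuous (Rop ψ f) := by
  obtain ⟨σ, hσ⟩ := h.2
  have e : Rop ψ f = fun x => ∫ y in ball σ, ψ (hx y) • f (x * y) ∂mu := funext fun x =>
    (setIntegral_eq_integral_of_forall_compl_eq_zero fun y hy => by
      rw [hσ _ (not_le.1 hy), zero_smul]).symm
  rw [e]
  exact continuous_parametric_integral_of_continuous
    (((h.1.continuous.comp continuous_hx).comp continuous_snd).smul
      (hf.comp (continuous_fst.mul continuous_snd))) (isCompact_ball σ)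

theorem rop_inv (hΓ : ∀ γ ∈ Γ, app γ.val.2 o = o) (h : Bump ψ) {f : X → ℂ} (hf : f ∈ Inv Γ) :
    Rop ψ f ∈ Inv Γ := by
  refine ⟨ropi_continuous h hf.1, fun γ hγ x => ?_, fun k hk x => ?_⟩
  · rw [Rop_eq, Rop_eq, ← integral_smul_eq_self (g := γ)]
    simp only [ropi_smul (hΓ γ hγ), hf.2.1 γ hγ]
  · simp only [Rop_eq, ropi_K hk]

theorem ip_integrable (H : Cc Γ F ρ) {f g : X → ℂ} (hf : Continuous f) (hg : Continuous g) :
    IntegrableOn (fun x => conj (f x) * g x) F mu :=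
  (((Complex.continuous_conj.comp hf).mul hg).continuousOn.integrableOn_compact
    (isCompact_ball ρ)).mono_set H.sub

theorem ip_definite (H : Cc Γ F ρ) {f : X → ℂ} (hf : f ∈ Inv Γ) (h : ip F f f = 0) : f = 0 := by
  have := fd_countable H.disc
  have e : ∀ x, conj (f x) * f x = ((‖f x‖ ^ 2 : ℝ) : ℂ) := fun x => by
    rw [Complex.conj_mul']
    norm_cast
  have h0 : IntegrableOn (fun x => ‖f x‖ ^ 2) F mu :=
    ((hf.1.norm.pow 2).continuousOn.integrableOn_compact (isCompact_ball ρ)).mono_set H.sub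
  simp only [ip, e] at h
  rw [integral_complex_ofReal] at h
  have h1 := (integral_eq_zero_iff_of_nonneg (fun x => sq_nonneg _) h0).1
    (Complex.ofReal_eq_zero.1 h)
  have h2 : f =ᵐ[mu.restrict F] 0 := by
    filter_upwards [h1] with x k
    exact norm_eq_zero.1 (pow_eq_zero_iff two_ne_zero |>.1 k)
  refine (hf.1.ae_eq_iff_eq mu continuous_const).1
    (H.fd.measure_zero_of_invariant {x | f x ≠ 0} (fun γ => ?_) ?_)
  · ext x
    rw [Set.mem_smul_set_iff_inv_smul_mem]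
    exact (congrArg (· ≠ 0) (hf.2.1 _ (γ⁻¹).2 x)).to_iff
  · rw [← Measure.restrict_apply' H.meas]
    exact h2

lemma ropi_unfold (H : Cc Γ F ρ) {Φ : X × X → ℂ} (hc : Continuous Φ)
    (hi : ∀ γ ∈ Γ, ∀ x y, Φ (γ • x, γ • y) = Φ (x, y)) {σ : ℝ}
    (h0 : ∀ x y, σ < hx (x⁻¹ * y) → Φ (x, y) = 0) :
    IntegrableOn Φ (F ×ˢ Set.univ) (mu.prod mu) ∧ IntegrableOn Φ (Set.univ ×ˢ F) (mu.prod mu) ∧
      ∫ z in F ×ˢ Set.univ, Φ z ∂mu.prod mu = ∫ z in Set.univ ×ˢ F, Φ z ∂mu.prod mu := by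
  have := fd_countable H.disc
  have : SMulInvariantMeasure Γ (X × X) (mu.prod mu) := ⟨fun γ _ hs =>
    ((measurePreserving_smul γ.val mu).prod (measurePreserving_smul γ.val mu)).measure_preimage
      hs.nullMeasurableSet⟩
  have f1 : IsFundamentalDomain Γ (F ×ˢ Set.univ) (mu.prod mu) := by
    rw [Set.prod_univ]
    exact H.fd.preimage_of_equiv Measure.quasiMeasurePreserving_fst Function.bijective_id
      fun _ _ => rfl
  have f2 : IsFundamentalDomain Γ (Set.univ ×ˢ F) (mu.prod mu) := by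
    rw [Set.univ_prod]
    exact H.fd.preimage_of_equiv Measure.quasiMeasurePreserving_snd Function.bijective_id
      fun _ _ => rfl
  have hi' : ∀ (γ : Γ) (z : X × X), Φ (γ • z) = Φ z := fun γ z => hi γ.val γ.2 z.1 z.2
  have i1 : IntegrableOn Φ (F ×ˢ Set.univ) (mu.prod mu) := by
    refine (hc.continuousOn.integrableOn_compact
      ((isCompact_ball ρ).prod (isCompact_ball (2 * ρ * σ)))).of_forall_sdiff_eq_zero
      (H.meas.prod MeasurableSet.univ) ?_
    rintro ⟨x, y⟩ ⟨⟨h1, -⟩, h2⟩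
    refine h0 x y (not_le.1 fun c => h2 ⟨H.sub h1, ?_⟩)
    have h3 : ht x.val ≤ ρ := H.sub h1
    have h4 := ht_mul_le x.val (x⁻¹ * y).val
    have h5 := one_le_ht x.val
    have h6 := one_le_ht (x⁻¹ * y).val
    have h7 : x.val * (x⁻¹ * y).val = y.val := mul_inv_cancel_left _ _
    rw [h7] at h4
    exact h4.trans (mul_le_mul (by linarith) c (by linarith) (by linarith))
  exact ⟨i1, (f1.integrableOn_iff f2 hi').1 i1, f1.setIntegral_eq f2 hi'⟩

theorem rop_symm (H : Cc Γ F ρ) (h : Bump ψ) {f g : X → ℂ} (hf : f ∈ Inv Γ) (hg : g ∈ Inv Γ) :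
    ip F (Rop ψ f) g = ip F f (Rop ψ g) := by
  obtain ⟨σ, hσ⟩ := h.2
  obtain ⟨i1, i2, e⟩ := ropi_unfold H
    (Φ := fun z => ψ (hx (z.1⁻¹ * z.2)) • (conj (f z.2) * g z.1))
    ((h.1.continuous.comp (continuous_hx.comp (continuous_fst.inv.mul continuous_snd))).smul
      ((Complex.continuous_conj.comp (hf.1.comp continuous_snd)).mul (hg.1.comp continuous_fst)))
    (fun γ hγ x y => by simp only [ropi_smul (H.fix γ hγ), hf.2.1 γ hγ, hg.2.1 γ hγ]) (σ := σ)
    (fun x y k => by simp only [hσ _ k, zero_smul])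
  rw [setIntegral_prod _ i1] at e
  simp only [← Measure.prod_restrict, IntegrableOn] at e i2
  rw [integral_prod_symm _ i2, Measure.restrict_univ] at e
  refine Eq.trans ?_ (e.trans ?_)
  · refine integral_congr_ae (Eventually.of_forall fun x => ?_)
    simp only [Rop_eq]
    rw [← integral_conj, ← integral_mul_const]
    simp only [Complex.real_smul, map_mul, Complex.conj_ofReal, mul_assoc]
  · refine integral_congr_ae (Eventually.of_forall fun y => ?_)
    simp only [Rop_eq]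
    rw [← integral_const_mul]
    simp only [ropi_sym y, mul_smul_comm]

end Pool.Agent.Lib.MP_99bfa4_al.IR
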