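import Mathlib

/-! Compact symmetric operators on a space with an inner product. -/

open Matrix MeasureTheory Filter
open scoped ContDiff Topology InnerProductSpace ComplexConjugate

namespace Pool.Agent.Lib.MP_99bfa4_al.IR

variable {E : Type} [NormedAddCommGroup E] [InnerProductSpace ℂ E]

/-- Sequential compactness of an operator. -/
def Cpt (R : E →ₗ[ℂ] E) : Prop := ∀ u : ℕ → E, (∀ n, ‖u n‖ ≤ 1) →
  ∃ φ : ℕ → ℕ, StrictMono φ ∧ ∃ v, Tendsto (fun n => R (u (φ n))) atTop (𝓝 v)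

theorem spec_fin {R : E →ₗ[ℂ] E} (h : Cpt R) {m : ℂ} (hm : m ≠ 0) :
    FiniteDimensional ℂ (Module.End.eigenspace R m) := by
  by_contra hc
  obtain ⟨r, f, h1, h2, h3⟩ := exists_seq_norm_le_one_le_norm_sub hc
  have hr : (0 : ℝ) < r := by linarith
  obtain ⟨φ, hφ, v, hv⟩ := h (fun n => ((r⁻¹ : ℝ) : ℂ) • (f n : E)) fun n => by
    rw [norm_smul, Complex.norm_real, Real.norm_of_nonneg (inv_pos.2 hr).le]
    exact (inv_mul_le_one₀ hr).2 (h2 n)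
  have h4 := ((hv.comp (tendsto_add_atTop_nat 1)).sub hv).norm
  rw [sub_self, norm_zero] at h4
  have h5 : 0 < r⁻¹ * ‖m‖ := mul_pos (inv_pos.2 hr) (norm_pos_iff.2 hm)
  obtain ⟨n, hn⟩ := (h4.eventually (gt_mem_nhds h5)).exists
  have h6 : ∀ k, R (f k : E) = m • (f k : E) := fun k => Module.End.mem_eigenspace_iff.1 (f k).2
  simp only [Function.comp, map_smul, h6, ← smul_sub, norm_smul, Complex.norm_real,
    Real.norm_of_nonneg (inv_pos.2 hr).le] at hn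
  have h7 : 1 ≤ ‖(f (φ (n + 1)) : E) - f (φ n)‖ := h3 (hφ (Nat.lt_succ_self n)).ne'
  rw [← mul_assoc] at hn
  nlinarith

lemma spec_bdd {R : E →ₗ[ℂ] E} (h : Cpt R) : ∃ C : ℝ, ∀ x, ‖x‖ ≤ 1 → ‖R x‖ ≤ C := by
  by_contra hc
  push Not at hc
  choose u h1 h2 using fun n : ℕ => hc n
  obtain ⟨φ, hφ, v, hv⟩ := h u h1
  obtain ⟨n, a, b⟩ := ((hv.norm.eventually (gt_mem_nhds (lt_add_one ‖v‖))).and
    (tendsto_natCast_atTop_atTop.eventually_ge_atTop (‖v‖ + 1))).exists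
  have : (n : ℝ) ≤ φ n := by exact_mod_cast hφ.le_apply
  linarith [h2 (φ n)]

lemma spec_scale {R : E →ₗ[ℂ] E} {U : Submodule ℂ E} {C : ℝ}
    (h : ∀ x ∈ U, ‖x‖ ≤ 1 → ‖R x‖ ≤ C) {x : E} (hx : x ∈ U) : ‖R x‖ ≤ C * ‖x‖ := by
  rcases eq_or_ne x 0 with rfl | h0
  · simp
  have h1 := norm_pos_iff.2 h0
  have := h (((‖x‖⁻¹ : ℝ) : ℂ) • x) (U.smul_mem _ hx) (by
    rw [norm_smul, Complex.norm_real, Real.norm_of_nonneg (inv_pos.2 h1).le,
      inv_mul_cancel₀ h1.ne'])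
  rwa [map_smul, norm_smul, Complex.norm_real, Real.norm_of_nonneg (inv_pos.2 h1).le,
    inv_mul_le_iff₀ h1, mul_comm] at this

theorem spec_exists {R : E →ₗ[ℂ] E} (h : Cpt R) (hs : R.IsSymmetric) (U : Submodule ℂ E)
    (hU : IsClosed (U : Set E)) (hR : ∀ u ∈ U, R u ∈ U) {u : E} (hu : u ∈ U) (h0 : R u ≠ 0) :
    ∃ m : ℂ, m ≠ 0 ∧ ∃ v ∈ U, v ≠ 0 ∧ R v = m • v := by
  obtain ⟨C, hC⟩ := spec_bdd h
  have hcont : Continuous R := AddMonoidHomClass.continuous_of_bound R C fun x =>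
    spec_scale (U := ⊤) (fun x _ => hC x) trivial
  let A : Set ℝ := (fun x => ‖R x‖) '' {x | x ∈ U ∧ ‖x‖ ≤ 1}
  have hA : BddAbove A := ⟨C, by rintro _ ⟨x, hx, rfl⟩; exact hC x hx.2⟩
  have hM : ∀ x ∈ U, ‖R x‖ ≤ sSup A * ‖x‖ := fun x hx =>
    spec_scale (fun y hy k => le_csSup hA ⟨y, ⟨hy, k⟩, rfl⟩) hx
  obtain ⟨a, -, ha, ha'⟩ := exists_seq_tendsto_sSup (S := A) ⟨_, 0, ⟨U.zero_mem, by simp⟩, rfl⟩ hA
  generalize sSup A = M at hM ha
  have hM0 : 0 < M := pos_of_mul_pos_left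
    ((norm_pos_iff.2 h0).trans_le (hM u hu)) (norm_nonneg _)
  choose x hx hx' using ha'
  obtain ⟨φ, hφ, v, hv⟩ := h x fun n => (hx n).2
  have hvU : v ∈ U := hU.mem_of_tendsto hv (Eventually.of_forall fun n => hR _ (hx _).1)
  have h1 : Tendsto (fun n => ‖R (x (φ n))‖) atTop (𝓝 M) := by
    simpa only [Function.comp_def, ← hx'] using ha.comp hφ.tendsto_atTop
  have hvM : ‖v‖ = M := tendsto_nhds_unique hv.norm h1
  have h2 : ∀ y ∈ U, ‖y‖ ≤ 1 →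
      ‖R (R y) - ((M ^ 2 : ℝ) : ℂ) • y‖ ^ 2 ≤ M ^ 2 * (M ^ 2 - ‖R y‖ ^ 2) := fun y hy k => by
    have e1 : ‖R (R y)‖ ^ 2 ≤ (M * ‖R y‖) ^ 2 := pow_le_pow_left₀ (norm_nonneg _) (hM _ (hR y hy)) 2
    have e2 : ‖y‖ ^ 2 ≤ 1 := pow_le_one₀ (norm_nonneg _) k
    rw [@norm_sub_sq ℂ, inner_smul_right, hs (R y) y, inner_self_eq_norm_sq_to_K, norm_smul,
      Complex.norm_real, Real.norm_of_nonneg (sq_nonneg M), mul_pow]
    have e3 : RCLike.re (((M ^ 2 : ℝ) : ℂ) * ((‖R y‖ : ℝ) : ℂ) ^ 2) = M ^ 2 * ‖R y‖ ^ 2 := by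
      rw [← Complex.ofReal_pow, ← Complex.ofReal_mul]
      rfl
    rw [show RCLike.ofReal (K := ℂ) ‖R y‖ = ((‖R y‖ : ℝ) : ℂ) from rfl, e3]
    nlinarith [mul_le_mul_of_nonneg_left e2 (sq_nonneg (M ^ 2))]
  have h3 : Tendsto (fun n => R (R (x (φ n))) - ((M ^ 2 : ℝ) : ℂ) • x (φ n)) atTop (𝓝 0) := by
    have e := ((h1.pow 2).const_sub (M ^ 2)).const_mul (M ^ 2)
    rw [sub_self, mul_zero] at e
    have e' := (squeeze_zero (fun n => sq_nonneg _) (fun n => h2 _ (hx (φ n)).1 (hx (φ n)).2) e).sqrt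
    simp only [Real.sqrt_sq (norm_nonneg _), Real.sqrt_zero] at e'
    exact tendsto_zero_iff_norm_tendsto_zero.2 e'
  have h4 : R (R v) - ((M ^ 2 : ℝ) : ℂ) • v = 0 := by
    have e := (hcont.tendsto 0).comp h3
    simp only [Function.comp_def, map_sub, map_smul, map_zero] at e
    exact tendsto_nhds_unique
      ((((hcont.comp hcont).tendsto v).comp hv).sub (hv.const_smul _)) e
  have hM' : (M : ℂ) ≠ 0 := Complex.ofReal_ne_zero.2 hM0.ne'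
  by_cases h5 : R v + (M : ℂ) • v = 0
  · exact ⟨-M, neg_ne_zero.2 hM', v, hvU, norm_pos_iff.1 (hvM ▸ hM0), by
      rw [neg_smul, eq_neg_iff_add_eq_zero, h5]⟩
  · refine ⟨M, hM', _, U.add_mem (hR v hvU) (U.smul_mem _ hvU), h5, ?_⟩
    rw [map_add, map_smul, sub_eq_zero.1 h4, smul_add, smul_smul, add_comm]
    push_cast
    rw [sq]

theorem spec_core {I : Type} (R : I → E →ₗ[ℂ] E) (hc : ∀ i, Cpt (R i))
    (hs : ∀ i, (R i).IsSymmetric) (happ : ∀ u, u ≠ 0 → ∃ i, R i u ≠ 0)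
    (hinf : ¬ FiniteDimensional ℂ E) (P : ℂ → Submodule ℂ E)
    (hP : ∀ lam i, ∃ κ : ℂ, ∀ u ∈ P lam, R i u = κ • u) (s : I → I)
    (hcomm : ∀ i u, R i (R (s i) u) = R (s i) (R i u))
    (hC : ∀ i (m lam : ℂ) u, m ≠ 0 → R i u = m • u → R (s i) u = lam • u → u ∈ P (lam / m)) :
    {lam | P lam ≠ ⊥}.Infinite := by
  intro hfin
  have : Finite {lam | P lam ≠ ⊥} := hfin
  have h1 : ∀ lam : {lam | P lam ≠ ⊥}, FiniteDimensional ℂ (P lam) := fun lam => by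
    obtain ⟨u, hu, h0⟩ := (Submodule.ne_bot_iff _).1 lam.2
    obtain ⟨i, hi⟩ := happ u h0
    obtain ⟨κ, hκ⟩ := hP lam i
    have := spec_fin (hc i) (m := κ) fun e => hi (by rw [hκ u hu, e, zero_smul])
    exact Submodule.finiteDimensional_of_le (S₂ := Module.End.eigenspace (R i) κ)
      fun v hv => Module.End.mem_eigenspace_iff.2 (hκ v hv)
  let U : Submodule ℂ E := ⨆ lam : {lam | P lam ≠ ⊥}, P lam
  have h2 : FiniteDimensional ℂ U := Submodule.finiteDimensional_iSup _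
  have h3 : ∀ i, ∀ u ∈ U, R i u ∈ U := fun i u hu => by
    refine Submodule.iSup_induction (motive := fun u => R i u ∈ U) _ hu (fun lam v hv => ?_)
      (by simp) fun a b ha hb => by rw [map_add]; exact U.add_mem ha hb
    obtain ⟨κ, hκ⟩ := hP lam i
    rw [hκ v hv]
    exact U.smul_mem _ (Submodule.mem_iSup_of_mem lam hv)
  have h4 : ∀ i, ∀ u ∈ Uᗮ, R i u ∈ Uᗮ := fun i u hu => (U.mem_orthogonal _).2 fun v hv => by
    rw [← hs i]
    exact (U.mem_orthogonal _).1 hu _ (h3 i v hv)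
  have h5 : Uᗮ ≠ ⊥ := fun e => hinf (by
    rw [Submodule.orthogonal_eq_bot_iff.1 e] at h2
    exact Submodule.topEquiv.finiteDimensional)
  obtain ⟨u, hu, h0⟩ := (Submodule.ne_bot_iff _).1 h5
  obtain ⟨i, hi⟩ := happ u h0
  obtain ⟨m, hm, v, hv, hv0, hv'⟩ := spec_exists (hc i) (hs i) Uᗮ U.isClosed_orthogonal (h4 i) hu hi
  have := spec_fin (hc i) hm
  let W : Submodule ℂ E := Module.End.eigenspace (R i) m ⊓ Uᗮ
  have : FiniteDimensional ℂ W := Submodule.finiteDimensional_inf_left _ _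
  have : Nontrivial W := ⟨⟨⟨v, Module.End.mem_eigenspace_iff.2 hv', hv⟩, 0,
    fun e => hv0 (congrArg Subtype.val e)⟩⟩
  have h6 : ∀ w ∈ W, R (s i) w ∈ W := fun w hw => ⟨Module.End.mem_eigenspace_iff.2 (by
    rw [hcomm, Module.End.mem_eigenspace_iff.1 hw.1, map_smul]), h4 _ w hw.2⟩
  obtain ⟨lam, hl⟩ := Module.End.exists_eigenvalue ((R (s i)).restrict h6)
  obtain ⟨w, hw⟩ := hl.exists_hasEigenvector
  have h7 : (w : E) ∈ P (lam / m) := hC i m lam w hm (Module.End.mem_eigenspace_iff.1 w.2.1)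
    (congrArg Subtype.val hw.apply_eq_smul)
  have h8 : (w : E) ≠ 0 := fun e => hw.2 (Subtype.ext e)
  exact h8 (inner_self_eq_zero.1 ((U.mem_orthogonal _).1 w.2.2 _
    (Submodule.mem_iSup_of_mem (⟨lam / m, (Submodule.ne_bot_iff _).2 ⟨w, h7, h8⟩⟩ :
      {lam | P lam ≠ ⊥}) h7)))

end Pool.Agent.Lib.MP_99bfa4_al.IR
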