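import Pool.Agent.Lib.MP_99bfa4_al.IR.Cox

/-! The positivity lemma of Tits and its consequences. -/

open Matrix MeasureTheory Filter
open scoped ContDiff Topology InnerProductSpace ComplexConjugate

namespace Pool.Agent.Lib.MP_99bfa4_al.IR

variable {e : Fin 6 → V4}

/-- The alternating product of length k that ends in the generator j. -/
noncomputable def tits_alt (i j : Fin 6) (k : ℕ) : W :=
  cs.wordProd (CoxeterSystem.alternatingWord i j k)

lemma tits_alt_zero (i j : Fin 6) : tits_alt i j 0 = 1 := cs.wordProd_nil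

lemma tits_alt_succ (i j : Fin 6) (k : ℕ) : tits_alt i j (k + 1) = tits_alt j i k * cs.simple j := by
  rw [tits_alt, CoxeterSystem.alternatingWord_succ, cs.wordProd_concat, tits_alt]

/-- Splitting off the longest dihedral tail. -/
lemma tits_split (n : ℕ) : ∀ (w : W) (i j : Fin 6), cs.length w = n → ¬ cs.IsRightDescent w i →
    ∃ v k, w = v * tits_alt i j k ∧ cs.length w = cs.length v + k ∧ ¬ cs.IsRightDescent v i ∧
      ¬ cs.IsRightDescent v j := by
  induction n with
  | zero =>
    intro w i j hw hi
    rw [cs.length_eq_zero_iff] at hw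
    subst hw
    exact ⟨1, 0, by rw [tits_alt_zero, mul_one], rfl, hi, cs.not_isRightDescent_one j⟩
  | succ n ih =>
    intro w i j hw hi
    by_cases hj : cs.IsRightDescent w j
    · have l := cs.isRightDescent_iff.1 hj
      obtain ⟨v, k, a, b, c, c'⟩ := ih (w * cs.simple j) j i (by omega)
        (cs.isRightDescent_iff_not_isRightDescent_mul.1 hj)
      refine ⟨v, k + 1, ?_, by omega, c', c⟩
      rw [tits_alt_succ, ← mul_assoc, ← a, cs.simple_mul_simple_cancel_right]
    · exact ⟨w, 0, by rw [tits_alt_zero, mul_one], rfl, hi, hj⟩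

lemma tits_short {v : W} {i j : Fin 6} {k : ℕ} (hm : CM j i ≠ 0)
    (hl : cs.length (v * tits_alt i j k) = cs.length v + k)
    (hi : ¬ cs.IsRightDescent (v * tits_alt i j k) i) : k < CM j i := by
  by_contra c
  refine cs.not_isReduced_alternatingWord j i hm (m := k + 1) (by omega) ?_
  have a := cs.not_isRightDescent_iff.1 hi
  rw [mul_assoc, ← tits_alt_succ] at a
  have b := cs.length_mul_le v (tits_alt j i (k + 1))
  have b' := cs.length_wordProd_le (CoxeterSystem.alternatingWord j i (k + 1))
  unfold CoxeterSystem.IsReduced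
  rw [CoxeterSystem.length_alternatingWord] at b' ⊢
  change cs.length (tits_alt j i (k + 1)) ≤ _ at b'
  change cs.length (tits_alt j i (k + 1)) = _
  omega

/-- The value of the form on the image of a root. -/
noncomputable def tits_a (h : Gram e) (z : V4) (i j : Fin 6) (k : ℕ) : ℝ :=
  B z (app (rho h (tits_alt i j k)) (e i))

lemma tits_a_zero (h : Gram e) (z : V4) (i j : Fin 6) : tits_a h z i j 0 = B z (e i) := by
  rw [tits_a, tits_alt_zero, map_one, app_one]

lemma tits_a_one (h : Gram e) (z : V4) (i j : Fin 6) :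
    tits_a h z i j 1 = B z (e i) + 2 * B (e i) (e j) * B z (e j) := by
  rw [tits_a, tits_alt_succ, tits_alt_zero, one_mul, app_rho_simple, B_add_right, B_smul_right]

lemma tits_a_succ (h : Gram e) (z : V4) (i j : Fin 6) (k : ℕ) :
    tits_a h z i j (k + 2) = 2 * B (e i) (e j) * tits_a h z j i (k + 1) - tits_a h z i j k := by
  rw [tits_a, tits_alt_succ, map_mul, app_mul, app_rho_simple, app_add, app_smul, B_add_right,
    B_smul_right, ← tits_a, tits_alt_succ, map_mul, app_mul, app_rho_simple, h.unit, app_add,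
    app_smul, B_add_right, B_smul_right, ← tits_a]
  ring

lemma tits_far (h : Gram e) {z : V4} {d : ℝ} (hd : 0 ≤ d) (k : ℕ) : ∀ i j, d ≤ B z (e i) →
    d ≤ B z (e j) → 1 < B (e i) (e j) →
    d ≤ tits_a h z i j k ∧ tits_a h z j i k ≤ tits_a h z i j (k + 1) := by
  induction k with
  | zero =>
    intro i j a b c
    rw [zero_add, tits_a_zero, tits_a_zero, tits_a_one]
    exact ⟨a, by nlinarith⟩
  | succ k ih =>
    intro i j a b c
    obtain ⟨p, q⟩ := ih i j a b c
    obtain ⟨p', q'⟩ := ih j i b a (B_comm (e i) (e j) ▸ c)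
    rw [tits_a_succ]
    exact ⟨p'.trans q, by nlinarith⟩

lemma tits_fin (h : Gram e) {z : V4} {d : ℝ} (hd : 0 ≤ d) {i j : Fin 6} (hne : j ≠ i)
    (a : d ≤ B z (e i)) (b : d ≤ B z (e j)) {k : ℕ} (hk : k < CM j i) : d ≤ tits_a h z i j k := by
  have g := h.gram j i (by omega)
  have g' := B_comm (e i) (e j)
  have s := Real.mul_self_sqrt (show (0 : ℝ) ≤ 2 by norm_num)
  have s1 : (1 : ℝ) ≤ √2 := Real.one_le_sqrt.2 (by norm_num)
  have a0 := tits_a_zero h z i j
  have a1 := tits_a_one h z i j
  have a2 : tits_a h z i j 2 = _ := tits_a_succ h z i j 0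
  have a3 : tits_a h z i j 3 = _ * tits_a h z j i 2 - _ := tits_a_succ h z i j 1
  have b2 : tits_a h z j i 2 = _ := tits_a_succ h z j i 0
  rw [zero_add, tits_a_zero, tits_a_one] at a2 b2
  rw [b2, a1] at a3
  have p := mul_nonneg (sub_nonneg.2 s1) (hd.trans b)
  rcases CM_cases j i with c | c | c | c | c
  · omega
  · exact absurd c hne
  all_goals
    rw [c] at g hk
    norm_num [gm] at g
    simp only [g', g] at a1 a2 a3
  · interval_cases k <;> linarith
  · interval_cases k <;> linarith
  · interval_cases k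
    · linarith
    · linarith
    · have : tits_a h z i j 2 = B z (e i) + √2 * B z (e j) := by
        linear_combination a2 + B z (e i) * s
      linarith
    · have : tits_a h z i j 3 = B z (e i) := by
        linear_combination a3 + (B z (e i) + √2 * B z (e j)) * s
      linarith

theorem tits (h : Poly e) {x : V4} {d : ℝ} (hd : 0 ≤ d) (hx : ∀ i, d ≤ B x (e i)) (w : W)
    (i : Fin 6) (hi : ¬ cs.IsRightDescent w i) : d ≤ B x (app (rho h.toGram w) (e i)) := by
  induction hn : cs.length w using Nat.strong_induction_on generalizing w i with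
  | _ n ih =>
    by_cases h1 : w = 1
    · rw [h1, map_one, app_one]
      exact hx i
    obtain ⟨j, hj⟩ := cs.exists_rightDescent_of_ne_one h1
    obtain ⟨v, k, rfl, l, c, c'⟩ := tits_split _ w i j rfl hi
    have k0 : k ≠ 0 := by
      rintro rfl
      rw [tits_alt_zero, mul_one] at hj
      exact c' hj
    have a := ih _ (by omega) v i c rfl
    have b := ih _ (by omega) v j c' rfl
    have t : ∀ y, B x (app (rho h.toGram v) y) = B (app (rho h.toGram v)⁻¹ x) y := fun y => by
      rw [B_app_left, inv_inv]
    rw [map_mul, app_mul, t]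
    rw [t] at a b
    by_cases m : CM j i = 0
    · exact (tits_far h.toGram hd k i j a b (B_comm (e j) (e i) ▸ h.far j i m)).1
    · exact tits_fin h.toGram hd (fun q : j = i => hi (q ▸ hj)) a b (tits_short m l hi)

end Pool.Agent.Lib.MP_99bfa4_al.IR
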