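import Pool.Agent.Lib.MP_99bfa4_al.IR.Tits

/-! Discreteness, covering and stabilizers. -/

open Matrix MeasureTheory Filter
open scoped ContDiff Topology InnerProductSpace ComplexConjugate

namespace Pool.Agent.Lib.MP_99bfa4_al.IR

variable {e : Fin 6 → V4}

lemma t2_height (h : Poly e) : ∃ d : ℝ, 0 < d ∧ ∀ w,
    1 + d * cs.length w ≤ app (rho h.toGram w) o 0 := by
  obtain ⟨m, hm⟩ := Finite.exists_min fun i => e i 0
  have d0 := h.pos m
  refine ⟨2 * e m 0 * e m 0, by positivity, fun w => ?_⟩
  induction hn : cs.length w generalizing w with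
  | zero =>
    rw [cs.length_eq_zero_iff.1 hn]
    simp
  | succ n ih =>
    obtain ⟨u, hu⟩ := cs.exists_rightDescent_of_ne_one (w := w) (by
      rintro rfl
      simp at hn)
    have k1 : cs.length (w * cs.simple u) = n := by have := cs.isRightDescent_iff.1 hu; omega
    have a := tits h (x := o) d0.le (fun i => by rw [B_o]; exact hm i) _ u
      (cs.isRightDescent_iff_not_isRightDescent_mul.1 hu)
    have b := ih _ k1
    rw [← cs.simple_mul_simple_cancel_right (w := w) u, map_mul, app_mul, app_rho_simple, app_add,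
      app_smul, B_o]
    rw [B_o] at a
    have c := mul_le_mul (hm u) a d0.le (h.pos u).le
    simp only [Pi.add_apply, Pi.smul_apply, smul_eq_mul]
    push_cast
    linarith

lemma t2_finite_length (n : ℕ) : {w : W | cs.length w ≤ n}.Finite :=
  ((List.finite_length_le (Fin 6) n).image cs.wordProd).subset fun w hw => by
    obtain ⟨l, h1, rfl⟩ := cs.exists_isReduced w
    exact ⟨l, h1.eq.symm.le.trans hw, rfl⟩

lemma t2_wall (h : Poly e) {x : V4} {w : W} (h1 : ∀ i, 0 ≤ B x (e i))
    (h2 : ∀ i, 0 ≤ B (app (rho h.toGram w) x) (e i)) {u : Fin 6}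
    (hu : cs.IsLeftDescent w u) : B (app (rho h.toGram w) x) (e u) = 0 := by
  have a := tits h le_rfl h1 (cs.simple u * w)⁻¹ u (by
    rw [cs.isRightDescent_inv_iff]
    exact cs.isLeftDescent_iff_not_isLeftDescent_mul.1 hu)
  rw [map_inv, ← B_app_left, map_mul, app_mul, app_rho_simple, B_add_left, B_smul_left,
    h.unit] at a
  linarith [h2 u]

theorem rho_injective (h : Poly e) : Function.Injective (rho h.toGram) := by
  obtain ⟨d, d0, hd⟩ := t2_height h
  refine (injective_iff_map_eq_one _).2 fun w hw => cs.length_eq_zero_iff.1 ?_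
  have := hd w
  rw [hw, app_one, o_zero] at this
  have k : (cs.length w : ℝ) ≤ 0 := by nlinarith
  exact_mod_cast k.antisymm (Nat.cast_nonneg _)

theorem finite_height (h : Poly e) (R : ℝ) :
    {w : W | ∃ x, Up x ∧ x 0 ≤ R ∧ app (rho h.toGram w) x 0 ≤ R}.Finite := by
  obtain ⟨d, d0, hd⟩ := t2_height h
  refine (t2_finite_length ⌈2 * R * R / d⌉₊).subset ?_
  rintro w ⟨x, hx, h1, h2⟩
  have a := hd w
  have b := (hx.app (rho h.toGram w)).2
  have c := tri (hx.app (rho h.toGram w)) (up_o.app (rho h.toGram w))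
  rw [B_app, B_o'] at c
  have : (cs.length w : ℝ) ≤ 2 * R * R / d := by
    rw [le_div_iff₀ d0]
    nlinarith [mul_le_mul h2 h1 hx.2.le (b.le.trans h2)]
  exact_mod_cast this.trans (Nat.le_ceil _)

theorem cover (h : Poly e) {x : V4} (hx : Up x) :
    ∃ w, ∀ i, 0 ≤ B (app (rho h.toGram w) x) (e i) := by
  obtain ⟨w, hw, hm⟩ := Set.exists_min_image {w | app (rho h.toGram w) x 0 ≤ x 0}
    (fun w => app (rho h.toGram w) x 0)
    ((finite_height h (x 0)).subset fun w hw => ⟨x, hx, le_rfl, hw⟩) ⟨1, by simp⟩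
  refine ⟨w, fun i => ?_⟩
  by_contra c
  have c' := mul_pos (neg_pos.2 (not_le.1 c)) (h.pos i)
  have k : app (rho h.toGram (cs.simple i * w)) x 0 < app (rho h.toGram w) x 0 := by
    rw [map_mul, app_mul, app_rho_simple]
    simp only [Pi.add_apply, Pi.smul_apply, smul_eq_mul]
    linarith
  exact absurd (hm _ (k.le.trans hw)) (not_le.2 k)

/-- The stabilizer of a point of the polytope is generated by the walls through the point. -/
theorem stab (h : Poly e) {x : V4} (h1 : ∀ i, 0 ≤ B x (e i)) {w : W}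
    (hw : app (rho h.toGram w) x = x) :
    w ∈ Subgroup.closure {v : W | ∃ i, B x (e i) = 0 ∧ v = cs.simple i} := by
  induction hn : cs.length w generalizing w with
  | zero => rw [cs.length_eq_zero_iff.1 hn]; exact one_mem _
  | succ n ih =>
    obtain ⟨u, hu⟩ := cs.exists_leftDescent_of_ne_one (w := w) (by
      rintro rfl
      simp at hn)
    have a := t2_wall h h1 (w := w) (by rw [hw]; exact h1) hu
    rw [hw] at a
    rw [← cs.simple_mul_simple_cancel_left (w := w) u]
    refine mul_mem (Subgroup.subset_closure ⟨u, a, rfl⟩) (ih ?_ ?_)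
    · rw [map_mul, app_mul, hw, app_rho_simple, a]
      simp
    · have := cs.isLeftDescent_iff.1 hu
      omega

end Pool.Agent.Lib.MP_99bfa4_al.IR
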