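import Pool.Agent.Lib.MP_99bfa4_al.IR.Fld
import Pool.Agent.Lib.MP_99bfa4_al.IR.Haar

/-! Derivatives of translates under maps that are bounded for the uniform norm. -/

open Matrix MeasureTheory Filter
open scoped ContDiff Topology InnerProductSpace ComplexConjugate

namespace Pool.Agent.Lib.MP_99bfa4_al.IR

/-- Translations on test functions. -/
noncomputable def tauT (g : G) : Test →ₗ[ℂ] Test := (tau g).restrict fun _ => tau_test g

/-- Vector fields on test functions. -/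
noncomputable def fldT (Y : M4) : Test →ₗ[ℂ] Test := (lin fld Y).restrict fun _ => lin_fld_test Y

/-- A linear map that is bounded on functions supported in a fixed ball. -/
def Bdd {E : Type*} [NormedAddCommGroup E] [NormedSpace ℂ E] (Λ : Test →ₗ[ℂ] E) : Prop :=
  ∀ ρ : ℝ, ∃ C : ℝ, ∀ (h : Test) (ε : ℝ), (∀ x, ρ < hx x → h.val.val x = 0) →
    (∀ x, ‖h.val.val x‖ ≤ ε) → ‖Λ h‖ ≤ C * ε

lemma unif_mul (M N : M4) : ‖amb (M * N)‖ ≤ 4 * ‖amb M‖ * ‖amb N‖ := by
  have k : ∀ (Q : M4) i j, |Q i j| ≤ ‖amb Q‖ := fun Q i j =>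
    (norm_le_pi_norm (amb Q i) j).trans (norm_le_pi_norm (amb Q) i)
  rw [pi_norm_le_iff_of_nonneg (by positivity)]
  intro i
  rw [pi_norm_le_iff_of_nonneg (by positivity)]
  intro j
  rw [amb_apply, Matrix.mul_apply, Real.norm_eq_abs]
  refine (Finset.abs_sum_le_sum_abs _ _).trans ((Finset.sum_le_card_nsmul _ _
    (‖amb M‖ * ‖amb N‖) fun a _ => ?_).trans_eq (by simp [mul_assoc]))
  rw [abs_mul]
  exact mul_le_mul (k M i a) (k N a j) (abs_nonneg _) (norm_nonneg _)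

/-- Uniform differentiability on a compact set. -/
lemma unif_diff {F : Amb → ℂ} (hF : ContDiff ℝ ∞ F) {S : Set Amb} (hS : IsCompact S) {ε : ℝ}
    (hε : 0 < ε) : ∃ δ > 0, ∀ a ∈ S, ∀ b, ‖b - a‖ < δ →
      ‖F b - F a - fderiv ℝ F a (b - a)‖ ≤ ε * ‖b - a‖ := by
  have c : Continuous (fderiv ℝ F) := hF.continuous_fderiv (by simp)
  obtain ⟨δ, δ0, hδ⟩ := Metric.mem_uniformity_dist.1 (hS.uniformContinuousAt_of_continuousAt
    (fderiv ℝ F) (fun a _ => c.continuousAt) (Metric.dist_mem_uniformity hε))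
  refine ⟨δ, δ0, fun a ha b hb => ?_⟩
  refine (convex_ball a δ).norm_image_sub_le_of_norm_fderiv_le'
    (fun z _ => hF.differentiable (by simp) z) (fun z hz => ?_) (Metric.mem_ball_self δ0)
    (mem_ball_iff_norm.2 hb)
  have := hδ (Metric.mem_ball'.1 hz) ha
  rw [← dist_eq_norm, dist_comm]
  exact le_of_lt this

lemma unif_est {F : Amb → ℂ} (hF : ContDiff ℝ ∞ F) (ρ : ℝ) {c : ℝ → X} {Y : M4} (hc : Crv c Y)
    {ε : ℝ} (hε : 0 < ε) : ∀ᶠ t in 𝓝 (0 : ℝ), ∀ x ∈ ball ρ,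
      ‖F (mx (x * c t)) - F (mx x) - t • fderiv ℝ F (mx x) (amb (mat x.val * Y))‖ ≤ ε * ‖t‖ := by
  have hS := (isCompact_ball ρ).image continuous_mx
  have cF : Continuous (fderiv ℝ F) := hF.continuous_fderiv (by simp)
  obtain ⟨R, R0, hR⟩ := hS.isBounded.exists_pos_norm_le
  obtain ⟨D, D0, hD⟩ := (hS.image cF).isBounded.exists_pos_norm_le
  have Y0 : 0 < ‖amb Y‖ + 1 := by positivity
  obtain ⟨δ, δ0, hδ⟩ := unif_diff hF hS (ε := ε / 2 / (4 * R * (‖amb Y‖ + 1))) (by positivity)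
  have o := hasDerivAt_iff_isLittleO.1 hc.der
  have e0 : mx (c 0) = amb 1 := by rw [hc.zero]; rfl
  simp only [sub_zero, e0] at o
  have t0 : ∀ᶠ t in 𝓝 (0 : ℝ), ‖t‖ < δ / (4 * R * (‖amb Y‖ + 1)) := by
    filter_upwards [Metric.ball_mem_nhds (0 : ℝ) (show 0 < δ / (4 * R * (‖amb Y‖ + 1)) by
      positivity)] with t ht using mem_ball_zero_iff.1 ht
  filter_upwards [o.def one_pos, o.def (show 0 < ε / 2 / (4 * R * D) by positivity), t0]
    with t h1 h2 h3 x hx'
  have x1 : ‖amb (mat x.val)‖ ≤ R := hR _ ⟨x, hx', rfl⟩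
  have x2 : ‖fderiv ℝ F (mx x)‖ ≤ D := hD _ ⟨_, ⟨x, hx', rfl⟩, rfl⟩
  have e1 : amb (mat (c t).val - 1 - t • Y) = mx (c t) - amb 1 - t • amb Y := by
    rw [map_sub, map_sub, map_smul]
    rfl
  have e2 : mx (x * c t) - mx x = amb (mat x.val * (mat (c t).val - 1)) := by
    rw [Matrix.mul_sub, Matrix.mul_one, map_sub]
    rfl
  have n1 : ‖amb (mat (c t).val - 1)‖ ≤ (‖amb Y‖ + 1) * ‖t‖ := by
    have : amb (mat (c t).val - 1) = t • amb Y + (mx (c t) - amb 1 - t • amb Y) := by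
      rw [map_sub, add_sub_cancel]
      rfl
    rw [this]
    refine (norm_add_le _ _).trans ?_
    rw [norm_smul]
    linarith
  have n2 : ‖mx (x * c t) - mx x‖ ≤ 4 * R * (‖amb Y‖ + 1) * ‖t‖ := by
    rw [e2, mul_assoc (4 * R)]
    exact (unif_mul _ _).trans (by gcongr)
  have n3 := hδ _ ⟨x, hx', rfl⟩ (mx (x * c t)) (n2.trans_lt (by
    rwa [lt_div_iff₀' (by positivity)] at h3))
  have n4 : ‖fderiv ℝ F (mx x) (amb (mat x.val * (mat (c t).val - 1 - t • Y)))‖ ≤
      D * (4 * R * (ε / 2 / (4 * R * D) * ‖t‖)) := by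
    refine (ContinuousLinearMap.le_opNorm _ _).trans (mul_le_mul x2 ((unif_mul _ _).trans ?_)
      (norm_nonneg _) D0.le)
    rw [e1]
    gcongr
  have e3 : F (mx (x * c t)) - F (mx x) - t • fderiv ℝ F (mx x) (amb (mat x.val * Y)) =
      (F (mx (x * c t)) - F (mx x) - fderiv ℝ F (mx x) (mx (x * c t) - mx x)) +
        fderiv ℝ F (mx x) (amb (mat x.val * (mat (c t).val - 1 - t • Y))) := by
    rw [e2, Matrix.mul_sub _ (mat (c t).val - 1), map_sub, map_sub, Matrix.mul_smul, map_smul,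
      map_smul]
    abel
  rw [e3]
  refine (norm_add_le _ _).trans ((add_le_add (n3.trans (mul_le_mul_of_nonneg_left n2
    (by positivity))) n4).trans_eq ?_)
  field_simp
  ring

lemma unif_lin_zero {h : Smooth} {ρ : ℝ} (H : ∀ x, ρ < hx x → h.val x = 0) (Y : M4) (x : X)
    (hx' : ρ < hx x) : (lin fld Y h).val x = 0 := by
  simp only [lin, LinearMap.sum_apply, LinearMap.smul_apply, AddSubmonoidClass.coe_finsetSum,
    Finset.sum_apply, SetLike.val_smul, Pi.smul_apply, fld_zero H _ x hx', smul_zero,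
    Finset.sum_const_zero]

theorem deriv_of_bound {E : Type*} [NormedAddCommGroup E] [NormedSpace ℂ E] {Λ : Test →ₗ[ℂ] E}
    (hΛ : Bdd Λ) {c : ℝ → X} {Y : M4} (hc : Crv c Y) (h : Test) :
    HasDerivAt (fun t => Λ (tauT (rt (c t)) h)) (Λ (fldT Y h)) 0 := by
  obtain ⟨ρ, hρ⟩ := h.property
  obtain ⟨F, hF, hF'⟩ := Smooth.ext' h.val
  obtain ⟨C, hC⟩ := hΛ (4 * max ρ 1)
  have e0 : tauT (rt (c 0)) h = h := Subtype.ext (Subtype.ext (funext fun x => by
    change (tau (rt (c 0)) h.val).val x = _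
    rw [tau_rt, hc.zero, mul_one]))
  have c2 : ∀ᶠ t in 𝓝 (0 : ℝ), hx (c t) < 2 :=
    (continuous_hx.continuousAt.comp hc.continuousAt).eventually (gt_mem_nhds (by
      change hx (c 0) < 2
      rw [hc.zero]
      change ht 1 < 2
      simp))
  rw [hasDerivAt_iff_isLittleO, Asymptotics.isLittleO_iff]
  intro ε hε
  have C0 : 0 < |C| + 1 := by positivity
  filter_upwards [c2, unif_est hF (4 * max ρ 1) hc (div_pos hε C0)] with t h1 h2
  have val : ∀ x, (tauT (rt (c t)) h - h - (t : ℂ) • fldT Y h).val.val x =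
      h.val.val (x * c t) - h.val.val x - (t : ℂ) * (lin fld Y h.val).val x := fun x => by
    rw [← tau_rt]
    rfl
  have m1 := le_max_left ρ 1
  have m2 := le_max_right ρ 1
  have z : ∀ x, 4 * max ρ 1 < hx x →
      (tauT (rt (c t)) h - h - (t : ℂ) • fldT Y h).val.val x = 0 := fun x hx' => by
    have a1 : hx x ≤ 2 * hx (x * c t) * hx (c t) := by
      have := ht_mul_le (x * c t).val (c t).val⁻¹
      rwa [ht_inv, Subgroup.coe_mul, mul_inv_cancel_right] at this
    have a2 : 1 ≤ hx (x * c t) := one_le_ht _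
    rw [val, hρ (x * c t) (by nlinarith), hρ x (by linarith),
      unif_lin_zero hρ Y x (by linarith)]
    simp
  have key := hC _ (ε / (|C| + 1) * ‖t‖) z fun x => by
    by_cases hx' : hx x ≤ 4 * max ρ 1
    · rw [val, ← hF', ← hF', lin_fld_eq hF hF' hc.so, ← Complex.real_smul]
      exact h2 x hx'
    · rw [z x (not_le.1 hx'), norm_zero]
      positivity
  have ms : ∀ a b : Test, Λ (a - b) = Λ a - Λ b := fun a b =>
    eq_sub_of_add_eq ((Λ.map_add _ _).symm.trans (congrArg Λ (sub_add_cancel a b)))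
  rw [ms, ms, map_smul, Complex.coe_smul] at key
  simp only [e0, sub_zero]
  refine key.trans ((mul_le_mul_of_nonneg_right ((le_abs_self C).trans
    (le_add_of_nonneg_right zero_le_one)) (by positivity)).trans_eq ?_)
  field_simp

end Pool.Agent.Lib.MP_99bfa4_al.IR
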